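import Pool.Agent.Lib.MP_465ce1_mp.Cx.PInt

-- part Pool.Agent.Lib.MP_465ce1_mp.Cx.Add
section

/-!
Additivity of the density over separated bumps, and a grid of separated points.
-/

open MeasureTheory Filter Topology
open scoped ContDiff RealInnerProductSpace

namespace Pool.Agent.Lib.MP_465ce1_mp.Cx

namespace Add

theorem far_val {b : E4 → ℝ} {c r ε : ℝ} (hε : 0 < ε) (hb : ∀ x, r < ‖x‖ → b x = c)
    {q x : E4} (h : r * ε < ‖x - q‖) : b (ε⁻¹ • (x - q)) = c := by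
  apply hb
  rw [norm_smul, Real.norm_eq_abs, abs_of_pos (inv_pos.mpr hε), ← div_eq_inv_mul, lt_div_iff₀ hε]
  exact h

theorem far_ev {b : E4 → ℝ} {c r ε : ℝ} (hε : 0 < ε) (hb : ∀ x, r < ‖x‖ → b x = c)
    {q x : E4} (h : r * ε < ‖x - q‖) :
    (fun y => b (ε⁻¹ • (y - q))) =ᶠ[𝓝 x] fun _ => c := by
  have ho : IsOpen {y : E4 | r * ε < ‖y - q‖} :=
    isOpen_lt continuous_const (continuous_id.sub continuous_const).norm
  filter_upwards [ho.mem_nhds h] with y hy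
  exact far_val hε hb hy

theorem sum_ev {b : E4 → ℝ} {c r ε : ℝ} (hε : 0 < ε) (hb : ∀ x, r < ‖x‖ → b x = c)
    (S : Finset E4) {x : E4} (h : ∀ q ∈ S, r * ε < ‖x - q‖) :
    ∀ᶠ y in 𝓝 x, ∑ q ∈ S, (b (ε⁻¹ • (y - q)) - c) = 0 := by
  have h1 : ∀ᶠ y in 𝓝 x, ∀ q ∈ S, b (ε⁻¹ • (y - q)) = c :=
    (Filter.eventually_all_finset S).mpr fun q hq => far_ev hε hb (h q hq)
  filter_upwards [h1] with y hy
  exact Finset.sum_eq_zero fun q hq => by rw [hy q hq, sub_self]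

theorem ball_ev {g χ : E4 → ℝ} {c : ℝ} (hg : ∀ x, ‖x‖ ≤ 3 → g x = c ∧ χ x = 1) {x : E4}
    (hx : ‖x‖ < 3) : ∀ᶠ y in 𝓝 x, g y = c ∧ χ y = 1 := by
  have ho : IsOpen {y : E4 | ‖y‖ < 3} := isOpen_lt continuous_norm continuous_const
  filter_upwards [ho.mem_nhds hx] with y hy
  exact hg y (le_of_lt hy)

/-- The two possible local pictures. -/
theorem cases {g χ b : E4 → ℝ} {c r ε : ℝ} {Z : Finset E4} (hr : 0 < r) (hε : 0 < ε)
    (h1 : 2 * r * ε ≤ 1) (hb : ∀ x, r < ‖x‖ → b x = c)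
    (hg : ∀ x, ‖x‖ ≤ 3 → g x = c ∧ χ x = 1) (hZ : ∀ q ∈ Z, ‖q‖ ≤ 2)
    (hs : ∀ q ∈ Z, ∀ q' ∈ Z, q ≠ q' → 4 * r * ε ≤ ‖q - q'‖) (x : E4) :
    (∃ q0 ∈ Z, (∀ q ∈ Z, q ≠ q0 → r * ε < ‖x - q‖) ∧ g x = c ∧
      χ =ᶠ[𝓝 x] (fun _ => 1) ∧ wsum g b c ε Z =ᶠ[𝓝 x] fun y => b (ε⁻¹ • (y - q0))) ∨
    ((∀ q ∈ Z, r * ε < ‖x - q‖) ∧ wsum g b c ε Z =ᶠ[𝓝 x] g) := by
  classical
  have hre : 0 < r * ε := mul_pos hr hε
  by_cases h : ∃ q0 ∈ Z, ‖x - q0‖ < 2 * r * ε
  · obtain ⟨q0, hq0, hx⟩ := h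
    left
    have hfar : ∀ q ∈ Z, q ≠ q0 → r * ε < ‖x - q‖ := by
      intro q hq hne
      have h2 := hs q hq q0 hq0 hne
      have h3 : ‖q - q0‖ ≤ ‖x - q‖ + ‖x - q0‖ := by
        have : q - q0 = (x - q0) - (x - q) := by abel
        rw [this, add_comm]
        exact norm_sub_le _ _
      nlinarith
    have hx3 : ‖x‖ < 3 := by
      have h2 : ‖x‖ ≤ ‖x - q0‖ + ‖q0‖ := by
        have : x = (x - q0) + q0 := by abel
        conv_lhs => rw [this]
        exact norm_add_le _ _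
      have := hZ q0 hq0
      linarith
    have hev := ball_ev hg hx3
    refine ⟨q0, hq0, hfar, (hg x hx3.le).1, hev.mono fun y hy => hy.2, ?_⟩
    have hev2 := sum_ev hε hb (Z.erase q0)
      (fun q hq => hfar q (Finset.mem_of_mem_erase hq) (Finset.ne_of_mem_erase hq))
    filter_upwards [hev, hev2] with y hy hy2
    simp only [wsum]
    rw [← Finset.add_sum_erase Z _ hq0, hy2, hy.1]
    ring
  · right
    push Not at h
    have hfar : ∀ q ∈ Z, r * ε < ‖x - q‖ := fun q hq => by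
      have := h q hq
      nlinarith
    refine ⟨hfar, ?_⟩
    filter_upwards [sum_ev hε hb Z hfar] with y hy
    simp only [wsum]
    rw [hy, add_zero]

/-- The grid point attached to a multi-index. -/
noncomputable def pt (n : ℕ) (a : Fin 4 → Fin n) : E4 :=
  WithLp.toLp 2 fun i => ((a i : ℕ) : ℝ) / n

theorem pt_apply (n : ℕ) (a : Fin 4 → Fin n) (i : Fin 4) : pt n a i = ((a i : ℕ) : ℝ) / n := rfl

theorem pt_sep {n : ℕ} (hn : 0 < n) {a a' : Fin 4 → Fin n} (h : a ≠ a') :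
    1 / (n : ℝ) ≤ ‖pt n a - pt n a'‖ := by
  obtain ⟨i, hi⟩ := Function.ne_iff.mp h
  have hn' : (0 : ℝ) < n := by exact_mod_cast hn
  have h1 : ‖(pt n a - pt n a') i‖ ≤ ‖pt n a - pt n a'‖ := PiLp.norm_apply_le _ i
  refine le_trans ?_ h1
  rw [PiLp.sub_apply, pt_apply, pt_apply, ← sub_div, Real.norm_eq_abs, abs_div, abs_of_pos hn']
  apply div_le_div_of_nonneg_right _ hn'.le
  have hne : ((a i : ℕ) : ℤ) - ((a' i : ℕ) : ℤ) ≠ 0 := by
    intro h0
    apply hi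
    apply Fin.ext
    omega
  have h2 : (1 : ℤ) ≤ |((a i : ℕ) : ℤ) - ((a' i : ℕ) : ℤ)| := Int.one_le_abs hne
  have h3 : ((1 : ℤ) : ℝ) ≤ ((|((a i : ℕ) : ℤ) - ((a' i : ℕ) : ℤ)| : ℤ) : ℝ) := by exact_mod_cast h2
  simpa using h3

theorem pt_norm {n : ℕ} (hn : 0 < n) (a : Fin 4 → Fin n) : ‖pt n a‖ ≤ 2 := by
  have hn' : (0 : ℝ) < n := by exact_mod_cast hn
  have h1 : ∀ i, ‖pt n a i‖ ^ 2 ≤ 1 := by
    intro i
    rw [pt_apply, Real.norm_eq_abs, sq_abs]
    have h2 : ((a i : ℕ) : ℝ) / n ≤ 1 := by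
      rw [div_le_one hn']
      exact_mod_cast (a i).2.le
    have h3 : 0 ≤ ((a i : ℕ) : ℝ) / n := by positivity
    nlinarith
  rw [EuclideanSpace.norm_eq]
  apply Real.sqrt_le_iff.mpr
  refine ⟨by norm_num, ?_⟩
  calc ∑ i, ‖pt n a i‖ ^ 2 ≤ ∑ _i : Fin 4, (1 : ℝ) := Finset.sum_le_sum fun i _ => h1 i
    _ = 2 ^ 2 := by simp; norm_num

end Add

theorem grid_holds : GridStmt := by
  classical
  intro n hn
  have hn' : (0 : ℝ) < 1 / (n : ℝ) := by positivity
  have hinj : Function.Injective (Add.pt n) := by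
    intro a a' h
    by_contra hne
    have := Add.pt_sep hn hne
    rw [h, sub_self, norm_zero] at this
    linarith
  refine ⟨Finset.univ.image (Add.pt n), ?_, ?_, ?_⟩
  · rw [Finset.card_image_of_injective _ hinj]
    simp
  · intro q hq
    obtain ⟨a, -, rfl⟩ := Finset.mem_image.mp hq
    exact Add.pt_norm hn a
  · intro q hq q' hq' hne
    obtain ⟨a, -, rfl⟩ := Finset.mem_image.mp hq
    obtain ⟨a', -, rfl⟩ := Finset.mem_image.mp hq'
    exact Add.pt_sep hn fun h => hne (by rw [h])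

theorem add_holds (h : LocStmt) : AddStmt := by
  classical
  obtain ⟨-, hD, hD0, -, -, -⟩ := h
  intro g χ b c r ε Z hgs hgp hbs hbp hr hε h1 hb hg hgc hZ hs
  have hc := Add.cases (g := g) (χ := χ) hr hε h1 hb hg hZ hs
  refine ⟨?_, ?_, ?_, ?_, ?_⟩
  · unfold wsum
    refine hgs.add (ContDiff.sum fun q _ => ContDiff.sub ?_ contDiff_const)
    exact hbs.comp ((contDiff_id.sub contDiff_const).const_smul ε⁻¹)
  · intro x
    rcases hc x with ⟨q0, -, -, -, -, hw⟩ | ⟨-, hw⟩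
    · rw [hw.self_of_nhds]; exact hbp _
    · rw [hw.self_of_nhds]; exact hgp _
  · intro x hx
    simp only [wsum]
    rw [Finset.sum_eq_zero, add_zero]
    intro q hq
    have h2 : ‖x‖ ≤ ‖x - q‖ + ‖q‖ := by
      have : x = (x - q) + q := by abel
      conv_lhs => rw [this]
      exact norm_add_le _ _
    have h3 := hZ q hq
    have h4 : 0 < r * ε := mul_pos hr hε
    rw [Add.far_val hε hb (by nlinarith), sub_self]
  · intro x
    rcases hc x with ⟨q0, hq0, hfar, hgx, -, hw⟩ | ⟨hfar, hw⟩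
    · rw [hw.self_of_nhds, ← Finset.add_sum_erase Z _ hq0, Finset.sum_eq_zero, hgx]
      · ring
      · intro q hq
        rw [Add.far_val hε hb (hfar q (Finset.mem_of_mem_erase hq) (Finset.ne_of_mem_erase hq)),
          sub_self]
    · rw [hw.self_of_nhds, Finset.sum_eq_zero, add_zero]
      intro q hq
      rw [Add.far_val hε hb (hfar q hq), sub_self]
  · rintro μ ⟨x, ξ⟩
    have hzero : ∀ q : E4, r * ε < ‖x - q‖ →
        Dens (fun y => b (ε⁻¹ • (y - q))) (fun _ => 1) μ (x, ξ) -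
          Dens (fun _ => c) (fun _ => 1) μ (x, ξ) = 0 := by
      intro q hq
      rw [hD _ _ _ _ μ x ξ (Add.far_ev hε hb hq) (EventuallyEq.refl _ (fun _ => (1 : ℝ))), sub_self]
    rcases hc x with ⟨q0, hq0, hfar, -, hχ, hw⟩ | ⟨hfar, hw⟩
    · rw [← Finset.add_sum_erase Z _ hq0, Finset.sum_eq_zero, hD _ _ _ _ μ x ξ hw hχ,
        hD (fun _ => c) _ _ _ μ x ξ (EventuallyEq.refl _ _) hχ]
      · ring
      · intro q hq
        exact hzero q (hfar q (Finset.mem_of_mem_erase hq) (Finset.ne_of_mem_erase hq))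
    · rw [Finset.sum_eq_zero fun q hq => hzero q (hfar q hq), add_zero]
      rcases hgc x with hx | hx
      · exact hD _ _ _ _ μ x ξ (hw.trans hx) (EventuallyEq.refl _ _)
      · rw [hD _ _ _ _ μ x ξ (EventuallyEq.refl _ (wsum g b c ε Z)) hx,
          hD _ _ _ _ μ x ξ (EventuallyEq.refl _ (fun _ => c)) hx, hD0, hD0]

end Pool.Agent.Lib.MP_465ce1_mp.Cx
end

-- part Pool.Agent.Lib.MP_465ce1_mp.Cx.Aff
section

/-!
Covariance of the phase space density under translations and dilations.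
-/

open MeasureTheory Filter Topology
open scoped ContDiff RealInnerProductSpace

namespace Pool.Agent.Lib.MP_465ce1_mp.Cx

namespace Aff

/-- Rescaling of a function. -/
noncomputable def sc (ε : ℝ) (q : E4) (a : ℝ) (f : E4 → ℝ) : E4 → ℝ :=
  fun x => a * f (ε⁻¹ • (x - q))

variable {ε : ℝ} {q : E4}

theorem dd_sc (a : ℝ) (f : E4 → ℝ) (e : E4) :
    dd e (sc ε q a f) = sc ε q (a * ε⁻¹) (dd e f) := by
  funext x
  have h1 : sc ε q a f = a • fun x => (fun y => f (ε⁻¹ • y)) (x - q) := rfl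
  have h2 : fderiv ℝ (fun x => (fun y => f (ε⁻¹ • y)) (x - q)) x =
      fderiv ℝ (fun y => f (ε⁻¹ • y)) (x - q) :=
    fderiv_comp_sub (f := fun y => f (ε⁻¹ • y)) q
  simp only [dd]
  rw [h1, fderiv_const_smul_field, Pi.smul_apply, h2, fderiv_comp_smul]
  simp [sc, dd, mul_assoc]

theorem dd_smul (c : ℝ) (e : E4) (f : E4 → ℝ) (x : E4) : dd (c • e) f x = c * dd e f x := by
  simp [dd]

theorem dd_sc' (hε : ε ≠ 0) (a : ℝ) (f : E4 → ℝ) (ξ : E4) :
    dd ξ (sc ε q a f) = sc ε q (a * (ε ^ 2)⁻¹) (dd (ε • ξ) f) := by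
  rw [dd_sc]
  funext x
  simp only [sc, dd_smul]
  field_simp

theorem lap_sc (a : ℝ) (f : E4 → ℝ) :
    lap (sc ε q a f) = sc ε q (a * (ε ^ 2)⁻¹) (lap f) := by
  funext x
  simp only [lap, dd_sc, sc, Finset.mul_sum]
  refine Finset.sum_congr rfl fun i _ => ?_
  rw [mul_assoc a, ← mul_inv, sq]

theorem DD_sc (hε : 0 < ε) (b : E4 → ℝ) (μ : ℝ) (ξ x : E4) :
    DD (fun x => b (ε⁻¹ • (x - q))) μ ξ x =
      (ε ^ 2)⁻¹ * DD b (ε ^ 2 * μ) (ε • ξ) (ε⁻¹ • (x - q)) := by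
  simp only [DD, norm_smul, Real.norm_eq_abs, abs_of_pos hε]
  field_simp

theorem div_sc (ε a u D : ℝ) : a * u / ((ε ^ 2)⁻¹ * D) = a * ε ^ 2 * (u / D) := by
  rw [div_eq_mul_inv, div_eq_mul_inv, mul_inv, inv_inv]
  ring

theorem par_sc (hε : 0 < ε) (b : E4 → ℝ) (μ : ℝ) (ξ : E4) (a : ℝ) (g : ℕ → E4 → ℝ) (k : ℕ) :
    par (fun x => b (ε⁻¹ • (x - q))) μ ξ (fun k => sc ε q a (g k)) k =
      sc ε q (a * ε ^ 2) (par b (ε ^ 2 * μ) (ε • ξ) g k) := by
  have e : a * ε ^ 2 * (ε ^ 2)⁻¹ = a := by field_simp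
  induction k using Nat.twoStepInduction with
  | zero =>
    funext x
    simp only [par, DD_sc hε, sc, div_sc]
  | one =>
    have h0 : par (fun x => b (ε⁻¹ • (x - q))) μ ξ (fun k => sc ε q a (g k)) 0 =
        sc ε q (a * ε ^ 2) (par b (ε ^ 2 * μ) (ε • ξ) g 0) := by
      funext x
      simp only [par, DD_sc hε, sc, div_sc]
    funext x
    rw [par, h0, dd_sc' hε.ne', e]
    simp only [sc, DD_sc hε]
    conv_rhs => rw [par]
    rw [← div_sc]
    congr 1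
    ring
  | more k h0 h1 =>
    funext x
    rw [par, h0, h1, dd_sc' hε.ne', lap_sc, e]
    simp only [sc, DD_sc hε]
    rw [par, ← div_sc]
    congr 1
    ring

theorem sym_sc (hε : 0 < ε) (b : E4 → ℝ) (μ : ℝ) (ξ : E4) (m : ℕ) :
    sym (fun x => b (ε⁻¹ • (x - q))) μ ξ m =
      fun k => sc ε q ((ε ^ 2) ^ m) (sym b (ε ^ 2 * μ) (ε • ξ) m k) := by
  induction m with
  | zero =>
    funext k x
    simp [sym, sc]
  | succ m ih =>
    funext k
    rw [sym, ih, par_sc hε, sym, pow_succ _ m]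

theorem tri_sc (hε : 0 < ε) (b : E4 → ℝ) (μ : ℝ) (ξ : E4) :
    tri (fun x => b (ε⁻¹ • (x - q))) (fun _ => 1) μ ξ =
      (sc ε q ((ε ^ 2) ^ 4) (tri b (fun _ => 1) (ε ^ 2 * μ) (ε • ξ)).1,
        sc ε q ((ε ^ 2) ^ 4) (tri b (fun _ => 1) (ε ^ 2 * μ) (ε • ξ)).2) := by
  refine Prod.ext ?_ ?_
  · funext x
    simp only [tri, PP, sym_sc hε, sc]
    ring
  · funext x
    simp only [tri, QQ, sym_sc hε, sc]
    ring

theorem Bop_sc (hε : 0 < ε) (b : E4 → ℝ) (μ : ℝ) (ξ : E4) (a : ℝ) (p : Pr) :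
    Bop (fun x => b (ε⁻¹ • (x - q))) μ ξ (sc ε q a p.1, sc ε q a p.2) =
      (sc ε q (a * (ε ^ 2)⁻¹) (Bop b (ε ^ 2 * μ) (ε • ξ) p).1,
        sc ε q (a * (ε ^ 2)⁻¹) (Bop b (ε ^ 2 * μ) (ε • ξ) p).2) := by
  refine Prod.ext ?_ ?_
  · funext x
    simp only [Bop, dd_sc' hε.ne', lap_sc, DD_sc hε, sc]
    ring
  · funext x
    simp only [Bop, dd_sc' hε.ne', lap_sc, DD_sc hε, sc]
    ring

theorem iter_sc (hε : 0 < ε) (b : E4 → ℝ) (μ : ℝ) (ξ : E4) (a : ℝ) (p : Pr) (n : ℕ) :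
    (Bop (fun x => b (ε⁻¹ • (x - q))) μ ξ)^[n] (sc ε q a p.1, sc ε q a p.2) =
      (sc ε q (a * (ε ^ 2)⁻¹ ^ n) ((Bop b (ε ^ 2 * μ) (ε • ξ))^[n] p).1,
        sc ε q (a * (ε ^ 2)⁻¹ ^ n) ((Bop b (ε ^ 2 * μ) (ε • ξ))^[n] p).2) := by
  induction n with
  | zero => simp
  | succ n ih =>
    rw [Function.iterate_succ_apply', ih, Bop_sc hε, Function.iterate_succ_apply', pow_succ _ n,
      mul_assoc]

theorem Dens_sc (hε : 0 < ε) (b : E4 → ℝ) (μ : ℝ) (z : E4 × E4) :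
    Dens (fun x => b (ε⁻¹ • (x - q))) (fun _ => 1) μ z =
      ε ^ 8 * Dens b (fun _ => 1) (ε ^ 2 * μ) (ε⁻¹ • (z.1 - q), ε • z.2) := by
  have e : (ε ^ 2) ^ 4 * (ε ^ 2)⁻¹ ^ 4 = 1 := by field_simp
  rw [Dens, tri_sc hε, den, iter_sc hε, e]
  simp only [Dens, den, sc]
  ring

/-- The change of variables on phase space. -/
noncomputable def Phi (hε : ε ≠ 0) (q : E4) : E4 × E4 ≃ₜ E4 × E4 :=
  Homeomorph.prodCongr ((Homeomorph.subRight q).trans (Homeomorph.smulOfNeZero ε⁻¹ (inv_ne_zero hε)))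
    (Homeomorph.smulOfNeZero ε hε)

theorem Phi_pres (hε : ε ≠ 0) (q : E4) : MeasurePreserving (Phi hε q) volume volume := by
  refine ⟨(Phi hε q).continuous.measurable, ?_⟩
  have h0 : (Phi hε q : E4 × E4 → E4 × E4) =
      Prod.map ((fun y : E4 => ε⁻¹ • y) ∘ fun x => x - q) fun y : E4 => ε • y := rfl
  have m1 : Measurable fun y : E4 => ε⁻¹ • y := by fun_prop
  have m2 : Measurable fun x : E4 => x - q := by fun_prop
  have m3 : Measurable fun y : E4 => ε • y := by fun_prop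
  rw [h0, Measure.volume_eq_prod, ← Measure.map_prod_map _ _ (m1.comp m2) m3,
    ← Measure.map_map m1 m2, map_sub_right_eq_self, Measure.map_addHaar_smul _ (inv_ne_zero hε),
    Measure.map_addHaar_smul _ hε, Measure.prod_smul_left, Measure.prod_smul_right, smul_smul,
    ← ENNReal.ofReal_mul (abs_nonneg _), ← abs_mul, ← mul_inv, ← mul_pow, inv_mul_cancel₀ hε]
  simp

end Aff

open Aff in
theorem aff_holds : AffStmt := by
  intro b c μ ε q _ _ _ _ hε hi
  have h : (fun z => Dens (fun x => b (ε⁻¹ • (x - q))) (fun _ => 1) μ z -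
      Dens (fun _ => c) (fun _ => 1) μ z) = fun z => ε ^ 8 *
        ((fun z => Dens b (fun _ => 1) (ε ^ 2 * μ) z -
          Dens (fun _ => c) (fun _ => 1) (ε ^ 2 * μ) z) (Phi hε.ne' q z)) := by
    funext z
    have h1 := Dens_sc (q := q) hε b μ z
    have h2 := Dens_sc (q := q) hε (fun _ => c) μ z
    rw [h1, h2, ← mul_sub]
    rfl
  have hp := Phi_pres hε.ne' q
  have hm := (Phi hε.ne' q).measurableEmbedding
  rw [h]
  refine ⟨((hp.integrable_comp_emb hm).2 hi).const_mul _, ?_⟩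
  rw [integral_const_mul]
  exact congrArg _ (hp.integral_comp hm fun z => Dens b (fun _ => 1) (ε ^ 2 * μ) z -
    Dens (fun _ => c) (fun _ => 1) (ε ^ 2 * μ) z)

end Pool.Agent.Lib.MP_465ce1_mp.Cx
end

-- part Pool.Agent.Lib.MP_465ce1_mp.Cx.Antip
section

/-!
Invariance of smoothness, energy and volume under the antipodal map.
-/

open MeasureTheory Filter Topology Set
open scoped ContDiff Pointwise

namespace Pool.Agent.Lib.MP_465ce1_mp.Cx

namespace Antip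

/-- The antipodal map as a homeomorphism. -/
noncomputable def neg : Sph 4 ≃ₜ Sph 4 where
  toFun := fun y => -y
  invFun := fun y => -y
  left_inv := fun y => neg_neg y
  right_inv := fun y => neg_neg y
  continuous_toFun := continuous_neg
  continuous_invFun := continuous_neg

theorem preserving : MeasurePreserving neg (vol 4) (vol 4) := by
  refine ⟨neg.continuous.measurable, Measure.ext fun s hs => ?_⟩
  rw [Measure.map_apply neg.continuous.measurable hs, vol,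
    Measure.toSphere_apply' _ (neg.continuous.measurable hs), Measure.toSphere_apply' _ hs,
    ← Measure.measure_neg volume (Ioo (0 : ℝ) 1 • (Subtype.val '' s))]
  congr 2
  ext y
  simp only [Set.mem_neg, Set.mem_smul, mem_image, mem_preimage]
  constructor
  · rintro ⟨r, hr, _, ⟨z, hz, rfl⟩, rfl⟩
    exact ⟨r, hr, _, ⟨neg z, hz, rfl⟩, by simp [neg]⟩
  · rintro ⟨r, hr, _, ⟨z, hz, rfl⟩, h⟩
    refine ⟨r, hr, _, ⟨-z, by simpa [neg] using hz, rfl⟩, ?_⟩
    rw [← neg_neg y, ← h]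
    simp

theorem integral_neg (f : Sph 4 → ℝ) : ∫ x, f (-x) ∂vol 4 = ∫ x, f x ∂vol 4 :=
  preserving.integral_comp neg.measurableEmbedding f

theorem ext_neg (u : Sph 4 → ℝ) : ext (fun y => u (-y)) = fun y => ext u (-y) := by
  funext y
  by_cases h : y = 0
  · simp [ext, h]
  · have h' : -y ≠ 0 := neg_ne_zero.2 h
    simp only [ext, dif_neg h, dif_neg h']
    congr 1
    apply Subtype.ext
    simp

theorem smooth_neg {u : Sph 4 → ℝ} (hu : IsSmooth u) : IsSmooth fun y => u (-y) := by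
  rw [IsSmooth, ext_neg]
  exact ContDiffOn.comp hu contDiff_neg.contDiffOn fun y hy => by simpa using hy

theorem norm_fderiv_neg (g : EuclideanSpace ℝ (Fin (4 + 1)) → ℝ)
    (x : EuclideanSpace ℝ (Fin (4 + 1))) :
    ‖fderiv ℝ (fun y => g (-y)) x‖ = ‖fderiv ℝ g (-x)‖ := by
  have h := (ContinuousLinearEquiv.neg ℝ (M := EuclideanSpace ℝ (Fin (4 + 1)))).comp_right_fderiv
    (f := g) (x := x)
  have h2 : (fderiv ℝ g (-x)).comp
      ((ContinuousLinearEquiv.neg ℝ (M := EuclideanSpace ℝ (Fin (4 + 1)))) :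
        EuclideanSpace ℝ (Fin (4 + 1)) →L[ℝ] EuclideanSpace ℝ (Fin (4 + 1))) =
      -fderiv ℝ g (-x) := by
    ext v
    simp
  have h3 : fderiv ℝ (fun y => g (-y)) x = -fderiv ℝ g (-x) := h.trans h2
  rw [h3, norm_neg]

theorem energy_neg (u : Sph 4 → ℝ) : energy (fun y => u (-y)) = energy u := by
  unfold energy
  rw [← integral_neg fun x => ‖fderiv ℝ (ext u) (x : EuclideanSpace ℝ (Fin (4 + 1)))‖ ^ 2
    + ((4 : ℕ) / 2 : ℝ) * ((4 : ℕ) / 2 - 1) * u x ^ 2, ext_neg]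
  simp only [norm_fderiv_neg, coe_neg_sphere]

end Antip

theorem antip_holds : AntipStmt := by
  intro b
  cases b with
  | false => exact ⟨fun u hu => ⟨hu, rfl⟩, fun f _ => rfl⟩
  | true =>
    exact ⟨fun u hu => ⟨Antip.smooth_neg hu, Antip.energy_neg u⟩, fun f _ => Antip.integral_neg f⟩

end Pool.Agent.Lib.MP_465ce1_mp.Cx
end

-- part Pool.Agent.Lib.MP_465ce1_mp.Cx.Bg
section

/-!
Flat weights that are round near infinity, and the background weight.
-/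

open MeasureTheory Filter Topology
open scoped ContDiff

namespace Pool.Agent.Lib.MP_465ce1_mp.Cx

namespace Bg

/-- The compactly supported part of the weight. -/
noncomputable def vv (w : E4 → ℝ) (K : ℝ) (x : E4) : ℝ := rho x * (w x ^ 3 * rho x - K)

lemma amb_ne (w : E4 → ℝ) (K : ℝ) (z : Euc (4 + 1)) (hz : ‖z‖ ≠ z (Fin.last 4)) :
    K + Back.amb (vv w K) z = w (Back.prj z) ^ 3 * rho (Back.prj z) := by
  have hr := rho_pos (Back.prj z)
  have he : (1 - ((4 : ℕ) : ℝ) / 2) = -1 := by norm_num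
  unfold Back.amb
  rw [if_neg hz, he, Real.rpow_neg_one]
  unfold vv
  field_simp
  ring

lemma amb_pos {w : E4 → ℝ} {K : ℝ} (hw : ∀ x, 0 < w x) (hK : 0 < K) (z : Euc (4 + 1)) :
    0 < K + Back.amb (vv w K) z := by
  by_cases hz : ‖z‖ = z (Fin.last 4)
  · unfold Back.amb
    rw [if_pos hz, add_zero]
    exact hK
  · rw [amb_ne w K z hz]
    exact mul_pos (pow_pos (hw _) 3) (rho_pos _)

lemma amb_sig (w : E4 → ℝ) (K : ℝ) (x : E4) :
    K + Back.amb (vv w K) (sigA x) = w x ^ 3 * rho x := by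
  have hρ := rho_pos x
  have hne : ‖sigA x‖ ≠ sigA x (Fin.last 4) := by
    rw [norm_sigA, Fwd.sigA_last]
    linarith
  rw [amb_ne w K _ hne, Back.prj_sigA]

lemma int_rho4 : Integrable fun x : E4 => rho x ^ 4 := by
  refine Fwd.integrable_of_le le_rfl (Fwd.contDiff_rho.continuous.pow 4) 2 fun x => ?_
  have h1 := rho_pos x
  have h2 := rho_le_two x
  have h3 := norm_nonneg x
  have h4 : 0 < rho x ^ 3 := pow_pos h1 3
  rw [abs_of_pos (pow_pos h1 4)]
  calc rho x ^ 4 = rho x * (rho x ^ 3 * 1) := by ring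
    _ ≤ 2 * (rho x ^ 3 * (1 + ‖x‖)) := by gcongr; linarith

lemma vol_ball {r : ℝ} (hr : 0 ≤ r) : (volume : Measure E4).real (Metric.closedBall 0 r) =
    r ^ 4 * (volume : Measure E4).real (Metric.closedBall 0 1) := by
  rw [Measure.addHaar_real_closedBall' volume 0 hr, finrank_euclideanSpace_fin]

lemma int_ind (r a : ℝ) :
    Integrable ((Metric.closedBall (0 : E4) r).indicator fun _ => a) :=
  (integrable_indicator_iff Metric.isClosed_closedBall.measurableSet).2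
    (integrableOn_const (isCompact_closedBall (0 : E4) r).measure_lt_top.ne)

lemma upper {g : E4 → ℝ} {c K R : ℝ} (hc : 0 < c) (hR : 0 ≤ R) (hg0 : ∀ x, 0 < g x)
    (hgc : ∀ x, c ^ 3 ≤ g x ^ 3) (hout : ∀ x, R < ‖x‖ → g x ^ 3 * rho x = K)
    (hint : Integrable fun x => 1 / g x ^ 12) :
    ∫ x, 1 / g x ^ 12 ≤ R ^ 4 * (volume : Measure E4).real (Metric.closedBall 0 1) / c ^ 12 +
      (∫ x : E4, rho x ^ 4) / K ^ 4 := by
  have h1 : ∫ x, 1 / g x ^ 12 ≤ ∫ x, ((Metric.closedBall (0 : E4) R).indicator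
      (fun _ => 1 / c ^ 12) x + rho x ^ 4 / K ^ 4) := by
    refine integral_mono hint ((int_ind _ _).add (int_rho4.div_const _)) fun x => ?_
    have hr := rho_pos x
    have h12 : ∀ a : ℝ, a ^ 12 = (a ^ 3) ^ 4 := fun a => by ring
    by_cases hx : x ∈ Metric.closedBall (0 : E4) R
    · simp only [Set.indicator_of_mem hx]
      have h2 : 1 / g x ^ 12 ≤ 1 / c ^ 12 := by
        refine one_div_le_one_div_of_le (pow_pos hc 12) ?_
        rw [h12 c, h12 (g x)]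
        exact pow_le_pow_left₀ (pow_pos hc 3).le (hgc x) 4
      have h3 : 0 ≤ rho x ^ 4 / K ^ 4 := by positivity
      linarith
    · simp only [Set.indicator_of_notMem hx, zero_add]
      rw [mem_closedBall_zero_iff, not_le] at hx
      have h2 := (hg0 x).ne'
      rw [← hout x hx]
      refine le_of_eq ?_
      field_simp
  rw [integral_add (int_ind _ _) (int_rho4.div_const _), integral_div,
    integral_indicator_const _ Metric.isClosed_closedBall.measurableSet,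
    vol_ball hR, smul_eq_mul, mul_one_div] at h1
  exact h1

lemma lower (χ : ContDiffBump (0 : E4)) :
    χ.rIn ^ 4 * (volume : Measure E4).real (Metric.closedBall 0 1) ≤
      ∫ x, (2 * χ x - χ x ^ 2) := by
  have h1 : ∫ x, (Metric.closedBall (0 : E4) χ.rIn).indicator (fun _ => (1 : ℝ)) x ≤
      ∫ x, (2 * χ x - χ x ^ 2) := by
    refine integral_mono (int_ind _ _) ?_ fun x => ?_
    · refine Continuous.integrable_of_hasCompactSupport
        ((continuous_const.mul χ.continuous).sub (χ.continuous.pow 2)) ?_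
      refine HasCompactSupport.intro (isCompact_closedBall (0 : E4) χ.rOut) fun x hx => ?_
      rw [Metric.mem_closedBall, not_le] at hx
      rw [χ.zero_of_le_dist hx.le]
      ring
    · by_cases hx : x ∈ Metric.closedBall (0 : E4) χ.rIn
      · simp only [Set.indicator_of_mem hx, χ.one_of_mem_closedBall hx]
        norm_num
      · simp only [Set.indicator_of_notMem hx]
        have h2 : 0 ≤ χ x := χ.nonneg
        have h3 : χ x ≤ 1 := χ.le_one
        nlinarith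
  rw [integral_indicator_const _ Metric.isClosed_closedBall.measurableSet,
    vol_ball χ.rIn_pos.le, smul_eq_mul, mul_one] at h1
  exact h1

end Bg

open Pool.Agent.Lib.MP_465ce1_mp.Cx.Bg in
theorem sphereOf_holds : SphereOfStmt := by
  intro w K R hw hpos hK hR
  have hv : ContDiff ℝ ∞ (vv w K) :=
    Fwd.contDiff_rho.mul (((hw.pow 3).mul Fwd.contDiff_rho).sub contDiff_const)
  have hs : HasCompactSupport (vv w K) := by
    refine HasCompactSupport.intro (isCompact_closedBall (0 : E4) R) fun x hx => ?_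
    rw [mem_closedBall_zero_iff, not_le] at hx
    unfold vv
    rw [hR x hx, sub_self, mul_zero]
  set W : Sph 4 → ℝ := fun y => 1 / (K + Back.amb (vv w K) y) ^ 2 with hW
  have hsm : IsSmooth W := by
    intro z hz
    have hz0 : z ≠ 0 := hz
    have h1 : ContDiffAt ℝ ∞ (fun y => 1 / (K + Back.amb (vv w K) y) ^ 2) z :=
      contDiffAt_const.div ((contDiffAt_const.add (Back.contDiffAt_amb _ hv hs z hz0)).pow 2)
        (pow_pos (amb_pos hpos hK z) 2).ne'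
    have h2 : ∀ y : Euc (4 + 1), y ≠ 0 → ext W y = 1 / (K + Back.amb (vv w K) y) ^ 2 := by
      intro y hy
      unfold ext
      rw [dif_neg hy]
      simp only [hW]
      rw [Back.amb_smul _ (inv_pos.mpr (norm_pos_iff.mpr hy)) y]
    exact h1.contDiffWithinAt.congr (fun y hy => h2 y hy) (h2 z hz0)
  have hsig : ∀ x, W (sig x) = 1 / (w x ^ 3 * rho x) ^ 2 := fun x => by
    rw [← amb_sig]
    rfl
  have hsq : ∀ x, W (sig x) ^ 2 * rho x ^ 4 = 1 / w x ^ 12 := fun x => by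
    have h1 := (rho_pos x).ne'
    have h2 := (hpos x).ne'
    rw [hsig]
    field_simp
  refine ⟨W, hsm, fun y => div_pos one_pos (pow_pos (amb_pos hpos hK _) 2), fun x => ?_, ?_, ?_⟩
  · have h1 := (rho_pos x).ne'
    have h2 := (hpos x).ne'
    rw [VV, hsig]
    field_simp
  · obtain ⟨C, -, hC⟩ := Fwd.bound ((Fwd.cont_u hsm).pow 2)
    refine (int_rho4.const_mul C).mono' ?_ (Eventually.of_forall fun x => ?_)
    · exact (continuous_const.div (hw.continuous.pow 12)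
        fun x => (pow_pos (hpos x) 12).ne').aestronglyMeasurable
    · rw [← hsq, Real.norm_eq_abs, abs_mul, abs_of_pos (pow_pos (rho_pos x) 4)]
      exact mul_le_mul_of_nonneg_right (hC (sig x)) (pow_pos (rho_pos x) 4).le
  · rw [meas_pos 4 (by norm_num) (fun x => W x ^ 2) ((Fwd.cont_u hsm).pow 2)]
    exact integral_congr_ae (Eventually.of_forall hsq)

open Pool.Agent.Lib.MP_465ce1_mp.Cx.Bg in
theorem bg_holds : BgStmt := by
  intro c η hc hη
  set V : ℝ := (volume : Measure E4).real (Metric.closedBall 0 1) with hV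
  set I : ℝ := ∫ x : E4, rho x ^ 4 with hI
  have hI0 : 0 ≤ I := integral_nonneg fun x => (pow_pos (rho_pos x) 4).le
  have hev : ∀ᶠ h in 𝓝[>] (0 : ℝ), (3 + 3 * h) ^ 4 * V / c ^ 12 < 3 ^ 4 * V / c ^ 12 + η / 2 := by
    refine Eventually.filter_mono nhdsWithin_le_nhds
      (ContinuousAt.eventually_lt (by fun_prop) continuousAt_const ?_)
    rw [mul_zero, add_zero]
    linarith
  obtain ⟨h, hh, h0⟩ := (hev.and self_mem_nhdsWithin).exists
  have h0 : 0 < h := h0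
  set K : ℝ := 2 * c ^ 3 + 1 + 2 * I / η with hK
  have hc3 : 0 < c ^ 3 := pow_pos hc 3
  have hIη : 0 ≤ 2 * I / η := by positivity
  have hK1 : 1 ≤ K := by linarith
  have hK0 : 0 < K := by linarith
  have hIK : I / K ^ 4 ≤ η / 2 := by
    have h1 : K ≤ K ^ 4 := le_self_pow₀ hK1 (by norm_num)
    have h2 : 2 * I / η ≤ K ^ 4 := by linarith
    rw [div_le_iff₀ hη] at h2
    rw [div_le_iff₀ (by positivity)]
    linarith
  let χ : ContDiffBump (0 : E4) := ⟨3, 3 + h, by norm_num, by linarith⟩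
  let θ : ContDiffBump (0 : E4) := ⟨3 + 2 * h, 3 + 3 * h, by linarith, by linarith⟩
  set G : E4 → ℝ := fun x => θ x * c ^ 3 + (1 - θ x) * (K / rho x) with hG
  have hGs : ContDiff ℝ ∞ G :=
    (θ.contDiff.mul contDiff_const).add ((contDiff_const.sub θ.contDiff).mul
      (contDiff_const.div Fwd.contDiff_rho fun x => (rho_pos x).ne'))
  have hGc : ∀ x, c ^ 3 ≤ G x := fun x => by
    have h1 : c ^ 3 ≤ K / rho x := by
      rw [le_div_iff₀ (rho_pos x)]
      nlinarith [rho_le_two x]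
    have h2 : 0 ≤ (1 - θ x) * (K / rho x - c ^ 3) :=
      mul_nonneg (sub_nonneg.2 θ.le_one) (sub_nonneg.2 h1)
    simp only [hG]
    linarith
  have hG0 : ∀ x, 0 < G x := fun x => hc3.trans_le (hGc x)
  set g : E4 → ℝ := fun x => G x ^ ((3 : ℕ) : ℝ)⁻¹ with hg
  have hgs : ContDiff ℝ ∞ g := hGs.rpow_const_of_ne fun x => (hG0 x).ne'
  have hg0 : ∀ x, 0 < g x := fun x => Real.rpow_pos_of_pos (hG0 x) _
  have hg3 : ∀ x, g x ^ 3 = G x := fun x => Real.rpow_inv_natCast_pow (hG0 x).le (by norm_num)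
  have hgc : ∀ x : E4, ‖x‖ ≤ 3 + 2 * h → g x = c := fun x hx => by
    have h1 : θ x = 1 := θ.one_of_mem_closedBall (mem_closedBall_zero_iff.2 hx)
    have h2 : G x = c ^ 3 := by simp only [hG, h1]; ring
    simp only [hg, h2]
    exact Real.pow_rpow_inv_natCast hc.le (by norm_num)
  have hχ0 : ∀ x : E4, 3 + h ≤ ‖x‖ → χ x = 0 := fun x hx =>
    χ.zero_of_le_dist (by rw [dist_zero_right]; exact hx)
  have hχ1 : ∀ x : E4, ‖x‖ ≤ 3 → χ x = 1 := fun x hx =>
    χ.one_of_mem_closedBall (mem_closedBall_zero_iff.2 hx)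
  have hout : ∀ x : E4, 3 + 3 * h < ‖x‖ → g x ^ 3 * rho x = K := fun x hx => by
    have h1 : θ x = 0 := θ.zero_of_le_dist (by rw [dist_zero_right]; exact hx.le)
    have h2 := (rho_pos x).ne'
    rw [hg3]
    simp only [hG, h1]
    field_simp
    ring
  obtain ⟨-, -, -, -, hint, -⟩ := sphereOf_holds g K (3 + 3 * h) hgs hg0 hK0 hout
  refine ⟨g, χ, K, 3 + 3 * h, hgs, hg0, χ.contDiff, hK0, by linarith,
    fun x hx => ⟨hgc x (by linarith), hχ1 x hx⟩, fun x hx => ⟨hχ0 x (by linarith), hout x hx⟩,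
    fun x => ?_, hint, ?_⟩
  · by_cases hx : ‖x‖ < 3 + 2 * h
    · left
      filter_upwards [(isOpen_lt continuous_norm continuous_const).mem_nhds hx] with y hy
      exact hgc y (le_of_lt hy)
    · right
      have hx' : 3 + h < ‖x‖ := by linarith [not_lt.1 hx]
      filter_upwards [(isOpen_lt continuous_const continuous_norm).mem_nhds hx'] with y hy
      exact hχ0 y (le_of_lt hy)
  · have hup : ∫ x, 1 / g x ^ 12 ≤ (3 + 3 * h) ^ 4 * V / c ^ 12 + I / K ^ 4 :=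
      upper hc (by linarith) hg0 (fun x => (hg3 x).symm ▸ hGc x) hout hint
    have hlo : 3 ^ 4 * V ≤ ∫ x, (2 * χ x - χ x ^ 2) := lower χ
    have h3 : 3 ^ 4 * V / c ^ 12 ≤ (∫ x, (2 * χ x - χ x ^ 2)) / c ^ 12 :=
      div_le_div_of_nonneg_right hlo (pow_pos hc 12).le
    linarith

end Pool.Agent.Lib.MP_465ce1_mp.Cx
end

-- part Pool.Agent.Lib.MP_465ce1_mp.Cx.Bump
section

/-!
The expansion of the phase space density for one bump.
-/

open MeasureTheory Filter Topology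
open scoped ContDiff RealInnerProductSpace

namespace Pool.Agent.Lib.MP_465ce1_mp.Cx

namespace Bump

theorem sym_zero (w : E4 → ℝ) (μ : ℝ) (ξ : E4) (m : ℕ) (x : E4) :
    sym w μ ξ m 0 x = w x ^ 3 / DD w μ ξ x ^ m := by
  induction m with
  | zero => simp [sym]
  | succ m ih => simp only [sym, par, ih, pow_succ, div_div]

theorem ev_const {b : E4 → ℝ} {c r : ℝ} (h : ∀ x, r < ‖x‖ → b x = c) {x : E4} (hx : r < ‖x‖) :
    b =ᶠ[𝓝 x] fun _ => c := by
  filter_upwards [(isOpen_lt continuous_const continuous_norm).mem_nhds hx] with y hy using h y hy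

theorem out_norm {r : ℝ} {z : E4 × E4}
    (hz : z ∉ Metric.closedBall (0 : E4) r ×ˢ (Set.univ : Set E4)) : r < ‖z.1‖ := by
  simpa using hz

/-- A family that vanishes outside the ball is integrable on phase space. -/
theorem int_all (h2 : HomIntStmt) (n : ℕ) (G : Fam) (r : ℝ) (hG : HomLE (-(n + 5 : ℕ)) G)
    (h0 : ∀ σ : ℝ, 1 ≤ σ → ∀ ξ x, r < ‖x‖ → G ξ σ x = 0) :
    ∃ C : ℝ, ∀ σ : ℝ, 1 ≤ σ → Integrable (fun z : E4 × E4 => G z.2 σ z.1) ∧
      -(C / σ ^ (n + 1)) ≤ ∫ z : E4 × E4, G z.2 σ z.1 := by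
  obtain ⟨C, hC⟩ := h2 n G r hG
  refine ⟨C, fun σ hσ => ?_⟩
  obtain ⟨k1, -, k3⟩ := hC σ hσ
  have hz : ∀ z : E4 × E4, z ∉ Metric.closedBall (0 : E4) r ×ˢ (Set.univ : Set E4) →
      G z.2 σ z.1 = 0 := fun z hz => h0 σ hσ _ _ (out_norm hz)
  refine ⟨k1.integrable_of_forall_notMem_eq_zero hz, ?_⟩
  rw [← setIntegral_eq_integral_of_forall_compl_eq_zero hz]
  have := abs_integral_le_integral_abs (f := fun z : E4 × E4 => G z.2 σ z.1)
    (μ := volume.restrict (Metric.closedBall (0 : E4) r ×ˢ (Set.univ : Set E4)))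
  have h3 := neg_abs_le (∫ z in Metric.closedBall (0 : E4) r ×ˢ (Set.univ : Set E4), G z.2 σ z.1)
  linarith

theorem fubini {F : E4 × E4 → ℝ} (h : Integrable F) : ∫ z, F z = ∫ x, ∫ ξ, F (x, ξ) := by
  rw [Measure.volume_eq_prod] at h ⊢
  exact integral_prod F h

theorem five {f0 f2 f4 f6 g : E4 × E4 → ℝ} (i0 : Integrable f0) (i2 : Integrable f2)
    (i4 : Integrable f4) (i6 : Integrable f6) (ig : Integrable g) :
    ∫ z, (f0 z - f2 z + f4 z - f6 z + g z) =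
      (∫ z, f0 z) - (∫ z, f2 z) + (∫ z, f4 z) - (∫ z, f6 z) + ∫ z, g z := by
  have j2 : Integrable fun z => f0 z - f2 z := i0.sub i2
  have j4 : Integrable fun z => f0 z - f2 z + f4 z := j2.add i4
  have j6 : Integrable fun z => f0 z - f2 z + f4 z - f6 z := j4.sub i6
  rw [integral_add j6 ig, integral_sub j4 i6, integral_add j2 i4, integral_sub i0 i2]

theorem hom_div (h1 : HomKit) {b : E4 → ℝ} (hb : ContDiff ℝ ∞ b) (hp : ∀ x, 0 < b x) {d : ℤ}
    {G : Fam} (hG : HomLE d G) : HomLE d fun ξ σ x => G ξ σ x / b x ^ 3 := by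
  have hs : ContDiff ℝ ∞ fun x => (b x ^ 3)⁻¹ :=
    (hb.pow 3).inv fun x => (pow_pos (hp x) 3).ne'
  have := h1.mul hG (h1.const hs)
  rw [add_zero] at this
  exact this.congr fun ξ σ _ => funext fun x => div_eq_mul_inv _ _

theorem hom_c (h1 : HomKit) {c : ℝ} (hc : 0 < c) :
    HomLE (-8) fun ξ σ _ => 1 / (σ ^ 2 + c ^ 6 * ‖ξ‖ ^ 2) ^ 4 := by
  have k := h1.dinv (w := fun _ => c) contDiff_const fun _ => hc
  have := h1.mul (h1.mul k k) (h1.mul k k)
  refine (h1.mono (by norm_num) this).congr fun ξ σ _ => funext fun x => ?_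
  simp only [DD, one_div, ← inv_pow]
  ring

theorem lead (h5 : WickBase) {b : E4 → ℝ} (hp : ∀ x, 0 < b x) {c μ : ℝ} (hc : 0 < c)
    (hμ : 0 < μ) (x : E4) :
    ∫ ξ : E4, (sym b μ ξ 4 0 x / b x ^ 3 - 1 / (μ + c ^ 6 * ‖ξ‖ ^ 2) ^ 4) =
      Real.pi ^ 2 / (6 * μ ^ 2) * (1 / b x ^ 12 - 1 / c ^ 12) := by
  obtain ⟨i1, e1⟩ := h5 (b x ^ 6) μ 1 (pow_pos (hp x) 6) hμ
  obtain ⟨i2, e2⟩ := h5 (c ^ 6) μ 1 (pow_pos hc 6) hμ
  have hb := (hp x).ne'
  have e : ∀ ξ : E4, sym b μ ξ 4 0 x / b x ^ 3 = 1 / (μ + b x ^ 6 * ‖ξ‖ ^ 2) ^ (1 + 3) := by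
    intro ξ
    rw [sym_zero, DD, div_div, mul_comm, ← div_div, div_self (pow_ne_zero 3 hb)]
  simp only [e]
  rw [integral_sub i1 i2, e1, e2]
  have := hc.ne'
  have := hμ.ne'
  push_cast
  field_simp
  ring

end Bump

open Bump in
theorem bump_holds (h1 : HomKit) (h2 : HomIntStmt) (h3 : ResStmt) (h4 : LocStmt) (h5 : WickBase)
    (h6 : SymStmt) : BumpStmt := by
  intro b c r hb hp hc hr
  obtain ⟨r1, -, r3⟩ := h3 b hb hp
  obtain ⟨l1, l2, -, -, l5, l6⟩ := h4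
  have hsym : ∀ (μ : ℝ) (ξ x : E4) (k : ℕ), r < ‖x‖ → sym b μ ξ 4 k x =
      if k = 0 then c ^ 3 / (μ + c ^ 6 * ‖ξ‖ ^ 2) ^ 4 else 0 := fun μ ξ x k hx => by
    rw [(l1 b (fun _ => c) μ x ξ (ev_const hr hx) 4 k).eq_of_nhds, l5]
  have hc3 : c ^ 3 ≠ 0 := pow_ne_zero 3 hc.ne'
  have hk : ∀ k : ℕ, k ≠ 0 → ∀ σ : ℝ, 1 ≤ σ →
      Integrable fun z : E4 × E4 => sym b (σ ^ 2) z.2 4 k z.1 / b z.1 ^ 3 := fun k hk σ hσ => by
    obtain ⟨C, hC⟩ := int_all h2 3 (fun ξ σ x => sym b (σ ^ 2) ξ 4 k x / b x ^ 3) r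
      (hom_div h1 hb hp (h1.mono (by push_cast; omega) (r1 4 k)))
      fun σ _ ξ x hx => by simp only [hsym _ _ _ _ hx, if_neg hk, zero_div]
    exact (hC σ hσ).1
  obtain ⟨C0, hC0⟩ := int_all h2 3
    (fun ξ σ x => sym b (σ ^ 2) ξ 4 0 x / b x ^ 3 - 1 / (σ ^ 2 + c ^ 6 * ‖ξ‖ ^ 2) ^ 4) r
    (h1.sub (hom_div h1 hb hp (h1.mono (by norm_num) (r1 4 0)))
      (h1.mono (by norm_num) (hom_c h1 hc)))
    fun σ _ ξ x hx => by
      simp only [hsym _ _ _ _ hx, if_true, hr x hx]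
      rw [div_right_comm, div_self hc3, sub_self]
  obtain ⟨C, hC⟩ := int_all h2 10
    (fun ξ σ x => Dens b (fun _ => 1) (σ ^ 2) (x, ξ) - PP b (σ ^ 2) ξ 4 x / b x ^ 3) r
    (h1.mono (by norm_num) r3)
    fun σ hσ ξ x hx => by
      rw [l2 b (fun _ => c) (fun _ => 1) (fun _ => 1) (σ ^ 2) x ξ (ev_const hr hx)
        EventuallyEq.rfl, l6 c (σ ^ 2) _ hc (by positivity)]
      simp only [PP, hsym _ _ _ _ hx, if_true, hr x hx]
      norm_num
      rw [div_right_comm, div_self hc3, one_div, sub_self]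
  refine ⟨C, fun σ hσ => ?_⟩
  have hμ : 0 < σ ^ 2 := by positivity
  obtain ⟨i0, -⟩ := hC0 σ hσ
  obtain ⟨iR, eR⟩ := hC σ hσ
  have i2 := hk 2 (by norm_num) σ hσ
  have i4 := hk 4 (by norm_num) σ hσ
  have i6 := hk 6 (by norm_num) σ hσ
  have e : (fun z : E4 × E4 => Dens b (fun _ => 1) (σ ^ 2) z -
      Dens (fun _ => c) (fun _ => 1) (σ ^ 2) z) = fun z =>
      (sym b (σ ^ 2) z.2 4 0 z.1 / b z.1 ^ 3 - 1 / (σ ^ 2 + c ^ 6 * ‖z.2‖ ^ 2) ^ 4) -
        sym b (σ ^ 2) z.2 4 2 z.1 / b z.1 ^ 3 + sym b (σ ^ 2) z.2 4 4 z.1 / b z.1 ^ 3 -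
        sym b (σ ^ 2) z.2 4 6 z.1 / b z.1 ^ 3 +
        (Dens b (fun _ => 1) (σ ^ 2) (z.1, z.2) - PP b (σ ^ 2) z.2 4 z.1 / b z.1 ^ 3) := by
    funext z
    rw [l6 c (σ ^ 2) z hc hμ]
    simp only [PP]
    ring
  obtain ⟨s2, s4, s6⟩ := h6 b c r (σ ^ 2) hb hp hr hμ
  rw [e]
  refine ⟨(((i0.sub i2).add i4).sub i6).add iR, ?_⟩
  rw [five i0 i2 i4 i6 iR, fubini i0, fubini i2, fubini i4, fubini i6]
  simp only [s2, s4, s6, lead h5 hp hc hμ, integral_const_mul]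
  have p1 : (σ ^ 2) ^ 2 = σ ^ 4 := by ring
  have p2 : (σ ^ 2) ^ 5 = σ ^ 10 := by ring
  rw [p1, p2]
  linarith

end Pool.Agent.Lib.MP_465ce1_mp.Cx
end
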