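import Pool.Agent.Lib.MP_465ce1_mp.Cx.SymA

/-!
The kernel check of one piece.
-/

namespace Pool.Agent.Lib.MP_465ce1_mp.Cx

theorem chkO : pcO.chk = true := by decide +kernel

end Pool.Agent.Lib.MP_465ce1_mp.Cx
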