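import Pool.Agent.Lib.MP_465ce1_mp.Cx.PInt

-- part Pool.Agent.Lib.MP_465ce1_mp.Cx.Cutoff
section

/-! The leading term of the lower bound for a constant coefficient and a cutoff. -/

open MeasureTheory Filter Topology
open scoped ContDiff RealInnerProductSpace

namespace Pool.Agent.Lib.MP_465ce1_mp.Cx

namespace Cutoff

/-- The principal part of the `n`-th iterate. -/
noncomputable def MP (χ : E4 → ℝ) (c : ℝ) (n : ℕ) : Fam := fun ξ σ x =>
  χ x * c ^ 3 * (DD (fun _ => c) (σ ^ 2) ξ x) ^ n * ((DD (fun _ => c) (σ ^ 2) ξ x)⁻¹) ^ 4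

/-- The iterates of the operator on the trial pair. -/
noncomputable def It (χ : E4 → ℝ) (c : ℝ) (n : ℕ) (ξ : E4) (σ : ℝ) : Pr :=
  (Bop (fun _ => c) (σ ^ 2) ξ)^[n] (tri (fun _ => c) χ (σ ^ 2) ξ)

theorem of_eq {d : ℤ} {G G' : Fam} (h : HomLE d G) (e : ∀ ξ σ x, G' ξ σ x = G ξ σ x) :
    HomLE d G' := h.congr fun ξ σ _ => funext (e ξ σ)

theorem hom_pow (h1 : HomKit) {d : ℤ} {G : Fam} (h : HomLE d G) (n : ℕ) :
    HomLE (n * d) (fun ξ σ x => G ξ σ x ^ n) := by
  induction n with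
  | zero => exact of_eq (h1.mono (by simp) (h1.const (f := fun _ => 1) contDiff_const)) (by simp)
  | succ n ih =>
    exact of_eq (h1.mono (le_of_eq (by push_cast; ring)) (h1.mul ih h)) fun _ _ _ => pow_succ _ _

theorem tri_fst (h4 : LocStmt) (χ : E4 → ℝ) (c μ : ℝ) (ξ x : E4) :
    (tri (fun _ => c) χ μ ξ).1 x = χ x * c ^ 3 * ((DD (fun _ => c) μ ξ x)⁻¹) ^ 4 := by
  simp only [tri, PP, DD, h4.2.2.2.2.1]
  simp [div_eq_mul_inv, mul_assoc]

theorem tri_snd (h4 : LocStmt) (χ : E4 → ℝ) (c μ : ℝ) (ξ x : E4) :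
    (tri (fun _ => c) χ μ ξ).2 x = 0 := by
  simp only [tri, QQ, h4.2.2.2.2.1]
  simp

variable {χ : E4 → ℝ} {c : ℝ}

theorem hom_MP (h1 : HomKit) (hχ : ContDiff ℝ ∞ χ) (hc : 0 < c) (n : ℕ) :
    HomLE (2 * n - 8) (MP χ c n) := by
  have a1 : HomLE 0 (fun _ _ => fun x => χ x * c ^ 3) := h1.const (hχ.mul contDiff_const)
  have a2 := hom_pow h1 (h1.dsym (w := fun _ => c) contDiff_const) n
  have a3 := hom_pow h1 (h1.dinv (w := fun _ => c) contDiff_const fun _ => hc) 4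
  exact h1.mono (le_of_eq (by push_cast; ring)) (h1.mul (h1.mul a1 a2) a3)

theorem hom_It (h1 : HomKit) (h4 : LocStmt) (hχ : ContDiff ℝ ∞ χ) (hc : 0 < c) (n : ℕ) :
    HomLE (2 * n - 9) (fun ξ σ x => (It χ c n ξ σ).1 x - MP χ c n ξ σ x) ∧
      HomLE (2 * n - 9) (fun ξ σ => (It χ c n ξ σ).2) := by
  induction n with
  | zero =>
    refine ⟨of_eq (h1.zero _) fun ξ σ x => ?_, of_eq (h1.zero _) fun ξ σ x => ?_⟩
    · simp [It, MP, tri_fst h4]
    · simp [It, tri_snd h4]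
  | succ n ih =>
    obtain ⟨i1, i2⟩ := ih
    have i0 : HomLE (2 * n - 8) (fun ξ σ => (It χ c n ξ σ).1) :=
      of_eq ((h1.mono (by omega) i1).add (hom_MP h1 hχ hc n)) fun ξ σ x => by ring
    have hD := h1.dsym (w := fun _ => c) contDiff_const
    have hs : ∀ ξ σ, It χ c (n + 1) ξ σ = Bop (fun _ => c) (σ ^ 2) ξ (It χ c n ξ σ) :=
      fun ξ σ => Function.iterate_succ_apply' _ _ _
    constructor
    · have b1 : HomLE (2 * (n + 1 : ℕ) - 9) _ := h1.mono (by push_cast; omega) (h1.mul hD i1)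
      have b2 : HomLE (2 * (n + 1 : ℕ) - 9) _ := h1.mono (by push_cast; omega) (h1.lap i0)
      have b3 : HomLE (2 * (n + 1 : ℕ) - 9) _ := h1.mono (by push_cast; omega) (h1.ddxi i2)
      refine of_eq (h1.sub b1 (h1.smul (c ^ 6) (h1.sub b2 (h1.smul 2 b3)))) fun ξ σ x => ?_
      rw [hs]
      simp only [Bop, MP]
      ring
    · have b1 : HomLE (2 * (n + 1 : ℕ) - 9) _ := h1.mono (by push_cast; omega) (h1.mul hD i2)
      have b2 : HomLE (2 * (n + 1 : ℕ) - 9) _ := h1.mono (by push_cast; omega) (h1.lap i2)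
      have b3 : HomLE (2 * (n + 1 : ℕ) - 9) _ := h1.mono (by push_cast; omega) (h1.ddxi i0)
      refine of_eq (h1.sub b1 (h1.smul (c ^ 6) (b2.add (h1.smul 2 b3)))) fun ξ σ x => ?_
      rw [hs]
      simp only [Bop]

/-- The remainder. -/
noncomputable def Rem (χ : E4 → ℝ) (c : ℝ) : Fam := fun ξ σ x =>
  (c ^ 6)⁻¹ * (MP χ c 0 ξ σ x * ((It χ c 4 ξ σ).1 x - MP χ c 4 ξ σ x))

theorem hom_Rem (h1 : HomKit) (h4 : LocStmt) (hχ : ContDiff ℝ ∞ χ) (hc : 0 < c) :
    HomLE (-(4 + 5 : ℕ)) (Rem χ c) :=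
  h1.mono (by norm_num) (h1.smul _ (h1.mul (hom_MP h1 hχ hc 0) (hom_It h1 h4 hχ hc 4).1))

theorem dens_eq (h4 : LocStmt) (hc : 0 < c) {σ : ℝ} (hσ : 0 < σ) (z : E4 × E4) :
    Dens (fun _ => c) χ (σ ^ 2) z =
      (2 * χ z.1 - χ z.1 ^ 2) * (1 / (σ ^ 2 + c ^ 6 * ‖z.2‖ ^ 2) ^ (1 + 3)) - Rem χ c z.2 σ z.1 := by
  have hD : 0 < σ ^ 2 + c ^ 6 * ‖z.2‖ ^ 2 := by positivity
  simp only [Dens, den, Rem, MP, It, tri_fst h4, tri_snd h4, DD]
  field_simp
  ring

end Cutoff

open Cutoff in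
theorem cutoff_holds (h1 : HomKit) (h2 : HomIntStmt) (h4 : LocStmt) (h5 : WickBase) :
    CutoffStmt := by
  intro χ c hχ hs hc
  obtain ⟨r, hr⟩ := hs.isCompact.isBounded.subset_closedBall (0 : E4)
  obtain ⟨C, hC⟩ := h2 4 (Rem χ c) r (hom_Rem h1 h4 hχ hc)
  refine ⟨C, fun σ hσ => ?_⟩
  have hσ0 : 0 < σ := by linarith
  obtain ⟨k1, -, k3⟩ := hC σ hσ
  obtain ⟨w1, w2⟩ := h5 (c ^ 6) (σ ^ 2) 1 (by positivity) (by positivity)
  have hz : ∀ z : E4 × E4, z ∉ Metric.closedBall (0 : E4) r ×ˢ (Set.univ : Set E4) →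
      Rem χ c z.2 σ z.1 = 0 := fun z hz => by
    have : χ z.1 = 0 := by
      by_contra hne
      exact hz ⟨hr (subset_tsupport χ hne), Set.mem_univ _⟩
    simp [Rem, MP, this]
  have hR : Integrable fun z : E4 × E4 => Rem χ c z.2 σ z.1 :=
    (integrableOn_iff_integrable_of_support_subset fun z hne => by
      by_contra h; exact hne (hz z h)).1 k1
  have hRle : ∫ z : E4 × E4, Rem χ c z.2 σ z.1 ≤ C / σ ^ 5 := by
    rw [← setIntegral_eq_integral_of_forall_compl_eq_zero hz]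
    exact (integral_mono k1 k1.abs fun z => le_abs_self _).trans k3
  have hχi : Integrable fun x => 2 * χ x - χ x ^ 2 := by
    refine Continuous.integrable_of_hasCompactSupport
      ((continuous_const.mul hχ.continuous).sub (hχ.continuous.pow 2)) ?_
    refine hs.mono fun x hx => ?_
    intro h0
    exact hx (by simp [h0])
  have hM : Integrable fun z : E4 × E4 =>
      (2 * χ z.1 - χ z.1 ^ 2) * (1 / (σ ^ 2 + c ^ 6 * ‖z.2‖ ^ 2) ^ (1 + 3)) := hχi.mul_prod w1
  have hMi : ∫ z : E4 × E4,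
      (2 * χ z.1 - χ z.1 ^ 2) * (1 / (σ ^ 2 + c ^ 6 * ‖z.2‖ ^ 2) ^ (1 + 3)) =
      Real.pi ^ 2 / (6 * σ ^ 4) * ((∫ x, (2 * χ x - χ x ^ 2)) / c ^ 12) := by
    rw [Measure.volume_eq_prod, integral_prod_mul (fun x => 2 * χ x - χ x ^ 2)
      fun ξ : E4 => 1 / (σ ^ 2 + c ^ 6 * ‖ξ‖ ^ 2) ^ (1 + 3), w2]
    push_cast
    field_simp
    ring
  have he : Dens (fun _ => c) χ (σ ^ 2) = fun z : E4 × E4 =>
      (2 * χ z.1 - χ z.1 ^ 2) * (1 / (σ ^ 2 + c ^ 6 * ‖z.2‖ ^ 2) ^ (1 + 3)) - Rem χ c z.2 σ z.1 :=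
    funext (dens_eq h4 hc hσ0)
  rw [he]
  refine ⟨hM.sub hR, ?_⟩
  rw [integral_sub hM hR, hMi]
  linarith

end Pool.Agent.Lib.MP_465ce1_mp.Cx
end

-- part Pool.Agent.Lib.MP_465ce1_mp.Cx.Final
section

/-!
Many small bumps with negative invariant contradict the upper bound.
-/

open MeasureTheory Filter Topology
open scoped ContDiff RealInnerProductSpace

namespace Pool.Agent.Lib.MP_465ce1_mp.Cx

namespace Final

theorem bump_integrable {b : E4 → ℝ} {c r : ℝ} (hb : ContDiff ℝ ∞ b) (hpos : ∀ x, 0 < b x)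
    (hr : ∀ x, r < ‖x‖ → b x = c) : Integrable fun x => 1 / b x ^ 12 - 1 / c ^ 12 := by
  refine Continuous.integrable_of_hasCompactSupport ?_ ?_
  · exact (continuous_const.div (hb.continuous.pow 12) fun x => (pow_pos (hpos x) 12).ne').sub
      continuous_const
  · refine HasCompactSupport.intro (isCompact_closedBall (0 : E4) r) fun x hx => ?_
    rw [mem_closedBall_zero_iff, not_le] at hx
    rw [hr x hx, sub_self]

theorem aff_integrable {f : E4 → ℝ} (hf : Integrable f) {ε : ℝ} (hε : 0 < ε) (q : E4) :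
    Integrable fun x => f (ε⁻¹ • (x - q)) :=
  (hf.comp_smul (inv_ne_zero hε.ne')).comp_sub_right q

theorem aff_integral (f : E4 → ℝ) {ε : ℝ} (hε : 0 < ε) (q : E4) :
    ∫ x, f (ε⁻¹ • (x - q)) = ε ^ 4 * ∫ x, f x := by
  rw [integral_sub_right_eq_self (fun x => f (ε⁻¹ • x)) q,
    Measure.integral_comp_inv_smul_of_nonneg volume f hε.le, finrank_euclideanSpace_fin,
    smul_eq_mul]

theorem arith {P ε N I X Y η γ J D C M : ℝ} (hP : 0 ≤ P) (hε : 0 < ε) (hN : 0 ≤ N)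
    (hM : N * ε ^ 4 = M) (hη : P * η = M * γ / 2) (h1 : P * I + γ ≤ J)
    (h2 : ε ^ 4 * P * X - ε ^ 5 * C ≤ D) (h3 : Y ≤ X + η)
    (h4 : D + N * (ε ^ 8 * J) ≤ ε ^ 4 * P * (Y + N * (ε ^ 4 * I))) : M * γ / 2 ≤ ε * C := by
  have h5 : N * ε ^ 8 * (P * I + γ) ≤ N * ε ^ 8 * J :=
    mul_le_mul_of_nonneg_left h1 (by positivity)
  have h6 : ε ^ 4 * P * Y ≤ ε ^ 4 * P * (X + η) := mul_le_mul_of_nonneg_left h3 (by positivity)
  have h7 : ε ^ 4 * (N * ε ^ 4 * γ) ≤ ε ^ 4 * (P * η + ε * C) := by nlinarith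
  have h8 := le_of_mul_le_mul_left h7 (by positivity)
  rw [hM, hη] at h8
  linarith

end Final

theorem final_holds (h1 : UpperStmt) (h2 : BumpStmt) (h3 : CutoffStmt) (h4 : BgStmt)
    (h5 : AddStmt) (h6 : GridStmt) (h7 : AffStmt) (_h8 : SphereOfStmt) : FinalStmt := by
  rintro ⟨b, c, r0, hb, hbpos, hc, -, hbc0, hG⟩
  by_contra hR
  set r : ℝ := max r0 1 with hrdef
  have hr1 : 1 ≤ r := le_max_right _ _
  have hr : 0 < r := by linarith
  have hbc : ∀ x, r < ‖x‖ → b x = c := fun x hx => hbc0 x ((le_max_left _ _).trans_lt hx)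
  obtain ⟨Cb, hCb⟩ := h2 b c r hb hbpos hc hbc
  set a : ℝ := -(Real.pi ^ 2 * (6 / 35) * ∫ x, Gd b x) with ha
  have ha0 : 0 < a := by
    have : 0 < Real.pi ^ 2 * (6 / 35) := by positivity
    rw [ha]
    nlinarith
  set s : ℝ := |Cb| / a + 1 with hs
  have hs1 : 1 ≤ s := by
    have : 0 ≤ |Cb| / a := by positivity
    linarith
  have hs0 : 0 < s := by linarith
  set γ : ℝ := a / s ^ 10 - Cb / s ^ 11 with hγ
  have hγ0 : 0 < γ := by
    have e : γ = (a * s - Cb) / s ^ 11 := by rw [hγ]; field_simp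
    have e2 : a * s = |Cb| + a := by rw [hs]; field_simp
    rw [e, e2]
    exact div_pos (by linarith [le_abs_self Cb]) (by positivity)
  set P : ℝ := Real.pi ^ 2 / (6 * s ^ 4) with hP
  have hP0 : 0 < P := by positivity
  set M : ℝ := 1 / (4 * r) ^ 4 with hM
  have hM0 : 0 < M := by positivity
  obtain ⟨g, χ, K, R, hg, hgpos, hχ, hK, hR3, hin, hout, hgerm, hgi, hgb⟩ :=
    h4 c (M * γ / 2 / P) hc (by positivity)
  have hχc : HasCompactSupport χ := by
    refine HasCompactSupport.intro (isCompact_closedBall (0 : E4) R) fun x hx => ?_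
    rw [mem_closedBall_zero_iff, not_le] at hx
    exact (hout x hx).1
  obtain ⟨Cc, hCc⟩ := h3 χ c hχ hχc hc
  obtain ⟨n, hn⟩ := exists_nat_gt (|Cc / s ^ 5| / (4 * r) / (M * γ / 2))
  have hn0 : (0 : ℝ) < n := lt_of_le_of_lt (by positivity) hn
  have hn1 : (1 : ℝ) ≤ n := by
    have : 0 < n := by exact_mod_cast hn0
    exact_mod_cast this
  obtain ⟨Z, hZc, hZ2, hZs⟩ := h6 n (by exact_mod_cast hn0)
  set ε : ℝ := 1 / (4 * r * n) with hε
  have hε0 : 0 < ε := by positivity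
  have hε4 : 4 * r * ε = 1 / n := by rw [hε]; field_simp
  have hε2 : 2 * r * ε ≤ 1 := by
    have : 1 / (n : ℝ) ≤ 1 := by rw [div_le_one hn0]; exact hn1
    linarith
  obtain ⟨hw, hwpos, hwg, hw12, hwD⟩ := h5 g χ b c r ε Z hg hgpos hb hbpos hr hε0 hε2 hbc hin
    hgerm hZ2 fun q hq q' hq' hne => by rw [hε4]; exact hZs q hq q' hq' hne
  set σ : ℝ := s / ε with hσ
  have hσ1 : 1 ≤ σ := by
    have e : σ = s * (4 * r * n) := by rw [hσ, hε]; field_simp
    have e2 : 1 ≤ r * n := one_le_mul_of_one_le_of_one_le hr1 hn1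
    rw [e]
    exact one_le_mul_of_one_le_of_one_le hs1 (by linarith)
  have hσ0 : 0 < σ := by linarith
  have hμ : ε ^ 2 * σ ^ 2 = s ^ 2 := by rw [hσ]; field_simp
  obtain ⟨hJi, hJ⟩ := hCb s hs1
  obtain ⟨hDi, hD⟩ := hCc σ hσ1
  have hA := fun q => h7 b c (σ ^ 2) ε q hb hbpos hc (by positivity) hε0 (by rw [hμ]; exact hJi)
  have hfun : Dens (wsum g b c ε Z) χ (σ ^ 2) = fun z => Dens (fun _ => c) χ (σ ^ 2) z +
      ∑ q ∈ Z, (Dens (fun x => b (ε⁻¹ • (x - q))) (fun _ => 1) (σ ^ 2) z -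
        Dens (fun _ => c) (fun _ => 1) (σ ^ 2) z) := funext (hwD _)
  have hsi := integrable_finsetSum Z fun q _ => (hA q).1
  have hU := h1 hR (wsum g b c ε Z) χ K R (σ ^ 2) hw hwpos hχ hK (by linarith)
    (one_le_pow₀ hσ1) (fun x hx => ⟨(hout x hx).1, by
      rw [hwg x (by linarith)]; exact (hout x hx).2⟩) (by rw [hfun]; exact hDi.add hsi)
  have hbi := Final.bump_integrable hb hbpos hbc
  have hqi := fun q => Final.aff_integrable hbi hε0 q
  have e1 : ∫ z, Dens (wsum g b c ε Z) χ (σ ^ 2) z = (∫ z, Dens (fun _ => c) χ (σ ^ 2) z) +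
      (n : ℝ) ^ 4 * (ε ^ 8 * ∫ z, (Dens b (fun _ => 1) (s ^ 2) z -
        Dens (fun _ => c) (fun _ => 1) (s ^ 2) z)) := by
    rw [hfun, integral_add hDi hsi, integral_finsetSum Z fun q _ => (hA q).1,
      Finset.sum_congr rfl fun q _ => (hA q).2, Finset.sum_const, hZc, hμ, nsmul_eq_mul,
      Nat.cast_pow]
  have e2 : ∫ x, 1 / wsum g b c ε Z x ^ 12 = (∫ x, 1 / g x ^ 12) +
      (n : ℝ) ^ 4 * (ε ^ 4 * ∫ x, (1 / b x ^ 12 - 1 / c ^ 12)) := by
    simp only [hw12]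
    rw [integral_add hgi (integrable_finsetSum Z fun q _ => hqi q),
      integral_finsetSum Z fun q _ => hqi q,
      Finset.sum_congr rfl fun q _ =>
        Final.aff_integral (fun x => 1 / b x ^ 12 - 1 / c ^ 12) hε0 q,
      Finset.sum_const, hZc, nsmul_eq_mul, Nat.cast_pow]
  have e3 : Real.pi ^ 2 / (6 * σ ^ 4) = ε ^ 4 * P := by rw [hσ, hP]; field_simp
  have e4 : Real.pi ^ 2 / (6 * (σ ^ 2) ^ 2) = ε ^ 4 * P := by rw [← e3]; ring
  have e5 : Cc / σ ^ 5 = ε ^ 5 * (Cc / s ^ 5) := by rw [hσ]; field_simp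
  have e6 : (n : ℝ) ^ 4 * ε ^ 4 = M := by rw [hε, hM]; field_simp
  rw [e1, e2, e4] at hU
  rw [e3, e5] at hD
  have hJ' : P * (∫ x, (1 / b x ^ 12 - 1 / c ^ 12)) + γ ≤
      ∫ z, (Dens b (fun _ => 1) (s ^ 2) z - Dens (fun _ => c) (fun _ => 1) (s ^ 2) z) := by
    refine le_of_eq_of_le ?_ hJ
    rw [hγ, ha]
    ring
  have hfin := Final.arith hP0.le hε0 (by positivity) e6 (by field_simp) hJ' hD hgb hU
  have hlt : ε * |Cc / s ^ 5| < M * γ / 2 := by
    rw [div_lt_iff₀ (by positivity), div_lt_iff₀ (by positivity)] at hn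
    rw [hε, one_div, inv_mul_lt_iff₀ (by positivity)]
    linarith
  have := mul_le_mul_of_nonneg_left (le_abs_self (Cc / s ^ 5)) hε0.le
  linarith

end Pool.Agent.Lib.MP_465ce1_mp.Cx
end

-- part Pool.Agent.Lib.MP_465ce1_mp.Cx.Flat
section

/-!
Eigenfunctionals of the Dirichlet problem on a ball.
-/

open MeasureTheory Filter Topology UniformSpace
open scoped ContDiff

namespace Pool.Agent.Lib.MP_465ce1_mp.Cx

namespace Flat

/-- The abstract conclusion. -/
def Out {D : Type} [AddCommGroup D] [Module ℝ D] {n : ℕ} (S : Pre D n) : Prop :=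
  ∃ (lam : ℕ → ℝ) (l : ℕ → D →ₗ[ℝ] ℝ),
    (∀ k (ε : ℝ), 0 < ε → lam k + ε ∈ MM (S.a + (0 : ℝ) • S.m) S.b k) ∧
    (∀ f g, HasSum (fun k => l k f * l k g) (S.b f g)) ∧
    (∀ k f g, (∀ x, S.b x g = S.a x f) → l k g = lam k * l k f) ∧
    ∀ k (ε : ℝ), 0 < ε → ∃ f, S.b f f ≤ 1 + ε ∧ ∀ g, (l k g - S.b f g) ^ 2 ≤ ε * S.b g g

theorem out_normed {D : Type} [NormedAddCommGroup D] [InnerProductSpace ℝ D] {n : ℕ}
    (S : Pre D n) (hN : ∀ x, ‖x‖ ^ 2 = S.a x x + S.m x x) : Out S := by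
  obtain ⟨Cb, hCb0, hCb⟩ := S.b_le
  obtain ⟨Cm, hCm0, hCm⟩ := S.m_le
  obtain ⟨A, hA⟩ := ext_form S.a S.a_nonneg S.a_symm zero_le_one fun x => by
    rw [hN]; linarith [S.m_nonneg x]
  obtain ⟨M, hM⟩ := ext_form S.m S.m_nonneg S.m_symm zero_le_one fun x => by
    rw [hN]; linarith [S.a_nonneg x]
  obtain ⟨B, hB⟩ := ext_form S.b S.b_nonneg S.b_symm hCb0.le fun x => by
    rw [hN]; nlinarith [S.a_nonneg x, hCb x]
  have dr := Completion.denseRange_coe (α := D)
  have le1 : ∀ {f g : Completion D → ℝ}, Continuous f → Continuous g →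
      (∀ x : D, f x ≤ g x) → ∀ x, f x ≤ g x := fun hf hg h =>
    isClosed_property dr (isClosed_le hf hg) h
  have eq2 : ∀ {f g : Completion D × Completion D → ℝ}, Continuous f → Continuous g →
      (∀ x y : D, f (x, y) = g (x, y)) → ∀ x y, f (x, y) = g (x, y) := fun {f g} hf hg h =>
    isClosed_property2 (p := fun x y => f (x, y) = g (x, y)) dr (isClosed_eq hf hg) h
  have hBM : ∀ x, B x x ≤ Cb * M x x :=
    le1 (by fun_prop) (by fun_prop) fun x => by rw [hB, hM]; exact hCb x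
  have hMB : ∀ x, M x x ≤ Cm * B x x :=
    le1 (by fun_prop) (by fun_prop) fun x => by rw [hB, hM]; exact hCm x
  have As : ∀ x y, A x y = A y x := eq2 (f := fun p => A p.1 p.2) (g := fun p => A p.2 p.1)
    (by fun_prop) (by fun_prop) fun x y => by simp only [hA, S.a_symm x y]
  have Bs : ∀ x y, B x y = B y x := eq2 (f := fun p => B p.1 p.2) (g := fun p => B p.2 p.1)
    (by fun_prop) (by fun_prop) fun x y => by simp only [hB, S.b_symm x y]
  have ha : ∀ x, 0 ≤ A x x := le1 (g := fun x => A x x) continuous_const (by fun_prop) fun x => by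
    rw [hA]; exact S.a_nonneg x
  have hm : ∀ x, 0 ≤ M x x := le1 (g := fun x => M x x) continuous_const (by fun_prop) fun x => by
    rw [hM]; exact S.m_nonneg x
  have hb : ∀ x, 0 ≤ B x x := le1 (g := fun x => B x x) continuous_const (by fun_prop) fun x => by
    rw [hB]; exact S.b_nonneg x
  have hNH : ∀ x : Completion D, ‖x‖ ^ 2 = A x x + M x x :=
    isClosed_property (p := fun x : Completion D => ‖x‖ ^ 2 = A x x + M x x) dr
      (isClosed_eq (by fun_prop) (by fun_prop)) fun x => by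
        simp only [hA, hM, Completion.norm_coe, hN]
  have hpos : ∀ x, x ≠ 0 → 0 < B x x := by
    intro x hx
    refine (hb x).lt_of_ne fun h0 => hx ?_
    have h2 : M x x = 0 := le_antisymm (by simpa [← h0] using hMB x) (hm x)
    have h3 : ∀ y, A x y = 0 := by
      refine isClosed_property (p := fun y => A x y = 0) dr
        (isClosed_eq (by fun_prop) continuous_const) fun y => ?_
      obtain ⟨C, hC⟩ := S.clos y
      have := le1 (f := fun x => A x y ^ 2) (g := fun x => C * M x x) (by fun_prop) (by fun_prop)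
        (fun x => by rw [hA, hM]; exact hC x) x
      rw [h2, mul_zero] at this
      exact pow_eq_zero_iff two_ne_zero |>.mp (le_antisymm this (sq_nonneg _))
    have h4 := hNH x
    rw [h3, h2, add_zero] at h4
    exact norm_eq_zero.mp (pow_eq_zero_iff two_ne_zero |>.mp h4)
  have hq : ∀ x y, (A + B).toLinearMap₁₂ x y = A x y + B x y := fun x y => rfl
  have hb' : ∀ x y, B.toLinearMap₁₂ x y = B x y := fun x y => rfl
  have hden : ∀ k L ε, 0 < ε → L ∈ MM (A + B).toLinearMap₁₂ B.toLinearMap₁₂ k →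
      L - 1 + ε ∈ MM (S.a + (0 : ℝ) • S.m) S.b k := fun k L ε hε hL => by
    obtain ⟨F, hF, h⟩ := MM_dense (S.a + S.b) S.b (A + B) B (fun x y => by simp [hA, hB]) hB hpos
      hε hL
    refine ⟨F, hF, fun x hx => ?_⟩
    have h1 := h x hx
    simp only [LinearMap.add_apply, zero_smul, add_zero] at h1 ⊢
    linarith
  obtain ⟨Cc, p, hc⟩ := S.count
  have hcount : ∀ k L, 0 ≤ L → L ∈ MM (A + B).toLinearMap₁₂ B.toLinearMap₁₂ k →
      (k : ℝ) + 1 ≤ Cc * (1 + L) ^ p := by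
    intro k L hL0 hL
    obtain ⟨F, hF, h⟩ := hden k L 1 one_pos hL
    have := hc L F hL0 fun x hx => by
      have h1 := h x hx
      simp only [zero_smul, add_zero, sub_add_cancel] at h1
      rwa [← S.a_apply]
    rw [hF] at this
    exact_mod_cast this
  obtain ⟨v, lam, -, h2, h3, h4, -, h6⟩ := spec_holds (Completion D) (A + B).toLinearMap₁₂
    B.toLinearMap₁₂ (1 / (1 + Cm)) (1 + Cb) (by positivity)
    (fun x y => by rw [hq, hq, As x y, Bs x y]) Bs
    (fun x => by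
      rw [hq, hNH, one_div_mul_eq_div, div_le_iff₀ (by positivity)]
      nlinarith [ha x, hb x, hMB x, mul_nonneg hCm0.le (ha x)])
    (fun x => by
      rw [hq, hNH]
      nlinarith [ha x, hm x, hBM x, mul_nonneg hCb0.le (ha x)])
    hpos
    (fun x => by
      rw [hb', hNH]
      nlinarith [ha x, hm x, hBM x, mul_nonneg hCb0.le (ha x)])
    (fun k => by
      obtain ⟨F, hF⟩ := S.inf_dim k
      exact ⟨F.map (Completion.toComplₗᵢ (𝕜 := ℝ) (E := D)).toLinearMap, by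
        rw [← hF]
        exact (Submodule.equivMapOfInjective _ Completion.toComplₗᵢ.injective F).finrank_eq.symm⟩)
    (fun L => ⟨⌈Cc * (1 + |L|) ^ p⌉₊, fun F hF => by
      rcases Nat.eq_zero_or_eq_succ_pred (Module.finrank ℝ F) with h0 | h0
      · omega
      have := hcount _ |L| (abs_nonneg L) ⟨F, h0, fun x hx => (hF x hx).trans
        (mul_le_mul_of_nonneg_right (le_abs_self L) (hb x))⟩
      have h7 : ((Module.finrank ℝ F : ℕ) : ℝ) ≤ ⌈Cc * (1 + |L|) ^ p⌉₊ := by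
        rw [h0]; push_cast; exact this.trans (Nat.le_ceil _)
      exact_mod_cast h7⟩)
  simp only [hq, hb'] at h2 h3 h4
  let l : ℕ → D →ₗ[ℝ] ℝ := fun k =>
    (B (v k)).toLinearMap ∘ₗ (Completion.toComplₗᵢ (𝕜 := ℝ) (E := D)).toLinearMap
  have hl : ∀ k x, l k x = B (v k) x := fun k x => rfl
  refine ⟨fun k => lam k - 1, l, fun k ε hε => hden k _ ε hε (h6 k).1, fun f g => ?_,
    fun k f g h => ?_, fun k ε hε => ?_⟩
  · have := ((h4 ((f : Completion D) + g)).sub (h4 ((f : Completion D) - g))).div_const 4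
    simp only [map_add, map_sub, add_apply, sub_apply, hB, S.b_symm g f] at this
    have e1 : (fun k => l k f * l k g) =
        fun k => ((B f (v k) + B g (v k)) ^ 2 - (B f (v k) - B g (v k)) ^ 2) / 4 := by
      funext k
      rw [hl, hl, Bs (v k), Bs (v k)]
      ring
    have e2 : S.b f g = (S.b f f + S.b f g + (S.b f g + S.b g g) -
        (S.b f f - S.b f g - (S.b f g - S.b g g))) / 4 := by ring
    rw [e1, e2]
    exact this
  · have h7 : ∀ x, B x g = A x f := isClosed_property (p := fun x => B x g = A x f) dr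
      (isClosed_eq (by fun_prop) (by fun_prop)) fun x => by simp only [hA, hB, h]
    rw [hl, hl, h7]
    linarith [h2 k f]
  · have ho : IsOpen {x | B x x < 1 + ε ∧ B (v k - x) (v k - x) < ε} :=
      (isOpen_lt (f := fun x => B x x) (by fun_prop) continuous_const).inter
        (isOpen_lt (f := fun x => B (v k - x) (v k - x)) (by fun_prop) continuous_const)
    obtain ⟨f, e1, e2⟩ := dr.exists_mem_open ho ⟨v k, by simp [h3, hε], by simpa using hε⟩
    refine ⟨f, by rw [← hB]; exact e1.le, fun g => ?_⟩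
    have e3 := cs_form B.toLinearMap₁₂ hb Bs (v k - f) g
    simp only [hb'] at e3
    rw [hl, ← hB, ← hB, ← sub_apply, ← map_sub]
    exact e3.trans (mul_le_mul_of_nonneg_right e2.le (hb _))

theorem out {D : Type} [AddCommGroup D] [Module ℝ D] {n : ℕ} (S : Pre D n) : Out S := by
  let cd : InnerProductSpace.Core ℝ D :=
    { inner := fun x y => S.a x y + S.m x y
      conj_inner_symm := fun x y => by simp [S.a_symm x y, S.m_symm x y]
      re_inner_nonneg := fun x => by simpa using add_nonneg (S.a_nonneg x) (S.m_nonneg x)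
      add_left := fun x y z => by simp only [map_add, LinearMap.add_apply]; ring
      smul_left := fun x y r => by
        simp only [map_smul, LinearMap.smul_apply, smul_eq_mul, conj_trivial]; ring
      definite := fun x hx => by
        by_contra h0
        linarith [S.a_nonneg x, S.m_pos x h0] }
  let i1 : NormedAddCommGroup D := @InnerProductSpace.Core.toNormedAddCommGroup ℝ D _ _ _ cd
  let i2 : InnerProductSpace ℝ D := InnerProductSpace.ofCore cd.toCore
  exact out_normed S fun x => (real_inner_self_eq_norm_sq x).symm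

lemma polar {D : Type} [AddCommGroup D] [Module ℝ D] {p q : D →ₗ[ℝ] D →ₗ[ℝ] ℝ}
    (hp : ∀ x y, p x y = p y x) (hq : ∀ x y, q x y = q y x) (h : ∀ x, p x x = q x x) (x y : D) :
    p x y = q x y := by
  have := h (x + y)
  simp only [map_add, LinearMap.add_apply, h x, h y, hp y x, hq y x] at this
  linarith

end Flat

open Pool.Agent.Lib.MP_465ce1_mp.Conc in
theorem specFlat_holds : SpecFlatStmt := by
  intro W hW hpos R hR
  obtain ⟨S, hS⟩ := conc_holds 4 (by norm_num) R hR (VV W) (VV_cont hW)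
    fun x => mul_pos (hpos _) (pow_pos (rho_pos x) 2)
  have hb : ∀ f g : DR 4 R, S.b f g = ∫ x, VV W x * (f.1 x * g.1 x) :=
    Flat.polar (q := form (VV W) (VV_cont hW)) S.b_symm (form_symm _ _) fun v => by
      simp only [(hS v).2.2, form_apply, sq]
  have ha : ∀ f g : DR 4 R, S.a f g =
      ∑ i, form (fun _ => 1) continuous_const (der (ee i) f) (der (ee i) g) := fun f g => by
    have := Flat.polar (p := S.a) (q := ∑ i, (form (fun _ => 1) continuous_const).compl₁₂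
      (der (ee i)) (der (ee i))) S.a_symm
      (fun x y => by
        simp only [LinearMap.sum_apply, LinearMap.compl₁₂_apply]
        exact Finset.sum_congr rfl fun i _ => form_symm _ _ _ _)
      (fun v => by
        simp only [LinearMap.sum_apply, LinearMap.compl₁₂_apply]
        rw [(hS v).1]
        exact (energy_eq v).symm) f g
    simpa only [LinearMap.sum_apply, LinearMap.compl₁₂_apply] using this
  obtain ⟨lam, l, h1, h2, h3, h4⟩ := Flat.out S
  obtain ⟨c, -, hlow⟩ := SS_lower (n := 4) le_rfl hW hpos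
  refine ⟨lam, l, fun k => le_of_forall_pos_le_add fun ε hε => ?_, fun f g => hb f g ▸ h2 f g,
    fun k f g h => h3 k f g fun u => ?_, fun k ε hε => ?_⟩
  · exact csInf_le ⟨c, hlow k⟩ (back_sub le_rfl hW hpos hS le_rfl k (h1 k ε hε))
  · rw [ha, hb]
    simp only [by_parts]
    simp only [form_one]
    rw [Finset.sum_neg_distrib, ← integral_finsetSum _ fun i _ => int_one _ _, ← integral_neg]
    refine integral_congr_ae (Eventually.of_forall fun x => ?_)
    have e : lap f.1 x = ∑ i, (der (ee i) (der (ee i) f)).1 x := rfl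
    simp only [← Finset.mul_sum, ← e]
    linear_combination u.1 x * h x
  · obtain ⟨f, e1, e2⟩ := h4 k ε hε
    refine ⟨f, (hS f).2.2 ▸ e1, fun g => ?_⟩
    rw [← hb, ← (hS g).2.2]
    exact e2 g

end Pool.Agent.Lib.MP_465ce1_mp.Cx
end

-- part Pool.Agent.Lib.MP_465ce1_mp.Cx.Frame
section

/-!
The action of the operator on modulated functions, and a Plancherel bound for limits of
integral functionals.
-/

open MeasureTheory Filter Topology
open scoped ContDiff RealInnerProductSpace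

namespace Pool.Agent.Lib.MP_465ce1_mp.Cx

namespace Frame

lemma dd_smooth (e : E4) {f : E4 → ℝ} (hf : ContDiff ℝ ∞ f) : ContDiff ℝ ∞ (dd e f) :=
  (hf.fderiv_right (m := ∞) (by simp)).clm_apply contDiff_const

lemma dif {f : E4 → ℝ} (hf : ContDiff ℝ ∞ f) : Differentiable ℝ f :=
  hf.differentiable (by simp)

lemma dd_comb (e : E4) (k : ℝ) {a b : E4 → ℝ} (ha : ContDiff ℝ ∞ a) (hb : ContDiff ℝ ∞ b)
    (x : E4) : dd e (fun y => a y + k * b y) x = dd e a x + k * dd e b x := by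
  have h := ((dif ha x).hasFDerivAt.add ((dif hb x).hasFDerivAt.const_mul k)).fderiv
  unfold dd
  rw [show (fun y => a y + k * b y) = a + fun y => k * b y from rfl, h]
  simp

lemma step (ξ e : E4) {C S a b : E4 → ℝ}
    (hC : ∀ y, HasFDerivAt C (-(S y) • innerSL ℝ ξ) y)
    (hS : ∀ y, HasFDerivAt S (C y • innerSL ℝ ξ) y)
    (ha : ContDiff ℝ ∞ a) (hb : ContDiff ℝ ∞ b) :
    dd e (fun y => a y * C y - b y * S y) =
      fun y => (dd e a y + -⟪ξ, e⟫ * b y) * C y - (dd e b y + ⟪ξ, e⟫ * a y) * S y := by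
  funext y
  have h := (((dif ha y).hasFDerivAt.mul (hC y)).sub ((dif hb y).hasFDerivAt.mul (hS y))).fderiv
  unfold dd
  rw [show (fun y => a y * C y - b y * S y) = a * C - b * S from rfl, h]
  simp only [sub_apply, add_apply,
    smul_apply, smul_eq_mul, innerSL_apply_apply]
  ring

lemma inner_ee (ξ : E4) (i : Fin 4) : ⟪ξ, ee i⟫ = ξ i := by
  simp [ee, EuclideanSpace.inner_single_right]

lemma sum_ee (ξ : E4) : ∑ i, ξ i • ee i = ξ := by
  ext j
  simp [ee, Pi.single_apply]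

lemma dd_sum (ξ : E4) (f : E4 → ℝ) (x : E4) : dd ξ f x = ∑ i, ξ i * dd (ee i) f x := by
  unfold dd
  conv_lhs => rw [← sum_ee ξ]
  simp only [map_sum, map_smul, smul_eq_mul]

lemma norm_sq (ξ : E4) : ‖ξ‖ ^ 2 = ∑ i, ξ i ^ 2 := by
  rw [EuclideanSpace.norm_sq_eq]
  simp

lemma lap_mod (ξ : E4) {C S a b : E4 → ℝ}
    (hC : ∀ y, HasFDerivAt C (-(S y) • innerSL ℝ ξ) y)
    (hS : ∀ y, HasFDerivAt S (C y • innerSL ℝ ξ) y)
    (ha : ContDiff ℝ ∞ a) (hb : ContDiff ℝ ∞ b) (x : E4) :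
    lap (fun y => a y * C y - b y * S y) x =
      (lap a x - 2 * dd ξ b x - ‖ξ‖ ^ 2 * a x) * C x -
        (lap b x + 2 * dd ξ a x - ‖ξ‖ ^ 2 * b x) * S x := by
  have h : ∀ i, dd (ee i) (dd (ee i) (fun y => a y * C y - b y * S y)) x =
      (dd (ee i) (dd (ee i) a) x - 2 * (ξ i * dd (ee i) b x) - ξ i ^ 2 * a x) * C x -
        (dd (ee i) (dd (ee i) b) x + 2 * (ξ i * dd (ee i) a x) - ξ i ^ 2 * b x) * S x := by
    intro i
    rw [step ξ (ee i) hC hS ha hb,
      step ξ (ee i) hC hS ((dd_smooth _ ha).add (contDiff_const.mul hb))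
        ((dd_smooth _ hb).add (contDiff_const.mul ha))]
    simp only [dd_comb (ee i) _ (dd_smooth _ ha) hb, dd_comb (ee i) _ (dd_smooth _ hb) ha,
      inner_ee]
    ring
  unfold lap
  simp only [h]
  rw [dd_sum ξ a x, dd_sum ξ b x, norm_sq]
  simp only [Fin.sum_univ_four]
  ring

lemma has_cos (ξ y : E4) : HasFDerivAt (fun y : E4 => Real.cos ⟪ξ, y⟫)
    (-(Real.sin ⟪ξ, y⟫) • innerSL ℝ ξ) y :=
  (innerSL ℝ ξ).hasFDerivAt.cos

lemma has_sin (ξ y : E4) : HasFDerivAt (fun y : E4 => Real.sin ⟪ξ, y⟫)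
    (Real.cos ⟪ξ, y⟫ • innerSL ℝ ξ) y :=
  (innerSL ℝ ξ).hasFDerivAt.sin

end Frame

theorem frame_holds : FrameStmt := by
  intro w μ ξ p h1 h2 x
  constructor
  · rw [Frame.lap_mod ξ (Frame.has_cos ξ) (Frame.has_sin ξ) h1 h2 x]
    simp only [Bop, DD]
    ring
  · have hC : ∀ y : E4, HasFDerivAt (fun y : E4 => Real.sin ⟪ξ, y⟫)
        (-(-Real.cos ⟪ξ, y⟫) • innerSL ℝ ξ) y := fun y => by
      rw [neg_neg]; exact Frame.has_sin ξ y
    have hS : ∀ y : E4, HasFDerivAt (fun y : E4 => -Real.cos ⟪ξ, y⟫)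
        (Real.sin ⟪ξ, y⟫ • innerSL ℝ ξ) y := fun y => by
      have h := (Frame.has_cos ξ y).neg
      rw [neg_smul, neg_neg] at h
      exact h
    have h := Frame.lap_mod ξ hC hS h1 h2 x
    simp only [mul_neg, sub_neg_eq_add] at h
    rw [h]
    simp only [Bop, DD]
    ring

namespace Frame

variable {R : ℝ} {V : E4 → ℝ}

lemma form_sq (hV : Continuous V) (g : DR 4 R) :
    Conc.form V hV g g = ∫ x, V x * g.1 x ^ 2 := by
  simp only [Conc.form_apply, sq]

lemma form_nonneg (hV : Continuous V) (hp : ∀ x, 0 < V x) (g : DR 4 R) :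
    0 ≤ Conc.form V hV g g :=
  integral_nonneg fun x => mul_nonneg (hp x).le (mul_self_nonneg _)

lemma l_bound (hV : Continuous V) (hp : ∀ x, 0 < V x) (l : DR 4 R →ₗ[ℝ] ℝ) (f : DR 4 R)
    (hf : Conc.form V hV f f ≤ 2)
    (hl : ∀ g, (l g - Conc.form V hV f g) ^ 2 ≤ Conc.form V hV g g) (g : DR 4 R) :
    l g ^ 2 ≤ 6 * Conc.form V hV g g := by
  have h1 := cs_form (Conc.form V hV) (form_nonneg hV hp) (Conc.form_symm V hV) f g
  have h2 := mul_le_mul_of_nonneg_right hf (form_nonneg hV hp g)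
  have h3 := hl g
  nlinarith [sq_nonneg (l g - 2 * Conc.form V hV f g)]

lemma cont_l (hV : Continuous V) (hp : ∀ x, 0 < V x) (l : DR 4 R →ₗ[ℝ] ℝ)
    (hl : ∀ g, l g ^ 2 ≤ 6 * Conc.form V hV g g) (h0 : DR 4 R) (φ : ℝ → ℝ)
    (hφ : ∀ a b, |φ a - φ b| ≤ |a - b|) (u : E4 → DR 4 R)
    (hu : ∀ ξ x, (u ξ).1 x = h0.1 x * φ ⟪ξ, x⟫) : Continuous fun ξ => l (u ξ) := by
  have hW : Continuous fun x : E4 => V x * ‖x‖ ^ 2 := hV.mul (continuous_norm.pow 2)
  set M := Conc.form (fun x : E4 => V x * ‖x‖ ^ 2) hW h0 h0 with hM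
  have key : ∀ ξ η, Conc.form V hV (u ξ - u η) (u ξ - u η) ≤ ‖ξ - η‖ ^ 2 * M := by
    intro ξ η
    rw [hM, Conc.form_apply, Conc.form_apply, ← integral_const_mul]
    refine integral_mono (Conc.int_w hV _ _) ((Conc.int_w hW _ _).const_mul _) fun x => ?_
    simp only [Submodule.coe_sub, Pi.sub_apply, hu]
    have h1 : |φ ⟪ξ, x⟫ - φ ⟪η, x⟫| ≤ ‖ξ - η‖ * ‖x‖ := by
      refine (hφ _ _).trans ?_
      rw [← inner_sub_left]
      exact abs_real_inner_le_norm _ _
    have h2 := pow_le_pow_left₀ (abs_nonneg _) h1 2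
    rw [sq_abs] at h2
    have h3 := mul_le_mul_of_nonneg_left h2 (mul_nonneg (hp x).le (sq_nonneg (h0.1 x)))
    nlinarith
  refine (LipschitzWith.of_dist_le' (K := √(6 * M)) fun ξ η => ?_).continuous
  rw [Real.dist_eq, dist_eq_norm, ← map_sub]
  have hM0 : 0 ≤ M :=
    integral_nonneg fun x => mul_nonneg (mul_nonneg (hp x).le (sq_nonneg _)) (mul_self_nonneg _)
  refine abs_le_of_sq_le_sq ?_ (by positivity)
  rw [mul_pow, Real.sq_sqrt (by positivity)]
  have := hl (u ξ - u η)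
  have := key ξ η
  linarith

lemma tend_of_sq {a : ℕ → ℝ} {b B : ℝ}
    (h : ∀ n : ℕ, (b - a n) ^ 2 ≤ 1 / ((n : ℝ) + 1) * B) : Tendsto a atTop (𝓝 b) := by
  have h1 : Tendsto (fun n : ℕ => 1 / ((n : ℝ) + 1) * B) atTop (𝓝 0) := by
    simpa using tendsto_one_div_add_atTop_nhds_zero_nat.mul_const B
  have h2 : Tendsto (fun n => (b - a n) ^ 2) atTop (𝓝 0) :=
    squeeze_zero (fun n => sq_nonneg _) h h1
  have h3 := h2.sqrt
  simp only [Real.sqrt_sq_eq_abs, Real.sqrt_zero] at h3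
  rw [tendsto_iff_dist_tendsto_zero]
  simpa only [Real.dist_eq, abs_sub_comm] using h3

end Frame

theorem func_holds (hP : PlanchStmt) : FuncStmt := by
  intro R V h l c s hV hp hVh hle hc hs happ
  have hh : ∀ x, (c 0).1 x = h x := fun x => by simp [hc]
  have hl : ∀ g, l g ^ 2 ≤ 6 * Conc.form V hV g g := by
    obtain ⟨f, hf1, hf2⟩ := happ 1 one_pos
    refine Frame.l_bound hV hp l f ?_ fun g => ?_
    · rw [Frame.form_sq]; linarith
    · rw [Frame.form_sq, Conc.form_apply]; simpa using hf2 g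
  have hcc : Continuous fun ξ => l (c ξ) :=
    Frame.cont_l hV hp l hl (c 0) Real.cos Real.abs_cos_sub_cos_le c fun ξ x => by rw [hh, hc]
  have hcs : Continuous fun ξ => l (s ξ) :=
    Frame.cont_l hV hp l hl (c 0) Real.sin Real.abs_sin_sub_sin_le s fun ξ x => by rw [hh, hs]
  refine ⟨(hcc.pow 2).add (hcs.pow 2), ?_⟩
  choose f hf1 hf2 using fun n : ℕ => happ (1 / ((n : ℝ) + 1)) Nat.one_div_pos_of_nat
  set F : ℕ → E4 → ℝ := fun n x => V x * h x * (f n).1 x with hF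
  have hFs : ∀ n, ContDiff ℝ ∞ (F n) := fun n => hVh.mul (Conc.smooth (f n))
  have hFc : ∀ n, HasCompactSupport (F n) := fun n => (Conc.hcs (f n)).mul_left
  have hpl := fun n => hP (F n) (hFs n) (hFc n)
  have hlim : ∀ ξ, Tendsto (fun n => ENNReal.ofReal (fsq (F n) ξ)) atTop
      (𝓝 (ENNReal.ofReal (l (c ξ) ^ 2 + l (s ξ) ^ 2))) := by
    intro ξ
    refine ENNReal.tendsto_ofReal ?_
    have e1 : ∀ n, ∫ x, F n x * Real.cos ⟪ξ, x⟫ = ∫ x, V x * ((f n).1 x * (c ξ).1 x) :=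
      fun n => integral_congr_ae (Eventually.of_forall fun x => by simp only [hF, hc]; ring)
    have e2 : ∀ n, ∫ x, F n x * Real.sin ⟪ξ, x⟫ = ∫ x, V x * ((f n).1 x * (s ξ).1 x) :=
      fun n => integral_congr_ae (Eventually.of_forall fun x => by simp only [hF, hs]; ring)
    simp only [fsq, e1, e2]
    exact ((Frame.tend_of_sq fun n => hf2 n (c ξ)).pow 2).add
      ((Frame.tend_of_sq fun n => hf2 n (s ξ)).pow 2)
  have hbd : ∀ n, ∫⁻ ξ, ENNReal.ofReal (fsq (F n) ξ) ≤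
      ENNReal.ofReal ((2 * Real.pi) ^ 4 * (1 + 1 / ((n : ℝ) + 1))) := by
    intro n
    rw [← ofReal_integral_eq_lintegral_ofReal (hpl n).2.1
      (Eventually.of_forall fun ξ => by unfold fsq; positivity), (hpl n).2.2.1]
    refine ENNReal.ofReal_le_ofReal (mul_le_mul_of_nonneg_left (le_trans ?_ (hf1 n))
      (by positivity))
    have hi : Integrable fun x => V x * (f n).1 x ^ 2 := by
      simpa only [sq] using Conc.int_w hV (f n) (f n)
    refine integral_mono_of_nonneg (Eventually.of_forall fun x => sq_nonneg _) hi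
      (Eventually.of_forall fun x => ?_)
    have := mul_le_mul_of_nonneg_right (hle x) (mul_nonneg (hp x).le (sq_nonneg ((f n).1 x)))
    simp only [hF]
    nlinarith
  have htop : Tendsto (fun n : ℕ => ENNReal.ofReal ((2 * Real.pi) ^ 4 * (1 + 1 / ((n : ℝ) + 1))))
      atTop (𝓝 (ENNReal.ofReal ((2 * Real.pi) ^ 4))) := by
    refine ENNReal.tendsto_ofReal ?_
    simpa using (tendsto_one_div_add_atTop_nhds_zero_nat.const_add (1 : ℝ)).const_mul
      ((2 * Real.pi) ^ 4)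
  calc ∫⁻ ξ, ENNReal.ofReal (l (c ξ) ^ 2 + l (s ξ) ^ 2)
      = ∫⁻ ξ, liminf (fun n => ENNReal.ofReal (fsq (F n) ξ)) atTop :=
        lintegral_congr fun ξ => (hlim ξ).liminf_eq.symm
    _ ≤ liminf (fun n => ∫⁻ ξ, ENNReal.ofReal (fsq (F n) ξ)) atTop :=
        lintegral_liminf_le fun n => (hpl n).1.measurable.ennreal_ofReal
    _ ≤ liminf (fun n : ℕ => ENNReal.ofReal ((2 * Real.pi) ^ 4 * (1 + 1 / ((n : ℝ) + 1))))
          atTop := liminf_le_liminf (Eventually.of_forall hbd)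
    _ = _ := htop.liminf_eq

end Pool.Agent.Lib.MP_465ce1_mp.Cx
end

-- part Pool.Agent.Lib.MP_465ce1_mp.Cx.Hom
section

/-!
Closure properties of sums of homogeneous families.
-/

open MeasureTheory Filter Topology
open scoped ContDiff RealInnerProductSpace

namespace Pool.Agent.Lib.MP_465ce1_mp.Cx

namespace Hom

variable {d e : ℤ} {G G' : Fam}

theorem isOpen_dom : IsOpen {p : E4 × ℝ × E4 | (p.1, p.2.1) ≠ 0} :=
  isOpen_ne_fun (by fun_prop) continuous_const

theorem at_ (h : Hom d G) {p : E4 × ℝ × E4} (hp : (p.1, p.2.1) ≠ 0) :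
    ContDiffAt ℝ ∞ (fun p : E4 × ℝ × E4 => G p.1 p.2.1 p.2.2) p :=
  h.1.contDiffAt (isOpen_dom.mem_nhds hp)

theorem slice (h : Hom d G) {ξ : E4} {σ : ℝ} (h0 : (ξ, σ) ≠ 0) : ContDiff ℝ ∞ (G ξ σ) :=
  contDiff_iff_contDiffAt.2 fun x =>
    (h.at_ (p := (ξ, σ, x)) h0).comp x (f := fun y : E4 => (ξ, σ, y)) (by fun_prop)

theorem mul (h : Hom d G) (h' : Hom e G') : Hom (d + e) fun ξ σ x => G ξ σ x * G' ξ σ x :=
  ⟨h.1.mul h'.1, fun t ht ξ σ h0 x => by
    simp only [h.2 t ht ξ σ h0, h'.2 t ht ξ σ h0, zpow_add₀ ht.ne']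
    ring⟩

theorem const {f : E4 → ℝ} (hf : ContDiff ℝ ∞ f) : Hom 0 fun _ _ => f :=
  ⟨(hf.comp (contDiff_snd.comp contDiff_snd)).contDiffOn, fun _ _ _ _ _ _ => by simp⟩

theorem zero (d : ℤ) : Hom d fun _ _ _ => 0 := ⟨contDiffOn_const, fun _ _ _ _ _ _ => by simp⟩

theorem fd_smooth (h : Hom d G) :
    ContDiffOn ℝ ∞ (fun p : E4 × ℝ × E4 => fderiv ℝ (G p.1 p.2.1) p.2.2)
      {p | (p.1, p.2.1) ≠ 0} := fun p hp =>
  (ContDiffAt.fderiv (f := fun (q : E4 × ℝ × E4) (y : E4) => G q.1 q.2.1 y)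
    (g := fun q => q.2.2) (n := ∞) (m := ∞)
    ((h.at_ (p := (p.1, p.2.1, p.2.2)) hp).comp (p, p.2.2)
      (f := fun z : (E4 × ℝ × E4) × E4 => (z.1.1, z.1.2.1, z.2)) (by fun_prop))
    (by fun_prop) le_rfl).contDiffWithinAt

theorem fd_hom (h : Hom d G) {t : ℝ} (ht : 0 < t) {ξ : E4} {σ : ℝ} (h0 : (ξ, σ) ≠ 0) (x v : E4) :
    fderiv ℝ (G (t • ξ) (t * σ)) x v = t ^ d * fderiv ℝ (G ξ σ) x v := by
  rw [funext (h.2 t ht ξ σ h0), fderiv_const_mul ((h.slice h0).differentiable (by simp) x)]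
  rfl

theorem dde (v : E4) (h : Hom d G) : Hom d fun ξ σ => dd v (G ξ σ) :=
  ⟨h.fd_smooth.clm_apply contDiffOn_const, fun _ ht _ _ h0 x => h.fd_hom ht h0 x v⟩

theorem ddxi (h : Hom d G) : Hom (d + 1) fun ξ σ => dd ξ (G ξ σ) :=
  ⟨h.fd_smooth.clm_apply contDiff_fst.contDiffOn, fun t ht ξ σ h0 x => by
    simp only [dd]
    rw [h.fd_hom ht h0, map_smul, zpow_add_one₀ ht.ne', smul_eq_mul, mul_assoc]⟩

theorem dsym {w : E4 → ℝ} (hw : ContDiff ℝ ∞ w) : Hom 2 fun ξ σ => DD w (σ ^ 2) ξ := by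
  refine ⟨ContDiff.contDiffOn ?_, fun t ht ξ σ _ x => ?_⟩
  · exact ((contDiff_fst.comp contDiff_snd).pow 2).add
      (((hw.comp (contDiff_snd.comp contDiff_snd)).pow 6).mul
        ((contDiff_norm_sq ℝ).comp contDiff_fst))
  · simp only [DD, norm_smul, Real.norm_eq_abs, mul_pow, sq_abs, zpow_ofNat]
    ring

theorem DD_pos {w : E4 → ℝ} (hw : ∀ x, 0 < w x) {ξ : E4} {σ : ℝ} (h0 : (ξ, σ) ≠ 0) (x : E4) :
    0 < DD w (σ ^ 2) ξ x := by
  have := hw x
  by_cases hσ : σ = 0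
  · have hξ : ξ ≠ 0 := fun h => h0 (by rw [h, hσ]; rfl)
    exact add_pos_of_nonneg_of_pos (sq_nonneg _) (by positivity)
  · exact add_pos_of_pos_of_nonneg (by positivity) (by positivity)

theorem dinv {w : E4 → ℝ} (hw : ContDiff ℝ ∞ w) (hw' : ∀ x, 0 < w x) :
    Hom (-2) fun ξ σ x => (DD w (σ ^ 2) ξ x)⁻¹ :=
  ⟨(dsym hw).1.inv fun _ hp => (DD_pos hw' hp _).ne', fun t ht ξ σ h0 x => by
    have := (dsym hw).2 t ht ξ σ h0 x
    simp only at this ⊢
    rw [this, mul_inv, zpow_neg]⟩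

theorem le_mono (hde : d ≤ e) (h : HomLE d G) : HomLE e G := by
  induction h with
  | base h1 h2 => exact .base (h1.trans hde) h2
  | add _ _ ih ih' => exact ih.add ih'
  | congr _ h2 ih => exact ih.congr h2

theorem le_smooth (h : HomLE d G) (ξ : E4) (σ : ℝ) (h0 : (ξ, σ) ≠ 0) : ContDiff ℝ ∞ (G ξ σ) := by
  induction h with
  | base _ h2 => exact h2.slice h0
  | add _ _ ih ih' => exact ih.add ih'
  | congr _ h2 ih => rwa [h2 ξ σ h0]

theorem le_mul_base {d' : ℤ} (hd : d' ≤ d) (h : Hom d' G) (h' : HomLE e G') :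
    HomLE (d + e) fun ξ σ x => G ξ σ x * G' ξ σ x := by
  induction h' with
  | base h1 h2 => exact .base (add_le_add hd h1) (h.mul h2)
  | add _ _ ih ih' => exact (ih.add ih').congr fun ξ σ _ => funext fun x => mul_add _ _ _
  | congr _ h2 ih => exact ih.congr fun ξ σ h0 => by simp only [h2 ξ σ h0]

theorem le_mul (h : HomLE d G) (h' : HomLE e G') :
    HomLE (d + e) fun ξ σ x => G ξ σ x * G' ξ σ x := by
  induction h with
  | base h1 h2 => exact le_mul_base h1 h2 h'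
  | add _ _ ih ih' => exact (ih.add ih').congr fun ξ σ _ => funext fun x => add_mul _ _ _
  | congr _ h2 ih => exact ih.congr fun ξ σ h0 => by simp only [h2 ξ σ h0]

theorem le_smul (c : ℝ) (h : HomLE d G) : HomLE d fun ξ σ x => c * G ξ σ x := by
  simpa using le_mul_base le_rfl (const (contDiff_const (c := c))) h

theorem dd_add (v : E4) {f g : E4 → ℝ} (hf : ContDiff ℝ ∞ f) (hg : ContDiff ℝ ∞ g) :
    dd v (fun x => f x + g x) = fun x => dd v f x + dd v g x := funext fun x => by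
  simp only [dd]
  rw [fderiv_fun_add (hf.differentiable (by simp) x) (hg.differentiable (by simp) x)]
  rfl

theorem le_dde (v : E4) (h : HomLE d G) : HomLE d fun ξ σ => dd v (G ξ σ) := by
  induction h with
  | base h1 h2 => exact .base h1 (h2.dde v)
  | add h1 h2 ih ih' =>
    exact (ih.add ih').congr fun ξ σ h0 => dd_add v (le_smooth h1 ξ σ h0) (le_smooth h2 ξ σ h0)
  | congr _ h2 ih => exact ih.congr fun ξ σ h0 => by simp only [h2 ξ σ h0]

theorem le_ddxi (h : HomLE d G) : HomLE (d + 1) fun ξ σ => dd ξ (G ξ σ) := by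
  induction h with
  | base h1 h2 => exact .base (by omega) h2.ddxi
  | add h1 h2 ih ih' =>
    exact (ih.add ih').congr fun ξ σ h0 => dd_add ξ (le_smooth h1 ξ σ h0) (le_smooth h2 ξ σ h0)
  | congr _ h2 ih => exact ih.congr fun ξ σ h0 => by simp only [h2 ξ σ h0]

theorem le_lap (h : HomLE d G) : HomLE d fun ξ σ => lap (G ξ σ) :=
  ((((le_dde (ee 0) (le_dde (ee 0) h)).add (le_dde (ee 1) (le_dde (ee 1) h))).add
    (le_dde (ee 2) (le_dde (ee 2) h))).add (le_dde (ee 3) (le_dde (ee 3) h))).congr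
    fun _ _ _ => funext fun _ => Fin.sum_univ_four _

end Hom

theorem homKit : HomKit where
  mono := Hom.le_mono
  zero := fun d => .base le_rfl (Hom.zero d)
  const := fun hf => .base le_rfl (Hom.const hf)
  smul := Hom.le_smul
  sub := fun h h' => (h.add (Hom.le_smul (-1) h')).congr fun _ _ _ => funext fun _ => by ring
  mul := Hom.le_mul
  dde := Hom.le_dde
  ddxi := Hom.le_ddxi
  lap := Hom.le_lap
  dsym := fun hw => .base le_rfl (Hom.dsym hw)
  dinv := fun hw hw' => .base le_rfl (Hom.dinv hw hw')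
  smooth := Hom.le_smooth

end Pool.Agent.Lib.MP_465ce1_mp.Cx
end
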