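import Pool.Agent.Lib.MP_465ce1_mp.Cx.PInt

-- part Pool.Agent.Lib.MP_465ce1_mp.Cx.Kron
section

/-!
Kronecker substitution and decoding of the digits.
-/

namespace Pool.Agent.Lib.MP_465ce1_mp.Cx

open Finset

namespace Kron

section Hom

variable {K K' : Type} [Add K] [Mul K] [Sub K] [IntCast K] [Add K'] [Mul K'] [Sub K'] [IntCast K']

/-- Maps preserving the four operations. -/
structure IsH (h : K → K') : Prop where
  add : ∀ a b, h (a + b) = h a + h b
  mul : ∀ a b, h (a * b) = h a * h b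
  sub : ∀ a b, h (a - b) = h a - h b
  cst : ∀ n : ℤ, h (cst n) = cst n

variable {h : K → K'} (H : IsH h)
include H

theorem IsH.pw (t : K) (n : ℕ) : h (pw t n) = pw (h t) n := by
  induction n with
  | zero => exact H.cst 1
  | succ n ih => rw [Cx.pw, Cx.pw, H.mul, ih]

theorem IsH.ev1 (y : K) (l : List ℤ) : h (ev1 y l) = ev1 (h y) l := by
  induction l with
  | nil => exact H.cst 0
  | cons c r ih => rw [Cx.ev1, Cx.ev1, H.add, H.mul, ih, H.cst]

theorem IsH.ev2 (y t : K) (l : List (List ℤ)) : h (ev2 y t l) = ev2 (h y) (h t) l := by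
  induction l with
  | nil => exact H.cst 0
  | cons c r ih => rw [Cx.ev2, Cx.ev2, H.add, H.mul, ih, H.ev1]

theorem IsH.ipr (X n d a1 b1 a2 b2 : K) :
    h (ipr X n d a1 b1 a2 b2) = ipr (h X) (h n) (h d) (h a1) (h b1) (h a2) (h b2) := by
  simp only [Cx.ipr, H.add, H.mul]

theorem IsH.psiC (X n d g00 G1 L1 al be l1 l2 T Dt mu : K) :
    h (psiC X n d g00 G1 L1 al be l1 l2 T Dt mu) = psiC (h X) (h n) (h d) (h g00) (h G1) (h L1)
      (h al) (h be) (h l1) (h l2) (h T) (h Dt) (h mu) := by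
  simp only [Cx.psiC, H.add, H.mul, H.sub, H.cst, H.ipr]

theorem IsH.psiB (X n d g00 g10 g01 g20 g11 g02 g30 g21 g12 g03 p q : K) :
    h (psiB X n d g00 g10 g01 g20 g11 g02 g30 g21 g12 g03 p q) = psiB (h X) (h n) (h d) (h g00)
      (h g10) (h g01) (h g20) (h g11) (h g02) (h g30) (h g21) (h g12) (h g03) (h p) (h q) := by
  simp only [Cx.psiB, H.psiC, H.add, H.mul, H.sub, H.cst]

theorem IsH.psiW (X n d g00 g10 g01 g20 g11 g02 g30 g21 g12 g03 : K) :
    h (psiW X n d g00 g10 g01 g20 g11 g02 g30 g21 g12 g03) = psiW (h X) (h n) (h d) (h g00)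
      (h g10) (h g01) (h g20) (h g11) (h g02) (h g30) (h g21) (h g12) (h g03) := by
  simp only [Cx.psiW, H.psiB, H.add, H.mul, H.cst]

theorem IsH.psiO (X n d eta g00 g10 g01 g20 g11 g02 g30 g21 g12 g03 : K) :
    h (psiO X n d eta g00 g10 g01 g20 g11 g02 g30 g21 g12 g03) = psiO (h X) (h n) (h d) (h eta)
      (h g00) (h g10) (h g01) (h g20) (h g11) (h g02) (h g30) (h g21) (h g12) (h g03) := by
  simp only [Cx.psiO, H.psiW, H.add, H.mul, H.cst]

theorem IsH.expr (P : Pc) (y t : K) : h (P.expr y t) = P.expr (h y) (h t) := by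
  simp only [Pc.expr, H.psiO, H.ev2, H.pw, H.mul, H.cst]

end Hom

/-- The function is a sum of monomials obeying the bounds. -/
def Rel (f : ℝ → ℝ → ℝ) (b : BV) : Prop :=
  ∃ (ι : Type) (_ : Fintype ι) (c : ι → ℤ) (a e : ι → ℕ),
    (∀ y t, f y t = ∑ i, (c i : ℝ) * y ^ a i * t ^ e i) ∧ ∑ i, (c i).natAbs ≤ b.nb ∧
      ∀ i, a i ≤ b.dy ∧ e i ≤ b.dt

theorem Rel.mono (c : ℤ) (a e : ℕ) : Rel (fun y t => c * y ^ a * t ^ e) ⟨c.natAbs, a, e⟩ :=
  ⟨Unit, inferInstance, fun _ => c, fun _ => a, fun _ => e, by simp⟩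

theorem Rel.add {f g : ℝ → ℝ → ℝ} {b b' : BV} (h : Rel f b) (h' : Rel g b') :
    Rel (fun y t => f y t + g y t) (b + b') := by
  obtain ⟨ι, _, c, a, e, h1, h2, h3⟩ := h
  obtain ⟨κ, _, c', a', e', k1, k2, k3⟩ := h'
  refine ⟨ι ⊕ κ, inferInstance, Sum.elim c c', Sum.elim a a', Sum.elim e e', fun y t => ?_, ?_, ?_⟩
  · simp [h1, k1, Fintype.sum_sum_type]
  · rw [Fintype.sum_sum_type]
    exact add_le_add h2 k2
  · rintro (i | i)
    · exact ⟨(h3 i).1.trans (le_max_left _ _), (h3 i).2.trans (le_max_left _ _)⟩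
    · exact ⟨(k3 i).1.trans (le_max_right _ _), (k3 i).2.trans (le_max_right _ _)⟩

theorem Rel.neg {f : ℝ → ℝ → ℝ} {b : BV} (h : Rel f b) : Rel (fun y t => -f y t) b := by
  obtain ⟨ι, _, c, a, e, h1, h2, h3⟩ := h
  exact ⟨ι, inferInstance, fun i => -c i, a, e, fun y t => by simp [h1], by simpa using h2, h3⟩

theorem Rel.sub {f g : ℝ → ℝ → ℝ} {b b' : BV} (h : Rel f b) (h' : Rel g b') :
    Rel (fun y t => f y t - g y t) (b - b') := by
  simp only [sub_eq_add_neg]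
  exact h.add h'.neg

theorem Rel.zero {f : ℝ → ℝ → ℝ} {b : BV} (h : Rel f b) (h0 : b.nb = 0) (y t : ℝ) :
    f y t = 0 := by
  obtain ⟨ι, _, c, a, e, h1, h2, h3⟩ := h
  rw [h0, Nat.le_zero, sum_eq_zero_iff] at h2
  rw [h1]
  exact sum_eq_zero fun i hi => by simp [Int.natAbs_eq_zero.1 (h2 i hi)]

theorem Rel.mul {f g : ℝ → ℝ → ℝ} {b b' : BV} (h : Rel f b) (h' : Rel g b') :
    Rel (fun y t => f y t * g y t) (b * b') := by
  change Rel _ (if b.nb = 0 ∨ b'.nb = 0 then ⟨0, 0, 0⟩ else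
    ⟨b.nb * b'.nb, b.dy + b'.dy, b.dt + b'.dt⟩)
  split_ifs with h0
  · refine ⟨Empty, inferInstance, fun _ => 0, fun _ => 0, fun _ => 0, fun y t => ?_, by simp,
      fun _ => ⟨le_rfl, le_rfl⟩⟩
    rcases h0 with h0 | h0
    · simp [h.zero h0]
    · simp [h'.zero h0]
  obtain ⟨ι, _, c, a, e, h1, h2, h3⟩ := h
  obtain ⟨κ, _, c', a', e', k1, k2, k3⟩ := h'
  refine ⟨ι × κ, inferInstance, fun i => c i.1 * c' i.2, fun i => a i.1 + a' i.2,
    fun i => e i.1 + e' i.2, fun y t => ?_, ?_,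
    fun i => ⟨add_le_add (h3 _).1 (k3 _).1, add_le_add (h3 _).2 (k3 _).2⟩⟩
  · simp only [h1, k1, Fintype.sum_prod_type, sum_mul_sum]
    refine sum_congr rfl fun i _ => sum_congr rfl fun j _ => ?_
    push_cast
    ring
  · simp only [Fintype.sum_prod_type, Int.natAbs_mul, ← sum_mul_sum]
    exact Nat.mul_le_mul h2 k2

/-- Functions together with bounds. -/
structure RB where
  f : ℝ → ℝ → ℝ
  b : BV
  rel : Rel f b

instance : Add RB := ⟨fun u v => ⟨_, _, u.rel.add v.rel⟩⟩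
instance : Sub RB := ⟨fun u v => ⟨_, _, u.rel.sub v.rel⟩⟩
instance : Mul RB := ⟨fun u v => ⟨_, _, u.rel.mul v.rel⟩⟩
instance : IntCast RB := ⟨fun n => ⟨_, _, Rel.mono n 0 0⟩⟩

theorem rel_expr (P : Pc) : Rel (fun y t => P.expr y t) (P.expr ⟨1, 1, 0⟩ ⟨1, 0, 1⟩) := by
  have h1 : IsH RB.b := ⟨fun _ _ => rfl, fun _ _ => rfl, fun _ _ => rfl, fun _ => rfl⟩
  have h2 : ∀ y t : ℝ, IsH fun u : RB => u.f y t := fun y t =>
    ⟨fun _ _ => rfl, fun _ _ => rfl, fun _ _ => rfl, fun n => by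
      change (n : ℝ) * y ^ 0 * t ^ 0 = (n : ℝ)
      simp⟩
  have h := (P.expr (⟨_, _, Rel.mono 1 1 0⟩ : RB) ⟨_, _, Rel.mono 1 0 1⟩).rel
  have e : (P.expr (⟨_, _, Rel.mono 1 1 0⟩ : RB) ⟨_, _, Rel.mono 1 0 1⟩).f =
      fun y t => P.expr y t := by
    funext y t
    simpa using (h2 y t).expr P ⟨_, _, Rel.mono 1 1 0⟩ ⟨_, _, Rel.mono 1 0 1⟩
  rw [h1.expr, e] at h
  exact h

theorem coef {f : ℝ → ℝ → ℝ} {b : BV} (h : Rel f b) {D mx : ℕ} (hy : b.dy < D)
    (ht : D * (b.dt + 1) ≤ mx) : ∃ c : ℕ → ℤ,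
    (∀ y t : ℝ, f y t = ∑ q ∈ range mx, (c q : ℝ) * y ^ (q % D) * t ^ (q / D)) ∧
      (∀ q, |c q| ≤ b.nb) ∧ ∀ q, mx ≤ q → c q = 0 := by
  classical
  obtain ⟨ι, _, c, a, e, h1, h2, h3⟩ := h
  have hD : ∀ i, a i < D := fun i => (h3 i).1.trans_lt hy
  have hm : ∀ i, a i + D * e i < mx := fun i => by
    have := Nat.mul_le_mul_left D (h3 i).2
    have := hD i
    rw [mul_add_one] at ht
    omega
  refine ⟨fun q => ∑ i with a i + D * e i = q, c i, fun y t => ?_, fun q => ?_, fun q hq => ?_⟩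
  · rw [h1, ← sum_fiberwise_of_maps_to (t := range mx) (g := fun i => a i + D * e i)
      fun i _ => mem_range.2 (hm i)]
    refine sum_congr rfl fun q _ => ?_
    rw [Int.cast_sum, sum_mul, sum_mul]
    refine sum_congr rfl fun i hi => ?_
    rw [← (mem_filter.1 hi).2, Nat.add_mul_mod_self_left, Nat.mod_eq_of_lt (hD i),
      Nat.add_mul_div_left _ _ (Nat.zero_lt_of_lt hy), Nat.div_eq_of_lt (hD i), zero_add]
  · refine (abs_sum_le_sum_abs _ _).trans ((sum_le_sum_of_subset_of_nonneg (filter_subset _ _)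
      fun _ _ _ => abs_nonneg _).trans ?_)
    simpa [Int.natCast_natAbs] using Int.ofNat_le.2 h2
  · exact sum_eq_zero fun i hi => absurd (hm i) (by rw [(mem_filter.1 hi).2]; omega)

theorem digits_lt {β : ℕ} {d : ℕ → ℕ} (hd : ∀ q, d q < β) (m : ℕ) :
    ∑ q ∈ range m, d q * β ^ q < β ^ m := by
  induction m with
  | zero => simp
  | succ m ih =>
    rw [sum_range_succ, pow_succ']
    have := Nat.mul_le_mul_right (β ^ m) (hd m)
    rw [Nat.succ_mul] at this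
    omega

theorem digits_split (β : ℕ) (d : ℕ → ℕ) (k : ℕ) : ∑ q ∈ range (2 ^ (k + 1)), d q * β ^ q =
    ∑ q ∈ range (2 ^ k), d q * β ^ q +
      (∑ q ∈ range (2 ^ k), d (2 ^ k + q) * β ^ q) * β ^ 2 ^ k := by
  rw [pow_succ, mul_two, sum_range_add, sum_mul]
  exact congrArg _ (sum_congr rfl fun q _ => by ring)

theorem off_eq (B k : ℕ) : off B k = ∑ q ∈ range (2 ^ k), 2 ^ B * (2 ^ (B + 1)) ^ q := by
  induction k with
  | zero => simp [off, Nat.shiftLeft_eq]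
  | succ k ih => rw [off, digits_split _ fun _ => 2 ^ B, ← ih, Nat.shiftLeft_eq, pow_mul]

theorem dec_eq (B n : ℕ) (F : ℕ → ℕ → ℕ) (k : ℕ) : ∀ (d : ℕ → ℕ) (pos : ℕ),
    (∀ q, d q < 2 ^ (B + 1)) →
    dec B n F k (∑ q ∈ range (2 ^ k), d q * (2 ^ (B + 1)) ^ q) pos =
      ∑ q ∈ range (2 ^ k), if pos + q < n then F (pos + q) (d q) else 0 := by
  induction k with
  | zero =>
    intro d pos _
    simp only [dec, pow_zero, range_one, sum_singleton, mul_one, add_zero, ← not_le, ite_not]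
  | succ k ih =>
    intro d pos hd
    rw [dec]
    split_ifs with h
    · exact (sum_eq_zero fun q _ => if_neg (by omega)).symm
    have h1 := digits_lt hd (2 ^ k)
    rw [force_eq, force_eq, digits_split, Nat.shiftRight_eq_div_pow, Nat.shiftLeft_eq,
      Nat.shiftLeft_eq, Nat.shiftLeft_eq, pow_mul, Nat.add_mul_div_right _ _ (by positivity),
      Nat.div_eq_of_lt h1, zero_add, Nat.add_sub_cancel, ih d pos hd,
      ih (fun q => d (2 ^ k + q)) _ fun q => hd _, pow_succ, mul_two, sum_range_add, one_mul]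
    simp only [add_assoc, Nat.add_eq]

end Kron

open Kron in
theorem kron_holds : KronStmt := by
  intro P hP
  simp only [Pc.ok, Bool.and_eq_true, decide_eq_true_eq, Nat.shiftLeft_eq, one_mul] at hP
  obtain ⟨⟨⟨h1, h2⟩, h3⟩, h4⟩ := hP
  obtain ⟨c, c1, c2, c3⟩ := coef (rel_expr P) h2 h3
  have c4 : ∀ q, |c q| < 2 ^ P.B := fun q => (c2 q).trans_lt (by exact_mod_cast h1)
  refine ⟨c, c1, c4, c3, fun e he F n => ?_⟩
  have hb : P.big = ∑ q ∈ range (2 ^ P.k), c q * (2 ^ (P.B + 1)) ^ q := by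
    have H : IsH (Int.cast : ℤ → ℝ) := ⟨Int.cast_add, Int.cast_mul, Int.cast_sub, fun _ => rfl⟩
    rw [← sum_subset (range_mono h4) fun q _ hq => by rw [c3 q (by simpa using hq), zero_mul]]
    apply Int.cast_injective (α := ℝ)
    rw [Pc.big, H.expr, c1]
    push_cast [Nat.shiftLeft_eq]
    refine sum_congr rfl fun q _ => ?_
    rw [one_mul, one_mul, pow_mul, ← pow_mul _ P.D, mul_assoc, ← pow_add, Nat.mod_add_div]
  have hc : ∀ q, 0 ≤ e * c q + 2 ^ P.B ∧ e * c q + 2 ^ P.B < 2 ^ (P.B + 1) := fun q => by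
    have := abs_lt.1 (c4 q)
    rw [pow_succ]
    rcases he with h | h <;> rw [h] <;> constructor <;> linarith
  have hN : (e * P.big + off P.B P.k).toNat =
      ∑ q ∈ range (2 ^ P.k), (e * c q + 2 ^ P.B).toNat * (2 ^ (P.B + 1)) ^ q := by
    rw [← Int.toNat_natCast (∑ q ∈ _, _), hb, off_eq]
    congr 1
    push_cast
    rw [mul_sum, ← sum_add_distrib]
    exact sum_congr rfl fun q _ => by rw [Int.toNat_of_nonneg (hc q).1]; ring
  rw [hN, dec_eq _ _ _ _ _ _ fun q => by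
    have := hc q
    zify
    rw [Int.toNat_of_nonneg this.1]
    exact this.2]
  simp only [zero_add]
  rw [← sum_filter]
  exact sum_congr (by ext q; simp [and_comm]) fun _ _ => rfl

end Pool.Agent.Lib.MP_465ce1_mp.Cx
end

-- part Pool.Agent.Lib.MP_465ce1_mp.Cx.Wt
section

/-!
The rounded weights and the consequence of the check of one piece.
-/

namespace Pool.Agent.Lib.MP_465ce1_mp.Cx

namespace Wt

lemma dec_const (B n : ℕ) (G : ℕ → ℕ) (k : ℕ) :
    ∀ N N' pos, dec B n (fun q _ => G q) k N pos = dec B n (fun q _ => G q) k N' pos := by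
  induction k with
  | zero => intro N N' pos; rfl
  | succ k ih =>
    intro N N' pos
    simp only [dec, force_eq]
    rw [ih _ 0, ih (N >>> _) 0, ih (N' - _) 0, ih (N' >>> _) 0]

lemma floor_bd (a b : ℕ) (hb : 0 < b) {x : ℝ} (hx : x = (a : ℝ) / b) :
    ((a / b : ℕ) : ℝ) ≤ x ∧ x ≤ (a / b : ℕ) + 1 := by
  subst hx
  refine ⟨Nat.cast_div_le, ?_⟩
  rw [div_le_iff₀ (by exact_mod_cast hb)]
  have := Nat.lt_div_mul_add (a := a) hb
  have h2 : (a : ℝ) < (a / b : ℕ) * b + b := by exact_mod_cast this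
  linarith

lemma ang_bd (P : Pc) (hrd : 0 < P.rd) (al : ℕ) :
    (P.ang al : ℝ) ≤ ((2 * al).factorial : ℝ) / (al.factorial * (al + 1).factorial) *
        (P.rho / 4) ^ al * 2 ^ P.s1 ∧
      ((2 * al).factorial : ℝ) / (al.factorial * (al + 1).factorial) *
        (P.rho / 4) ^ al * 2 ^ P.s1 ≤ P.ang al + 1 := by
  refine floor_bd _ _ (by positivity) ?_
  have : (P.rd : ℝ) ≠ 0 := by positivity
  simp only [Pc.rho, Nat.shiftLeft_eq, div_pow, mul_pow]
  push_cast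
  field_simp

lemma rad_bd (P : Pc) (had : 0 < P.ad) (hbd : 0 < P.bd) (hab : P.an * P.bd < P.bn * P.ad)
    (hlg : 0 < P.an → (P.lg : ℝ) ≤ Real.log ((P.bn : ℝ) / P.bd / ((P.an : ℝ) / P.ad)) * 2 ^ P.s2 ∧
      Real.log ((P.bn : ℝ) / P.bd / ((P.an : ℝ) / P.ad)) * 2 ^ P.s2 ≤ P.lg + 1)
    (e : ℤ) (he : 0 < P.an ∨ 0 < e) :
    (P.rad e : ℝ) ≤ Iint e ((P.an : ℝ) / P.ad) ((P.bn : ℝ) / P.bd) * 2 ^ P.s2 ∧
      Iint e ((P.an : ℝ) / P.ad) ((P.bn : ℝ) / P.bd) * 2 ^ P.s2 ≤ P.rad e + 1 := by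
  have h1 : (P.ad : ℝ) ≠ 0 := by positivity
  have h2 : (P.bd : ℝ) ≠ 0 := by positivity
  rcases e with (_ | e) | e
  · exact hlg (he.resolve_right (lt_irrefl _))
  · refine floor_bd _ _ (by positivity) ?_
    have h0 : Int.ofNat (e + 1) ≠ 0 := Int.natCast_ne_zero.2 (Nat.succ_ne_zero e)
    rw [Iint, if_neg h0, Nat.shiftLeft_eq, Nat.cast_mul,
      Nat.cast_sub (Nat.pow_le_pow_left hab.le _)]
    simp only [Int.ofNat_eq_natCast, zpow_natCast, div_pow, mul_pow]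
    push_cast
    field_simp
  · have han : 0 < P.an := he.resolve_right (Int.negSucc_lt_zero e).not_gt
    have hbn : 0 < P.bn := Nat.pos_of_mul_pos_right (Nat.zero_lt_of_lt hab)
    have h3 : (P.an : ℝ) ≠ 0 := by positivity
    have h4 : (P.bn : ℝ) ≠ 0 := by positivity
    refine floor_bd _ _ (by positivity) ?_
    rw [Iint, if_neg (Int.negSucc_ne_zero e), Nat.shiftLeft_eq, Nat.cast_mul,
      Nat.cast_sub (Nat.pow_le_pow_left hab.le _)]
    simp only [zpow_negSucc, div_pow, mul_pow, Int.cast_negSucc]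
    push_cast
    field_simp
    ring

lemma term {c A I lo1 lo2 T u v : ℝ} {N : ℕ} (hN : (N : ℝ) = c + T) (hT : 0 ≤ T)
    (l1 : 0 ≤ lo1) (l2 : 0 ≤ lo2) (hA : lo1 ≤ A * u ∧ A * u ≤ lo1 + 1)
    (hI : c = 0 ∨ lo2 ≤ I * v ∧ I * v ≤ lo2 + 1) :
    c * (A * I) * (u * v) ≤ N * ((lo1 + 1) * (lo2 + 1)) - T * (lo1 * lo2) := by
  rcases hI with rfl | hI
  · rw [hN]
    have : 0 ≤ T * (lo1 + lo2 + 1) := by positivity
    linarith
  · have h1 : lo1 * lo2 ≤ A * u * (I * v) := mul_le_mul hA.1 hI.1 l2 (l1.trans hA.1)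
    have h2 : A * u * (I * v) ≤ (lo1 + 1) * (lo2 + 1) :=
      mul_le_mul hA.2 hI.2 (l2.trans hI.1) (by linarith)
    have h3 := mul_le_mul_of_nonneg_left h1 hT
    have h4 := mul_le_mul_of_nonneg_left h2 (Nat.cast_nonneg (α := ℝ) N)
    have : c = N - T := by linarith
    rw [this]
    linarith

end Wt

theorem wt_holds (h : KronStmt) : WtStmt := by
  intro P hwf hchk hlg
  obtain ⟨hrn, hrd, hm, -, had, hbd, hab, hlam, hsgn, han⟩ := hwf
  simp only [Pc.chk, force_eq, Bool.and_eq_true, decide_eq_true_eq] at hchk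
  obtain ⟨hok, hbad, hineq⟩ := hchk
  obtain ⟨c, hc1, hc2, hc3, hc4⟩ := h P hok
  simp only [Pc.ok, Bool.and_eq_true, decide_eq_true_eq] at hok
  obtain ⟨⟨⟨-, hD⟩, -⟩, hmx⟩ := hok
  have hD : 0 < P.D := Nat.zero_lt_of_lt hD
  have hpos : ∀ q, 0 ≤ P.sgn * c q + 2 ^ P.B := fun q => by
    have := abs_lt.1 (hc2 q)
    rcases hsgn with e | e <;> rw [e] <;> linarith
  have flag : ∀ q, 0 < P.an ∨ 0 < P.ex (q % P.D) (q / P.D) ∨ c q = 0 := fun q => by
    rcases Nat.eq_zero_or_pos P.an with h0 | h0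
    swap
    · exact Or.inl h0
    rcases le_or_gt P.mx q with h1 | h1
    · exact Or.inr (Or.inr (hc3 q h1))
    rcases le_or_gt (3 * P.D) q with h2 | h2
    · have h3 : 3 ≤ q / P.D := (Nat.le_div_iff_mul_le hD).2 h2
      refine Or.inr (Or.inl ?_)
      simp only [Pc.ex, (han h0).1, (han h0).2]
      omega
    · rw [hc4 _ hsgn] at hbad
      have h3 := Finset.sum_eq_zero_iff.1 hbad q (Finset.mem_range.2 (lt_min h2 (by omega)))
      rw [Pc.bad] at h3
      split_ifs at h3 with h4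
      refine h4.imp_right (Or.imp_right fun h5 => ?_)
      have h6 := Int.toNat_of_nonneg (hpos q)
      rw [h5, Nat.one_shiftLeft] at h6
      push_cast at h6
      rcases hsgn with e | e <;> rw [e] at h6 <;> linarith
  refine ⟨c, hc1, flag, ?_⟩
  rw [Wt.dec_const _ _ _ _ 0 (P.sgn * P.big + off P.B P.k).toNat, hc4 _ hsgn, hc4 _ hsgn,
    min_eq_left hmx, Nat.shiftLeft_eq, Nat.shiftLeft_eq] at hineq
  have hR : (1000000 : ℝ) * P.m *
      (∑ q ∈ Finset.range P.mx, (P.dig 1 q (P.sgn * c q + 2 ^ P.B).toNat : ℝ) -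
        (∑ q ∈ Finset.range P.mx, (P.dig 0 q 1 : ℝ)) * 2 ^ P.B) ≤
      P.bnd * ((P.rd : ℝ) ^ 2 * P.rn * (P.lam * P.m ^ 3) ^ 12 * 2 ^ (P.s1 + P.s2)) := by
    exact_mod_cast hineq
  generalize hS : (∑ q ∈ Finset.range P.mx, (c q : ℝ) * _) = S
  have key : P.sgn * S * 2 ^ (P.s1 + P.s2) ≤
      ∑ q ∈ Finset.range P.mx, (P.dig 1 q (P.sgn * c q + 2 ^ P.B).toNat : ℝ) -
        (∑ q ∈ Finset.range P.mx, (P.dig 0 q 1 : ℝ)) * 2 ^ P.B := by
    rw [← hS, Finset.mul_sum, Finset.sum_mul, Finset.sum_mul, ← Finset.sum_sub_distrib]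
    refine Finset.sum_le_sum fun q _ => ?_
    simp only [Pc.dig, force_eq, forceZ_eq]
    split_ifs with hq
    · simp
    · have hN : (((P.sgn * c q + 2 ^ P.B).toNat : ℕ) : ℝ) = P.sgn * c q + 2 ^ P.B := by
        exact_mod_cast Int.toNat_of_nonneg (hpos q)
      have := Wt.term (I := Iint (P.ex (q % P.D) (q / P.D)) ((P.an : ℝ) / P.ad) ((P.bn : ℝ) / P.bd))
        (v := 2 ^ P.s2) hN (by positivity) (Nat.cast_nonneg _)
        (Nat.cast_nonneg (P.rad (P.ex (q % P.D) (q / P.D)))) (Wt.ang_bd P hrd (q % P.D / 2)) (by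
          by_cases h0 : c q = 0
          · exact Or.inl (by simp [h0])
          · exact Or.inr (Wt.rad_bd P had hbd hab hlg _
              ((flag q).imp_right fun h => h.resolve_right h0)))
      push_cast
      rw [pow_add]
      linarith
  have h1 := (mul_le_mul_of_nonneg_left key (by positivity : (0 : ℝ) ≤ 1000000 * P.m)).trans hR
  have h2 : (1000000 : ℝ) * P.m * (P.sgn * S) ≤
      P.bnd * ((P.rd : ℝ) ^ 2 * P.rn * (P.lam * P.m ^ 3) ^ 12) :=
    le_of_mul_le_mul_right (by linarith) (by positivity : (0 : ℝ) < 2 ^ (P.s1 + P.s2))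
  have h3 : (0 : ℝ) < (P.rd : ℝ) ^ 2 * P.rn * (P.lam * P.m ^ 3) ^ 12 := by positivity
  have h4 : P.sgn * (P.rho ^ 2 * P.m / (P.rn ^ 3 * (P.lam * P.m ^ 3) ^ 12) * S) =
      P.m * (P.sgn * S) / ((P.rd : ℝ) ^ 2 * P.rn * (P.lam * P.m ^ 3) ^ 12) := by
    rw [Pc.rho]
    field_simp
  rw [h4, div_le_div_iff₀ h3 (by norm_num)]
  linarith

end Pool.Agent.Lib.MP_465ce1_mp.Cx
end

-- part Pool.Agent.Lib.MP_465ce1_mp.Cx.Smo
section

/-!
Job Smo: the smoothed spline is smooth and its jets of order at most three are uniformly bounded.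
-/

open Filter Topology
open scoped ContDiff

namespace Pool.Agent.Lib.MP_465ce1_mp.Cx

namespace Smo

variable {r : ℝ} {k : ℕ} {u v : ℝ → E4 → ℝ}

/-- Smooth families, uniformly bounded on the ball. -/
def B0 (r : ℝ) (u : ℝ → E4 → ℝ) : Prop := (∀ ε, 0 < ε → ContDiff ℝ ∞ (u ε)) ∧
  ∃ C, ∀ ε, 0 < ε → ε ≤ 1 → ∀ x : E4, ‖x‖ ≤ r → |u ε x| ≤ C

/-- The same for all coordinate derivatives up to order `k`. -/
def Bd (r : ℝ) : ℕ → (ℝ → E4 → ℝ) → Prop
  | 0, u => B0 r u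
  | k + 1, u => B0 r u ∧ ∀ i, Bd r k fun ε => dd (ee i) (u ε)

theorem Bd.b0 (h : Bd r k u) : B0 r u := by
  cases k
  · exact h
  · exact h.1

theorem Bd.congr (h : Bd r k u) (e : ∀ ε, 0 < ε → u ε = v ε) : Bd r k v := by
  have h0 : ∀ {u v : ℝ → E4 → ℝ}, B0 r u → (∀ ε, 0 < ε → u ε = v ε) → B0 r v :=
    fun ⟨a, C, b⟩ e => ⟨fun ε hε => e ε hε ▸ a ε hε, C, fun ε hε => e ε hε ▸ b ε hε⟩
  induction k generalizing u v with
  | zero => exact h0 h e
  | succ k ih => exact ⟨h0 h.1 e, fun i => ih (h.2 i) fun ε hε => by rw [e ε hε]⟩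

theorem Bd.mono (h : Bd r (k + 1) u) : Bd r k u := by
  induction k generalizing u with
  | zero => exact h.1
  | succ k ih => exact ⟨h.1, fun i => ih (h.2 i)⟩

theorem dd_smooth {f : E4 → ℝ} (hf : ContDiff ℝ ∞ f) (e : E4) : ContDiff ℝ ∞ (dd e f) :=
  (hf.fderiv_right (m := ∞) le_rfl).clm_apply contDiff_const

theorem fix {f : E4 → ℝ} (hf : ContDiff ℝ ∞ f) : Bd r k fun _ => f := by
  have h0 : ∀ {f : E4 → ℝ}, ContDiff ℝ ∞ f → B0 r fun _ => f := fun hf => by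
    obtain ⟨C, hC⟩ := (isCompact_closedBall (0 : E4) r).exists_bound_of_continuousOn
      hf.continuous.continuousOn
    exact ⟨fun _ _ => hf, C, fun _ _ _ x hx => hC x (mem_closedBall_zero_iff.2 hx)⟩
  induction k generalizing f with
  | zero => exact h0 hf
  | succ k ih => exact ⟨h0 hf, fun i => ih (dd_smooth hf _)⟩

theorem cst (c : ℝ) : Bd r k fun _ _ => c := fix contDiff_const

theorem B0.hd (h : B0 r u) {ε : ℝ} (hε : 0 < ε) (x : E4) :
    HasFDerivAt (u ε) (fderiv ℝ (u ε) x) x :=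
  ((h.1 ε hε).differentiable (by simp) x).hasFDerivAt

theorem Bd.add (h : Bd r k u) (h' : Bd r k v) : Bd r k fun ε x => u ε x + v ε x := by
  have h0 : ∀ {u v : ℝ → E4 → ℝ}, B0 r u → B0 r v → B0 r fun ε x => u ε x + v ε x :=
    fun ⟨a, C, b⟩ ⟨a', C', b'⟩ => ⟨fun ε hε => (a ε hε).add (a' ε hε), C + C',
      fun ε hε h1 x hx => (abs_add_le _ _).trans (add_le_add (b ε hε h1 x hx) (b' ε hε h1 x hx))⟩
  induction k generalizing u v with
  | zero => exact h0 h h'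
  | succ k ih =>
    refine ⟨h0 h.1 h'.1, fun i => (ih (h.2 i) (h'.2 i)).congr fun ε hε => funext fun x => ?_⟩
    simp only [dd, ((h.1.hd hε x).fun_add (h'.1.hd hε x)).fderiv, add_apply]

theorem Bd.mul (h : Bd r k u) (h' : Bd r k v) : Bd r k fun ε x => u ε x * v ε x := by
  have h0 : ∀ {u v : ℝ → E4 → ℝ}, B0 r u → B0 r v → B0 r fun ε x => u ε x * v ε x :=
    fun ⟨a, C, b⟩ ⟨a', C', b'⟩ => ⟨fun ε hε => (a ε hε).mul (a' ε hε), C * C',
      fun ε hε h1 x hx => (abs_mul _ _).trans_le (mul_le_mul (b ε hε h1 x hx) (b' ε hε h1 x hx)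
        (abs_nonneg _) ((abs_nonneg _).trans (b ε hε h1 x hx)))⟩
  induction k generalizing u v with
  | zero => exact h0 h h'
  | succ k ih =>
    refine ⟨h0 h.1 h'.1, fun i => ((ih h.mono (h'.2 i)).add (ih h'.mono (h.2 i))).congr
      fun ε hε => funext fun x => ?_⟩
    simp only [dd, ((h.1.hd hε x).fun_mul (h'.1.hd hε x)).fderiv, add_apply,
      smul_apply, smul_eq_mul]

theorem Bd.sub (h : Bd r k u) (h' : Bd r k v) : Bd r k fun ε x => u ε x - v ε x :=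
  (h.add ((cst (-1)).mul h')).congr fun ε _ => funext fun x => by ring

theorem Bd.pow (h : Bd r k u) (n : ℕ) : Bd r k fun ε x => u ε x ^ n := by
  induction n with
  | zero => exact (cst 1).congr fun ε _ => funext fun x => (pow_zero _).symm
  | succ n ih => exact (ih.mul h).congr fun ε _ => funext fun x => (pow_succ _ _).symm

theorem sum {ι : Type} (s : Finset ι) {u : ι → ℝ → E4 → ℝ} (h : ∀ i, Bd r k (u i)) :
    Bd r k fun ε x => ∑ i ∈ s, u i ε x := by
  classical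
  induction s using Finset.induction_on with
  | empty => exact cst 0
  | insert a s ha ih =>
    exact ((h a).add ih).congr fun ε _ => funext fun x => by rw [Finset.sum_insert ha]

/-- Smooth functions that vanish on the left and are monomials on the right. -/
def Pw (k : ℕ) (h : ℝ → ℝ) : Prop :=
  ContDiff ℝ ∞ h ∧ (∀ t < 0, h t = 0) ∧ ∃ c, ∀ t, 1 < t → h t = c * t ^ k

theorem Pw.der {h : ℝ → ℝ} (p : Pw (k + 1) h) : Pw k (deriv h) := by
  obtain ⟨a, b, c, d⟩ := p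
  refine ⟨(contDiff_infty_iff_deriv.1 a).2, fun t ht => ?_, c * (k + 1), fun t ht => ?_⟩
  · have : h =ᶠ[𝓝 t] fun _ => 0 := (gt_mem_nhds ht).mono b
    rw [this.deriv_eq, deriv_const]
  · have : h =ᶠ[𝓝 t] fun t => c * t ^ (k + 1) := (lt_mem_nhds ht).mono d
    rw [this.deriv_eq, ((hasDerivAt_pow (k + 1) t).const_mul c).deriv]
    simp [mul_assoc]

theorem comp {h : ℝ → ℝ} {σ : E4 → ℝ} (hσ : ContDiff ℝ ∞ σ) (p : Pw k h) :
    Bd r k fun ε x => ε ^ k * h (σ x / ε) := by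
  have h0 : ∀ {k : ℕ} {h : ℝ → ℝ}, Pw k h → B0 r fun ε x => ε ^ k * h (σ x / ε) := by
    rintro k h ⟨a, b, c, d⟩
    obtain ⟨K, hK⟩ := (isCompact_Icc (a := (0 : ℝ)) (b := 1)).exists_bound_of_continuousOn
      a.continuous.continuousOn
    obtain ⟨-, M, hM⟩ := ((cst c).mul ((fix (r := r) (k := 0) hσ).pow k)).b0
    have K0 : 0 ≤ K := (norm_nonneg _).trans (hK 0 (by simp))
    refine ⟨fun ε _ => contDiff_const.mul (a.comp (hσ.div_const ε)), max K M,
      fun ε hε h1 x hx => ?_⟩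
    rcases lt_or_ge (σ x / ε) 0 with h2 | h2
    · simp [b _ h2, K0]
    rcases le_or_gt (σ x / ε) 1 with h3 | h3
    · refine le_max_of_le_left ?_
      rw [abs_mul, abs_of_pos (pow_pos hε k)]
      exact (mul_le_of_le_one_left (abs_nonneg _) (pow_le_one₀ hε.le h1)).trans (hK _ ⟨h2, h3⟩)
    · refine le_max_of_le_right (le_of_eq_of_le ?_ (hM ε hε h1 x hx))
      simp only [d _ h3, div_pow]
      congr 1
      field_simp
  induction k generalizing h with
  | zero => exact h0 p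
  | succ k ih =>
    refine ⟨h0 p, fun i => ((ih p.der).mul (fix (dd_smooth hσ (ee i)))).congr
      fun ε hε => funext fun x => ?_⟩
    have e := ((p.1.differentiable (by simp) (σ x / ε)).hasDerivAt.comp_hasFDerivAt x
      ((hσ.differentiable (by simp) x).hasFDerivAt.mul_const ε⁻¹ |>.congr_of_eventuallyEq
        (Eventually.of_forall fun y => div_eq_mul_inv (σ y) ε))).const_mul (ε ^ (k + 1))
    have e' := e.fderiv
    simp only [Function.comp_def] at e'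
    simp only [dd, e', smul_apply, smul_eq_mul]
    field_simp
    ring

theorem pw3 : Pw 3 fun t => t ^ 3 * Real.smoothTransition t :=
  ⟨(contDiff_id.pow 3).mul Real.smoothTransition.contDiff,
    fun t ht => by simp [Real.smoothTransition.zero_of_nonpos ht.le], 1,
    fun t ht => by simp [Real.smoothTransition.one_of_one_le ht.le]⟩

theorem cut {z : E4} (χ : ContDiffBump z) {g : E4 → ℝ} (hg : ContDiffOn ℝ ∞ g {z}ᶜ) :
    ContDiff ℝ ∞ fun x => (1 - χ x) * g x := by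
  refine contDiff_iff_contDiffAt.2 fun x => ?_
  by_cases hx : x = z
  · subst hx
    refine (contDiffAt_const (c := (0 : ℝ))).congr_of_eventuallyEq ?_
    filter_upwards [χ.eventuallyEq_one] with y hy
    simp [hy]
  · exact (contDiffAt_const.sub χ.contDiffAt).mul
      (hg.contDiffAt (isOpen_compl_singleton.mem_nhds hx))

theorem term (T : Gt) (h1 : 0 < T.ρ) (h2 : 0 < T.m) (h3 : 0 < T.s)
    (h4 : ContDiffOn ℝ ∞ T.H {T.z}ᶜ) : Bd r 3 fun ε x => (sg T.z T.ρ T.m x - T.s) ^ 3 *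
      Real.smoothTransition ((sg T.z T.ρ T.m x - T.s) / ε) * T.H x := by
  have c1 : Continuous (sg T.z T.ρ T.m) :=
    Continuous.rpow_const (by fun_prop) fun _ => Or.inr (by positivity)
  have c2 : ContDiffOn ℝ ∞ (sg T.z T.ρ T.m) {T.z}ᶜ := fun x hx => by
    refine (ContDiffAt.rpow_const_of_ne ?_ ?_).contDiffWithinAt
    · exact (((contDiff_norm_sq ℝ).comp (contDiff_id.sub contDiff_const)).div_const _).contDiffAt
    · have := norm_pos_iff.2 (sub_ne_zero.2 hx)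
      positivity
  have c3 : sg T.z T.ρ T.m T.z < T.s := by
    have : (T.m : ℝ) ≠ 0 := by positivity
    simpa [sg, this] using h3
  obtain ⟨R, hR, c4⟩ := Metric.eventually_nhds_iff.1 (c1.continuousAt.eventually_lt_const c3)
  let χ : ContDiffBump T.z := ⟨R / 2, R, by positivity, by linarith⟩
  refine ((comp ((cut χ c2).sub (contDiff_const (c := T.s))) pw3).mul
    (fix (cut χ h4))).congr fun ε hε => funext fun x => ?_
  rcases lt_or_ge (dist x T.z) R with h | h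
  · have n1 : 0 ≤ sg T.z T.ρ T.m x := Real.rpow_nonneg (by positivity) _
    have n2 := mul_nonneg (χ.nonneg (x := x)) n1
    have n3 := c4 h
    rw [Real.smoothTransition.zero_of_nonpos (div_nonpos_of_nonpos_of_nonneg (by linarith) hε.le),
      Real.smoothTransition.zero_of_nonpos (div_nonpos_of_nonpos_of_nonneg (by linarith) hε.le)]
    ring
  · rw [χ.zero_of_le_dist h, sub_zero, one_mul, one_mul, div_pow]
    field_simp

theorem gd (h : Bd r 3 u) : Bd r 0 fun ε => Gd (u ε) := by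
  have a0 : Bd r 0 u := h.1
  have a1 : ∀ i, Bd r 0 fun ε => dd (ee i) (u ε) := fun i => (h.2 i).1
  have a2 : ∀ i j, Bd r 0 fun ε => dd (ee i) (dd (ee j) (u ε)) := fun i j => ((h.2 j).2 i).1
  have a3 : ∀ i j l, Bd r 0 fun ε => dd (ee i) (dd (ee j) (dd (ee l) (u ε))) :=
    fun i j l => ((h.2 l).2 j).2 i
  refine sum _ fun i => sum _ fun j => sum _ fun l => ?_
  refine ((((((((cst 91).mul ?_).sub ((cst 105).mul ?_)).add ((cst 96).mul ?_)).add
    ((cst 8).mul ?_)).sub ((cst 7).mul ?_)).add ((cst 12).mul ?_)).add ?_)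
  · exact (((a1 i).pow 2).mul ((a1 j).pow 2)).mul ((a1 l).pow 2)
  · exact ((a0.mul (a2 i i)).mul ((a1 j).pow 2)).mul ((a1 l).pow 2)
  · exact ((((a0.pow 2).mul (a1 j)).mul (a1 l)).mul (a2 i j)).mul (a2 i l)
  · exact (((a0.pow 3).mul (a1 l)).mul (a2 j l)).mul (a3 i i j)
  · exact (((a0.pow 3).mul (a2 i i)).mul (a2 j j)).mul (a2 l l)
  · exact (((a0.pow 3).mul (a2 i j)).mul (a2 j l)).mul (a2 i l)
  · exact ((a0.pow 4).mul (a3 i i j)).mul (a3 j l l)

end Smo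

open Smo in
theorem smo_holds : SmoStmt := fun n f T η r hf hT => by
  have h : Bd r 3 (splE f T) := (fix hf).add
    (sum _ fun j => term (T j) (hT j).1 (hT j).2.1 (hT j).2.2.1 (hT j).2.2.2)
  exact ⟨h.1.1, (gd ((h.pow 2).add (Smo.cst η))).2⟩

end Pool.Agent.Lib.MP_465ce1_mp.Cx
end

-- part Pool.Agent.Lib.MP_465ce1_mp.Cx.Glue
section

/-!
From the spline to a smooth bump, and enclosures of logarithms.
-/

open MeasureTheory Filter Topology
open scoped ContDiff RealInnerProductSpace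

namespace Pool.Agent.Lib.MP_465ce1_mp.Cx

namespace Glue

theorem sg_cont (z : E4) (ρ : ℝ) (m : ℕ) : Continuous (sg z ρ m) := by
  unfold sg
  exact Continuous.rpow_const (by fun_prop) (fun _ => Or.inr (by positivity))

theorem sg_null (z : E4) {ρ : ℝ} {m : ℕ} (hρ : 0 < ρ) (hm : 0 < m) (s : ℝ) :
    volume {x | sg z ρ m x = s} = 0 := by
  refine measure_mono_null ?_ (Measure.addHaar_sphere volume z (Real.sqrt (ρ * s ^ m)))
  intro x hx
  have h0 : 0 ≤ ‖x - z‖ ^ 2 / ρ := by positivity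
  have h1 : sg z ρ m x ^ m = ‖x - z‖ ^ 2 / ρ := by
    unfold sg
    rw [one_div, Real.rpow_inv_natCast_pow h0 hm.ne']
  have h2 : sg z ρ m x = s := hx
  rw [h2] at h1
  rw [mem_sphere_iff_norm, h1, mul_div_cancel₀ _ hρ.ne', Real.sqrt_sq (norm_nonneg _)]

theorem term_one {u ε : ℝ} (hε : 0 < ε) (h : ε ≤ u) :
    u ^ 3 * Real.smoothTransition (u / ε) = max u 0 ^ 3 := by
  rw [Real.smoothTransition.one_of_one_le ((one_le_div hε).2 h), mul_one,
    max_eq_left (hε.le.trans h)]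

theorem term_zero {u ε : ℝ} (hε : 0 < ε) (h : u ≤ 0) :
    u ^ 3 * Real.smoothTransition (u / ε) = max u 0 ^ 3 := by
  rw [Real.smoothTransition.zero_of_nonpos (div_nonpos_of_nonpos_of_nonneg h hε.le), mul_zero,
    max_eq_right h]
  simp

theorem term_ev {g : E4 → ℝ} (hg : Continuous g) {x : E4} (hx : g x ≠ 0) :
    ∀ᶠ n : ℕ in atTop, ∀ᶠ y in 𝓝 x,
      g y ^ 3 * Real.smoothTransition (g y / (1 / ((n : ℝ) + 1))) = max (g y) 0 ^ 3 := by
  rcases lt_or_gt_of_ne hx with h | h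
  · refine Eventually.of_forall fun n => ?_
    filter_upwards [hg.continuousAt.eventually (gt_mem_nhds h)] with y hy
    exact term_zero (by positivity) hy.le
  · have h1 : ∀ᶠ n : ℕ in atTop, 1 / ((n : ℝ) + 1) < g x :=
      tendsto_one_div_add_atTop_nhds_zero_nat.eventually (gt_mem_nhds h)
    filter_upwards [h1] with n hn
    filter_upwards [hg.continuousAt.eventually (lt_mem_nhds hn)] with y hy
    exact term_one (by positivity) hy.le

theorem spl_ev {n : ℕ} (f : E4 → ℝ) (T : Fin n → Gt) {x : E4}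
    (hx : ∀ j, sg (T j).z (T j).ρ (T j).m x ≠ (T j).s) :
    ∀ᶠ k : ℕ in atTop, splE f T (1 / ((k : ℝ) + 1)) =ᶠ[𝓝 x] spl f T := by
  have h1 := eventually_all.2 fun j => term_ev (g := fun y => sg (T j).z (T j).ρ (T j).m y - (T j).s)
    ((sg_cont _ _ _).sub continuous_const) (sub_ne_zero.2 (hx j))
  filter_upwards [h1] with k hk
  filter_upwards [eventually_all.2 hk] with y hy
  unfold splE spl
  congr 1
  exact Finset.sum_congr rfl fun j _ => by rw [hy j]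

theorem dd_smooth (e : E4) {w : E4 → ℝ} (hw : ContDiff ℝ ∞ w) : ContDiff ℝ ∞ (dd e w) := by
  unfold dd
  exact (hw.fderiv_right (m := ∞) (by simp)).clm_apply contDiff_const

theorem Gd_cont {w : E4 → ℝ} (hw : ContDiff ℝ ∞ w) : Continuous (Gd w) := by
  have h0 := hw.continuous
  have h1 : ∀ i, Continuous (dd (ee i) w) := fun i => (dd_smooth _ hw).continuous
  have h2 : ∀ i j, Continuous (dd (ee i) (dd (ee j) w)) := fun i j =>
    (dd_smooth _ (dd_smooth _ hw)).continuous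
  have h3 : ∀ i j k, Continuous (dd (ee i) (dd (ee j) (dd (ee k) w))) := fun i j k =>
    (dd_smooth _ (dd_smooth _ (dd_smooth _ hw))).continuous
  unfold Gd
  refine continuous_finsetSum _ fun i _ => continuous_finsetSum _ fun j _ =>
    continuous_finsetSum _ fun k _ => ?_
  have a1 := h1 i
  have a2 := h1 j
  have a3 := h1 k
  have b1 := h2 i i
  have b2 := h2 i j
  have b3 := h2 i k
  have b4 := h2 j k
  have b5 := h2 j j
  have b6 := h2 k k
  have c1 := h3 i i j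
  have c2 := h3 j k k
  fun_prop

theorem Gd_const (c : ℝ) (x : E4) : Gd (fun _ => c) x = 0 := by
  have h : ∀ (e : E4) (a : ℝ), dd e (fun _ => a) = fun _ => 0 := fun e a => by
    funext y
    simp [dd]
  simp [Gd, h]

end Glue

open Glue

theorem glue_holds (h1 : SmoStmt) (h2 : LocStmt) : GlueStmt := by
  intro n f T η r c hf hT hη hr hout hneg
  obtain ⟨hs, C, hC⟩ := h1 n f T η r hf hT
  have hloc := h2.2.2.2.1
  have hε : ∀ k : ℕ, 0 < 1 / ((k : ℝ) + 1) := fun k => by positivity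
  have hε1 : ∀ k : ℕ, 1 / ((k : ℝ) + 1) ≤ 1 := fun k => by
    rw [div_le_one (by positivity)]
    have : (0 : ℝ) ≤ k := Nat.cast_nonneg k
    linarith
  have hb : ∀ k : ℕ, ContDiff ℝ ∞ fun y => splE f T (1 / ((k : ℝ) + 1)) y ^ 2 + η := fun k =>
    ((hs _ (hε k)).pow 2).add contDiff_const
  have hae : ∀ᵐ x : E4, ∀ j, sg (T j).z (T j).ρ (T j).m x ≠ (T j).s := by
    rw [ae_all_iff]
    intro j
    rw [ae_iff]
    simpa using sg_null (T j).z (hT j).1 (hT j).2.1 (T j).s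
  have hlim : Tendsto (fun k : ℕ => ∫ x in Metric.closedBall (0 : E4) r,
      Gd (fun y => splE f T (1 / ((k : ℝ) + 1)) y ^ 2 + η) x) atTop
      (𝓝 (∫ x in Metric.closedBall (0 : E4) r, Gd (fun y => spl f T y ^ 2 + η) x)) := by
    refine tendsto_integral_of_dominated_convergence (fun _ => C)
      (fun k => (Gd_cont (hb k)).aestronglyMeasurable) ?_ (fun k => ?_) ?_
    · exact integrableOn_const (isCompact_closedBall (0 : E4) r).measure_lt_top.ne
    · filter_upwards [ae_restrict_mem measurableSet_closedBall] with x hx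
      exact hC _ (hε k) (hε1 k) x (by simpa using hx)
    · filter_upwards [ae_restrict_of_ae hae] with x hx
      refine tendsto_const_nhds.congr' ?_
      filter_upwards [spl_ev f T hx] with k hk
      refine hloc _ _ x ?_
      filter_upwards [hk] with y hy
      rw [hy]
  obtain ⟨k, hk⟩ := (hlim.eventually (gt_mem_nhds hneg)).exists
  have hconst : ∀ x : E4, r < ‖x‖ → splE f T (1 / ((k : ℝ) + 1)) x ^ 2 + η = c ^ 2 + η := by
    intro x hx
    obtain ⟨h3, h4⟩ := hout x hx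
    rw [← h4]
    unfold splE spl
    congr 3
    refine Finset.sum_congr rfl fun j _ => ?_
    rw [term_one (hε k) ((hε1 k).trans (by linarith [h3 j]))]
  refine ⟨fun y => splE f T (1 / ((k : ℝ) + 1)) y ^ 2 + η, c ^ 2 + η, r, hb k,
    fun x => by positivity, by positivity, hr, hconst, ?_⟩
  rw [← setIntegral_eq_integral_of_forall_compl_eq_zero (s := Metric.closedBall (0 : E4) r)]
  · exact hk
  · intro x hx
    have hx' : r < ‖x‖ := by simpa using hx
    rw [hloc _ (fun _ => c ^ 2 + η) x, Gd_const]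
    filter_upwards [continuous_norm.continuousAt.eventually (lt_mem_nhds hx')] with y hy
    exact hconst y hy

theorem log_holds : LogStmt := by
  intro p q s g n hp hpq hl hu
  have hp' : (0 : ℝ) < p := Nat.cast_pos.2 hp
  have hpq' : (p : ℝ) < q := Nat.cast_lt.2 hpq
  have hq' : (0 : ℝ) < q := hp'.trans hpq'
  have hx0 : 0 ≤ 1 - (p : ℝ) / q := by
    rw [sub_nonneg, div_le_one hq']
    exact hpq'.le
  have hpos : 0 < (p : ℝ) / q := by positivity
  have habs : |1 - (p : ℝ) / q| < 1 := by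
    rw [abs_of_nonneg hx0]
    linarith
  have hlog : Real.log (1 - (1 - (p : ℝ) / q)) = -Real.log ((q : ℝ) / p) := by
    rw [sub_sub_cancel, ← Real.log_inv, inv_div]
  have a1 := Real.hasSum_pow_div_log_of_abs_lt_one habs
  have a2 := Real.abs_log_sub_add_sum_range_le habs n
  rw [hlog, neg_neg] at a1
  rw [hlog, abs_of_nonneg hx0, sub_sub_cancel] at a2
  have a3 := sum_le_hasSum (Finset.range n) (fun i _ => by positivity) a1
  have a4 := (abs_le.1 a2).1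
  have hl' := (Rat.cast_le (K := ℝ)).2 hl
  have hu' := (Rat.cast_le (K := ℝ)).2 hu
  push_cast at hl' hu'
  have h2 : (0 : ℝ) ≤ 2 ^ s := by positivity
  constructor
  · exact hl'.trans (mul_le_mul_of_nonneg_right a3 h2)
  · refine le_trans (mul_le_mul_of_nonneg_right ?_ h2) hu'
    linarith

end Pool.Agent.Lib.MP_465ce1_mp.Cx
end

-- part Pool.Agent.Lib.MP_465ce1_mp.Cx.Loc
section

/-!
Locality of the parametrix and the case of a constant coefficient.
-/

open MeasureTheory Filter Topology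
open scoped ContDiff RealInnerProductSpace

namespace Pool.Agent.Lib.MP_465ce1_mp.Cx

namespace Loc

variable {x : E4} {f f' w w' : E4 → ℝ}

theorem dd_ev (e : E4) (h : f =ᶠ[𝓝 x] f') : dd e f =ᶠ[𝓝 x] dd e f' := by
  filter_upwards [h.fderiv (𝕜 := ℝ)] with y hy
  unfold dd
  rw [hy]

theorem lap_ev (h : f =ᶠ[𝓝 x] f') : lap f =ᶠ[𝓝 x] lap f' := by
  have h1 : ∀ᶠ y in 𝓝 x, ∀ i, dd (ee i) (dd (ee i) f) y = dd (ee i) (dd (ee i) f') y :=
    eventually_all.2 fun i => dd_ev (ee i) (dd_ev (ee i) h)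
  filter_upwards [h1] with y hy
  unfold lap
  exact Finset.sum_congr rfl fun i _ => hy i

theorem DD_ev (μ : ℝ) (ξ : E4) (h : w =ᶠ[𝓝 x] w') : DD w μ ξ =ᶠ[𝓝 x] DD w' μ ξ := by
  filter_upwards [h] with y hy
  unfold DD
  rw [hy]

theorem par_ev (μ : ℝ) (ξ : E4) (h : w =ᶠ[𝓝 x] w') {g g' : ℕ → E4 → ℝ}
    (hg : ∀ k, g k =ᶠ[𝓝 x] g' k) (k : ℕ) : par w μ ξ g k =ᶠ[𝓝 x] par w' μ ξ g' k := by
  have h0 : par w μ ξ g 0 =ᶠ[𝓝 x] par w' μ ξ g' 0 := by
    filter_upwards [DD_ev μ ξ h, hg 0] with y h1 h2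
    simp only [par]
    rw [h1, h2]
  have key : ∀ k, par w μ ξ g k =ᶠ[𝓝 x] par w' μ ξ g' k ∧
      par w μ ξ g (k + 1) =ᶠ[𝓝 x] par w' μ ξ g' (k + 1) := by
    intro k
    induction k with
    | zero =>
      refine ⟨h0, ?_⟩
      filter_upwards [h, DD_ev μ ξ h, hg 1, dd_ev ξ h0] with y h1 h2 h3 h4
      change (g 1 y + w y ^ 6 * (2 * dd ξ (par w μ ξ g 0) y)) / DD w μ ξ y =
        (g' 1 y + w' y ^ 6 * (2 * dd ξ (par w' μ ξ g' 0) y)) / DD w' μ ξ y
      rw [h1, h2, h3, h4]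
    | succ k ih =>
      refine ⟨ih.2, ?_⟩
      filter_upwards [h, DD_ev μ ξ h, hg (k + 2), dd_ev ξ ih.2, lap_ev ih.1] with y h1 h2 h3 h4 h5
      change (g (k + 2) y + w y ^ 6 *
          (2 * dd ξ (par w μ ξ g (k + 1)) y - lap (par w μ ξ g k) y)) / DD w μ ξ y =
        (g' (k + 2) y + w' y ^ 6 *
          (2 * dd ξ (par w' μ ξ g' (k + 1)) y - lap (par w' μ ξ g' k) y)) / DD w' μ ξ y
      rw [h1, h2, h3, h4, h5]
  exact (key k).1

theorem sym_ev (μ : ℝ) (ξ : E4) (h : w =ᶠ[𝓝 x] w') (m : ℕ) :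
    ∀ k, sym w μ ξ m k =ᶠ[𝓝 x] sym w' μ ξ m k := by
  induction m with
  | zero =>
    intro k
    filter_upwards [h] with y hy
    change (if k = 0 then w y ^ 3 else 0) = if k = 0 then w' y ^ 3 else 0
    rw [hy]
  | succ m ih => exact par_ev μ ξ h ih

theorem PP_ev (μ : ℝ) (ξ : E4) (h : w =ᶠ[𝓝 x] w') (m : ℕ) : PP w μ ξ m =ᶠ[𝓝 x] PP w' μ ξ m := by
  filter_upwards [sym_ev μ ξ h m 0, sym_ev μ ξ h m 2, sym_ev μ ξ h m 4, sym_ev μ ξ h m 6]
    with y h0 h2 h4 h6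
  unfold PP
  rw [h0, h2, h4, h6]

theorem QQ_ev (μ : ℝ) (ξ : E4) (h : w =ᶠ[𝓝 x] w') (m : ℕ) : QQ w μ ξ m =ᶠ[𝓝 x] QQ w' μ ξ m := by
  filter_upwards [sym_ev μ ξ h m 1, sym_ev μ ξ h m 3, sym_ev μ ξ h m 5] with y h1 h3 h5
  unfold QQ
  rw [h1, h3, h5]

theorem Bop_ev (μ : ℝ) (ξ : E4) (h : w =ᶠ[𝓝 x] w') {p p' : Pr} (h1 : p.1 =ᶠ[𝓝 x] p'.1)
    (h2 : p.2 =ᶠ[𝓝 x] p'.2) : (Bop w μ ξ p).1 =ᶠ[𝓝 x] (Bop w' μ ξ p').1 ∧
      (Bop w μ ξ p).2 =ᶠ[𝓝 x] (Bop w' μ ξ p').2 := by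
  constructor
  · filter_upwards [h, DD_ev μ ξ h, h1, lap_ev h1, dd_ev ξ h2] with y k1 k2 k3 k4 k5
    simp only [Bop]
    rw [k1, k2, k3, k4, k5]
  · filter_upwards [h, DD_ev μ ξ h, h2, lap_ev h2, dd_ev ξ h1] with y k1 k2 k3 k4 k5
    simp only [Bop]
    rw [k1, k2, k3, k4, k5]

theorem Bop_iter_ev (μ : ℝ) (ξ : E4) (h : w =ᶠ[𝓝 x] w') {p p' : Pr} (h1 : p.1 =ᶠ[𝓝 x] p'.1)
    (h2 : p.2 =ᶠ[𝓝 x] p'.2) (n : ℕ) :
    ((Bop w μ ξ)^[n] p).1 =ᶠ[𝓝 x] ((Bop w' μ ξ)^[n] p').1 ∧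
      ((Bop w μ ξ)^[n] p).2 =ᶠ[𝓝 x] ((Bop w' μ ξ)^[n] p').2 := by
  induction n with
  | zero => exact ⟨h1, h2⟩
  | succ n ih =>
    rw [Function.iterate_succ_apply', Function.iterate_succ_apply']
    exact Bop_ev μ ξ h ih.1 ih.2

theorem den_eq (μ : ℝ) (ξ : E4) (h : w =ᶠ[𝓝 x] w') {p p' : Pr} (h1 : p.1 =ᶠ[𝓝 x] p'.1)
    (h2 : p.2 =ᶠ[𝓝 x] p'.2) : den w μ ξ p x = den w' μ ξ p' x := by
  have k := Bop_iter_ev μ ξ h h1 h2 4
  unfold den
  rw [h.eq_of_nhds, h1.eq_of_nhds, h2.eq_of_nhds, k.1.eq_of_nhds, k.2.eq_of_nhds]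

theorem Dens_eq {χ χ' : E4 → ℝ} (μ : ℝ) (ξ : E4) (h : w =ᶠ[𝓝 x] w') (hχ : χ =ᶠ[𝓝 x] χ') :
    Dens w χ μ (x, ξ) = Dens w' χ' μ (x, ξ) := by
  refine den_eq μ ξ h ?_ ?_
  · filter_upwards [hχ, PP_ev μ ξ h 4] with y k1 k2
    simp only [tri]
    rw [k1, k2]
  · filter_upwards [hχ, QQ_ev μ ξ h 4] with y k1 k2
    simp only [tri]
    rw [k1, k2]

theorem Gd_eq (h : w =ᶠ[𝓝 x] w') : Gd w x = Gd w' x := by
  have h0 := h.eq_of_nhds
  have h1 : ∀ a, dd a w x = dd a w' x := fun a => (dd_ev a h).eq_of_nhds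
  have h2 : ∀ a b, dd a (dd b w) x = dd a (dd b w') x := fun a b =>
    (dd_ev a (dd_ev b h)).eq_of_nhds
  have h3 : ∀ a b c, dd a (dd b (dd c w)) x = dd a (dd b (dd c w')) x := fun a b c =>
    (dd_ev a (dd_ev b (dd_ev c h))).eq_of_nhds
  unfold Gd
  simp only [h0, h1, h2, h3]

theorem dd_const (e : E4) (a : ℝ) : dd e (fun _ => a) = fun _ => 0 := by
  funext y
  unfold dd
  rw [fderiv_fun_const]
  rfl

theorem lap_const (a : ℝ) : lap (fun _ => a) = fun _ => 0 := by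
  funext y
  unfold lap
  simp only [dd_const, Finset.sum_const_zero]

theorem par_const (c μ : ℝ) (ξ : E4) (a : ℝ) {g : ℕ → E4 → ℝ}
    (hg : ∀ k, g k = fun _ => if k = 0 then a else 0) (k : ℕ) :
    par (fun _ => c) μ ξ g k = fun _ => if k = 0 then a / (μ + c ^ 6 * ‖ξ‖ ^ 2) else 0 := by
  have h0 : par (fun _ => c) μ ξ g 0 =
      fun _ => if (0 : ℕ) = 0 then a / (μ + c ^ 6 * ‖ξ‖ ^ 2) else 0 := by
    funext y
    simp only [par, hg, DD, if_true]
  have key : ∀ k, (par (fun _ => c) μ ξ g k =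
      fun _ => if k = 0 then a / (μ + c ^ 6 * ‖ξ‖ ^ 2) else 0) ∧ par (fun _ => c) μ ξ g (k + 1) =
      fun _ => if k + 1 = 0 then a / (μ + c ^ 6 * ‖ξ‖ ^ 2) else 0 := by
    intro k
    induction k with
    | zero =>
      refine ⟨h0, ?_⟩
      funext y
      change (g 1 y + c ^ 6 * (2 * dd ξ (par (fun _ => c) μ ξ g 0) y)) / DD (fun _ => c) μ ξ y = _
      rw [h0, hg, dd_const]
      simp
    | succ k ih =>
      refine ⟨ih.2, ?_⟩
      funext y
      change (g (k + 2) y + c ^ 6 * (2 * dd ξ (par (fun _ => c) μ ξ g (k + 1)) y -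
        lap (par (fun _ => c) μ ξ g k) y)) / DD (fun _ => c) μ ξ y = _
      rw [ih.1, ih.2, hg, dd_const, lap_const]
      simp
  exact (key k).1

theorem sym_const (c μ : ℝ) (ξ : E4) (m : ℕ) : ∀ k, sym (fun _ => c) μ ξ m k =
    fun _ => if k = 0 then c ^ 3 / (μ + c ^ 6 * ‖ξ‖ ^ 2) ^ m else 0 := by
  induction m with
  | zero =>
    intro k
    funext y
    change (if k = 0 then c ^ 3 else 0) = _
    rw [pow_zero, div_one]
  | succ m ih =>
    intro k
    change par (fun _ => c) μ ξ (sym (fun _ => c) μ ξ m) k = _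
    rw [par_const c μ ξ _ ih k, div_div, ← pow_succ]

theorem Bop_const (c μ : ℝ) (ξ : E4) (a : ℝ) :
    Bop (fun _ => c) μ ξ (fun _ => a, fun _ => 0) =
      (fun _ => (μ + c ^ 6 * ‖ξ‖ ^ 2) * a, fun _ => 0) := by
  unfold Bop
  simp only [dd_const, lap_const, DD, mul_zero, sub_zero, add_zero]

theorem Bop_iter_const (c μ : ℝ) (ξ : E4) (a : ℝ) (n : ℕ) :
    (Bop (fun _ => c) μ ξ)^[n] (fun _ => a, fun _ => 0) =
      (fun _ => (μ + c ^ 6 * ‖ξ‖ ^ 2) ^ n * a, fun _ => 0) := by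
  induction n with
  | zero => simp only [Function.iterate_zero_apply, pow_zero, one_mul]
  | succ n ih =>
    rw [Function.iterate_succ_apply', ih, Bop_const, pow_succ' _ n, mul_assoc]

theorem tri_const (c μ : ℝ) (ξ : E4) : tri (fun _ => c) (fun _ => 1) μ ξ =
    (fun _ => c ^ 3 / (μ + c ^ 6 * ‖ξ‖ ^ 2) ^ 4, fun _ => 0) := by
  unfold tri PP QQ
  simp [sym_const]

theorem Dens_const (c μ : ℝ) (z : E4 × E4) (hc : 0 < c) (hμ : 0 < μ) :
    Dens (fun _ => c) (fun _ => 1) μ z = 1 / (μ + c ^ 6 * ‖z.2‖ ^ 2) ^ 4 := by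
  have hD : μ + c ^ 6 * ‖z.2‖ ^ 2 ≠ 0 := by positivity
  have hc' := hc.ne'
  unfold Dens den
  rw [tri_const, Bop_iter_const]
  simp only []
  field_simp
  ring

end Loc

theorem loc_holds : LocStmt :=
  ⟨fun _ _ μ _ ξ h m k => Loc.sym_ev μ ξ h m k,
    fun _ _ _ _ μ _ ξ h hχ => Loc.Dens_eq μ ξ h hχ,
    fun w μ z => by simp [Dens, den, tri],
    fun _ _ _ h => Loc.Gd_eq h,
    fun c μ ξ m k => Loc.sym_const c μ ξ m k,
    fun c μ z hc hμ => Loc.Dens_const c μ z hc hμ⟩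

end Pool.Agent.Lib.MP_465ce1_mp.Cx
end
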