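import Pool.Agent.Lib.MP_465ce1_mp.Cx.PInt

/-!
The second order matching of the pieces of the spline, by reflection.
-/

open scoped ContDiff

namespace Pool.Agent.Lib.MP_465ce1_mp.Cx

namespace Match

/-- Sum of coefficient lists. -/
def add1 : List ℚ → List ℚ → List ℚ
  | [], q => q
  | a :: p, [] => a :: p
  | a :: p, b :: q => (a + b) :: add1 p q

/-- Product of coefficient lists. -/
def mul1 : List ℚ → List ℚ → List ℚ
  | [], _ => []
  | a :: p, q => add1 (q.map (a * ·)) (0 :: mul1 p q)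

/-- Sum in two variables. -/
def add2 : List (List ℚ) → List (List ℚ) → List (List ℚ)
  | [], q => q
  | a :: p, [] => a :: p
  | a :: p, b :: q => add1 a b :: add2 p q

/-- Product in two variables. -/
def mul2 : List (List ℚ) → List (List ℚ) → List (List ℚ)
  | [], _ => []
  | a :: p, q => add2 (q.map (mul1 a)) ([] :: mul2 p q)

/-- Evaluation, one variable. -/
noncomputable def e1 (y : ℝ) : List ℚ → ℝ
  | [] => 0
  | a :: p => a + y * e1 y p

/-- Evaluation, two variables. -/
noncomputable def e2 (y t : ℝ) : List (List ℚ) → ℝ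
  | [] => 0
  | a :: p => e1 y a + t * e2 y t p

theorem e1_add (y : ℝ) : ∀ p q, e1 y (add1 p q) = e1 y p + e1 y q
  | [], q => by simp [add1, e1]
  | a :: p, [] => by simp [add1, e1]
  | a :: p, b :: q => by simp only [add1, e1, e1_add y p q]; push_cast; ring

theorem e1_map (y : ℝ) (a : ℚ) : ∀ q : List ℚ, e1 y (q.map (a * ·)) = a * e1 y q
  | [] => by simp [e1]
  | b :: q => by simp only [List.map, e1, e1_map y a q]; push_cast; ring

theorem e1_mul (y : ℝ) : ∀ p q, e1 y (mul1 p q) = e1 y p * e1 y q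
  | [], q => by simp [mul1, e1]
  | a :: p, q => by simp only [mul1, e1_add, e1_map, e1, e1_mul y p q]; push_cast; ring

theorem e2_add (y t : ℝ) : ∀ p q, e2 y t (add2 p q) = e2 y t p + e2 y t q
  | [], q => by simp [add2, e2]
  | a :: p, [] => by simp [add2, e2]
  | a :: p, b :: q => by simp only [add2, e2, e1_add, e2_add y t p q]; ring

theorem e2_map (y t : ℝ) (a : List ℚ) :
    ∀ q : List (List ℚ), e2 y t (q.map (mul1 a)) = e1 y a * e2 y t q
  | [] => by simp [e2]
  | b :: q => by simp only [List.map, e2, e1_mul, e2_map y t a q]; ring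

theorem e2_mul (y t : ℝ) : ∀ p q, e2 y t (mul2 p q) = e2 y t p * e2 y t q
  | [], q => by simp [mul2, e2]
  | a :: p, q => by simp only [mul2, e2_add, e2_map, e2, e1, e2_mul y t p q]; ring

theorem cd1 : ∀ p, ContDiff ℝ ∞ fun z : ℝ × ℝ => e1 z.1 p
  | [] => contDiff_const
  | _ :: p => contDiff_const.add (contDiff_fst.mul (cd1 p))

theorem cd2 : ∀ p, ContDiff ℝ ∞ fun z : ℝ × ℝ => e2 z.1 z.2 p
  | [] => contDiff_const
  | a :: p => (cd1 a).add (contDiff_snd.mul (cd2 p))

theorem e1_zero (y : ℝ) : ∀ p : List ℚ, p.all (fun a => decide (a = 0)) = true → e1 y p = 0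
  | [], _ => rfl
  | a :: p, h => by
    simp only [List.all_cons, Bool.and_eq_true, decide_eq_true_eq] at h
    simp [e1, h.1, e1_zero y p h.2]

theorem e2_zero (y t : ℝ) : ∀ p : List (List ℚ),
    p.all (fun r => r.all fun a => decide (a = 0)) = true → e2 y t p = 0
  | [], _ => rfl
  | a :: p, h => by
    simp only [List.all_cons, Bool.and_eq_true] at h
    simp [e2, e1_zero y a h.1, e2_zero y t p h.2]

/-- Polynomials in two variables. -/
structure P2 where
  c : List (List ℚ)

/-- Constants. -/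
def C (a : ℚ) : P2 := ⟨[[a]]⟩

/-- The first variable. -/
def Y : P2 := ⟨[[0, 1]]⟩

/-- The second variable. -/
def T : P2 := ⟨[[], [1]]⟩

instance : Add P2 := ⟨fun a b => ⟨add2 a.c b.c⟩⟩
instance : Mul P2 := ⟨fun a b => ⟨mul2 a.c b.c⟩⟩
instance : Sub P2 := ⟨fun a b => ⟨add2 a.c (b.c.map (mul1 [-1]))⟩⟩
instance : IntCast P2 := ⟨fun n => C n⟩

/-- Evaluation. -/
noncomputable def evq (p : P2) (y t : ℝ) : ℝ := e2 y t p.c

/-- All coefficients vanish. -/
def isZ (p : P2) : Bool := p.c.all fun r => r.all fun a => decide (a = 0)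

variable (y t : ℝ)

theorem ev_add (a b : P2) : evq (a + b) y t = evq a y t + evq b y t := e2_add y t _ _
theorem ev_mul (a b : P2) : evq (a * b) y t = evq a y t * evq b y t := e2_mul y t _ _
theorem ev_sub (a b : P2) : evq (a - b) y t = evq a y t - evq b y t := by
  change e2 y t (add2 a.c (b.c.map (mul1 [-1]))) = _
  rw [e2_add, e2_map]; simp [e1, evq]; ring
theorem ev_C (a : ℚ) : evq (C a) y t = a := by simp [evq, C, e2, e1]
theorem ev_Y : evq Y y t = y := by simp [evq, Y, e2, e1]
theorem ev_T : evq T y t = t := by simp [evq, T, e2, e1]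
theorem ev_cst (n : ℤ) : evq (cst n) y t = cst n := by
  change evq (C n) y t = (n : ℝ)
  rw [ev_C]; simp
theorem ev_isZ {p : P2} (h : isZ p = true) : evq p y t = 0 := e2_zero y t _ h

theorem ev_ev1 (a : P2) : ∀ r, evq (ev1 a r) y t = ev1 (evq a y t) r
  | [] => ev_cst y t 0
  | c :: r => by rw [ev1, ev1, ev_add, ev_mul, ev_cst, ev_ev1 a r]

theorem ev_ev2 (a b : P2) : ∀ p, evq (ev2 a b p) y t = ev2 (evq a y t) (evq b y t) p
  | [] => ev_cst y t 0
  | r :: p => by rw [ev2, ev2, ev_add, ev_mul, ev_ev1, ev_ev2 a b p]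

/-- The polynomial of a piece after a substitution. -/
def polq (P : Pc) (a b : P2) : P2 := C (1 / P.lam) * ev2 a b P.p

theorem ev_polq (P : Pc) (a b : P2) : evq (polq P a b) y t = P.pol (evq a y t) (evq b y t) := by
  rw [polq, ev_mul, ev_C, ev_ev2, Pc.pol]; push_cast; ring

/-- Synthetic division by `t - s`; the head of the result is the remainder. -/
def syn (s : ℚ) : List (List ℚ) → List (List ℚ)
  | [] => []
  | r :: p => match syn s p with
    | [] => [r]
    | u :: q => add1 r (u.map (s * ·)) :: u :: q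

theorem syn_ok (s : ℚ) : ∀ p, e2 y t p =
    e1 y ((syn s p).headD []) + (t - s) * e2 y t (syn s p).tail
  | [] => by simp [syn, e2, e1]
  | r :: p => by
    have ih := syn_ok s p
    rw [syn]
    cases h : syn s p with
    | nil => rw [h] at ih; simp [e2, e1, ih]
    | cons u q =>
      rw [h] at ih
      simp only [List.headD_cons, List.tail_cons, e2, e1_add, e1_map] at ih ⊢
      rw [ih]; ring

/-- The remainder of the synthetic division vanishes. -/
def rem0 (s : ℚ) (p : List (List ℚ)) : Bool :=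
  ((syn s p).headD []).all fun a => decide (a = 0)

/-- The check that the cube of `t - s` is a factor. -/
def chk3 (s : ℚ) (p : P2) : Bool :=
  rem0 s p.c && rem0 s (syn s p.c).tail && rem0 s (syn s (syn s p.c).tail).tail

theorem cof (s : ℚ) (p : P2) (h : chk3 s p = true) : ∃ H : ℝ × ℝ → ℝ, ContDiff ℝ ∞ H ∧
    ∀ y t, evq p y t = (t - s) ^ 3 * H (y, t) := by
  refine ⟨fun z => e2 z.1 z.2 (syn s (syn s (syn s p.c).tail).tail).tail, cd2 _, fun y t => ?_⟩
  simp only [chk3, rem0, Bool.and_eq_true] at h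
  rw [evq, syn_ok y t s p.c, e1_zero y _ h.1.1, syn_ok y t s (syn s p.c).tail,
    e1_zero y _ h.1.2, syn_ok y t s (syn s (syn s p.c).tail).tail, e1_zero y _ h.2]
  ring

/-- The substitution of the twelfth power. -/
def spr : List (List ℚ) → List (List ℚ)
  | [] => []
  | r :: p => r :: [] :: [] :: [] :: [] :: [] :: [] :: [] :: [] :: [] :: [] :: [] :: spr p

theorem e2_spr : ∀ p, e2 y t (spr p) = e2 y (t ^ 12) p
  | [] => rfl
  | r :: p => by simp only [spr, e2, e1, e2_spr p]; ring

/-- The substitution of the twelfth power. -/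
def S12 (p : P2) : P2 := ⟨spr p.c⟩

theorem ev_S12 (p : P2) : evq (S12 p) y t = evq p y (t ^ 12) := e2_spr y t _

theorem c1 : chk3 1 (S12 (polq pcWr Y T) - polq pcT Y T) = true := by decide +kernel
theorem c2 : chk3 (3 / 8) (polq pcT Y T - S12 (polq pcC Y (C ((8 / 3) ^ 12) * T))) = true := by
  decide +kernel
theorem c3 : chk3 1 (polq pcO Y T - S12 (polq pcW (Y * T) T)) = true := by
  decide +kernel
theorem c4 : chk3 2 (C (23575195 / 16777216) - polq pcO Y T) = true := by decide +kernel
theorem c5 : isZ (polq pcWr Y T -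
    polq pcW (Y + C (1 / 2)) (C (15 / 64) * T + Y + C (1 / 4))) = true := by decide +kernel
theorem c6 : isZ (polq pcW (C 0 - Y) T - polq pcW Y T) = true := by decide +kernel

end Match

open Match in
theorem match_holds : MatchStmt := by
  obtain ⟨H1, s1, k1⟩ := cof _ _ c1
  obtain ⟨H2, s2, k2⟩ := cof _ _ c2
  obtain ⟨H3, s3, k3⟩ := cof _ _ c3
  obtain ⟨H4, s4, k4⟩ := cof _ _ c4
  refine ⟨⟨H1, H2, H3, H4, s1, s2, s3, s4, fun y t => ?_, fun y t => ?_, fun y t => ?_,
    fun y t => ?_, fun y t => ?_, fun y t => ?_⟩⟩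
  · have := k1 y t
    rw [ev_sub, ev_S12, ev_polq, ev_polq, ev_Y, ev_Y, ev_T, ev_T] at this
    rw [this]; norm_num
  · have := k2 y t
    rw [ev_sub, ev_S12, ev_polq, ev_polq, ev_mul, ev_C, ev_Y, ev_Y, ev_T, ev_T] at this
    push_cast at this
    rw [mul_pow]; exact this
  · have := k3 y t
    rw [ev_sub, ev_S12, ev_polq, ev_polq, ev_mul, ev_Y, ev_Y, ev_T, ev_T] at this
    rw [this]; norm_num
  · have := k4 y t
    rw [ev_sub, ev_polq, ev_C, ev_Y, ev_T] at this
    push_cast at this
    exact this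
  · have := ev_isZ y t c5
    rw [ev_sub, ev_polq, ev_polq, ev_add, ev_add, ev_add, ev_mul, ev_C, ev_C, ev_C, ev_Y, ev_T,
      sub_eq_zero] at this
    push_cast at this
    exact this
  · have := ev_isZ y t c6
    rw [ev_sub, ev_polq, ev_polq, ev_sub, ev_C, ev_Y, ev_T, sub_eq_zero] at this
    simpa using this

end Pool.Agent.Lib.MP_465ce1_mp.Cx
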