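import Pool.Agent.Lib.MP_465ce1_mp.Cx.PInt

-- part Pool.Agent.Lib.MP_465ce1_mp.Cx.Ax
section

/-!
The density of the order six invariant in axial variables.
-/

open MeasureTheory Filter Topology
open scoped ContDiff RealInnerProductSpace

namespace Pool.Agent.Lib.MP_465ce1_mp.Cx

namespace Ax

/-- Differentiable with given coordinate derivatives. -/
def Der (x : E4) (f : E4 → ℝ) (d : Fin 4 → ℝ) : Prop :=
  DifferentiableAt ℝ f x ∧ ∀ k, dd (ee k) f x = d k

theorem Der.of_eq {x : E4} {f : E4 → ℝ} {d d' : Fin 4 → ℝ} (h : Der x f d)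
    (e : ∀ k, d k = d' k) : Der x f d' := ⟨h.1, fun k => (h.2 k).trans (e k)⟩

theorem Der.add {x : E4} {f g : E4 → ℝ} {d d' : Fin 4 → ℝ} (h : Der x f d) (h' : Der x g d') :
    Der x (fun y => f y + g y) fun k => d k + d' k := by
  refine ⟨h.1.add h'.1, fun k => ?_⟩
  beta_reduce
  rw [← h.2 k, ← h'.2 k]
  simp only [dd]
  rw [fderiv_fun_add h.1 h'.1]; rfl

theorem Der.mul {x : E4} {f g : E4 → ℝ} {d d' : Fin 4 → ℝ} (h : Der x f d) (h' : Der x g d') :
    Der x (fun y => f y * g y) fun k => f x * d' k + g x * d k := by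
  refine ⟨h.1.mul h'.1, fun k => ?_⟩
  beta_reduce
  rw [← h.2 k, ← h'.2 k]
  simp only [dd]
  rw [fderiv_fun_mul h.1 h'.1]; rfl

theorem Der.const (x : E4) (c : ℝ) : Der x (fun _ => c) fun _ => 0 :=
  ⟨differentiableAt_const c, fun k => by simp [dd]⟩

theorem Der.congr {x : E4} {f g : E4 → ℝ} {d : Fin 4 → ℝ} (h : Der x f d) (e : g =ᶠ[𝓝 x] f) :
    Der x g d := by
  refine ⟨h.1.congr_of_eventuallyEq e, fun k => ?_⟩
  rw [← h.2 k]
  simp only [dd]
  rw [e.fderiv_eq]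

/-- Kronecker symbol. -/
def de (i j : Fin 4) : ℝ := if i = j then 1 else 0

theorem Der.coord (x z : E4) (j : Fin 4) : Der x (fun y => y j - z j) fun k => de k j := by
  have h : HasFDerivAt (fun y : E4 => y j - z j) (EuclideanSpace.proj j : E4 →L[ℝ] ℝ) x :=
    (EuclideanSpace.proj j : E4 →L[ℝ] ℝ).hasFDerivAt.sub_const _
  refine ⟨h.differentiableAt, fun k => ?_⟩
  simp only [dd]
  rw [h.fderiv]
  simp [ee, de, eq_comm]

/-- The gradient of a function of the axial variables. -/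
def gr (s : ℝ) (y : Fin 4 → ℝ) (a b : ℝ) (k : Fin 4) : ℝ := s * de k 0 * a + 2 * b * y k

theorem der_of_axial {s : ℝ} {z x : E4} {f : E4 → ℝ} {a b : ℝ}
    (h : HasFDerivAt f ((s * a) • innerSL ℝ (ee 0) + (2 * b) • innerSL ℝ (x - z)) x) :
    Der x f (gr s (fun k => x k - z k) a b) := by
  refine ⟨h.differentiableAt, fun k => ?_⟩
  simp only [dd]
  rw [h.fderiv]
  simp only [add_apply, smul_apply, innerSL_apply_apply,
    ee, EuclideanSpace.inner_single_right, gr, de, smul_eq_mul]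
  by_cases hk : k = 0 <;> simp [hk]

/-- The Hessian. -/
def he (s : ℝ) (y : Fin 4 → ℝ) (g01 g20 g11 g02 : ℝ) (i j : Fin 4) : ℝ :=
  s * de j 0 * gr s y g20 g11 i + (2 * gr s y g11 g02 i * y j + 2 * g01 * de i j)

/-- The third derivatives. -/
def th (s : ℝ) (y : Fin 4 → ℝ) (g11 g02 g30 g21 g12 g03 : ℝ) (l i j : Fin 4) : ℝ :=
  s * de j 0 * he s y g11 g30 g21 g12 l i + 2 * he s y g02 g21 g12 g03 l i * y j +
    2 * gr s y g11 g02 i * de l j + 2 * gr s y g11 g02 l * de i j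

theorem der_gr {s : ℝ} {z x : E4} {a b : E4 → ℝ} {da db : Fin 4 → ℝ} (ha : Der x a da)
    (hb : Der x b db) (j : Fin 4) :
    Der x (fun y => gr s (fun k => y k - z k) (a y) (b y) j) fun i =>
      s * de j 0 * da i + (2 * db i * (x j - z j) + 2 * b x * de i j) :=
  (((Der.const x (s * de j 0)).mul ha).add
    (((Der.const x 2).mul hb).mul (Der.coord x z j))).of_eq fun k => by ring

theorem gd_abs (w : ℝ) (a : Fin 4 → ℝ) (H : Fin 4 → Fin 4 → ℝ) (T : Fin 4 → Fin 4 → Fin 4 → ℝ) :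
    ∑ i, ∑ j, ∑ k, (91 * (a i ^ 2 * a j ^ 2 * a k ^ 2) - 105 * (w * H i i * a j ^ 2 * a k ^ 2)
      + 96 * (w ^ 2 * a j * a k * H i j * H i k) + 8 * (w ^ 3 * a k * H j k * T i i j)
      - 7 * (w ^ 3 * H i i * H j j * H k k) + 12 * (w ^ 3 * H i j * H j k * H i k)
      + w ^ 4 * T i i j * T j k k) =
    91 * (∑ i, a i ^ 2) ^ 3 - 105 * (w * (∑ i, H i i) * (∑ i, a i ^ 2) ^ 2)
      + 96 * (w ^ 2 * ∑ i, (∑ j, a j * H i j) * (∑ j, a j * H i j))
      + 8 * (w ^ 3 * ∑ j, (∑ i, T i i j) * (∑ k, a k * H j k))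
      - 7 * (w ^ 3 * (∑ i, H i i) ^ 3) + 12 * (w ^ 3 * ∑ i, ∑ j, ∑ k, H i j * H j k * H i k)
      + w ^ 4 * ∑ j, (∑ i, T i i j) * (∑ k, T j k k) := by
  simp only [Fin.sum_univ_four]
  ring

/-- A vector in the moving frame. -/
def fr (s : ℝ) (y : Fin 4 → ℝ) (a b : ℝ) (k : Fin 4) : ℝ := s * de k 0 * a + b * y k

section Alg

variable {s X R : ℝ} {y : Fin 4 → ℝ} (hs : s = 1 ∨ s = -1) (hX : X = s * y 0)
  (hR : R = y 0 ^ 2 + y 1 ^ 2 + y 2 ^ 2 + y 3 ^ 2)

include hs hX hR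

theorem sum_fr (a b a' b' : ℝ) :
    ∑ k, fr s y a b k * fr s y a' b' k = a * a' + X * (a * b' + b * a') + R * (b * b') := by
  subst hX hR
  rcases hs with rfl | rfl <;> simp [Fin.sum_univ_four, fr, de] <;> ring

theorem sum_sq (g10 g01 : ℝ) :
    ∑ k, gr s y g10 g01 k ^ 2 = g10 ^ 2 + 4 * X * g10 * g01 + 4 * R * g01 ^ 2 := by
  subst hX hR
  rcases hs with rfl | rfl <;> simp [Fin.sum_univ_four, gr, de] <;> ring

theorem sum_tr (g01 g20 g11 g02 : ℝ) :
    ∑ i, he s y g01 g20 g11 g02 i i = g20 + 4 * X * g11 + 4 * R * g02 + 8 * g01 := by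
  subst hX hR
  rcases hs with rfl | rfl <;> simp [Fin.sum_univ_four, he, gr, de] <;> ring

theorem sum_ha (g10 g01 g20 g11 g02 : ℝ) (i : Fin 4) :
    ∑ j, gr s y g10 g01 j * he s y g01 g20 g11 g02 i j =
      fr s y (g20 * (g10 + 2 * X * g01) + 2 * g11 * (X * g10 + 2 * R * g01) + 2 * g01 * g10)
        (2 * g11 * (g10 + 2 * X * g01) + 4 * g02 * (X * g10 + 2 * R * g01) + 4 * g01 ^ 2) i := by
  subst hX hR
  rcases hs with rfl | rfl <;> fin_cases i <;> simp [Fin.sum_univ_four, he, gr, fr, de] <;> ring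

theorem sum_t1 (g11 g02 g30 g21 g12 g03 : ℝ) (j : Fin 4) :
    ∑ i, th s y g11 g02 g30 g21 g12 g03 i i j =
      fr s y (g30 + 4 * X * g21 + 4 * R * g12 + 12 * g11)
        (2 * (g21 + 4 * X * g12 + 4 * R * g03 + 12 * g02)) j := by
  subst hX hR
  rcases hs with rfl | rfl <;> fin_cases j <;>
    simp [Fin.sum_univ_four, th, he, gr, fr, de] <;> ring

theorem sum_t2 (g11 g02 g30 g21 g12 g03 : ℝ) (j : Fin 4) :
    ∑ k, th s y g11 g02 g30 g21 g12 g03 j k k =
      fr s y (g30 + 4 * X * g21 + 4 * R * g12 + 12 * g11)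
        (2 * (g21 + 4 * X * g12 + 4 * R * g03 + 12 * g02)) j := by
  subst hX hR
  rcases hs with rfl | rfl <;> fin_cases j <;>
    simp [Fin.sum_univ_four, th, he, gr, fr, de] <;> ring

theorem sum_cube (g01 g20 g11 g02 T D m : ℝ) (hT : T = g20 + 4 * X * g11 + 4 * R * g02)
    (hD : D = 4 * (g20 * g02 - g11 ^ 2) * (R - X ^ 2)) (hm : m = 2 * g01) :
    ∑ i, ∑ j, ∑ k, he s y g01 g20 g11 g02 i j * he s y g01 g20 g11 g02 j k *
      he s y g01 g20 g11 g02 i k =
      T ^ 3 - 3 * T * D + 3 * m * (T ^ 2 - 2 * D) + 3 * m ^ 2 * T + 4 * m ^ 3 := by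
  subst hX hR hT hD hm
  rcases hs with rfl | rfl <;> simp [Fin.sum_univ_four, he, gr, de] <;> ring

end Alg

theorem psiC_eq (X R w G L a b l1 l2 T D m : ℝ) :
    psiC X R 1 w (R * G) (R * L) (R * a) (R ^ 2 * b) (R * l1) (R ^ 2 * l2) (R * T) (R ^ 2 * D)
      (R * m) =
    R ^ 3 * (91 * G ^ 3 - 105 * (w * L * G ^ 2)
      + 96 * (w ^ 2 * (a * a + X * (a * b + b * a) + R * (b * b)))
      + 8 * (w ^ 3 * (l1 * a + X * (l1 * b + l2 * a) + R * (l2 * b)))
      - 7 * (w ^ 3 * L ^ 3)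
      + 12 * (w ^ 3 * (T ^ 3 - 3 * T * D + 3 * m * (T ^ 2 - 2 * D) + 3 * m ^ 2 * T + 4 * m ^ 3))
      + w ^ 4 * (l1 * l1 + X * (l1 * l2 + l2 * l1) + R * (l2 * l2))) := by
  simp only [psiC, ipr, cst]
  push_cast
  ring

theorem gd_eq {s : ℝ} {z : E4} {U : Set E4} (hs : s = 1 ∨ s = -1) (hU : IsOpen U)
    {g00 g10 g01 g20 g11 g02 g30 g21 g12 g03 : E4 → ℝ}
    (h00 : ∀ x ∈ U, Der x g00 (gr s (fun k => x k - z k) (g10 x) (g01 x)))
    (h10 : ∀ x ∈ U, Der x g10 (gr s (fun k => x k - z k) (g20 x) (g11 x)))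
    (h01 : ∀ x ∈ U, Der x g01 (gr s (fun k => x k - z k) (g11 x) (g02 x)))
    (h20 : ∀ x ∈ U, Der x g20 (gr s (fun k => x k - z k) (g30 x) (g21 x)))
    (h11 : ∀ x ∈ U, Der x g11 (gr s (fun k => x k - z k) (g21 x) (g12 x)))
    (h02 : ∀ x ∈ U, Der x g02 (gr s (fun k => x k - z k) (g12 x) (g03 x)))
    {x : E4} (hx : x ∈ U) {R : ℝ} (hR : R = ‖x - z‖ ^ 2) :
    R ^ 3 * Gd g00 x = psiW (ax s z x) R 1 (g00 x) (g10 x) (R * g01 x) (g20 x) (R * g11 x)
      (R ^ 2 * g02 x) (g30 x) (R * g21 x) (R ^ 2 * g12 x) (R ^ 3 * g03 x) := by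
  have d1 : ∀ j, ∀ x ∈ U, dd (ee j) g00 x = gr s (fun k => x k - z k) (g10 x) (g01 x) j :=
    fun j x hx => (h00 x hx).2 j
  have d2 : ∀ i j, ∀ x ∈ U, dd (ee i) (dd (ee j) g00) x =
      he s (fun k => x k - z k) (g01 x) (g20 x) (g11 x) (g02 x) i j := fun i j x hx =>
    ((der_gr (s := s) (z := z) (h10 x hx) (h01 x hx) j).congr
      (eventually_of_mem (hU.mem_nhds hx) (d1 j))).2 i
  have d3 : ∀ l i j, dd (ee l) (dd (ee i) (dd (ee j) g00)) x =
      th s (fun k => x k - z k) (g11 x) (g02 x) (g30 x) (g21 x) (g12 x) (g03 x) l i j := by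
    intro l i j
    have h1 := ((Der.const x (s * de j 0)).mul
      (der_gr (s := s) (z := z) (h20 x hx) (h11 x hx) i)).add
      ((((Der.const x 2).mul (der_gr (s := s) (z := z) (h11 x hx) (h02 x hx) i)).mul
        (Der.coord x z j)).add (((Der.const x 2).mul (h01 x hx)).mul (Der.const x (de i j))))
    rw [(h1.congr (eventually_of_mem (hU.mem_nhds hx) (d2 i j))).2 l]
    simp only [th, he]
    ring
  have hX : ax s z x = s * (fun k => x k - z k) 0 := rfl
  have hR' : R = (fun k => x k - z k) 0 ^ 2 + (fun k => x k - z k) 1 ^ 2 +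
      (fun k => x k - z k) 2 ^ 2 + (fun k => x k - z k) 3 ^ 2 := by
    rw [hR, EuclideanSpace.real_norm_sq_eq, Fin.sum_univ_four]
    simp
  generalize ax s z x = X at hX ⊢
  unfold Gd
  simp only [d3]
  simp only [d2 _ _ x hx]
  simp only [d1 _ x hx]
  generalize (fun k => x k - z k) = y at hX hR' ⊢
  rw [gd_abs]
  simp only [sum_ha hs hX hR', sum_t1 hs hX hR', sum_t2 hs hX hR', sum_fr hs hX hR',
    sum_sq hs hX hR', sum_tr hs hX hR', sum_cube hs hX hR' _ _ _ _ _ _ _ rfl rfl rfl]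
  rw [← psiC_eq]
  simp only [psiW, psiB, cst]
  push_cast
  congr 1 <;> ring

end Ax

open Ax in
theorem ax_holds : AxStmt := by
  intro s η z U f hs hU hf x hx
  have h := fun i j hij x hx => der_of_axial (hf i j hij x hx)
  have h00 := h 0 0 (by omega)
  have h10 := h 1 0 (by omega)
  have h01 := h 0 1 (by omega)
  have h20 := h 2 0 (by omega)
  have h11 := h 1 1 (by omega)
  have h02 := h 0 2 (by omega)
  have e0 : (fun y => f 0 0 y ^ 2 + η) = fun y => f 0 0 y * f 0 0 y + η := by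
    ext y; ring
  rw [e0, gd_eq hs hU (g10 := fun y => 2 * (f 0 0 y * f 1 0 y))
    (g01 := fun y => 2 * (f 0 0 y * f 0 1 y))
    (g20 := fun y => 2 * (f 0 0 y * f 2 0 y + f 1 0 y * f 1 0 y))
    (g11 := fun y => 2 * (f 0 0 y * f 1 1 y + f 1 0 y * f 0 1 y))
    (g02 := fun y => 2 * (f 0 0 y * f 0 2 y + f 0 1 y * f 0 1 y))
    (g30 := fun y => 2 * (f 0 0 y * f 3 0 y + 3 * (f 1 0 y * f 2 0 y)))
    (g21 := fun y => 2 * (f 0 0 y * f 2 1 y + 2 * (f 1 0 y * f 1 1 y) + f 0 1 y * f 2 0 y))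
    (g12 := fun y => 2 * (f 0 0 y * f 1 2 y + 2 * (f 0 1 y * f 1 1 y) + f 1 0 y * f 0 2 y))
    (g03 := fun y => 2 * (f 0 0 y * f 0 3 y + 3 * (f 0 1 y * f 0 2 y)))
    (fun x hx => (((h00 x hx).mul (h00 x hx)).add (Der.const x η)).of_eq fun k => by
      simp only [gr]; ring)
    (fun x hx => ((Der.const x 2).mul ((h00 x hx).mul (h10 x hx))).of_eq fun k => by
      simp only [gr]; ring)
    (fun x hx => ((Der.const x 2).mul ((h00 x hx).mul (h01 x hx))).of_eq fun k => by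
      simp only [gr]; ring)
    (fun x hx => ((Der.const x 2).mul (((h00 x hx).mul (h20 x hx)).add
      ((h10 x hx).mul (h10 x hx)))).of_eq fun k => by simp only [gr]; ring)
    (fun x hx => ((Der.const x 2).mul (((h00 x hx).mul (h11 x hx)).add
      ((h10 x hx).mul (h01 x hx)))).of_eq fun k => by simp only [gr]; ring)
    (fun x hx => ((Der.const x 2).mul (((h00 x hx).mul (h02 x hx)).add
      ((h01 x hx).mul (h01 x hx)))).of_eq fun k => by simp only [gr]; ring) hx rfl]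
  simp only [psiO, cst]
  push_cast
  congr 1 <;> ring

end Pool.Agent.Lib.MP_465ce1_mp.Cx
end

-- part Pool.Agent.Lib.MP_465ce1_mp.Cx.Jet
section

/-!
Scaling of the density polynomial and the jets of a piece.
-/

open Filter Topology
open scoped RealInnerProductSpace

namespace Pool.Agent.Lib.MP_465ce1_mp.Cx

namespace Jet

theorem cst_eq (n : ℤ) : (cst n : ℝ) = n := rfl

theorem psiC_scale (y n d l M g00 G1 L1 al be l1 l2 T Dt mu : ℝ) (hd : d ≠ 0) (hl : l ≠ 0)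
    (hM : M ≠ 0) :
    psiC (y * l) (l ^ 2 * n / d) 1 (g00 / M) (G1 / (d * M ^ 2)) (L1 / (d * M))
      (al / (d * M ^ 2 * l)) (be / (d * M ^ 2)) (l1 / (d * M * l)) (l2 / (d * M)) (T / (d * M))
      (Dt / (d ^ 2 * M ^ 2)) (mu / (d * M)) * (d ^ 3 * M ^ 6) =
      psiC y n d g00 G1 L1 al be l1 l2 T Dt mu := by
  simp only [psiC, ipr, cst_eq]
  push_cast
  field_simp

theorem psiW_scale (y n d l M g00 g10 g01 g20 g11 g02 g30 g21 g12 g03 : ℝ) (hd : d ≠ 0)
    (hl : l ≠ 0) (hM : M ≠ 0) :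
    psiW (y * l) (l ^ 2 * n / d) 1 (g00 / M) (g10 / (M * l)) (g01 / M) (g20 / (M * l ^ 2))
      (g11 / (M * l)) (g02 / M) (g30 / (M * l ^ 3)) (g21 / (M * l ^ 2)) (g12 / (M * l))
      (g03 / M) * (d ^ 3 * M ^ 6) =
      psiW y n d g00 g10 g01 g20 g11 g02 g30 g21 g12 g03 := by
  unfold psiW psiB
  rw [← psiC_scale y n d l M _ _ _ _ _ _ _ _ _ _ hd hl hM]
  congr 2 <;> simp only [cst_eq] <;> push_cast <;> field_simp

/-- Derivative in the axial and radial variables. -/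
def AxD (s : ℝ) (z x : E4) (f : E4 → ℝ) (g h : ℝ) : Prop :=
  HasFDerivAt f ((s * g) • innerSL ℝ (ee 0) + (2 * h) • innerSL ℝ (x - z)) x

variable {s : ℝ} {z x : E4} {f f' : E4 → ℝ} {g h g' h' : ℝ}

theorem AxD.cast (H : AxD s z x f g h) (e1 : g = g') (e2 : h = h') : AxD s z x f g' h' :=
  e1 ▸ e2 ▸ H

theorem AxD.const (c : ℝ) : AxD s z x (fun _ => c) 0 0 := by
  unfold AxD
  simpa using hasFDerivAt_const c x

theorem AxD.add (H : AxD s z x f g h) (H' : AxD s z x f' g' h') :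
    AxD s z x (fun x => f x + f' x) (g + g') (h + h') := by
  refine (HasFDerivAt.fun_add H H').congr_fderiv ?_
  module

theorem AxD.mul (H : AxD s z x f g h) (H' : AxD s z x f' g' h') :
    AxD s z x (fun x => f x * f' x) (f x * g' + f' x * g) (f x * h' + f' x * h) := by
  refine (HasFDerivAt.fun_mul H H').congr_fderiv ?_
  module

theorem AxD.comp {φ : ℝ → ℝ} {φ' : ℝ} (H : AxD s z x f g h) (hφ : HasDerivAt φ φ' (f x)) :
    AxD s z x (fun x => φ (f x)) (φ' * g) (φ' * h) := by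
  refine (hφ.comp_hasFDerivAt x H).congr_fderiv ?_
  module

theorem axD_ax : AxD s z x (ax s z) 1 0 := by
  have e : ax s z = fun x => s * (innerSL ℝ (ee 0) x - z 0) := by
    funext x
    simp [ax, ee, EuclideanSpace.inner_single_left]
  rw [e]
  refine ((((innerSL ℝ (ee 0)).hasFDerivAt (x := x)).sub_const (z 0)).const_mul s).congr_fderiv ?_
  module

theorem axD_R : AxD s z x (fun x => ‖x - z‖ ^ 2) 0 1 := by
  refine (((hasFDerivAt_id x).sub_const z).norm_sq).congr_fderiv ?_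
  ext v
  simp

theorem R_pos (hx : x ≠ z) : 0 < ‖x - z‖ ^ 2 := by
  have := sub_ne_zero.2 hx
  positivity

theorem sg_pos {ρ : ℝ} (hρ : 0 < ρ) (m : ℕ) (hx : x ≠ z) : 0 < sg z ρ m x :=
  Real.rpow_pos_of_pos (div_pos (R_pos hx) hρ) _

theorem axD_sg {ρ : ℝ} (hρ : 0 < ρ) (m : ℕ) (hx : x ≠ z) :
    AxD s z x (sg z ρ m) 0 (sg z ρ m x / (m * ‖x - z‖ ^ 2)) := by
  have hR := R_pos hx
  have h1 : HasDerivAt (fun r : ℝ => (r / ρ) ^ (1 / (m : ℝ)))
      (1 / ρ * (1 / (m : ℝ)) * (‖x - z‖ ^ 2 / ρ) ^ (1 / (m : ℝ) - 1)) (‖x - z‖ ^ 2) :=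
    ((hasDerivAt_id' _).div_const ρ).rpow_const (Or.inl (div_pos hR hρ).ne')
  refine (axD_R.comp h1).cast (mul_zero _) ?_
  rw [Real.rpow_sub_one (div_pos hR hρ).ne', sg]
  field_simp

/-- The radial part of a monomial. -/
noncomputable def rad (z : E4) (ρ : ℝ) (m : ℕ) (e : ℤ) (j : ℕ) (x : E4) : ℝ :=
  sg z ρ m x ^ e * (‖x - z‖ ^ 2) ^ (-(j : ℤ))

theorem axD_rad {ρ : ℝ} (hρ : 0 < ρ) {m : ℕ} (hm : 0 < m) (hx : x ≠ z) (e : ℤ) (j : ℕ) :
    AxD s z x (rad z ρ m e j) 0 ((e - j * m) / m * rad z ρ m e (j + 1) x) := by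
  have hR := (R_pos hx).ne'
  have ht := (sg_pos hρ m hx).ne'
  have hm' : (m : ℝ) ≠ 0 := by positivity
  refine (((axD_sg hρ m hx).comp (hasDerivAt_zpow e _ (Or.inl ht))).mul
    (axD_R.comp (hasDerivAt_zpow (-(j : ℤ)) _ (Or.inl hR)))).cast (by simp) ?_
  have e1 : (-((j + 1 : ℕ) : ℤ)) = -(j : ℤ) - 1 := by push_cast; ring
  rw [rad, e1, zpow_sub_one₀ hR, zpow_sub_one₀ ht]
  push_cast
  field_simp
  ring

/-- The coefficient of a monomial. -/
def coef (m sh i j b a : ℕ) (c : ℤ) : ℤ :=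
  c * (m : ℤ) ^ (3 - j) * fal m ((b : ℤ) - sh * a) j * fal 1 a i

/-- One monomial. -/
noncomputable def mono (s : ℝ) (z : E4) (ρ : ℝ) (m sh i j b a : ℕ) (c : ℤ) (x : E4) : ℝ :=
  (coef m sh i j b a c : ℝ) * (ax s z x ^ (a - i) * rad z ρ m ((b : ℤ) - sh * a) j x)

theorem fal_zero {a : ℕ} : ∀ {i : ℕ}, a < i → fal 1 a i = 0
  | i + 1, h => by
    rcases (Nat.lt_succ_iff.1 h).eq_or_lt with rfl | h
    · simp [fal]
    · simp [fal, fal_zero h]

theorem axD_mono {ρ : ℝ} (hρ : 0 < ρ) {m : ℕ} (hm : 0 < m) (hx : x ≠ z) (sh i : ℕ) {j : ℕ}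
    (hj : j ≤ 2) (b a : ℕ) (c : ℤ) :
    AxD s z x (mono s z ρ m sh i j b a c) (mono s z ρ m sh (i + 1) j b a c x)
      (mono s z ρ m sh i (j + 1) b a c x) := by
  have hm' : (m : ℝ) ≠ 0 := by positivity
  refine ((AxD.const (coef m sh i j b a c : ℝ)).mul
    ((axD_ax.comp (hasDerivAt_pow (a - i) _)).mul
      (axD_rad hρ hm hx ((b : ℤ) - sh * a) j))).cast ?_ ?_
  · rcases lt_or_ge a i with h | h
    · simp [mono, coef, fal, fal_zero h]
    · simp only [mono, coef, fal, Nat.cast_sub h, Nat.sub_sub]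
      push_cast
      ring
  · have e : 3 - j = 3 - (j + 1) + 1 := by omega
    simp only [mono, coef, fal]
    rw [e, pow_succ]
    push_cast
    field_simp
    ring

/-- The sum over a row. -/
noncomputable def rowM (s : ℝ) (z : E4) (ρ : ℝ) (m sh i j b : ℕ) : ℕ → List ℤ → E4 → ℝ
  | _, [] => fun _ => 0
  | a, c :: r => fun x => mono s z ρ m sh i j b a c x + rowM s z ρ m sh i j b (a + 1) r x

/-- The sum over all rows. -/
noncomputable def polM (s : ℝ) (z : E4) (ρ : ℝ) (m sh i j : ℕ) : ℕ → List (List ℤ) → E4 → ℝ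
  | _, [] => fun _ => 0
  | b, r :: p => fun x => rowM s z ρ m sh i j b 0 r x + polM s z ρ m sh i j (b + 1) p x

theorem axD_rowM {ρ : ℝ} (hρ : 0 < ρ) {m : ℕ} (hm : 0 < m) (hx : x ≠ z) (sh i : ℕ) {j : ℕ}
    (hj : j ≤ 2) (b : ℕ) : ∀ (r : List ℤ) (a : ℕ),
    AxD s z x (rowM s z ρ m sh i j b a r) (rowM s z ρ m sh (i + 1) j b a r x)
      (rowM s z ρ m sh i (j + 1) b a r x)
  | [], _ => AxD.const 0
  | c :: r, a => (axD_mono hρ hm hx sh i hj b a c).add (axD_rowM hρ hm hx sh i hj b r (a + 1))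

theorem axD_polM {ρ : ℝ} (hρ : 0 < ρ) {m : ℕ} (hm : 0 < m) (hx : x ≠ z) (sh i : ℕ) {j : ℕ}
    (hj : j ≤ 2) : ∀ (p : List (List ℤ)) (b : ℕ),
    AxD s z x (polM s z ρ m sh i j b p) (polM s z ρ m sh (i + 1) j b p x)
      (polM s z ρ m sh i (j + 1) b p x)
  | [], _ => AxD.const 0
  | r :: p, b => (axD_rowM hρ hm hx sh i hj b r 0).add (axD_polM hρ hm hx sh i hj p (b + 1))

theorem row_eq {ρ : ℝ} (hρ : 0 < ρ) (m : ℕ) (hx : x ≠ z) (sh i j b : ℕ) :
    ∀ (r : List ℤ) (a : ℕ),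
    ev1 (ax s z x / sg z ρ m x ^ sh) ((leafRow m sh i j b a r).drop (i - a)) *
      (ax s z x / sg z ρ m x ^ sh) ^ (a - i) * sg z ρ m x ^ b /
      ((sg z ρ m x ^ sh) ^ i * (‖x - z‖ ^ 2) ^ j) = rowM s z ρ m sh i j b a r x
  | [], a => by simp [leafRow, ev1, rowM, cst_eq]
  | c :: r, a => by
    have ih := row_eq hρ m hx sh i j b r (a + 1)
    have hR := (R_pos hx).ne'
    have ht := (sg_pos hρ m hx).ne'
    simp only [rowM]
    rw [← ih, leafRow]
    rcases lt_or_ge a i with h | h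
    · have e1 : i - a = i - (a + 1) + 1 := by omega
      have e2 : a - i = 0 := by omega
      have e3 : a + 1 - i = 0 := by omega
      rw [e1, List.drop_succ_cons, e2, e3]
      simp [mono, coef, fal_zero h]
    · obtain ⟨k, rfl⟩ := Nat.exists_eq_add_of_le h
      have e1 : i - (i + k) = 0 := by omega
      have e2 : i - (i + k + 1) = 0 := by omega
      have e3 : i + k - i = k := by omega
      have e4 : i + k + 1 - i = k + 1 := by omega
      have e5 : ((sh : ℤ) * ((i + k : ℕ) : ℤ)) = ((sh * (i + k) : ℕ) : ℤ) := by push_cast; ring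
      have e6 : sg z ρ m x ^ ((b : ℤ) - sh * (i + k : ℕ)) =
          sg z ρ m x ^ b / ((sg z ρ m x ^ sh) ^ i * (sg z ρ m x ^ sh) ^ k) := by
        rw [e5, zpow_sub₀ ht, zpow_natCast, zpow_natCast, pow_mul, pow_add]
      rw [e1, e2, e3, e4, List.drop_zero, List.drop_zero, ev1, mono, rad, e3, e6, zpow_neg,
        zpow_natCast, cst_eq, coef, div_pow, div_pow]
      field_simp
      ring

theorem pol_eq {ρ : ℝ} (hρ : 0 < ρ) (m : ℕ) (hx : x ≠ z) (sh i j : ℕ) :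
    ∀ (p : List (List ℤ)) (b : ℕ),
    ev2 (ax s z x / sg z ρ m x ^ sh) (sg z ρ m x) (leaf m sh i j b p) * sg z ρ m x ^ b /
      ((sg z ρ m x ^ sh) ^ i * (‖x - z‖ ^ 2) ^ j) = polM s z ρ m sh i j b p x
  | [], b => by simp [leaf, ev2, polM, cst_eq]
  | r :: p, b => by
    simp only [polM]
    rw [← pol_eq hρ m hx sh i j p (b + 1), ← row_eq hρ m hx sh i j b r 0, leaf, ev2]
    simp only [Nat.sub_zero, Nat.zero_sub, pow_zero, mul_one]
    ring

theorem ev1_zero (y : ℝ) (m sh b : ℕ) : ∀ (r : List ℤ) (a : ℕ),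
    ev1 y (leafRow m sh 0 0 b a r) = (m : ℝ) ^ 3 * ev1 y r
  | [], _ => by simp [leafRow, ev1, cst_eq]
  | c :: r, a => by
    rw [leafRow, ev1, ev1, ev1_zero y m sh b r (a + 1), cst_eq, cst_eq]
    simp only [fal]
    push_cast
    ring

theorem ev2_zero (y t : ℝ) (m sh : ℕ) : ∀ (p : List (List ℤ)) (b : ℕ),
    ev2 y t (leaf m sh 0 0 b p) = (m : ℝ) ^ 3 * ev2 y t p
  | [], _ => by simp [leaf, ev2, cst_eq]
  | r :: p, b => by
    rw [leaf, ev2, ev2, ev2_zero y t m sh p (b + 1), List.drop_zero, ev1_zero]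
    ring

end Jet

open Jet

theorem psiScale_holds : PsiScale := by
  intro y n d l L η o00 o10 o01 o20 o11 o02 o30 o21 o12 o03 hd hl hL
  unfold psiO
  rw [← psiW_scale y n d l (L ^ 2) _ _ _ _ _ _ _ _ _ _ hd hl (pow_ne_zero 2 hL)]
  congr 2
  all_goals first | (simp only [cst_eq]; push_cast; field_simp) | field_simp

theorem jet_holds : JetStmt := by
  rintro P s z ⟨h1, h2, hm, -, -, -, -, hl, -⟩
  have hρ : 0 < P.rho := by unfold Pc.rho; positivity
  have key : ∀ i j, ∀ x : E4, x ≠ z → P.jet s z i j x =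
      ((P.lam : ℝ) * P.m ^ 3)⁻¹ * polM s z P.rho P.m P.sh i j 0 P.p x := fun i j x hx => by
    rw [← pol_eq hρ P.m hx, Pc.jet, Pc.y, Pc.t]
    ring
  refine ⟨fun i j hij x hx => ?_, ?_⟩
  · have H := ((AxD.const (s := s) (z := z) (x := x) ((P.lam : ℝ) * P.m ^ 3)⁻¹).mul
      (axD_polM hρ hm hx P.sh i (j := j) (by omega) P.p 0)).cast
      (g' := P.jet s z (i + 1) j x) (h' := P.jet s z i (j + 1) x)
      (by rw [key _ _ x hx]; ring) (by rw [key _ _ x hx]; ring)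
    refine HasFDerivAt.congr_of_eventuallyEq H ?_
    filter_upwards [isOpen_compl_singleton.mem_nhds hx] with w hw using key i j w hw
  · funext x
    have hm' : (P.m : ℝ) ≠ 0 := by positivity
    have hl' : (P.lam : ℝ) ≠ 0 := by positivity
    rw [Pc.jet, Pc.om, ev2_zero]
    field_simp

end Pool.Agent.Lib.MP_465ce1_mp.Cx
end

-- part Pool.Agent.Lib.MP_465ce1_mp.Cx.Mom
section

/-!
Moments of spherical shells.
-/

open MeasureTheory Filter Topology Set
open scoped RealInnerProductSpace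

namespace Pool.Agent.Lib.MP_465ce1_mp.Cx

namespace Mom

/-- The angular moment. -/
noncomputable def A (a : ℕ) : ℝ :=
  ∫ ω : Metric.sphere (0 : E4) 1, (ω.1 0) ^ a ∂(volume : Measure E4).toSphere

theorem finrank_E4 : Module.finrank ℝ E4 = 4 := by simp

/-- Polar coordinates for a power of the first coordinate times a radial function. -/
theorem polar (a : ℕ) (g : ℝ → ℝ) :
    ∫ x : E4, x 0 ^ a * g ‖x‖ = A a * ∫ r in Ioi (0 : ℝ), r ^ (a + 3) * g r := by
  have h1 : ∫ x : E4, x 0 ^ a * g ‖x‖ =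
      ∫ x : ({(0)}ᶜ : Set E4), x.1 0 ^ a * g ‖x.1‖ ∂((volume : Measure E4).comap (↑)) := by
    rw [integral_subtype_comap (measurableSet_singleton _).compl
      fun x : E4 => x 0 ^ a * g ‖x‖, restrict_compl_singleton]
  have h2 := (volume : Measure E4).measurePreserving_homeomorphUnitSphereProd.integral_comp
    (Homeomorph.measurableEmbedding _)
    (fun p : Metric.sphere (0 : E4) 1 × Ioi (0 : ℝ) => (p.1.1 0) ^ a * (p.2.1 ^ a * g p.2.1))
  rw [finrank_E4] at h2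
  have h3 : ∀ x : ({(0)}ᶜ : Set E4), x.1 0 ^ a * g ‖x.1‖ =
      (((homeomorphUnitSphereProd E4 x).1.1 0) ^ a *
        ((homeomorphUnitSphereProd E4 x).2.1 ^ a * g (homeomorphUnitSphereProd E4 x).2.1)) := by
    intro x
    have hx : ‖x.1‖ ≠ 0 := norm_ne_zero_iff.2 x.2
    simp only [homeomorphUnitSphereProd_apply_fst_coe, homeomorphUnitSphereProd_apply_snd_coe,
      PiLp.smul_apply, smul_eq_mul, mul_pow, inv_pow]
    field_simp
  rw [h1, integral_congr_ae (Eventually.of_forall h3), h2,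
    integral_prod_mul (fun ω : Metric.sphere (0 : E4) 1 => (ω.1 0) ^ a)
      (fun r : Ioi (0 : ℝ) => r.1 ^ a * g r.1)]
  congr 1
  simp only [Measure.volumeIoiPow, ENNReal.ofReal]
  rw [integral_withDensity_eq_integral_smul,
    integral_subtype_comap measurableSet_Ioi fun r => Real.toNNReal (r ^ (4 - 1)) • (r ^ a * g r),
    setIntegral_congr_fun measurableSet_Ioi fun x hx => ?_]
  · rw [NNReal.smul_def, Real.coe_toNNReal _ (pow_nonneg hx.out.le _), smul_eq_mul]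
    ring
  · exact (measurable_subtype_coe.pow_const _).real_toNNReal

theorem integrable_polar (a : ℕ) (g : ℝ → ℝ) (hg : Measurable g)
    (h : IntegrableOn (fun r => r ^ (a + 3) * g r) (Ioi (0 : ℝ))) :
    Integrable fun x : E4 => x 0 ^ a * g ‖x‖ := by
  have h1 : Integrable fun x : E4 => ‖x‖ ^ a * g ‖x‖ := by
    rw [integrable_fun_norm_addHaar volume (f := fun r => r ^ a * g r), finrank_E4]
    refine h.congr_fun (fun r _ => ?_) measurableSet_Ioi
    simp only [smul_eq_mul]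
    ring
  refine h1.mono ?_ (Eventually.of_forall fun x => ?_)
  · exact (((by fun_prop : Continuous fun x : E4 => x 0).measurable.pow_const a).mul
      (hg.comp measurable_norm)).aestronglyMeasurable
  · rw [norm_mul, norm_mul, norm_pow, norm_pow, norm_norm]
    gcongr
    exact PiLp.norm_apply_le x 0

theorem half (q : ℕ) : ∫ r in Ioi (0 : ℝ), r ^ q * Real.exp (-r ^ 2) =
    1 / 2 * Real.Gamma (((q : ℝ) + 1) / 2) := by
  have h := integral_rpow_mul_exp_neg_rpow (p := 2) (q := (q : ℝ)) (by norm_num)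
    (lt_of_lt_of_le (by norm_num) (Nat.cast_nonneg q))
  rw [← h]
  refine setIntegral_congr_fun measurableSet_Ioi fun r _ => ?_
  simp only [Real.rpow_natCast, Real.rpow_two]

theorem line_even (α : ℕ) : ∫ t : ℝ, t ^ (2 * α) * Real.exp (-t ^ 2) =
    Real.Gamma ((α : ℝ) + 1 / 2) := by
  have h := integral_comp_abs (f := fun t : ℝ => t ^ (2 * α) * Real.exp (-t ^ 2))
  simp only [pow_mul, sq_abs] at h
  simp only [pow_mul]
  rw [h]
  simp only [← pow_mul]
  rw [half]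
  push_cast
  rw [show (2 * (α : ℝ) + 1) / 2 = α + 1 / 2 by ring]
  ring

theorem line_odd (α : ℕ) : ∫ t : ℝ, t ^ (2 * α + 1) * Real.exp (-t ^ 2) = 0 := by
  have h := integral_neg_eq_self (fun t : ℝ => t ^ (2 * α + 1) * Real.exp (-t ^ 2)) volume
  have e : ∀ t : ℝ, (-t) ^ (2 * α + 1) * Real.exp (-(-t) ^ 2) =
      -(t ^ (2 * α + 1) * Real.exp (-t ^ 2)) := by
    intro t
    rw [(odd_two_mul_add_one α).neg_pow, neg_sq]; ring
  simp only [e, integral_neg] at h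
  linarith

theorem gamma_half (α : ℕ) : Real.Gamma ((α : ℝ) + 1 / 2) =
    ((2 * α).factorial : ℝ) / (4 ^ α * α.factorial) * √Real.pi := by
  induction α with
  | zero => simpa using Real.Gamma_one_half_eq
  | succ α ih =>
    have h0 : (α : ℝ) + 1 / 2 ≠ 0 := by positivity
    rw [show ((α + 1 : ℕ) : ℝ) + 1 / 2 = ((α : ℝ) + 1 / 2) + 1 by push_cast; ring,
      Real.Gamma_add_one h0, ih, show 2 * (α + 1) = (2 * α + 1) + 1 by ring,
      Nat.factorial_succ, Nat.factorial_succ, Nat.factorial_succ α]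
    have h1 : (α.factorial : ℝ) ≠ 0 := by positivity
    push_cast
    field_simp
    ring

theorem gauss (a : ℕ) : ∫ x : E4, x 0 ^ a * Real.exp (-‖x‖ ^ 2) =
    (∫ t : ℝ, t ^ a * Real.exp (-t ^ 2)) * √Real.pi ^ 3 := by
  have h0 : ∫ t : ℝ, Real.exp (-t ^ 2) = √Real.pi := by
    simpa using integral_gaussian 1
  have h1 := integral_fintype_prod_volume_eq_prod (𝕜 := ℝ) (E := fun _ : Fin 4 => ℝ)
    ![fun t => t ^ a * Real.exp (-t ^ 2), fun t => Real.exp (-t ^ 2),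
      fun t => Real.exp (-t ^ 2), fun t => Real.exp (-t ^ 2)]
  have h2 := (EuclideanSpace.volume_preserving_symm_measurableEquiv_toLp (Fin 4)).integral_comp'
    (fun x : Fin 4 → ℝ => ∏ i, (![fun t => t ^ a * Real.exp (-t ^ 2), fun t => Real.exp (-t ^ 2),
      fun t => Real.exp (-t ^ 2), fun t => Real.exp (-t ^ 2)] : Fin 4 → ℝ → ℝ) i (x i))
  rw [h1] at h2
  simp only [Fin.prod_univ_four, Matrix.cons_val_zero, Matrix.cons_val_one, Matrix.cons_val,
    h0] at h2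
  rw [show (∫ t : ℝ, t ^ a * Real.exp (-t ^ 2)) * √Real.pi ^ 3 =
    (∫ t : ℝ, t ^ a * Real.exp (-t ^ 2)) * √Real.pi * √Real.pi * √Real.pi by ring, ← h2]
  refine integral_congr_ae (Eventually.of_forall fun x => ?_)
  simp only [EuclideanSpace.real_norm_sq_eq, Fin.sum_univ_four, neg_add, Real.exp_add]
  simp only [MeasurableEquiv.coe_toLp_symm]
  ring

theorem A_odd (α : ℕ) : A (2 * α + 1) = 0 := by
  have h := polar (2 * α + 1) fun r => Real.exp (-r ^ 2)
  rw [gauss, line_odd, half, zero_mul] at h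
  have hp : 0 < Real.Gamma ((((2 * α + 1 + 3 : ℕ) : ℝ) + 1) / 2) :=
    Real.Gamma_pos_of_pos (by positivity)
  rcases mul_eq_zero.1 h.symm with h1 | h1
  · exact h1
  · exact absurd h1 (by positivity)

theorem A_even (α : ℕ) : A (2 * α) = 2 * Real.pi ^ 2 *
    (((2 * α).factorial : ℝ) / (α.factorial * (α + 1).factorial) / 4 ^ α) := by
  have h := polar (2 * α) fun r => Real.exp (-r ^ 2)
  rw [gauss, line_even, half, gamma_half,
    show (((2 * α + 3 : ℕ) : ℝ) + 1) / 2 = ((α + 1 : ℕ) : ℝ) + 1 by push_cast; ring,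
    Real.Gamma_nat_eq_factorial] at h
  have h1 : (α.factorial : ℝ) ≠ 0 := by positivity
  have h2 : ((α + 1).factorial : ℝ) ≠ 0 := by positivity
  have h3 : √Real.pi * √Real.pi ^ 3 = Real.pi ^ 2 := by
    rw [← pow_succ', show 3 + 1 = 2 * 2 from rfl, pow_mul, Real.sq_sqrt Real.pi_pos.le]
  rw [mul_assoc, h3] at h
  field_simp at h ⊢
  linarith

section Radial

variable {ρ ta tb : ℝ} {m : ℕ}

/-- The radius as a function of the radial variable. -/
noncomputable def rad (ρ : ℝ) (m : ℕ) (t : ℝ) : ℝ := √(ρ * t ^ m)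

/-- The radial variable as a function of the radius. -/
noncomputable def tt (ρ : ℝ) (m : ℕ) (r : ℝ) : ℝ := (r ^ 2 / ρ) ^ (1 / (m : ℝ))

theorem tt_rad (hρ : 0 < ρ) (hm : 0 < m) {t : ℝ} (ht : 0 ≤ t) : tt ρ m (rad ρ m t) = t := by
  unfold tt rad
  rw [Real.sq_sqrt (by positivity), mul_div_cancel_left₀ _ hρ.ne', one_div,
    Real.pow_rpow_inv_natCast ht hm.ne']

theorem rad_tt (hρ : 0 < ρ) (hm : 0 < m) {r : ℝ} (hr : 0 ≤ r) : rad ρ m (tt ρ m r) = r := by
  unfold tt rad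
  rw [one_div, Real.rpow_inv_natCast_pow (by positivity) hm.ne', mul_div_cancel₀ _ hρ.ne',
    Real.sqrt_sq hr]

theorem tt_meas (ρ : ℝ) (m : ℕ) : Measurable (tt ρ m) :=
  ((measurable_id.pow_const 2).div_const ρ).pow_const _

theorem image_rad (hρ : 0 < ρ) (hm : 0 < m) (ha : 0 ≤ ta) :
    rad ρ m '' Ioo ta tb = Ioi 0 ∩ tt ρ m ⁻¹' Ioo ta tb := by
  ext r
  constructor
  · rintro ⟨t, ht, rfl⟩
    have h0 : 0 < t := ha.trans_lt ht.1
    refine ⟨Real.sqrt_pos.2 (by positivity), ?_⟩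
    rw [mem_preimage, tt_rad hρ hm h0.le]
    exact ht
  · rintro ⟨h0, h⟩
    exact ⟨_, h, rad_tt hρ hm (le_of_lt h0)⟩

theorem rad_deriv (hρ : 0 < ρ) {t : ℝ} (ht : 0 < t) :
    HasDerivAt (rad ρ m) (ρ * (m * t ^ (m - 1)) / (2 * rad ρ m t)) t :=
  ((hasDerivAt_pow m t).const_mul ρ).sqrt (by positivity)

theorem rad_inj (hρ : 0 < ρ) (hm : 0 < m) (ha : 0 ≤ ta) : InjOn (rad ρ m) (Ioo ta tb) := by
  intro s hs t ht e
  rw [← tt_rad hρ hm (ha.trans hs.1.le), e, tt_rad hρ hm (ha.trans ht.1.le)]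

theorem dens (hρ : 0 < ρ) (hm : 0 < m) (α j : ℕ) (β : ℤ) {t : ℝ} (ht : 0 < t) :
    |ρ * (m * t ^ (m - 1)) / (2 * rad ρ m t)| •
      (rad ρ m t ^ (2 * α + j + 3) * tt ρ m (rad ρ m t) ^ β) =
    rad ρ m t ^ j * (ρ ^ (α + 2) * m / 2 * t ^ ((m : ℤ) * ((α : ℤ) + 2) + β - 1)) := by
  have h0 : 0 < rad ρ m t := Real.sqrt_pos.2 (by positivity)
  have h1 : rad ρ m t ^ 2 = ρ * t ^ m := Real.sq_sqrt (by positivity)
  have h2 : rad ρ m t ^ (2 * α + j + 3) = rad ρ m t ^ j * (ρ * t ^ m) ^ (α + 1) * rad ρ m t := by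
    rw [← h1]; ring
  have h3 : t ^ ((m : ℤ) * ((α : ℤ) + 2) + β - 1) = t ^ (m - 1) * (t ^ m) ^ (α + 1) * t ^ β := by
    rw [← pow_mul, ← pow_add, ← zpow_natCast, ← zpow_add₀ ht.ne']
    congr 1
    push_cast [Nat.cast_sub hm]
    ring
  rw [tt_rad hρ hm ht.le, abs_of_pos (by positivity), smul_eq_mul, h2, h3]
  field_simp
  ring

theorem ioi_eq (g : ℝ → ℝ) (q : ℕ) (r : ℝ) :
    r ^ q * (Ioo ta tb).indicator g (tt ρ m r) =
      (tt ρ m ⁻¹' Ioo ta tb).indicator (fun r => r ^ q * g (tt ρ m r)) r := by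
  by_cases h : tt ρ m r ∈ Ioo ta tb
  · rw [indicator_of_mem h, indicator_of_mem (show r ∈ tt ρ m ⁻¹' Ioo ta tb from h)]
  · rw [indicator_of_notMem h, indicator_of_notMem (show r ∉ tt ρ m ⁻¹' Ioo ta tb from h),
      mul_zero]

theorem rad_integrable (hρ : 0 < ρ) (hm : 0 < m) (ha : 0 ≤ ta) (α j : ℕ) (β : ℤ)
    (he : 0 < ta ∨ 0 < (m : ℤ) * ((α : ℤ) + 2) + β) :
    IntegrableOn (fun r => r ^ (2 * α + j + 3) *
      (Ioo ta tb).indicator (fun t => t ^ β) (tt ρ m r)) (Ioi (0 : ℝ)) := by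
  have hS : MeasurableSet (tt ρ m ⁻¹' Ioo ta tb) := tt_meas ρ m measurableSet_Ioo
  simp only [ioi_eq]
  rw [IntegrableOn, integrable_indicator_iff hS, IntegrableOn, Measure.restrict_restrict hS,
    inter_comm, ← image_rad hρ hm ha]
  change IntegrableOn _ _ _
  rw [integrableOn_image_iff_integrableOn_abs_deriv_smul measurableSet_Ioo
    (fun t ht => (rad_deriv hρ (ha.trans_lt ht.1)).hasDerivWithinAt) (rad_inj hρ hm ha)]
  have hc : ContinuousOn (fun t : ℝ => rad ρ m t ^ j *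
      (ρ ^ (α + 2) * m / 2 * t ^ ((m : ℤ) * ((α : ℤ) + 2) + β - 1))) (Icc ta tb) := by
    refine ContinuousOn.mul ?_ (continuousOn_const.mul (continuousOn_id.zpow₀ _ fun t ht => ?_))
    · unfold rad
      fun_prop
    · rcases he with he | he
      · exact Or.inl (he.trans_le ht.1).ne'
      · exact Or.inr (by omega)
  refine (hc.integrableOn_Icc.mono_set Ioo_subset_Icc_self).congr_fun (fun t ht => ?_)
    measurableSet_Ioo
  exact (dens hρ hm α j β (ha.trans_lt ht.1)).symm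

theorem int_zpow (hab : ta < tb) (e : ℤ) (he : 0 < ta ∨ 0 < e) :
    ∫ t in Ioo ta tb, t ^ (e - 1) = Iint e ta tb := by
  rw [← integral_Ioc_eq_integral_Ioo, ← intervalIntegral.integral_of_le hab.le]
  unfold Iint
  split_ifs with h
  · subst h
    have h1 : 0 < ta := he.resolve_right (lt_irrefl _)
    simp only [zero_sub, zpow_neg, zpow_one]
    exact integral_inv_of_pos h1 (h1.trans hab)
  · rw [integral_zpow]
    · simp
    · rcases he with he | he
      · refine Or.inr ⟨by omega, ?_⟩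
        rw [uIcc_of_le hab.le]
        exact fun h0 => absurd h0.1 (not_le.2 he)
      · exact Or.inl (by omega)

theorem rad_integral (hρ : 0 < ρ) (hm : 0 < m) (ha : 0 ≤ ta) (hab : ta < tb) (α : ℕ) (β : ℤ)
    (he : 0 < ta ∨ 0 < (m : ℤ) * ((α : ℤ) + 2) + β) :
    ∫ r in Ioi (0 : ℝ), r ^ (2 * α + 3) * (Ioo ta tb).indicator (fun t => t ^ β) (tt ρ m r) =
      ρ ^ (α + 2) * m / 2 * Iint ((m : ℤ) * ((α : ℤ) + 2) + β) ta tb := by
  have hS : MeasurableSet (tt ρ m ⁻¹' Ioo ta tb) := tt_meas ρ m measurableSet_Ioo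
  simp only [ioi_eq]
  rw [setIntegral_indicator hS, ← image_rad hρ hm ha,
    integral_image_eq_integral_abs_deriv_smul measurableSet_Ioo
      (fun t ht => (rad_deriv hρ (ha.trans_lt ht.1)).hasDerivWithinAt) (rad_inj hρ hm ha),
    ← int_zpow hab _ he, ← integral_const_mul]
  refine setIntegral_congr_fun measurableSet_Ioo fun t ht => ?_
  have := dens hρ hm α 0 β (ha.trans_lt ht.1)
  simpa using this

end Radial

theorem shell_ind (s ρ ta tb : ℝ) (z : E4) (m a : ℕ) (β : ℤ) (x : E4) :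
    (shell z ρ m ta tb).indicator (fun x => ax s z x ^ a * sg z ρ m x ^ β) x =
      s ^ a * ((x - z) 0 ^ a * (Ioo ta tb).indicator (fun t => t ^ β) (tt ρ m ‖x - z‖)) := by
  by_cases h : x ∈ shell z ρ m ta tb
  · rw [indicator_of_mem h, indicator_of_mem (show tt ρ m ‖x - z‖ ∈ Ioo ta tb from h)]
    simp only [ax, sg, tt, mul_pow, PiLp.sub_apply]
    ring
  · rw [indicator_of_notMem h, indicator_of_notMem (show tt ρ m ‖x - z‖ ∉ Ioo ta tb from h)]
    simp

theorem shell_meas (ρ ta tb : ℝ) (z : E4) (m : ℕ) : MeasurableSet (shell z ρ m ta tb) :=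
  ((tt_meas ρ m).comp (measurable_id.sub_const z).norm) (measurableSet_Ioo (a := ta) (b := tb))

end Mom

theorem mom_holds : MomStmt := by
  intro s ρ ta tb z m a β hs hρ hm ha hab he
  have hS := Mom.shell_meas ρ ta tb z m
  have hg : Measurable fun r => (Ioo ta tb).indicator (fun t : ℝ => t ^ β) (Mom.tt ρ m r) :=
    ((measurable_id.pow_const β).indicator measurableSet_Ioo).comp (Mom.tt_meas ρ m)
  have ea : 2 * (a / 2) + a % 2 = a := Nat.div_add_mod a 2
  constructor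
  · rw [← integrable_indicator_iff hS, funext (Mom.shell_ind s ρ ta tb z m a β)]
    have h1 := Mom.rad_integrable (tb := tb) hρ hm ha (a / 2) (a % 2) β he
    rw [ea] at h1
    exact ((Mom.integrable_polar a _ hg h1).comp_sub_right z).const_mul _
  · rw [← integral_indicator hS, funext (Mom.shell_ind s ρ ta tb z m a β), integral_const_mul,
      integral_sub_right_eq_self
        (fun x : E4 => x 0 ^ a * (Ioo ta tb).indicator (fun t : ℝ => t ^ β) (Mom.tt ρ m ‖x‖)) z,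
      Mom.polar a fun r => (Ioo ta tb).indicator (fun t : ℝ => t ^ β) (Mom.tt ρ m r)]
    split_ifs with h
    · rw [h] at ea
      rw [← ea, Mom.A_odd]
      simp
    · have h0 : a % 2 = 0 := by omega
      rw [h0, add_zero] at ea
      generalize a / 2 = α at ea he
      subst ea
      have hs2 : s ^ (2 * α) = 1 := by rcases hs with rfl | rfl <;> simp
      rw [Mom.A_even, Mom.rad_integral hρ hm ha hab α β he, hs2, div_pow]
      ring

end Pool.Agent.Lib.MP_465ce1_mp.Cx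
end
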