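import Mathlib

-- part Pool.Agent.Lib.MP_465ce1_mp.Cx.Kr0
section

/-!
Computational core of the certificate: generic polynomial expressions and decoding.
-/

namespace Pool.Agent.Lib.MP_465ce1_mp.Cx

section Gen

variable {K : Type} [Add K] [Mul K] [Sub K] [IntCast K]

/-- Integer constants. -/
def cst (n : ℤ) : K := (n : K)

/-- Powers. -/
def pw (t : K) : ℕ → K
  | 0 => cst 1
  | n + 1 => t * pw t n

/-- Horner evaluation, one variable. -/
def ev1 (y : K) : List ℤ → K
  | [] => cst 0
  | c :: r => cst c + y * ev1 y r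

/-- Horner evaluation, two variables; the outer list is indexed by the power of `t`. -/
def ev2 (y t : K) : List (List ℤ) → K
  | [] => cst 0
  | r :: p => ev1 y r + t * ev2 y t p

/-- The scaled inner product in the moving frame. -/
def ipr (X n d a1 b1 a2 b2 : K) : K := n * (a1 * a2) + d * (X * (a1 * b2 + b1 * a2) + b1 * b2)

/-- Last stage of the density. -/
def psiC (X n d g00 G1 L1 al be l1 l2 T Dt mu : K) : K :=
  cst 91 * (G1 * (G1 * G1)) + g00 * g00 * (cst 96 * ipr X n d al be al be +
      g00 * (cst 8 * ipr X n d l1 l2 al be + cst 12 * (T * (T * T) - cst 3 * (T * Dt) +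
        cst 3 * (mu * (T * T - cst 2 * Dt)) + cst 3 * (mu * mu * T) + cst 4 * (mu * (mu * mu)))) +
      g00 * g00 * ipr X n d l1 l2 l1 l2) -
    g00 * (cst 105 * (G1 * G1 * L1) + cst 7 * (g00 * g00 * (L1 * (L1 * L1))))

/-- Middle stage of the density. -/
def psiB (X n d g00 g10 g01 g20 g11 g02 g30 g21 g12 g03 p q : K) : K :=
  psiC X n d g00 (n * (g10 * g10) + d * (cst 4 * (X * (g10 * g01)) + cst 4 * (g01 * g01)))
    (n * g20 + d * (cst 4 * (X * g11) + cst 4 * g02 + cst 8 * g01))
    (g20 * p + cst 2 * (g11 * q) + cst 2 * (d * (g01 * g10)))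
    (cst 2 * (g11 * p) + cst 4 * (g02 * q) + cst 4 * (d * (g01 * g01)))
    (n * g30 + d * (cst 4 * (X * g21) + cst 4 * g12 + cst 12 * g11))
    (cst 2 * (n * g21 + d * (cst 4 * (X * g12) + cst 4 * g03 + cst 12 * g02)))
    (n * g20 + d * (cst 4 * (X * g11) + cst 4 * g02))
    (cst 4 * (g20 * g02 - g11 * g11) * (n * d - d * X * (d * X)))
    (cst 2 * (d * g01))

/-- The density `R^3 Gd` in terms of the jets `R^j d_X^i d_R^j w`, with `R = n / d`,
multiplied by `d^3`. -/
def psiW (X n d g00 g10 g01 g20 g11 g02 g30 g21 g12 g03 : K) : K :=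
  psiB X n d g00 g10 g01 g20 g11 g02 g30 g21 g12 g03 (n * g10 + cst 2 * (d * (X * g01)))
    (d * (X * g10 + cst 2 * g01))

/-- The same for `w = o^2 + eta` in terms of the jets of `o`. -/
def psiO (X n d eta o00 o10 o01 o20 o11 o02 o30 o21 o12 o03 : K) : K :=
  psiW X n d (o00 * o00 + eta) (cst 2 * (o00 * o10)) (cst 2 * (o00 * o01))
    (cst 2 * (o00 * o20 + o10 * o10)) (cst 2 * (o00 * o11 + o10 * o01))
    (cst 2 * (o00 * o02 + o01 * o01)) (cst 2 * (o00 * o30 + cst 3 * (o10 * o20)))
    (cst 2 * (o00 * o21 + cst 2 * (o10 * o11) + o01 * o20))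
    (cst 2 * (o00 * o12 + cst 2 * (o01 * o11) + o10 * o02))
    (cst 2 * (o00 * o03 + cst 3 * (o01 * o02)))

end Gen

/-- The product `x (x - m) ... (x - (j-1) m)`. -/
def fal (m : ℤ) (x : ℤ) : ℕ → ℤ
  | 0 => 1
  | j + 1 => fal m x j * (x - j * m)

/-- One row of a jet polynomial, before the shift in the first variable. -/
def leafRow (m sh i j b : ℕ) : ℕ → List ℤ → List ℤ
  | _, [] => []
  | a, c :: r => (c * (m : ℤ) ^ (3 - j) * fal m ((b : ℤ) - sh * a) j * fal 1 a i) ::
      leafRow m sh i j b (a + 1) r

/-- A jet polynomial. -/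
def leaf (m sh i j : ℕ) : ℕ → List (List ℤ) → List (List ℤ)
  | _, [] => []
  | b, r :: p => (leafRow m sh i j b 0 r).drop i :: leaf m sh i j (b + 1) p

/-- The data of one piece: `R = (rn / rd) t^m`, `X = y t^sh`, `an / ad < t < bn / bd`, the
function is `p(y, t) / lam`; the other fields are parameters of the check. -/
structure Pc where
  rn : ℕ
  rd : ℕ
  m : ℕ
  sh : ℕ
  an : ℕ
  ad : ℕ
  bn : ℕ
  bd : ℕ
  lam : ℕ
  eta : ℤ
  p : List (List ℤ)
  B : ℕ
  D : ℕ
  k : ℕ
  mx : ℕ
  s1 : ℕ
  s2 : ℕ
  lg : ℕ
  sgn : ℤ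
  bnd : ℤ

/-- The polynomial that is integrated. -/
def Pc.expr (P : Pc) {K : Type} [Add K] [Mul K] [Sub K] [IntCast K] (y t : K) : K :=
  psiO y (cst P.rn * pw t (P.m - P.sh)) (cst P.rd * pw t P.sh) (cst P.eta)
    (ev2 y t (leaf P.m P.sh 0 0 0 P.p)) (ev2 y t (leaf P.m P.sh 1 0 0 P.p))
    (ev2 y t (leaf P.m P.sh 0 1 0 P.p)) (ev2 y t (leaf P.m P.sh 2 0 0 P.p))
    (ev2 y t (leaf P.m P.sh 1 1 0 P.p)) (ev2 y t (leaf P.m P.sh 0 2 0 P.p))
    (ev2 y t (leaf P.m P.sh 3 0 0 P.p)) (ev2 y t (leaf P.m P.sh 2 1 0 P.p))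
    (ev2 y t (leaf P.m P.sh 1 2 0 P.p)) (ev2 y t (leaf P.m P.sh 0 3 0 P.p))

/-- Bounds: sum of the absolute values of the coefficients and the two degrees. -/
structure BV where
  nb : ℕ
  dy : ℕ
  dt : ℕ

instance : Add BV := ⟨fun a b => ⟨a.nb + b.nb, max a.dy b.dy, max a.dt b.dt⟩⟩
instance : Sub BV := ⟨fun a b => ⟨a.nb + b.nb, max a.dy b.dy, max a.dt b.dt⟩⟩
instance : Mul BV := ⟨fun a b =>
  if a.nb = 0 ∨ b.nb = 0 then ⟨0, 0, 0⟩ else ⟨a.nb * b.nb, a.dy + b.dy, a.dt + b.dt⟩⟩
instance : IntCast BV := ⟨fun c => ⟨c.natAbs, 0, 0⟩⟩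

/-- The number whose `2^k` digits in base `2^(B+1)` are all `2^B`. -/
def off (B : ℕ) : ℕ → ℕ
  | 0 => 1 <<< B
  | k + 1 => off B k + off B k <<< ((B + 1) * 2 ^ k)

/-- Evaluate the argument first. -/
def force {M : Type} (n : ℕ) (f : ℕ → M) : M :=
  match n with
  | 0 => f 0
  | m + 1 => f (Nat.succ m)

/-- Evaluate the argument first. -/
def forceZ {M : Type} (n : ℤ) (f : ℤ → M) : M :=
  match n with
  | Int.ofNat m => force m fun j => f (Int.ofNat j)
  | Int.negSucc m => force m fun j => f (Int.negSucc j)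

theorem force_eq {M : Type} (n : ℕ) (f : ℕ → M) : force n f = f n := by
  cases n <;> rfl

theorem forceZ_eq {M : Type} (n : ℤ) (f : ℤ → M) : forceZ n f = f n := by
  cases n <;> simp only [forceZ, force_eq]

/-- Sum of `F` over the digits in base `2^(B+1)` at the positions below `mx`. -/
def dec (B mx : ℕ) (F : ℕ → ℕ → ℕ) : ℕ → ℕ → ℕ → ℕ
  | 0, N, pos => if mx ≤ pos then 0 else F pos N
  | k + 1, N, pos => if mx ≤ pos then 0 else
      force ((B + 1) <<< k) fun h => force (pos + 1 <<< k) fun pos' =>
        Nat.add (dec B mx F k (N - (N >>> h) <<< h) pos) (dec B mx F k (N >>> h) pos')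

/-- The value at the Kronecker point. -/
def Pc.big (P : Pc) : ℤ :=
  P.expr ((1 <<< (P.B + 1) : ℕ) : ℤ) ((1 <<< ((P.B + 1) * P.D) : ℕ) : ℤ)

/-- The size conditions. -/
def Pc.ok (P : Pc) : Bool :=
  let b : BV := P.expr ⟨1, 1, 0⟩ ⟨1, 0, 1⟩
  decide (b.nb < 1 <<< P.B) && decide (b.dy < P.D) && decide (P.D * (b.dt + 1) ≤ P.mx) &&
    decide (P.mx ≤ 2 ^ P.k)

/-- The exponent in the radial integral of the monomial `(a, b)`. -/
def Pc.ex (P : Pc) (a b : ℕ) : ℤ :=
  (P.m : ℤ) * ((a / 2 : ℕ) + 2) + ((b : ℤ) - P.sh * a - 3 * P.sh - 3 * P.m)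

/-- The angular weight, rounded down. -/
def Pc.ang (P : Pc) (al : ℕ) : ℕ :=
  ((2 * al).factorial * P.rn ^ al) <<< P.s1 /
    (al.factorial * (al + 1).factorial * (4 * P.rd) ^ al)

/-- The radial weight, rounded down. -/
def Pc.rad (P : Pc) : ℤ → ℕ
  | Int.ofNat 0 => P.lg
  | Int.ofNat (e + 1) => ((P.bn * P.ad) ^ (e + 1) - (P.an * P.bd) ^ (e + 1)) <<< P.s2 /
      ((e + 1) * (P.bd * P.ad) ^ (e + 1))
  | Int.negSucc e => ((P.bn * P.ad) ^ (e + 1) - (P.an * P.bd) ^ (e + 1)) <<< P.s2 /
      ((e + 1) * (P.an * P.bn) ^ (e + 1))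

/-- The weight at position `q`, rounded down (`u = 0`) or up (`u = 1`), times `N`. -/
def Pc.dig (P : Pc) (u q N : ℕ) : ℕ :=
  force (q % P.D) fun a => if a % 2 = 1 then 0 else
    forceZ (P.ex a (q / P.D)) fun e => force (a / 2) fun al => N * ((P.ang al + u) * (P.rad e + u))

/-- Flags the terms that are not integrable. -/
def Pc.bad (P : Pc) (q N : ℕ) : ℕ :=
  if 0 < P.an ∨ 0 < P.ex (q % P.D) (q / P.D) ∨ N = 1 <<< P.B then 0 else 1

/-- The check of one piece. -/
def Pc.chk (P : Pc) : Bool :=
  P.ok && force (P.sgn * P.big + off P.B P.k).toNat fun N =>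
    decide (dec P.B (3 * P.D) P.bad P.k N 0 = 0) &&
    decide (1000000 * (P.m : ℤ) * (((dec P.B P.mx (P.dig 1) P.k N 0 : ℕ) : ℤ) -
        ((dec P.B P.mx (fun q _ => P.dig 0 q 1) P.k 0 0 <<< P.B : ℕ) : ℤ)) ≤
      P.bnd * (((P.rd ^ 2 * P.rn * (P.lam * P.m ^ 3) ^ 12) <<< (P.s1 + P.s2) : ℕ) : ℤ))

/-- Elementary conditions on the data. -/
def Pc.wf (P : Pc) : Prop :=
  0 < P.rn ∧ 0 < P.rd ∧ 0 < P.m ∧ (P.sh = 0 ∨ P.sh = P.m) ∧ 0 < P.ad ∧ 0 < P.bd ∧
    P.an * P.bd < P.bn * P.ad ∧ 0 < P.lam ∧ (P.sgn = 1 ∨ P.sgn = -1) ∧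
    (P.an = 0 → P.m = 1 ∧ P.sh = 0)

end Pool.Agent.Lib.MP_465ce1_mp.Cx
end

-- part Pool.Agent.Lib.MP_465ce1_mp.Cx.Data
section

/-!
The data of the spline bump.
-/

namespace Pool.Agent.Lib.MP_465ce1_mp.Cx

/-- Piece W. -/
def pcW : Pc where
  rn := 1
  rd := 1
  m := 1
  sh := 0
  an := 0
  ad := 1
  bn := 1
  bd := 1
  lam := 16777216
  eta := 17179869184
  p := [[13032529, 0, -15169218, 0, -91739336, 0, -236798176, 0, -153729408, 0, -8059392],
    [6281126, 0, 109522504, 0, 820787664, 0, 1562920128, 0, 601403392, 0, 14562304],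
    [-12214712, 0, -477552000, 0, -3205448064, 0, -4100474624, 0, -873296896, 0, -6639616],
    [28677248, 0, 1324718720, 0, 6868167680, 0, 5498384384, 0, 558641152],
    [-56309120, 0, -2314618880, 0, -8710756352, 0, -3980500992, 0, -132923392],
    [72533504, 0, 2471339008, 0, 6643167232, 0, 1471987712],
    [-40527872, 0, -1444192256, 0, -2943565824, 0, -215678976],
    [-31727616, 0, 229244928, 0, 678690816],
    [78708736, 0, 236126208, 0, -59506688],
    [-64356352, 0, -146276352],
    [25690112, 0, 26214400],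
    [-4194304]]
  B := 467
  D := 121
  k := 15
  mx := 16456
  s1 := 400
  s2 := 250
  lg := 0
  sgn := 1
  bnd := -2070813

/-- Piece Wr. -/
def pcWr : Pc where
  rn := 15
  rd := 64
  m := 1
  sh := 0
  an := 0
  ad := 1
  bn := 1
  bd := 1
  lam := 295147905179352825856
  eta := 5316911983139663491615228241121378304
  p := [[210906675570597167104, 15868714762016653312, -17184029735999504384, 27577933055691587584, -4627448617123184640, 91176500356022534144, -333190937131658248192, 431161117525569175552, 952751137869017382912, -1221880622101144010752, -6515672832890812497920, 13289924341986729394176, -6835167197655730225152],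
    [72716675667355238400, 10453386898754764800, -16948630893562429440, 9848897396036075520, -62548929519990865920, -205274950624849428480, 443276644948125941760, 448246085661952573440, -799372749047102177280, -5869796129205890580480, 14061359714432880476160, -8464684384628873625600],
    [-61236865887790694400, -17521265826437529600, 39108017128262860800, -46137514510201651200, 61414905596608512000, 192410631594521395200, -143517933359647948800, -108572595098694451200, -2120346051759046656000, 6084340226735682355200, -4373687050892948275200],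
    [38777781038874624000, 16612874445127680000, -38663161380864000000, 47213166735654912000, -13075765939666944000, -140237262104297472000, 122074498244542464000, -341721204526153728000, 1231742091588009984000, -1139691630945632256000],
    [-17014511181496320000, -11250267869675520000, 23937643708416000000, -22042785506918400000, -22266088909701120000, 71591897176473600000, -17083253894676480000, 37715879500185600000, -107683989128478720000],
    [5094789414912000000, 5423171213721600000, -9412535019110400000, 2980289131315200000, 14661624161894400000, -1156402328371200000, -39194761730457600000, 24629147703705600000],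
    [-1001021276160000000, -1815585767424000000, 2180592451584000000, 810276618240000000, -890253213696000000, -9554575491072000000, 10565128028160000000],
    [112091973120000000, 407228497920000000, -260765982720000000, -116453376000000000, -1050767769600000000, 1824555663360000000],
    [-2112642000000000, -57925756800000000, 15494457600000000, -57358886400000000, 179424979200000000],
    [-1303998750000000, 4743603000000000, -1850202000000000, 9841500000000000],
    [182221523437500, -175301718750000, 230660156250000],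
    [-8649755859375]]
  B := 964
  D := 145
  k := 15
  mx := 19720
  s1 := 700
  s2 := 400
  lg := 0
  sgn := -1
  bnd := 1131184

/-- Piece T. -/
def pcT : Pc where
  rn := 15
  rd := 64
  m := 12
  sh := 0
  an := 3
  ad := 8
  bn := 1
  bd := 1
  lam := 295147905179352825856
  eta := 15876214111063304951347205684336577673691136
  p := [[1578770105573033851583, -1711438793837509134704, 97982635299504947141712, 25327199886038339921920, 342559215382548725760, 11917852348371219513344, 1096422219546475102208, -122796949963357288398848, 37019851092220037824512, 537160889223051317608448, -339683712414998299934720, -452267716812601320013824, -6835167197655730225152],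
    [-21087149945686116315208, 15549350931443151453952, -809619697283381019569408, -123522478939366395559936, -669955291498650009600, -23772518388407992320000, -5965564271689256140800, 252817458327383231692800, -54418626893614311014400, -1113173547934279532544000, 621943597139531032166400, 1015762126155464835072000],
    [123089134392166281972758, -59694173970887129844416, 2858215299577537544709184, 237259029298101757849600, 299192776884026081280, 11855446434278560235520, 4912071437247169167360, -129529049933259378524160, 16555866240916673003520, 573865630555711230443520, -279087884893883612528640, -558669169385505659289600],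
    [-408130126511363479044096, 125962415412291766845440, -5591485891819596937166848, -223683467300496929193984],
    [859592529060371799998464, -158017777959394177187840, 6549246108940114369445888, 103268756166376677179392],
    [-1192022063678469399642112, 118150287941785717047296, -4594676621607545457344512, -18628952818496032473088],
    [1088915869778493822730240, -48801980116516997169152, 1788137115958741940830208],
    [-632745150042312787623936, 8581441454013662887936, -297816178060183625269248],
    [212523632904304829923328],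
    [-31467093690827556257792]]
  B := 1189
  D := 145
  k := 15
  mx := 21025
  s1 := 700
  s2 := 400
  lg := 2532746219013603694764487866587157855821252889923096819214942938620145910235383261480834242584762835367993807443217704239
  sgn := 1
  bnd := -1520822

/-- Piece C. -/
def pcC : Pc where
  rn := 7971615
  rd := 4398046511104
  m := 1
  sh := 0
  an := 0
  ad := 1
  bn := 1
  bd := 1
  lam := 226673591177742970257408
  eta := 3136042293543368879278460382091175836778496
  p := [[34994406909692045978351, -29811636997138488927200, 2144840810120880518546848, 2651218722802504922396672, 118270192757571120660480, 4116537782109855748718592, -261989602552797468819456, -41031387234524338600280064, 16029191999616193885372416, 178250569816776866701246464, -126550111562162741245378560, -136443995069049427388792832, -5249408407799600812916736],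
    [27145936887176592810470, 64734564703968557707072, -1332829533808117721147840, -1014542386045259152936960, -20944581771765039759360, -702306113535575158947840, -112317599068549199953920, 7355144435262069166571520, -1956913251156008097546240, -32268417396638387892387840, 19399505266920268266209280, 28288975213429695656755200],
    [-21950893892939512039309, -75032457457254532711520, 379287544538929984732960, 267230506135296684431360, 5125562379854954496000, 172581854015398713753600, 28780671209228048793600, -1809524167101770209689600, 474435899022882373632000, 7940916798109240629657600, -4748220431830714259865600, -6983364617318820741120000],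
    [11373849866123442388992, 44692385132935473266688],
    [-2526370772167145029632, -10595479231726117453824]]
  B := 1220
  D := 145
  k := 13
  mx := 7540
  s1 := 1800
  s2 := 400
  lg := 0
  sgn := 1
  bnd := -183714

/-- Piece O. -/
def pcO : Pc where
  rn := 1
  rd := 1
  m := 12
  sh := 12
  an := 1
  ad := 1
  bn := 2
  bd := 1
  lam := 16777216
  eta := 51298814505517056
  p := [[-7956005165, 0, -34871116040, 0, 37309440, 0, -144593920, 0, -75558912, 0, -19415040],
    [66483811380, 0, 254255195092, 0, -107946048, 0, 505298688, 0, 283063296, 0, 77107200],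
    [-249971952914, 0, -827571022882, 0, 119004384, 0, -686155392, 0, -404663808, 0, -116201472],
    [561477138543, 0, 1583319811591, 0, -63224304, 0, 452027456, 0, 276849408, 0, 82910208],
    [-841012741521, 0, -1971443841441, 0, 16284840, 0, -144874656, 0, -91271040, 0, -28245504],
    [886506100852, 0, 1668812227872, 0, -1631184, 0, 18137280, 0, 11675904, 0, 3707904],
    [-675041455889, 0, -972301020455],
    [374360986278, 0, 384893693129],
    [-150103513078, 0, -99046581599],
    [42435542867, 0, 14958722860],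
    [-8027036556, 0, -1006711065],
    [911700116],
    [-46981634]]
  B := 678
  D := 121
  k := 15
  mx := 21901
  s1 := 500
  s2 := 400
  lg := 1789879222497203190815761498240779176894896805856420935579692301363062920687047601279850318367644315849030039181347319086
  sgn := 1
  bnd := 3186296

end Pool.Agent.Lib.MP_465ce1_mp.Cx
end

-- part Pool.Agent.Lib.MP_465ce1_mp.Cx.SymC
section

/-!
Formal symbol calculus: the computational core.
-/

namespace Pool.Agent.Lib.MP_465ce1_mp.Cx.Sy

/-- A term `c mu^l w^p E^N` times a product of jets; the field `k` is a sorting key. -/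
structure Tm where
  k : ℕ
  c : ℤ
  p : ℤ
  N : ℕ
  l : ℕ
  m : List (List ℕ)

/-- Sums of terms. -/
abbrev Po : Type := List Tm

/-- Insert a direction into a jet. -/
def insJ (a : ℕ) : List ℕ → List ℕ
  | [] => [a]
  | b :: r => if Nat.ble a b then a :: b :: r else b :: insJ a r

/-- Sorting key of a jet. -/
def cdJ : List ℕ → ℕ
  | [] => 0
  | a :: r => a + 1 + 8 * cdJ r

/-- Insert a jet into a monomial. -/
def insM (j : List ℕ) : List (List ℕ) → List (List ℕ)
  | [] => [j]
  | i :: r => if Nat.ble (cdJ j) (cdJ i) then j :: i :: r else i :: insM j r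

/-- Sorting key of a monomial, one jet. -/
def cdA : List ℕ → ℕ → ℕ
  | [], s => 7 + 8 * s
  | a :: r, s => a + 1 + 8 * cdA r s

/-- Sorting key of a monomial. -/
def cdM : List (List ℕ) → ℕ
  | [] => 0
  | j :: r => cdA j (cdM r)

/-- Evaluate a jet first. -/
def fJ {β : Type} : List ℕ → (List ℕ → β) → β
  | [], k => k []
  | a :: r, k => force a fun a' => fJ r fun r' => k (a' :: r')

/-- Evaluate a monomial first. -/
def fM {β : Type} : List (List ℕ) → (List (List ℕ) → β) → β
  | [], k => k []
  | j :: r, k => fJ j fun j' => fM r fun r' => k (j' :: r')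

/-- Evaluate a term first and set its key. -/
def fT {β : Type} (t : Tm) (k : Tm → β) : β :=
  match t with
  | ⟨_, c, p, N, l, m⟩ => forceZ c fun c => forceZ p fun p => force N fun N => force l fun l =>
    fM m fun m => force (l + 64 * cdM m) fun q => k ⟨q, c, p, N, l, m⟩

/-- Evaluate the spine of a list first. -/
def fS {α β : Type} : List α → (List α → β) → β
  | [], k => k []
  | t :: r, k => fS r fun r' => k (t :: r')

/-- Evaluate all terms first. -/
def fP {β : Type} : Po → (Po → β) → β
  | [], k => k []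
  | t :: r, k => fT t fun t' => fP r fun r' => k (t' :: r')

/-- Evaluate a list of sums first. -/
def fL {β : Type} : List Po → (List Po → β) → β
  | [], k => k []
  | P :: r, k => fP P fun P' => fL r fun r' => k (P' :: r')

/-- Equality of jets. -/
def eqJ : List ℕ → List ℕ → Bool
  | [], [] => true
  | a :: r, b :: s => Nat.beq a b && eqJ r s
  | _, _ => false

/-- Equality of monomials. -/
def eqM : List (List ℕ) → List (List ℕ) → Bool
  | [], [] => true
  | a :: r, b :: s => eqJ a b && eqM r s
  | _, _ => false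

/-- Like terms. -/
def same (s t : Tm) : Bool :=
  decide (s.p = t.p) && Nat.beq s.N t.N && Nat.beq s.l t.l && eqM s.m t.m

/-- Merge two sums. -/
def mrg : ℕ → Po → Po → Po
  | 0, a, b => a ++ b
  | f + 1, a, b =>
    match a, b with
    | [], b => b
    | s :: a, [] => s :: a
    | s :: a, t :: b =>
      if Nat.beq s.k t.k then
        if same s t then
          forceZ (s.c + t.c) fun c =>
            if c = 0 then mrg f a b else ⟨s.k, c, s.p, s.N, s.l, s.m⟩ :: mrg f a b
        else s :: t :: mrg f a b
      else if Nat.ble s.k t.k then s :: mrg f a (t :: b) else t :: mrg f (s :: a) b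

/-- Sum of two sums. -/
def add (a b : Po) : Po := mrg 100000 a b

/-- Singletons. -/
def sing : Po → List Po
  | [] => []
  | t :: r => fT t fun t' => if t'.c = 0 then sing r else [t'] :: sing r

/-- One pass of merging. -/
def pass : List Po → List Po
  | a :: b :: r => add a b :: pass r
  | l => l

/-- Repeated merging. -/
def red : ℕ → List Po → Po
  | 0, l => l.flatten
  | n + 1, l =>
    match l with
    | [] => []
    | [a] => a
    | a :: b :: r => red n (add a b :: pass r)

/-- Collect like terms. -/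
def nrm (P : Po) : Po := red 30 (sing P)

/-- Derivative of a monomial. -/
def dM (a : ℕ) : List (List ℕ) → List (List (List ℕ))
  | [] => []
  | j :: m => insM (insJ a j) m :: (dM a m).map (insM j)

/-- Derivative of a term. -/
def dT (a : ℕ) (t : Tm) : Po :=
  ⟨0, t.c * (t.p - 6 * t.N), t.p - 1, t.N, t.l, insM [a] t.m⟩ ::
    ⟨0, t.c * (6 * t.N), t.p - 1, t.N + 1, t.l + 1, insM [a] t.m⟩ ::
      (dM a t.m).map fun q => ⟨0, t.c, t.p, t.N, t.l, q⟩

/-- Derivative of a sum. -/
def dP (a : ℕ) (P : Po) : Po := nrm (P.flatMap (dT a))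

/-- Relabel a jet. -/
def rlJ (σ : ℕ → ℕ) : List ℕ → List ℕ
  | [] => []
  | a :: r => insJ (σ a) (rlJ σ r)

/-- Relabel a monomial. -/
def rlM (σ : ℕ → ℕ) : List (List ℕ) → List (List ℕ)
  | [] => []
  | j :: r => insM (rlJ σ j) (rlM σ r)

/-- Relabel a sum. -/
def rl (σ : ℕ → ℕ) (P : Po) : Po :=
  nrm (P.map fun t => ⟨0, t.c, t.p, t.N, t.l, rlM σ t.m⟩)

/-- Make room for a new summation index. -/
def shf : ℕ → ℕ
  | 0 => 0
  | a + 1 => a + 2

/-- Exchange the first two summation indices. -/
def sw1 : ℕ → ℕ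
  | 1 => 2
  | 2 => 1
  | a => a

/-- Exchange the second and the third summation index. -/
def sw2 : ℕ → ℕ
  | 2 => 3
  | 3 => 2
  | a => a

/-- Multiply by `c w^p E^N`. -/
def sc (c p : ℤ) (N : ℕ) (P : Po) : Po :=
  P.map fun t => ⟨t.k, c * t.c, t.p + p, t.N + N, t.l, t.m⟩

/-- Sum of two graded lists. -/
def addL : List Po → List Po → List Po
  | [], b => b
  | a :: r, [] => a :: r
  | a :: r, b :: s => add a b :: addL r s

/-- One step of the parametrix. -/
def step (g p1 p2 : List Po) : List Po :=
  addL (g.map (sc 1 0 1)) (addL (p1.map fun P => sc 2 6 1 (dP 0 P))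
    ([] :: p2.map fun P => sc (-1) 6 1 (dP 1 (dP 1 (rl shf P)))))

/-- One power of the resolvent. -/
def row : List (List Po) → List Po → List Po → List (List Po)
  | [], _, _ => []
  | g :: gs, p1, p2 => fL (step g p1 p2) fun r => r :: row gs r p1

/-- The table of the symbols of the fourth power. -/
def tab : List (List Po) :=
  row (row (row (row [[[⟨0, 1, 3, 0, 0, []⟩]], [], [], [], [], [], []] [] []) [] []) [] []) [] []

/-- Polarization of a jet. -/
def polJ : List ℕ → List (List ℕ)
  | [] => []
  | 0 :: r => insJ 1 r :: (polJ r).map (insJ 0)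
  | (a + 1) :: r => (polJ r).map (insJ (a + 1))

/-- Polarization of a monomial. -/
def polM : List (List ℕ) → List (List (List ℕ))
  | [] => []
  | j :: m => (polJ j).map (fun q => insM q m) ++ (polM m).map (insM j)

/-- Degree of a jet in the frequency. -/
def dgJ : List ℕ → ℕ
  | [] => 0
  | 0 :: r => dgJ r + 1
  | _ :: r => dgJ r

/-- Degree of a monomial in the frequency. -/
def dgM : List (List ℕ) → ℕ
  | [] => 0
  | j :: m => dgJ j + dgM m

/-- One contraction of a term. -/
def wkT (KK : ℕ) (t : Tm) : Po :=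
  ((polM (rlM shf t.m)).flatMap polM).map fun q =>
    ⟨0, t.c * (KK / (t.N - 1) : ℕ), t.p - 6, t.N - 1, t.l, q⟩

/-- Conditions for a contraction. -/
def okT (KK s : ℕ) (t : Tm) : Bool :=
  Nat.beq (dgM t.m) (2 * s) && Nat.ble (s + 4) t.N && Nat.beq (KK % (t.N - 1)) 0

/-- Conditions for the last integration. -/
def okB (KK h : ℕ) (t : Tm) : Bool :=
  Nat.beq (dgM t.m) 0 && Nat.ble 3 t.N && Nat.beq (t.l + h + 2) t.N &&
    Nat.beq (KK % ((t.N - 1) * (t.N - 2))) 0

/-- The last integration. -/
def bsP (KK : ℕ) (P : Po) : Po :=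
  nrm (P.map fun t => ⟨0, t.c * (KK / ((t.N - 1) * (t.N - 2)) : ℕ), t.p - 15, 0, 0, t.m⟩)

/-- All contractions. -/
def wk (KK : ℕ) (fin : ℕ → Po → Bool) : ℕ → ℕ → Po → List Po → Bool
  | 0, c, acc, L => L.isEmpty && fin c acc
  | s + 1, c, acc, L =>
    match L with
    | [] => false
    | P :: L => acc.all (okT KK (s + 1)) && P.all (okT KK s) &&
      force (c * (4 * (s + 1) * KK)) fun c' =>
        fP (add (nrm (acc.flatMap (wkT KK))) (sc c' 0 0 P)) fun acc' => wk KK fin s c' acc' L

/-- The symmetrization in two indices vanishes. -/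
def sy2 (Z : Po) : Bool := fS Z fun Z => (add Z (rl sw1 Z)).isEmpty

/-- The symmetrization in three indices vanishes. -/
def sy3 (Z : Po) : Bool := fS Z fun Z => fS (add Z (rl sw1 Z)) fun A => fS (rl sw2 A) fun B =>
  (add A (add B (rl sw1 B))).isEmpty

/-- The divergence in order four, times 70. -/
def Y4 : Po := [⟨0, -70, -3, 0, 0, [[2], [2], [1]]⟩,
  ⟨0, -42, -2, 0, 0, [[2], [1, 2]]⟩,
  ⟨0, 21, -2, 0, 0, [[2, 2], [1]]⟩,
  ⟨0, 7, -1, 0, 0, [[1, 2, 2]]⟩]

/-- The divergence in order six, times 70. -/
def Y6 : Po := [⟨0, -1092, 1, 0, 0, [[3], [3], [2], [2], [1]]⟩,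
  ⟨0, -168, 2, 0, 0, [[3], [3], [2], [1, 2]]⟩,
  ⟨0, 840, 2, 0, 0, [[3], [3], [2, 2], [1]]⟩,
  ⟨0, -336, 2, 0, 0, [[3], [2], [2, 3], [1]]⟩,
  ⟨0, 304, 3, 0, 0, [[3], [2], [1, 2, 3]]⟩,
  ⟨0, 48, 3, 0, 0, [[3], [2, 3], [1, 2]]⟩,
  ⟨0, 336, 3, 0, 0, [[3], [2, 2], [1, 3]]⟩,
  ⟨0, -28, 4, 0, 0, [[3], [1, 2, 2, 3]]⟩,
  ⟨0, -84, 3, 0, 0, [[3, 3], [2, 2], [1]]⟩,
  ⟨0, -84, 4, 0, 0, [[3, 3], [1, 2, 2]]⟩,
  ⟨0, 40, 4, 0, 0, [[2, 3], [1, 2, 3]]⟩,
  ⟨0, 36, 4, 0, 0, [[2, 3, 3], [1, 2]]⟩,
  ⟨0, -4, 5, 0, 0, [[1, 2, 2, 3, 3]]⟩]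

/-- The density of order six. -/
def G6 : Po := [⟨0, 91, 0, 0, 0, [[3], [3], [2], [2], [1], [1]]⟩,
  ⟨0, -105, 1, 0, 0, [[3, 3], [2], [2], [1], [1]]⟩,
  ⟨0, 96, 2, 0, 0, [[2], [1], [3, 2], [3, 1]]⟩,
  ⟨0, 8, 3, 0, 0, [[1], [2, 1], [3, 3, 2]]⟩,
  ⟨0, -7, 3, 0, 0, [[3, 3], [2, 2], [1, 1]]⟩,
  ⟨0, 12, 3, 0, 0, [[3, 2], [2, 1], [3, 1]]⟩,
  ⟨0, 1, 4, 0, 0, [[3, 3, 2], [2, 1, 1]]⟩]

/-- The final check in order two. -/
def fin2 (KK c : ℕ) (R : Po) : Bool := Nat.ble 1 (c * KK) && R.all (okB KK 3) && (bsP KK R).isEmpty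

/-- The final check in order four. -/
def fin4 (KK c : ℕ) (R : Po) : Bool := Nat.ble 1 (c * KK) && R.all (okB KK 4) &&
  sy2 (add (nrm (sc 70 0 0 (bsP KK R))) (nrm (sc (-(c * KK : ℕ)) 0 0 (dP 1 (rl id Y4)))))

/-- The final check in order six. -/
def fin6 (KK c : ℕ) (R : Po) : Bool := Nat.ble 1 (c * KK) && R.all (okB KK 5) &&
  sy3 (add (nrm (sc 70 0 0 (bsP KK R)))
    (nrm (sc (-(c * KK : ℕ)) 0 0 (add (dP 1 (rl id Y6)) (nrm (sc 12 0 0 (rl id G6)))))))

/-- Start the contractions. -/
def wk0 (KK : ℕ) (fin : ℕ → Po → Bool) (s : ℕ) : List Po → Bool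
  | [] => false
  | P :: L => wk KK fin s 1 P L

/-- The whole check. -/
def chkAll (KK : ℕ) (T : List (List Po)) : Bool :=
  match T with
  | [_, _, L2, _, L4, _, L6] =>
    wk0 KK (fin2 KK) 1 L2 && wk0 KK (fin4 KK) 2 L4 && wk0 KK (fin6 KK) 3 L6
  | _ => false

end Pool.Agent.Lib.MP_465ce1_mp.Cx.Sy
end

-- part Pool.Agent.Lib.MP_465ce1_mp.Cx.SymA
section

/-!
Formal symbol calculus: collecting like terms is sound.
-/

namespace Pool.Agent.Lib.MP_465ce1_mp.Cx.Sy

theorem fJ_eq {β : Type} (j : List ℕ) (k : List ℕ → β) : fJ j k = k j := by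
  induction j generalizing k with
  | nil => rfl
  | cons a r ih => simp only [fJ, force_eq, ih]

theorem fM_eq {β : Type} (m : List (List ℕ)) (k : List (List ℕ) → β) : fM m k = k m := by
  induction m generalizing k with
  | nil => rfl
  | cons a r ih => simp only [fM, fJ_eq, ih]

/-- Reset the key. -/
def key (t : Tm) : Tm := ⟨t.l + 64 * cdM t.m, t.c, t.p, t.N, t.l, t.m⟩

theorem fT_eq {β : Type} (t : Tm) (k : Tm → β) : fT t k = k (key t) := by
  cases t
  simp only [fT, forceZ_eq, force_eq, fM_eq, key]

theorem fS_eq {α β : Type} (l : List α) (k : List α → β) : fS l k = k l := by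
  induction l generalizing k with
  | nil => rfl
  | cons a r ih => simp only [fS, ih]

theorem fP_eq {β : Type} (P : Po) (k : Po → β) : fP P k = k (P.map key) := by
  induction P generalizing k with
  | nil => rfl
  | cons a r ih => simp only [fP, fT_eq, ih, List.map_cons]

theorem fL_eq {β : Type} (L : List Po) (k : List Po → β) :
    fL L k = k (L.map (List.map key)) := by
  induction L generalizing k with
  | nil => rfl
  | cons a r ih => simp only [fL, fP_eq, ih, List.map_cons]

theorem eqJ_eq : ∀ {a b : List ℕ}, eqJ a b = true → a = b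
  | [], [], _ => rfl
  | [], _ :: _, h => by simp [eqJ] at h
  | _ :: _, [], h => by simp [eqJ] at h
  | a :: r, b :: s, h => by
    simp only [eqJ, Bool.and_eq_true, Nat.beq_eq] at h
    rw [h.1, eqJ_eq h.2]

theorem eqM_eq : ∀ {a b : List (List ℕ)}, eqM a b = true → a = b
  | [], [], _ => rfl
  | [], _ :: _, h => by simp [eqM] at h
  | _ :: _, [], h => by simp [eqM] at h
  | a :: r, b :: s, h => by
    simp only [eqM, Bool.and_eq_true] at h
    rw [eqJ_eq h.1, eqM_eq h.2]

variable {β : Type} [AddCommGroup β] (ψ : ℤ → ℕ → ℕ → List (List ℕ) → β)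

/-- The value of a sum of terms. -/
def sm (P : Po) : β := (P.map fun t => t.c • ψ t.p t.N t.l t.m).sum

theorem sm_nil : sm ψ [] = 0 := rfl

theorem sm_cons (t : Tm) (P : Po) : sm ψ (t :: P) = t.c • ψ t.p t.N t.l t.m + sm ψ P := by
  simp only [sm, List.map_cons, List.sum_cons]

theorem sm_append (P Q : Po) : sm ψ (P ++ Q) = sm ψ P + sm ψ Q := by
  simp only [sm, List.map_append, List.sum_append]

theorem sm_key (P : Po) : sm ψ (P.map key) = sm ψ P := by
  simp only [sm, List.map_map, Function.comp_def, key]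

theorem sm_mrg (f : ℕ) (a b : Po) : sm ψ (mrg f a b) = sm ψ a + sm ψ b := by
  induction f generalizing a b with
  | zero => exact sm_append ψ a b
  | succ f ih =>
    rcases a with _ | ⟨s, a⟩
    · simp only [mrg, sm_nil, zero_add]
    rcases b with _ | ⟨t, b⟩
    · simp only [mrg, sm_nil, add_zero]
    simp only [mrg, forceZ_eq]
    split_ifs with h1 h2 h3 h4
    · simp only [same, Bool.and_eq_true, decide_eq_true_eq, Nat.beq_eq] at h2
      obtain ⟨⟨⟨e1, e2⟩, e3⟩, e4⟩ := h2
      have h5 : s.c • ψ s.p s.N s.l s.m + t.c • ψ t.p t.N t.l t.m = 0 := by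
        rw [e1, e2, e3, eqM_eq e4, ← add_smul, h3, zero_smul]
      rw [ih, sm_cons, sm_cons, add_add_add_comm, h5, zero_add]
    · simp only [same, Bool.and_eq_true, decide_eq_true_eq, Nat.beq_eq] at h2
      obtain ⟨⟨⟨e1, e2⟩, e3⟩, e4⟩ := h2
      rw [sm_cons, ih, sm_cons, sm_cons, add_smul, ← e1, ← e2, ← e3, ← eqM_eq e4]
      abel
    · simp only [sm_cons, ih]
      abel
    · simp only [sm_cons, ih]
      abel
    · simp only [sm_cons, ih]
      abel

theorem sm_add (a b : Po) : sm ψ (add a b) = sm ψ a + sm ψ b := sm_mrg ψ _ a b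

theorem sm_flatten (l : List Po) : sm ψ l.flatten = (l.map (sm ψ)).sum := by
  induction l with
  | nil => rfl
  | cons a r ih => simp only [List.flatten_cons, sm_append, ih, List.map_cons, List.sum_cons]

theorem sm_sing (P : Po) : ((sing P).map (sm ψ)).sum = sm ψ P := by
  induction P with
  | nil => rfl
  | cons t r ih =>
    simp only [sing, fT_eq]
    split_ifs with h
    · rw [ih, sm_cons, show t.c = 0 from h, zero_smul, zero_add]
    · simp only [List.map_cons, List.sum_cons, ih, sm_cons, sm_nil, add_zero, key]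

theorem sm_pass : ∀ l : List Po, ((pass l).map (sm ψ)).sum = (l.map (sm ψ)).sum
  | [] => rfl
  | [_] => rfl
  | a :: b :: r => by
    simp only [pass, List.map_cons, List.sum_cons, sm_add, sm_pass r, add_assoc]

theorem sm_red (n : ℕ) (l : List Po) : sm ψ (red n l) = (l.map (sm ψ)).sum := by
  induction n generalizing l with
  | zero => exact sm_flatten ψ l
  | succ n ih =>
    match l with
    | [] => rfl
    | [a] => simp only [red, List.map_cons, List.sum_cons, List.map_nil, List.sum_nil, add_zero]
    | a :: b :: r =>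
      simp only [red, ih, List.map_cons, List.sum_cons, sm_add, sm_pass, add_assoc]

theorem sm_nrm (P : Po) : sm ψ (nrm P) = sm ψ P := by
  rw [nrm, sm_red, sm_sing]

theorem sm_flatMap (f : Tm → Po) (P : Po) :
    sm ψ (P.flatMap f) = (P.map fun t => sm ψ (f t)).sum := by
  induction P with
  | nil => rfl
  | cons t r ih => simp only [List.flatMap_cons, sm_append, ih, List.map_cons, List.sum_cons]

theorem sm_map_m (k : ℕ) (c p : ℤ) (N l : ℕ) (Q : List (List (List ℕ))) :
    sm ψ (Q.map fun q => ⟨k, c, p, N, l, q⟩) = c • (Q.map (ψ p N l)).sum := by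
  induction Q with
  | nil => simp only [List.map_nil, sm_nil, List.sum_nil, smul_zero]
  | cons t r ih => simp only [List.map_cons, sm_cons, ih, List.sum_cons, smul_add]

theorem map_sm {γ : Type} [AddCommGroup γ] (φ : β →+ γ) (P : Po) :
    φ (sm ψ P) = sm (fun p N l m => φ (ψ p N l m)) P := by
  induction P with
  | nil => exact map_zero φ
  | cons t r ih => simp only [sm_cons, map_add, map_zsmul, ih]

/-- Sums over `j` summation indices with values in a finite family. -/
def SS {X : Type} (e : Fin 4 → X) : ℕ → ((ℕ → X) → β) → (ℕ → X) → β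
  | 0, F, ds => F ds
  | j + 1, F, ds => SS e j (fun d => ∑ b, F fun a => Nat.casesOn a (e b) d) ds

variable {X : Type} (e : Fin 4 → X)

theorem map_SS {γ : Type} [AddCommGroup γ] (φ : β →+ γ) (j : ℕ) (F : (ℕ → X) → β) (ds : ℕ → X) :
    φ (SS e j F ds) = SS e j (fun d => φ (F d)) ds := by
  induction j generalizing F with
  | zero => rfl
  | succ j ih => simp only [SS, ih, map_sum]

theorem SS_add (j : ℕ) (F G : (ℕ → X) → β) (ds : ℕ → X) :
    SS e j (fun d => F d + G d) ds = SS e j F ds + SS e j G ds := by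
  induction j generalizing F G with
  | zero => rfl
  | succ j ih => simp only [SS, Finset.sum_add_distrib, ih]

theorem SS_zero (j : ℕ) (ds : ℕ → X) : SS e j (fun _ => (0 : β)) ds = 0 := by
  induction j with
  | zero => rfl
  | succ j ih => simp only [SS, Finset.sum_const_zero, ih]

theorem SS_sw1 (j : ℕ) (F : (ℕ → X) → β) (ds : ℕ → X) :
    SS e (j + 2) (fun d => F fun a => d (sw1 (a + 1) - 1)) ds = SS e (j + 2) F ds := by
  simp only [SS]
  congr 1
  funext d
  rw [Finset.sum_comm]
  refine Finset.sum_congr rfl fun b _ => Finset.sum_congr rfl fun b' _ => congrArg F ?_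
  funext a
  match a with
  | 0 => rfl
  | 1 => rfl
  | _ + 2 => rfl

theorem SS_sw2 (j : ℕ) (F : (ℕ → X) → β) (ds : ℕ → X) :
    SS e (j + 3) (fun d => F fun a => d (sw2 (a + 1) - 1)) ds = SS e (j + 3) F ds := by
  have h : SS e (j + 3) F ds = SS e (j + 2) (fun d => ∑ b, F fun a => Nat.casesOn a (e b) d) ds :=
    rfl
  rw [SS, h, ← SS_sw1 e j fun d => ∑ b, F fun a => Nat.casesOn a (e b) d]
  congr 1
  funext d
  refine Finset.sum_congr rfl fun b _ => congrArg F ?_
  funext a
  match a with
  | 0 => rfl
  | 1 => rfl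
  | 2 => rfl
  | _ + 3 => rfl

theorem SS_ind (p : β → Prop) (h0 : p 0) (ha : ∀ a b, p a → p b → p (a + b)) (j : ℕ)
    (F : (ℕ → X) → β) (ds : ℕ → X) (h : ∀ d, p (F d)) : p (SS e j F ds) := by
  induction j generalizing F with
  | zero => exact h ds
  | succ j ih => exact ih _ fun d => Finset.sum_induction _ p ha h0 fun b _ => h _

end Pool.Agent.Lib.MP_465ce1_mp.Cx.Sy
end
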