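import Pool.Agent.Lib.MP_465ce1_mp.Main
import Pool.Agent.Lib.MP_465ce1_mp.Cx.SymA

-- part Pool.Agent.Lib.MP_465ce1_mp.Cx.Defs
section

/-!
Definitions and interface statements for the counterexample in dimension four.
-/

open MeasureTheory Filter Topology
open scoped ContDiff RealInnerProductSpace

namespace Pool.Agent.Lib.MP_465ce1_mp.Cx

/-- Flat space. -/
abbrev E4 : Type := Euc 4

/-- Pairs of functions (real and imaginary part of a symbol). -/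
abbrev Pr : Type := (E4 → ℝ) × (E4 → ℝ)

/-- Standard basis. -/
noncomputable def ee (i : Fin 4) : E4 := EuclideanSpace.single i 1

/-- Directional derivative. -/
noncomputable def dd (e : E4) (f : E4 → ℝ) : E4 → ℝ := fun x => fderiv ℝ f x e

/-- Flat Laplacian. -/
noncomputable def lap (f : E4 → ℝ) : E4 → ℝ := fun x => ∑ i, dd (ee i) (dd (ee i) f) x

/-- Principal symbol of `mu - w^6 Laplacian`. -/
noncomputable def DD (w : E4 → ℝ) (μ : ℝ) (ξ : E4) : E4 → ℝ := fun x => μ + w x ^ 6 * ‖ξ‖ ^ 2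

/-- One step of the graded resolvent parametrix. -/
noncomputable def par (w : E4 → ℝ) (μ : ℝ) (ξ : E4) (g : ℕ → E4 → ℝ) : ℕ → E4 → ℝ
  | 0 => fun x => g 0 x / DD w μ ξ x
  | 1 => fun x => (g 1 x + w x ^ 6 * (2 * dd ξ (par w μ ξ g 0) x)) / DD w μ ξ x
  | k + 2 => fun x => (g (k + 2) x + w x ^ 6 *
      (2 * dd ξ (par w μ ξ g (k + 1)) x - lap (par w μ ξ g k) x)) / DD w μ ξ x

/-- The graded parametrix of the `m`-th power of the resolvent applied to `w^3`. -/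
noncomputable def sym (w : E4 → ℝ) (μ : ℝ) (ξ : E4) : ℕ → ℕ → E4 → ℝ
  | 0 => fun k x => if k = 0 then w x ^ 3 else 0
  | m + 1 => par w μ ξ (sym w μ ξ m)

/-- Real part of the truncated parametrix. -/
noncomputable def PP (w : E4 → ℝ) (μ : ℝ) (ξ : E4) (m : ℕ) : E4 → ℝ := fun x =>
  sym w μ ξ m 0 x - sym w μ ξ m 2 x + sym w μ ξ m 4 x - sym w μ ξ m 6 x

/-- Imaginary part of the truncated parametrix. -/
noncomputable def QQ (w : E4 → ℝ) (μ : ℝ) (ξ : E4) (m : ℕ) : E4 → ℝ := fun x =>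
  sym w μ ξ m 1 x - sym w μ ξ m 3 x + sym w μ ξ m 5 x

/-- The operator `mu - w^6 (grad + i xi)^2` on pairs. -/
noncomputable def Bop (w : E4 → ℝ) (μ : ℝ) (ξ : E4) (p : Pr) : Pr :=
  (fun x => DD w μ ξ x * p.1 x - w x ^ 6 * (lap p.1 x - 2 * dd ξ p.2 x),
   fun x => DD w μ ξ x * p.2 x - w x ^ 6 * (lap p.2 x + 2 * dd ξ p.1 x))

/-- The density of the variational lower bound, for a trial pair. -/
noncomputable def den (w : E4 → ℝ) (μ : ℝ) (ξ : E4) (p : Pr) (x : E4) : ℝ :=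
  (2 * w x ^ 3 * p.1 x -
    (p.1 x * ((Bop w μ ξ)^[4] p).1 x + p.2 x * ((Bop w μ ξ)^[4] p).2 x)) / w x ^ 6

/-- The trial pair: the parametrix times a cutoff. -/
noncomputable def tri (w χ : E4 → ℝ) (μ : ℝ) (ξ : E4) : Pr :=
  (fun y => χ y * PP w μ ξ 4 y, fun y => χ y * QQ w μ ξ 4 y)

/-- The density on phase space; `z = (x, xi)`. -/
noncomputable def Dens (w χ : E4 → ℝ) (μ : ℝ) (z : E4 × E4) : ℝ :=
  den w μ z.2 (tri w χ μ z.2) z.1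

/-- The local density of the order six heat invariant, up to a divergence and a constant. -/
noncomputable def Gd (w : E4 → ℝ) (x : E4) : ℝ := ∑ i, ∑ j, ∑ k,
  (91 * (dd (ee i) w x ^ 2 * dd (ee j) w x ^ 2 * dd (ee k) w x ^ 2)
    - 105 * (w x * dd (ee i) (dd (ee i) w) x * dd (ee j) w x ^ 2 * dd (ee k) w x ^ 2)
    + 96 * (w x ^ 2 * dd (ee j) w x * dd (ee k) w x * dd (ee i) (dd (ee j) w) x *
        dd (ee i) (dd (ee k) w) x)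
    + 8 * (w x ^ 3 * dd (ee k) w x * dd (ee j) (dd (ee k) w) x *
        dd (ee i) (dd (ee i) (dd (ee j) w)) x)
    - 7 * (w x ^ 3 * dd (ee i) (dd (ee i) w) x * dd (ee j) (dd (ee j) w) x *
        dd (ee k) (dd (ee k) w) x)
    + 12 * (w x ^ 3 * dd (ee i) (dd (ee j) w) x * dd (ee j) (dd (ee k) w) x *
        dd (ee i) (dd (ee k) w) x)
    + w x ^ 4 * dd (ee i) (dd (ee i) (dd (ee j) w)) x * dd (ee j) (dd (ee k) (dd (ee k) w)) x)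

/-- Squared modulus of the Fourier transform. -/
noncomputable def fsq (f : E4 → ℝ) (ξ : E4) : ℝ :=
  (∫ x, f x * Real.cos ⟪ξ, x⟫) ^ 2 + (∫ x, f x * Real.sin ⟪ξ, x⟫) ^ 2

/-! ### Part A: spectral side -/

/-- The heat trace is not monotone for some weight, not normalized. -/
def Raw : Prop := ∃ W : Sph 4 → ℝ, IsSmooth W ∧ (∀ x, 0 < W x) ∧
  ∃ t1 t2 : ℝ, 0 < t1 ∧ t1 < t2 ∧ heat W t1 < heat W t2

/-- Job Norm. -/
def NormStmt : Prop := Raw → ∃ W : Sph 4 → ℝ, IsSmooth W ∧ (∀ x, 0 < W x) ∧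
  ∫ x, W x ^ 2 ∂vol 4 = (vol 4).real Set.univ ∧
  ∃ t1 t2 : ℝ, 0 < t1 ∧ t1 < t2 ∧ heat W t1 < heat W t2

/-- Job Norm, second part. -/
def LaplaceStmt : Prop := ∀ (lam : ℕ → ℝ) (A μ : ℝ), (∀ k, 0 < lam k) →
  (∀ t : ℝ, 0 < t → Summable fun k => Real.exp (-(t * lam k))) →
  (∀ t : ℝ, 0 < t → t ^ 2 * ∑' k, Real.exp (-(t * lam k)) ≤ A) → 0 < μ →
  ∀ N, ∑ k ∈ Finset.range N, 1 / (lam k + μ) ^ 4 ≤ A / (6 * μ ^ 2)

/-- Job Flat: eigenfunctionals of the Dirichlet problem on a ball. -/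
def SpecFlatStmt : Prop := ∀ W : Sph 4 → ℝ, IsSmooth W → (∀ x, 0 < W x) → ∀ R : ℝ, 0 < R →
  ∃ (lam : ℕ → ℝ) (l : ℕ → DR 4 R →ₗ[ℝ] ℝ), (∀ k, eig W k ≤ lam k) ∧
    (∀ f g : DR 4 R, HasSum (fun k => l k f * l k g) (∫ x, VV W x * (f.1 x * g.1 x))) ∧
    (∀ k (f g : DR 4 R), (∀ x, VV W x * g.1 x = -lap f.1 x) → l k g = lam k * l k f) ∧
    ∀ k (ε : ℝ), 0 < ε → ∃ f : DR 4 R, ∫ x, VV W x * f.1 x ^ 2 ≤ 1 + ε ∧
      ∀ g : DR 4 R, (l k g - ∫ x, VV W x * (f.1 x * g.1 x)) ^ 2 ≤ ε * ∫ x, VV W x * g.1 x ^ 2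

/-- Job Planch. -/
def PlanchStmt : Prop := ∀ f : E4 → ℝ, ContDiff ℝ ∞ f → HasCompactSupport f →
  Continuous (fsq f) ∧ Integrable (fsq f) ∧
    ∫ ξ, fsq f ξ = (2 * Real.pi) ^ 4 * ∫ x, f x ^ 2 ∧
    Integrable (fun ξ => ‖ξ‖ ^ 2 * fsq f ξ) ∧
    ∫ ξ, ‖ξ‖ ^ 2 * fsq f ξ = (2 * Real.pi) ^ 4 * ∫ x, ‖fderiv ℝ f x‖ ^ 2

/-- Job Frame: action of the operator on modulated functions. -/
def FrameStmt : Prop := ∀ (w : E4 → ℝ) (μ : ℝ) (ξ : E4) (p : Pr), ContDiff ℝ ∞ p.1 →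
  ContDiff ℝ ∞ p.2 → ∀ x,
    (μ * (p.1 x * Real.cos ⟪ξ, x⟫ - p.2 x * Real.sin ⟪ξ, x⟫) -
      w x ^ 6 * lap (fun y => p.1 y * Real.cos ⟪ξ, y⟫ - p.2 y * Real.sin ⟪ξ, y⟫) x =
      (Bop w μ ξ p).1 x * Real.cos ⟪ξ, x⟫ - (Bop w μ ξ p).2 x * Real.sin ⟪ξ, x⟫) ∧
    (μ * (p.1 x * Real.sin ⟪ξ, x⟫ + p.2 x * Real.cos ⟪ξ, x⟫) -
      w x ^ 6 * lap (fun y => p.1 y * Real.sin ⟪ξ, y⟫ + p.2 y * Real.cos ⟪ξ, y⟫) x =
      (Bop w μ ξ p).1 x * Real.sin ⟪ξ, x⟫ + (Bop w μ ξ p).2 x * Real.cos ⟪ξ, x⟫)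

/-- Job Func: Plancherel bound for a functional that is a limit of integral functionals. -/
def FuncStmt : Prop := ∀ (R : ℝ) (V h : E4 → ℝ) (l : DR 4 R →ₗ[ℝ] ℝ) (c s : E4 → DR 4 R),
  Continuous V → (∀ x, 0 < V x) → ContDiff ℝ ∞ (fun x => V x * h x) →
  (∀ x, V x * h x ^ 2 ≤ 1) →
  (∀ ξ x, (c ξ).1 x = h x * Real.cos ⟪ξ, x⟫) → (∀ ξ x, (s ξ).1 x = h x * Real.sin ⟪ξ, x⟫) →
  (∀ ε : ℝ, 0 < ε → ∃ f : DR 4 R, ∫ x, V x * f.1 x ^ 2 ≤ 1 + ε ∧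
      ∀ g : DR 4 R, (l g - ∫ x, V x * (f.1 x * g.1 x)) ^ 2 ≤ ε * ∫ x, V x * g.1 x ^ 2) →
  Continuous (fun ξ => l (c ξ) ^ 2 + l (s ξ) ^ 2) ∧
    ∫⁻ ξ, ENNReal.ofReal (l (c ξ) ^ 2 + l (s ξ) ^ 2) ≤ ENNReal.ofReal ((2 * Real.pi) ^ 4)

/-- Job LB: the variational lower bound for the trace of the fourth power of the resolvent. -/
def LBStmt : Prop := ∀ (W : Sph 4 → ℝ) (w : E4 → ℝ) (μ S R : ℝ) (p : E4 → Pr),
  IsSmooth W → (∀ x, 0 < W x) → ContDiff ℝ ∞ w → (∀ x, 0 < w x) →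
  (∀ x, VV W x * w x ^ 6 = 1) → 0 < μ → 0 < R →
  (∀ N, ∑ k ∈ Finset.range N, 1 / (eig W k + μ) ^ 4 ≤ S) →
  (∀ ξ, (p ξ).1 ∈ DR 4 R ∧ (p ξ).2 ∈ DR 4 R) →
  Integrable (fun ξ => ∫ x, den w μ ξ (p ξ) x) →
  ∫ ξ, ∫ x, den w μ ξ (p ξ) x ≤ (2 * Real.pi) ^ 4 * S

/-- Job Near: nearly optimal orthonormal families. -/
def NearStmt : Prop := ∀ W : Sph 4 → ℝ, IsSmooth W → (∀ x, 0 < W x) → ∀ N : ℕ,
  ∃ φ : ℕ → Sph 4 → ℝ, (∀ k, IsSmooth (φ k)) ∧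
    (∀ j < N, ∀ k < N, ∫ x, φ j x * φ k x ∂vol 4 = if j = k then 1 else 0) ∧
    ∀ k < N, energy (fun x => φ k x / Real.sqrt (W x)) ≤ eig W k + 1

/-- Job Near, second part: localization of the energy. -/
def IMSStmt : Prop := ∀ (n : ℕ) (χ : Fin n → Sph 4 → ℝ), (∀ i, IsSmooth (χ i)) →
  (∀ x, ∑ i, χ i x ^ 2 = 1) → ∃ C : ℝ, 0 ≤ C ∧ ∀ u : Sph 4 → ℝ, IsSmooth u →
    ∑ i, energy (fun x => χ i x * u x) ≤ energy u + C * ∫ x, u x ^ 2 ∂vol 4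

/-- Composition with the antipodal map when `b` is true. -/
noncomputable def flip (b : Bool) (u : Sph 4 → ℝ) : Sph 4 → ℝ := fun y => u (if b then -y else y)

/-- The cutoff vanishes near the pole and the coefficient is nearly constant on its support. -/
def Good (W χ : Sph 4 → ℝ) (α δ : ℝ) : Prop :=
  (∃ R : ℝ, ∀ x : E4, R < ‖x‖ → χ (sig x) = 0) ∧
    ∀ x : E4, χ (sig x) ≠ 0 → (1 - δ) * α ≤ 1 / VV W x ∧ 1 / VV W x ≤ α

/-- Job Part. -/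
def PartStmt : Prop := ∀ W : Sph 4 → ℝ, IsSmooth W → (∀ x, 0 < W x) → ∀ δ : ℝ, 0 < δ → δ < 1 →
  ∃ (n : ℕ) (χ : Fin n → Sph 4 → ℝ) (b : Fin n → Bool) (α : Fin n → ℝ),
    (∀ i, IsSmooth (χ i)) ∧ (∀ x, ∑ i, χ i x ^ 2 = 1) ∧
    ∀ i, 0 < α i ∧ Good (flip (b i) W) (flip (b i) (χ i)) (α i) δ

/-- Job Antip. -/
def AntipStmt : Prop := ∀ b : Bool,
  (∀ u : Sph 4 → ℝ, IsSmooth u → IsSmooth (flip b u) ∧ energy (flip b u) = energy u) ∧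
    ∀ f : Sph 4 → ℝ, Continuous f → ∫ x, flip b f x ∂vol 4 = ∫ x, f x ∂vol 4

/-- Job Piece: the Berezin type bound on one piece. -/
def PieceStmt : Prop := ∀ (W χ : Sph 4 → ℝ) (α δ s : ℝ) (N : ℕ) (φ : ℕ → Sph 4 → ℝ) (y : ℕ → ℝ),
  IsSmooth W → (∀ x, 0 < W x) → IsSmooth χ → 0 < α → 0 < δ → δ < 1 → Good W χ α δ → 0 < s →
  (∀ k, IsSmooth (φ k)) →
  (∀ j < N, ∀ k < N, ∫ x, φ j x * φ k x ∂vol 4 = if j = k then 1 else 0) → (∀ k, 0 ≤ y k) →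
  ∑ k ∈ Finset.range N, Real.exp (-y k) *
      ((1 + y k) * (1 - δ) * (∫ x, χ x ^ 2 * φ k x ^ 2 ∂vol 4) -
        s * energy (fun x => χ x * (φ k x / Real.sqrt (W x)))) ≤
    (∫ x, χ x ^ 2 * W x ^ 2 ∂vol 4) / (16 * Real.pi ^ 2 * s ^ 2)

/-- Job Weyl: the upper Weyl bound for small times. -/
def WeylStmt : Prop := ∀ W : Sph 4 → ℝ, IsSmooth W → (∀ x, 0 < W x) → ∀ η : ℝ, 0 < η →
  ∃ t0 : ℝ, 0 < t0 ∧ ∀ t : ℝ, 0 < t → t ≤ t0 →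
    heat W t ≤ (1 + η) * ((∫ x, W x ^ 2 ∂vol 4) / (16 * Real.pi ^ 2))

/-! ### Part B: symbol calculus -/

/-- Families of functions of `x` that depend on `xi` and `sigma` (with `mu = sigma^2`). -/
abbrev Fam : Type := E4 → ℝ → E4 → ℝ

/-- Smooth off `(xi, sigma) = 0` and homogeneous of degree `d` in `(xi, sigma)`. -/
def Hom (d : ℤ) (G : Fam) : Prop :=
  ContDiffOn ℝ ∞ (fun p : E4 × ℝ × E4 => G p.1 p.2.1 p.2.2) {p | (p.1, p.2.1) ≠ 0} ∧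
    ∀ t : ℝ, 0 < t → ∀ (ξ : E4) (σ : ℝ), (ξ, σ) ≠ 0 → ∀ x,
      G (t • ξ) (t * σ) x = t ^ d * G ξ σ x

/-- Finite sums of homogeneous families of degree at most `d`. -/
inductive HomLE (d : ℤ) : Fam → Prop
  | base {e : ℤ} {G : Fam} : e ≤ d → Hom e G → HomLE d G
  | add {G G' : Fam} : HomLE d G → HomLE d G' → HomLE d (fun ξ σ x => G ξ σ x + G' ξ σ x)
  | congr {G G' : Fam} : HomLE d G → (∀ (ξ : E4) (σ : ℝ), (ξ, σ) ≠ 0 → G' ξ σ = G ξ σ) →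
      HomLE d G'

/-- Job Hom: closure properties. -/
structure HomKit : Prop where
  mono : ∀ {d e : ℤ} {G : Fam}, d ≤ e → HomLE d G → HomLE e G
  zero : ∀ d : ℤ, HomLE d (fun _ _ _ => 0)
  const : ∀ {f : E4 → ℝ}, ContDiff ℝ ∞ f → HomLE 0 (fun _ _ => f)
  smul : ∀ {d : ℤ} {G : Fam} (c : ℝ), HomLE d G → HomLE d (fun ξ σ x => c * G ξ σ x)
  sub : ∀ {d : ℤ} {G G' : Fam}, HomLE d G → HomLE d G' →
    HomLE d (fun ξ σ x => G ξ σ x - G' ξ σ x)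
  mul : ∀ {d e : ℤ} {G G' : Fam}, HomLE d G → HomLE e G' →
    HomLE (d + e) (fun ξ σ x => G ξ σ x * G' ξ σ x)
  dde : ∀ {d : ℤ} {G : Fam} (e : E4), HomLE d G → HomLE d (fun ξ σ => dd e (G ξ σ))
  ddxi : ∀ {d : ℤ} {G : Fam}, HomLE d G → HomLE (d + 1) (fun ξ σ => dd ξ (G ξ σ))
  lap : ∀ {d : ℤ} {G : Fam}, HomLE d G → HomLE d (fun ξ σ => lap (G ξ σ))
  dsym : ∀ {w : E4 → ℝ}, ContDiff ℝ ∞ w → HomLE 2 (fun ξ σ => DD w (σ ^ 2) ξ)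
  dinv : ∀ {w : E4 → ℝ}, ContDiff ℝ ∞ w → (∀ x, 0 < w x) →
    HomLE (-2) (fun ξ σ x => (DD w (σ ^ 2) ξ x)⁻¹)
  smooth : ∀ {d : ℤ} {G : Fam}, HomLE d G → ∀ (ξ : E4) (σ : ℝ), (ξ, σ) ≠ 0 → ContDiff ℝ ∞ (G ξ σ)

/-- Job HomInt: integrals over phase space. -/
def HomIntStmt : Prop := ∀ (n : ℕ) (G : Fam) (r : ℝ), HomLE (-(n + 5 : ℕ)) G →
  ∃ C : ℝ, ∀ σ : ℝ, 1 ≤ σ →
    IntegrableOn (fun z : E4 × E4 => G z.2 σ z.1) (Metric.closedBall 0 r ×ˢ Set.univ) ∧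
    (∀ x, Integrable fun ξ => G ξ σ x) ∧
    ∫ z in Metric.closedBall (0 : E4) r ×ˢ (Set.univ : Set E4), |G z.2 σ z.1| ≤ C / σ ^ (n + 1)

/-- Job Res: degrees of the parametrix and of its residual. -/
def ResStmt : Prop := ∀ w : E4 → ℝ, ContDiff ℝ ∞ w → (∀ x, 0 < w x) →
  (∀ m k : ℕ, HomLE (-(2 * m + k : ℕ)) (fun ξ σ => sym w (σ ^ 2) ξ m k)) ∧
  (∀ χ : E4 → ℝ, ContDiff ℝ ∞ χ → HomLE (-8) (fun ξ σ x => Dens w χ (σ ^ 2) (x, ξ))) ∧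
  HomLE (-15) (fun ξ σ x => Dens w (fun _ => 1) (σ ^ 2) (x, ξ) - PP w (σ ^ 2) ξ 4 x / w x ^ 3)

/-- Job Loc: locality and the constant case. -/
def LocStmt : Prop :=
  (∀ (w w' : E4 → ℝ) (μ : ℝ) (x ξ : E4), w =ᶠ[𝓝 x] w' → ∀ m k,
    sym w μ ξ m k =ᶠ[𝓝 x] sym w' μ ξ m k) ∧
  (∀ (w w' χ χ' : E4 → ℝ) (μ : ℝ) (x ξ : E4), w =ᶠ[𝓝 x] w' → χ =ᶠ[𝓝 x] χ' →
    Dens w χ μ (x, ξ) = Dens w' χ' μ (x, ξ)) ∧
  (∀ (w : E4 → ℝ) (μ : ℝ) (z : E4 × E4), Dens w (fun _ => 0) μ z = 0) ∧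
  (∀ (w w' : E4 → ℝ) (x : E4), w =ᶠ[𝓝 x] w' → Gd w x = Gd w' x) ∧
  (∀ (c μ : ℝ) (ξ : E4) (m k : ℕ), sym (fun _ => c) μ ξ m k =
    fun _ => if k = 0 then c ^ 3 / (μ + c ^ 6 * ‖ξ‖ ^ 2) ^ m else 0) ∧
  (∀ (c μ : ℝ) (z : E4 × E4), 0 < c → 0 < μ →
    Dens (fun _ => c) (fun _ => 1) μ z = 1 / (μ + c ^ 6 * ‖z.2‖ ^ 2) ^ 4)

/-- Job Aff: covariance under translations and dilations. -/
def AffStmt : Prop := ∀ (b : E4 → ℝ) (c μ ε : ℝ) (q : E4), ContDiff ℝ ∞ b → (∀ x, 0 < b x) →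
  0 < c → 0 < μ → 0 < ε →
  Integrable (fun z => Dens b (fun _ => 1) (ε ^ 2 * μ) z -
    Dens (fun _ => c) (fun _ => 1) (ε ^ 2 * μ) z) →
  Integrable (fun z => Dens (fun x => b (ε⁻¹ • (x - q))) (fun _ => 1) μ z -
    Dens (fun _ => c) (fun _ => 1) μ z) ∧
  ∫ z, (Dens (fun x => b (ε⁻¹ • (x - q))) (fun _ => 1) μ z - Dens (fun _ => c) (fun _ => 1) μ z) =
    ε ^ 8 * ∫ z, (Dens b (fun _ => 1) (ε ^ 2 * μ) z - Dens (fun _ => c) (fun _ => 1) (ε ^ 2 * μ) z)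

/-- Job Wick: the base integral. -/
def WickBase : Prop := ∀ (a μ : ℝ) (N : ℕ), 0 < a → 0 < μ →
  Integrable (fun ξ : E4 => 1 / (μ + a * ‖ξ‖ ^ 2) ^ (N + 3)) ∧
  ∫ ξ : E4, 1 / (μ + a * ‖ξ‖ ^ 2) ^ (N + 3) =
    Real.pi ^ 2 / (a ^ 2 * μ ^ (N + 1) * (((N : ℝ) + 1) * ((N : ℝ) + 2)))

/-- Job Wick: one contraction. -/
def WickStep : Prop := ∀ (a μ : ℝ) (l N : ℕ) (p : E4 → ℝ), 0 < a → 0 < μ → ContDiff ℝ ∞ p →
  (∀ t : ℝ, 0 < t → ∀ ξ, p (t • ξ) = t ^ l * p ξ) →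
  (l + 4 < 2 * N → Integrable fun ξ => p ξ / (μ + a * ‖ξ‖ ^ 2) ^ N) ∧
  (2 ≤ l → l + 3 < 2 * N →
    ∫ ξ, p ξ / (μ + a * ‖ξ‖ ^ 2) ^ (N + 1) =
      1 / (2 * l * N * a) * ∫ ξ, lap p ξ / (μ + a * ‖ξ‖ ^ 2) ^ N)

/-- Job Sym: the local heat invariants. -/
def SymStmt : Prop := ∀ (w : E4 → ℝ) (c r μ : ℝ), ContDiff ℝ ∞ w → (∀ x, 0 < w x) →
  (∀ x, r < ‖x‖ → w x = c) → 0 < μ →
  ∫ x, ∫ ξ, sym w μ ξ 4 2 x / w x ^ 3 = 0 ∧ ∫ x, ∫ ξ, sym w μ ξ 4 4 x / w x ^ 3 = 0 ∧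
  ∫ x, ∫ ξ, sym w μ ξ 4 6 x / w x ^ 3 = Real.pi ^ 2 * (6 / 35) / μ ^ 5 * ∫ x, Gd w x

/-- Job Bump: the expansion for one bump. -/
def BumpStmt : Prop := ∀ (b : E4 → ℝ) (c r : ℝ), ContDiff ℝ ∞ b → (∀ x, 0 < b x) → 0 < c →
  (∀ x, r < ‖x‖ → b x = c) → ∃ C : ℝ, ∀ σ : ℝ, 1 ≤ σ →
    Integrable (fun z => Dens b (fun _ => 1) (σ ^ 2) z -
      Dens (fun _ => c) (fun _ => 1) (σ ^ 2) z) ∧
    Real.pi ^ 2 / (6 * σ ^ 4) * (∫ x, (1 / b x ^ 12 - 1 / c ^ 12)) -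
        Real.pi ^ 2 * (6 / 35) / σ ^ 10 * (∫ x, Gd b x) - C / σ ^ 11 ≤
      ∫ z, (Dens b (fun _ => 1) (σ ^ 2) z - Dens (fun _ => c) (fun _ => 1) (σ ^ 2) z)

/-- Job Flat cutoff: the leading term for a constant coefficient and a cutoff. -/
def CutoffStmt : Prop := ∀ (χ : E4 → ℝ) (c : ℝ), ContDiff ℝ ∞ χ → HasCompactSupport χ → 0 < c →
  ∃ C : ℝ, ∀ σ : ℝ, 1 ≤ σ → Integrable (Dens (fun _ => c) χ (σ ^ 2)) ∧
    Real.pi ^ 2 / (6 * σ ^ 4) * ((∫ x, (2 * χ x - χ x ^ 2)) / c ^ 12) - C / σ ^ 5 ≤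
      ∫ z, Dens (fun _ => c) χ (σ ^ 2) z

/-! ### Part C: geometry -/

/-- Job Bg: a flat weight that is round near infinity comes from the sphere. -/
def SphereOfStmt : Prop := ∀ (w : E4 → ℝ) (K R : ℝ), ContDiff ℝ ∞ w → (∀ x, 0 < w x) → 0 < K →
  (∀ x, R < ‖x‖ → w x ^ 3 * rho x = K) →
  ∃ W : Sph 4 → ℝ, IsSmooth W ∧ (∀ x, 0 < W x) ∧ (∀ x, VV W x * w x ^ 6 = 1) ∧
    Integrable (fun x => 1 / w x ^ 12) ∧ ∫ x, W x ^ 2 ∂vol 4 = ∫ x, 1 / w x ^ 12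

/-- Job Bg: background and cutoff. -/
def BgStmt : Prop := ∀ c η : ℝ, 0 < c → 0 < η → ∃ (g χ : E4 → ℝ) (K R : ℝ),
  ContDiff ℝ ∞ g ∧ (∀ x, 0 < g x) ∧ ContDiff ℝ ∞ χ ∧ 0 < K ∧ 3 ≤ R ∧
  (∀ x, ‖x‖ ≤ 3 → g x = c ∧ χ x = 1) ∧ (∀ x, R < ‖x‖ → χ x = 0 ∧ g x ^ 3 * rho x = K) ∧
  (∀ x, g =ᶠ[𝓝 x] (fun _ => c) ∨ χ =ᶠ[𝓝 x] fun _ => 0) ∧
  Integrable (fun x => 1 / g x ^ 12) ∧
  ∫ x, 1 / g x ^ 12 ≤ (∫ x, (2 * χ x - χ x ^ 2)) / c ^ 12 + η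

/-- The background with small bumps added. -/
noncomputable def wsum (g b : E4 → ℝ) (c ε : ℝ) (Z : Finset E4) : E4 → ℝ := fun x =>
  g x + ∑ q ∈ Z, (b (ε⁻¹ • (x - q)) - c)

/-- Job Add: additivity over separated bumps. -/
def AddStmt : Prop := ∀ (g χ b : E4 → ℝ) (c r ε : ℝ) (Z : Finset E4), ContDiff ℝ ∞ g →
  (∀ x, 0 < g x) → ContDiff ℝ ∞ b → (∀ x, 0 < b x) → 0 < r → 0 < ε → 2 * r * ε ≤ 1 →
  (∀ x, r < ‖x‖ → b x = c) → (∀ x, ‖x‖ ≤ 3 → g x = c ∧ χ x = 1) →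
  (∀ x, g =ᶠ[𝓝 x] (fun _ => c) ∨ χ =ᶠ[𝓝 x] fun _ => 0) →
  (∀ q ∈ Z, ‖q‖ ≤ 2) → (∀ q ∈ Z, ∀ q' ∈ Z, q ≠ q' → 4 * r * ε ≤ ‖q - q'‖) →
  ContDiff ℝ ∞ (wsum g b c ε Z) ∧ (∀ x, 0 < wsum g b c ε Z x) ∧
  (∀ x, 3 ≤ ‖x‖ → wsum g b c ε Z x = g x) ∧
  (∀ x, 1 / wsum g b c ε Z x ^ 12 =
    1 / g x ^ 12 + ∑ q ∈ Z, (1 / b (ε⁻¹ • (x - q)) ^ 12 - 1 / c ^ 12)) ∧
  ∀ (μ : ℝ) (z : E4 × E4), Dens (wsum g b c ε Z) χ μ z = Dens (fun _ => c) χ μ z +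
    ∑ q ∈ Z, (Dens (fun x => b (ε⁻¹ • (x - q))) (fun _ => 1) μ z -
      Dens (fun _ => c) (fun _ => 1) μ z)

/-- Job Add, second part: many separated points. -/
def GridStmt : Prop := ∀ n : ℕ, 0 < n → ∃ Z : Finset E4, Z.card = n ^ 4 ∧ (∀ q ∈ Z, ‖q‖ ≤ 2) ∧
  ∀ q ∈ Z, ∀ q' ∈ Z, q ≠ q' → 1 / (n : ℝ) ≤ ‖q - q'‖

/-- The consequence of monotonicity on the flat side (job Upper). -/
def UpperStmt : Prop := ¬Raw → ∀ (w χ : E4 → ℝ) (K R μ : ℝ), ContDiff ℝ ∞ w → (∀ x, 0 < w x) →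
  ContDiff ℝ ∞ χ → 0 < K → 0 < R → 1 ≤ μ →
  (∀ x, R < ‖x‖ → χ x = 0 ∧ w x ^ 3 * rho x = K) → Integrable (Dens w χ μ) →
  ∫ z, Dens w χ μ z ≤ Real.pi ^ 2 / (6 * μ ^ 2) * ∫ x, 1 / w x ^ 12

/-- A bump with negative invariant. -/
def NegBump : Prop := ∃ (b : E4 → ℝ) (c r : ℝ), ContDiff ℝ ∞ b ∧ (∀ x, 0 < b x) ∧ 0 < c ∧ 0 < r ∧
  (∀ x, r < ‖x‖ → b x = c) ∧ ∫ x, Gd b x < 0

/-- Job Final. -/
def FinalStmt : Prop := NegBump → Raw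

end Pool.Agent.Lib.MP_465ce1_mp.Cx
end

-- part Pool.Agent.Lib.MP_465ce1_mp.Cx.DefsD
section

/-!
Interface statements for the certificate that a spline bump has a negative invariant.
-/

open MeasureTheory Filter Topology
open scoped ContDiff RealInnerProductSpace

namespace Pool.Agent.Lib.MP_465ce1_mp.Cx

/-- The radial variable `t` with `|x - z|^2 = rho t^m`. -/
noncomputable def sg (z : E4) (ρ : ℝ) (m : ℕ) (x : E4) : ℝ := (‖x - z‖ ^ 2 / ρ) ^ (1 / (m : ℝ))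

/-- The axial variable. -/
noncomputable def ax (s : ℝ) (z x : E4) : ℝ := s * (x 0 - z 0)

/-- A spherical shell. -/
def shell (z : E4) (ρ : ℝ) (m : ℕ) (a b : ℝ) : Set E4 := {x | a < sg z ρ m x ∧ sg z ρ m x < b}

/-- The integral of `t^(e-1)` from `a` to `b`. -/
noncomputable def Iint (e : ℤ) (a b : ℝ) : ℝ :=
  if e = 0 then Real.log (b / a) else (b ^ e - a ^ e) / e

/-- A system of jets in the variables `X = ax s z x` and `R = |x - z|^2` on a set. -/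
def Axial (s : ℝ) (z : E4) (U : Set E4) (f : ℕ → ℕ → E4 → ℝ) : Prop :=
  ∀ i j, i + j ≤ 2 → ∀ x ∈ U, HasFDerivAt (f i j)
    ((s * f (i + 1) j x) • innerSL ℝ (ee 0) + (2 * f i (j + 1) x) • innerSL ℝ (x - z)) x

/-- Job Ax: the density in axial variables. -/
def AxStmt : Prop := ∀ (s η : ℝ) (z : E4) (U : Set E4) (f : ℕ → ℕ → E4 → ℝ),
  (s = 1 ∨ s = -1) → IsOpen U → Axial s z U f → ∀ x ∈ U,
    (‖x - z‖ ^ 2) ^ 3 * Gd (fun y => f 0 0 y ^ 2 + η) x =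
      psiO (ax s z x) (‖x - z‖ ^ 2) 1 η (f 0 0 x) (f 1 0 x) (‖x - z‖ ^ 2 * f 0 1 x) (f 2 0 x)
        (‖x - z‖ ^ 2 * f 1 1 x) ((‖x - z‖ ^ 2) ^ 2 * f 0 2 x) (f 3 0 x) (‖x - z‖ ^ 2 * f 2 1 x)
        ((‖x - z‖ ^ 2) ^ 2 * f 1 2 x) ((‖x - z‖ ^ 2) ^ 3 * f 0 3 x)

/-- Job Jet, first part: scaling of the density polynomial. -/
def PsiScale : Prop := ∀ (y n d l L η o00 o10 o01 o20 o11 o02 o30 o21 o12 o03 : ℝ),
  d ≠ 0 → l ≠ 0 → L ≠ 0 →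
  psiO (y * l) (l ^ 2 * n / d) 1 η (o00 / L) (o10 / (L * l)) (o01 / L) (o20 / (L * l ^ 2))
      (o11 / (L * l)) (o02 / L) (o30 / (L * l ^ 3)) (o21 / (L * l ^ 2)) (o12 / (L * l))
      (o03 / L) * (d ^ 3 * L ^ 12) =
    psiO y n d (η * L ^ 2) o00 o10 o01 o20 o11 o02 o30 o21 o12 o03

/-- The ratio `rho`. -/
noncomputable def Pc.rho (P : Pc) : ℝ := (P.rn : ℝ) / P.rd

/-- The radial variable of a piece. -/
noncomputable def Pc.t (P : Pc) (z x : E4) : ℝ := sg z P.rho P.m x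

/-- The sheared axial variable of a piece. -/
noncomputable def Pc.y (P : Pc) (s : ℝ) (z x : E4) : ℝ := ax s z x / P.t z x ^ P.sh

/-- The function of a piece. -/
noncomputable def Pc.om (P : Pc) (s : ℝ) (z x : E4) : ℝ :=
  ev2 (P.y s z x) (P.t z x) P.p / P.lam

/-- The jets of the function of a piece. -/
noncomputable def Pc.jet (P : Pc) (s : ℝ) (z : E4) (i j : ℕ) (x : E4) : ℝ :=
  ev2 (P.y s z x) (P.t z x) (leaf P.m P.sh i j 0 P.p) /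
    ((P.lam * P.m ^ 3 : ℝ) * (P.t z x ^ P.sh) ^ i * (‖x - z‖ ^ 2) ^ j)

/-- The shell of a piece. -/
def Pc.sh' (P : Pc) (z : E4) : Set E4 :=
  shell z P.rho P.m ((P.an : ℝ) / P.ad) ((P.bn : ℝ) / P.bd)

/-- Job Jet, second part. -/
def JetStmt : Prop := ∀ (P : Pc) (s : ℝ) (z : E4), P.wf →
  Axial s z {z}ᶜ (P.jet s z) ∧ P.jet s z 0 0 = P.om s z

/-- Job Mom: moments of shells. -/
def MomStmt : Prop := ∀ (s ρ ta tb : ℝ) (z : E4) (m a : ℕ) (β : ℤ), (s = 1 ∨ s = -1) → 0 < ρ →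
  0 < m → 0 ≤ ta → ta < tb → (0 < ta ∨ 0 < (m : ℤ) * ((a / 2 : ℕ) + 2) + β) →
  IntegrableOn (fun x => ax s z x ^ a * sg z ρ m x ^ β) (shell z ρ m ta tb) ∧
  ∫ x in shell z ρ m ta tb, ax s z x ^ a * sg z ρ m x ^ β =
    if a % 2 = 1 then 0 else Real.pi ^ 2 * ρ ^ 2 * m *
      (((2 * (a / 2)).factorial : ℝ) / ((a / 2).factorial * (a / 2 + 1).factorial) *
        (ρ / 4) ^ (a / 2)) * Iint ((m : ℤ) * ((a / 2 : ℕ) + 2) + β) ta tb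

/-- Job Kron: Kronecker substitution and decoding. -/
def KronStmt : Prop := ∀ P : Pc, P.ok = true → ∃ c : ℕ → ℤ,
  (∀ y t : ℝ, P.expr y t = ∑ q ∈ Finset.range P.mx, (c q : ℝ) * y ^ (q % P.D) * t ^ (q / P.D)) ∧
  (∀ q, |c q| < 2 ^ P.B) ∧ (∀ q, P.mx ≤ q → c q = 0) ∧
  ∀ (e : ℤ), (e = 1 ∨ e = -1) → ∀ (F : ℕ → ℕ → ℕ) (n : ℕ),
    dec P.B n F P.k (e * P.big + off P.B P.k).toNat 0 =
      ∑ q ∈ Finset.range (min n (2 ^ P.k)), F q (e * c q + 2 ^ P.B).toNat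

/-- Job Wt: the rounded weights and the consequence of the check. -/
def WtStmt : Prop := ∀ P : Pc, P.wf → P.chk = true →
  (0 < P.an → (P.lg : ℝ) ≤ Real.log ((P.bn : ℝ) / P.bd / ((P.an : ℝ) / P.ad)) * 2 ^ P.s2 ∧
    Real.log ((P.bn : ℝ) / P.bd / ((P.an : ℝ) / P.ad)) * 2 ^ P.s2 ≤ P.lg + 1) →
  ∃ c : ℕ → ℤ,
  (∀ y t : ℝ, P.expr y t = ∑ q ∈ Finset.range P.mx, (c q : ℝ) * y ^ (q % P.D) * t ^ (q / P.D)) ∧
  (∀ q, 0 < P.an ∨ 0 < P.ex (q % P.D) (q / P.D) ∨ c q = 0) ∧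
  P.sgn * (P.rho ^ 2 * P.m / (P.rn ^ 3 * (P.lam * P.m ^ 3) ^ 12) *
    ∑ q ∈ Finset.range P.mx, (c q : ℝ) * (if q % P.D % 2 = 1 then 0 else
      ((2 * (q % P.D / 2)).factorial : ℝ) /
          ((q % P.D / 2).factorial * (q % P.D / 2 + 1).factorial) * (P.rho / 4) ^ (q % P.D / 2) *
        Iint (P.ex (q % P.D) (q / P.D)) ((P.an : ℝ) / P.ad) ((P.bn : ℝ) / P.bd))) ≤
    P.bnd / 1000000

/-- Job PInt: the integral over one piece. -/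
def PIntStmt : Prop := ∀ (P : Pc) (s η : ℝ) (z : E4), P.wf → P.chk = true → (s = 1 ∨ s = -1) →
  (P.eta : ℝ) = η * (P.lam * P.m ^ 3) ^ 2 →
  (0 < P.an → (P.lg : ℝ) ≤ Real.log ((P.bn : ℝ) / P.bd / ((P.an : ℝ) / P.ad)) * 2 ^ P.s2 ∧
    Real.log ((P.bn : ℝ) / P.bd / ((P.an : ℝ) / P.ad)) * 2 ^ P.s2 ≤ P.lg + 1) →
  IntegrableOn (Gd fun x => P.om s z x ^ 2 + η) (P.sh' z) ∧
  P.sgn * ∫ x in P.sh' z, Gd (fun x => P.om s z x ^ 2 + η) x ≤ Real.pi ^ 2 * (P.bnd / 1000000)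

/-- One truncated cubic term of a spline. -/
structure Gt where
  z : E4
  ρ : ℝ
  m : ℕ
  s : ℝ
  H : E4 → ℝ

/-- The spline. -/
noncomputable def spl {n : ℕ} (f : E4 → ℝ) (T : Fin n → Gt) (x : E4) : ℝ :=
  f x + ∑ j, max (sg (T j).z (T j).ρ (T j).m x - (T j).s) 0 ^ 3 * (T j).H x

/-- The smoothed spline. -/
noncomputable def splE {n : ℕ} (f : E4 → ℝ) (T : Fin n → Gt) (ε : ℝ) (x : E4) : ℝ :=
  f x + ∑ j, (sg (T j).z (T j).ρ (T j).m x - (T j).s) ^ 3 *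
    Real.smoothTransition ((sg (T j).z (T j).ρ (T j).m x - (T j).s) / ε) * (T j).H x

/-- Job Smo: smoothness and uniform bounds for the smoothed spline. -/
def SmoStmt : Prop := ∀ (n : ℕ) (f : E4 → ℝ) (T : Fin n → Gt) (η r : ℝ), ContDiff ℝ ∞ f →
  (∀ j, 0 < (T j).ρ ∧ 0 < (T j).m ∧ 0 < (T j).s ∧ ContDiffOn ℝ ∞ (T j).H {(T j).z}ᶜ) →
  (∀ ε : ℝ, 0 < ε → ContDiff ℝ ∞ (splE f T ε)) ∧
  ∃ C : ℝ, ∀ ε : ℝ, 0 < ε → ε ≤ 1 → ∀ x : E4, ‖x‖ ≤ r →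
    |Gd (fun y => splE f T ε y ^ 2 + η) x| ≤ C

/-- Job Glue: from the spline to a smooth bump. -/
def GlueStmt : Prop := ∀ (n : ℕ) (f : E4 → ℝ) (T : Fin n → Gt) (η r c : ℝ), ContDiff ℝ ∞ f →
  (∀ j, 0 < (T j).ρ ∧ 0 < (T j).m ∧ 0 < (T j).s ∧ ContDiffOn ℝ ∞ (T j).H {(T j).z}ᶜ) →
  0 < η → 0 < r →
  (∀ x, r < ‖x‖ → (∀ j, (T j).s + 1 ≤ sg (T j).z (T j).ρ (T j).m x) ∧ spl f T x = c) →
  ∫ x in Metric.closedBall 0 r, Gd (fun y => spl f T y ^ 2 + η) x < 0 → NegBump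

/-- Job Log: enclosures of two logarithms. -/
def LogStmt : Prop := ∀ (p q s g n : ℕ), 0 < p → p < q →
  (g : ℚ) ≤ (∑ i ∈ Finset.range n, (1 - (p : ℚ) / q) ^ (i + 1) / (i + 1)) * 2 ^ s →
  (∑ i ∈ Finset.range n, (1 - (p : ℚ) / q) ^ (i + 1) / (i + 1) +
    (1 - (p : ℚ) / q) ^ (n + 1) / ((p : ℚ) / q)) * 2 ^ s ≤ g + 1 →
  (g : ℝ) ≤ Real.log ((q : ℝ) / p) * 2 ^ s ∧ Real.log ((q : ℝ) / p) * 2 ^ s ≤ g + 1

end Pool.Agent.Lib.MP_465ce1_mp.Cx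
end

-- part Pool.Agent.Lib.MP_465ce1_mp.Cx.DefsE
section

/-!
Interface statements for the explicit spline.
-/

open MeasureTheory Filter Topology
open scoped ContDiff RealInnerProductSpace

namespace Pool.Agent.Lib.MP_465ce1_mp.Cx

/-- The value of the spline at infinity. -/
noncomputable def cInf : ℝ := 23575195 / 16777216

/-- The shift `eta` in `w = omega^2 + eta`. -/
noncomputable def eta0 : ℝ := 1 / 16384

/-- The polynomial of a piece. -/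
noncomputable def Pc.pol (P : Pc) (y t : ℝ) : ℝ := ev2 y t P.p / P.lam

/-- The cofactors in the second order matching of the pieces. -/
structure Hs where
  H1 : ℝ × ℝ → ℝ
  H2 : ℝ × ℝ → ℝ
  H3 : ℝ × ℝ → ℝ
  H4 : ℝ × ℝ → ℝ
  s1 : ContDiff ℝ ∞ H1
  s2 : ContDiff ℝ ∞ H2
  s3 : ContDiff ℝ ∞ H3
  s4 : ContDiff ℝ ∞ H4
  e1 : ∀ y t : ℝ, pcWr.pol y (t ^ 12) - pcT.pol y t = (t - 1) ^ 3 * H1 (y, t)
  e2 : ∀ y t : ℝ, pcT.pol y t - pcC.pol y ((8 / 3 * t) ^ 12) = (t - 3 / 8) ^ 3 * H2 (y, t)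
  e3 : ∀ y t : ℝ, pcO.pol y t - pcW.pol (y * t ^ 12) (t ^ 12) = (t - 1) ^ 3 * H3 (y, t)
  e4 : ∀ y t : ℝ, cInf - pcO.pol y t = (t - 2) ^ 3 * H4 (y, t)
  e5 : ∀ y u : ℝ, pcWr.pol y u = pcW.pol (y + 1 / 2) (15 / 64 * u + y + 1 / 4)
  e6 : ∀ y u : ℝ, pcW.pol (-y) u = pcW.pol y u

/-- Job Match. -/
def MatchStmt : Prop := Nonempty Hs

/-- The two inner centers. -/
noncomputable def zs (s : ℝ) : E4 := (s / 2) • ee 0

/-- The innermost polynomial part. -/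
noncomputable def base (x : E4) : ℝ :=
  pcC.om 1 (zs 1) x + pcC.om (-1) (zs (-1)) x - pcW.om 1 0 x

/-- An inner term. -/
noncomputable def inn (s k : ℝ) (H : ℝ × ℝ → ℝ) : Gt :=
  ⟨zs s, 15 / 64, 12, k, fun x => H (ax s (zs s) x, sg (zs s) (15 / 64) 12 x)⟩

/-- An outer term. -/
noncomputable def out (k : ℝ) (H : ℝ × ℝ → ℝ) : Gt :=
  ⟨0, 1, 12, k, fun x => H (ax 1 0 x / sg 0 1 12 x ^ 12, sg 0 1 12 x)⟩

/-- The six terms. -/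
noncomputable def Hs.terms (h : Hs) : Fin 6 → Gt :=
  ![inn 1 (3 / 8) h.H2, inn 1 1 h.H1, inn (-1) (3 / 8) h.H2, inn (-1) 1 h.H1, out 1 h.H3,
    out 2 h.H4]

/-- Job Germ: the spline on each region. -/
def GermStmt : Prop := ∀ h : Hs,
  ContDiff ℝ ∞ base ∧
  (∀ j, 0 < (h.terms j).ρ ∧ 0 < (h.terms j).m ∧ 0 < (h.terms j).s ∧
    ContDiffOn ℝ ∞ (h.terms j).H {(h.terms j).z}ᶜ) ∧
  (∀ x : E4, 729 < ‖x‖ →
    ∀ j, (h.terms j).s + 1 ≤ sg (h.terms j).z (h.terms j).ρ (h.terms j).m x) ∧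
  (∀ s : ℝ, s = 1 ∨ s = -1 → pcWr.om s (zs s) = pcW.om 1 0) ∧
  (∀ s : ℝ, s = 1 ∨ s = -1 → ∀ x ∈ pcC.sh' (zs s), spl base h.terms x = pcC.om s (zs s) x) ∧
  (∀ s : ℝ, s = 1 ∨ s = -1 → ∀ x ∈ pcT.sh' (zs s), spl base h.terms x = pcT.om s (zs s) x) ∧
  (∀ x : E4, ‖x‖ < 1 → 15 / 64 < ‖x - zs 1‖ ^ 2 → 15 / 64 < ‖x - zs (-1)‖ ^ 2 →
    spl base h.terms x = pcW.om 1 0 x) ∧
  (∀ x ∈ pcO.sh' 0, spl base h.terms x = pcO.om 1 0 x) ∧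
  (∀ x : E4, 64 < ‖x‖ → spl base h.terms x = cInf)

/-- The bound for one piece. -/
def PcBd (P : Pc) (s : ℝ) (z : E4) : Prop :=
  IntegrableOn (Gd fun x => P.om s z x ^ 2 + eta0) (P.sh' z) ∧
  P.sgn * ∫ x in P.sh' z, Gd (fun x => P.om s z x ^ 2 + eta0) x ≤
    Real.pi ^ 2 * (P.bnd / 1000000)

/-- The bounds for all pieces. -/
def Pieces : Prop := PcBd pcW 1 0 ∧ PcBd pcO 1 0 ∧
  ∀ s : ℝ, s = 1 ∨ s = -1 → PcBd pcWr s (zs s) ∧ PcBd pcT s (zs s) ∧ PcBd pcC s (zs s)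

/-- Job Geo: the total is negative. -/
def GeoStmt : Prop := Pieces → ∀ h : Hs,
  ∫ x in Metric.closedBall 0 729, Gd (fun y => spl base h.terms y ^ 2 + eta0) x < 0

end Pool.Agent.Lib.MP_465ce1_mp.Cx
end

-- part Pool.Agent.Lib.MP_465ce1_mp.Cx.Germ
section

/-!
The explicit spline on each region.
-/

open MeasureTheory Filter Topology
open scoped ContDiff RealInnerProductSpace

namespace Pool.Agent.Lib.MP_465ce1_mp.Cx

namespace Germ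

theorem sg_one (z : E4) (ρ : ℝ) (x : E4) : sg z ρ 1 x = ‖x - z‖ ^ 2 / ρ := by
  simp [sg]

theorem sg_nonneg (z : E4) {ρ : ℝ} (hρ : 0 < ρ) (m : ℕ) (x : E4) : 0 ≤ sg z ρ m x :=
  Real.rpow_nonneg (by positivity) _

theorem sg_pow (z : E4) {ρ : ℝ} (hρ : 0 < ρ) (x : E4) : sg z ρ 12 x ^ 12 = ‖x - z‖ ^ 2 / ρ := by
  unfold sg
  rw [one_div]
  exact Real.rpow_inv_natCast_pow (by positivity) (by norm_num)

theorem le_sg (z : E4) {ρ k : ℝ} (hρ : 0 < ρ) {x : E4}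
    (h : ρ * k ^ 12 ≤ ‖x - z‖ ^ 2) : k ≤ sg z ρ 12 x := by
  refine le_of_pow_le_pow_left₀ (n := 12) (by norm_num) (sg_nonneg z hρ 12 x) ?_
  rw [sg_pow z hρ, le_div_iff₀ hρ]
  linarith

theorem sg_le (z : E4) {ρ k : ℝ} (hρ : 0 < ρ) (hk : 0 ≤ k) {x : E4}
    (h : ‖x - z‖ ^ 2 ≤ ρ * k ^ 12) : sg z ρ 12 x ≤ k := by
  refine le_of_pow_le_pow_left₀ (n := 12) (by norm_num) hk ?_
  rw [sg_pow z hρ, div_le_iff₀ hρ]
  linarith

theorem cd_ev1 {y : E4 → ℝ} (hy : ContDiff ℝ ∞ y) (r : List ℤ) :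
    ContDiff ℝ ∞ fun x => ev1 (y x) r := by
  induction r with
  | nil => exact contDiff_const
  | cons c r ih => exact contDiff_const.add (hy.mul ih)

theorem cd_ev2 {y t : E4 → ℝ} (hy : ContDiff ℝ ∞ y) (ht : ContDiff ℝ ∞ t) (p : List (List ℤ)) :
    ContDiff ℝ ∞ fun x => ev2 (y x) (t x) p := by
  induction p with
  | nil => exact contDiff_const
  | cons r p ih => exact (cd_ev1 hy r).add (ht.mul ih)

theorem cd_ax (s : ℝ) (z : E4) : ContDiff ℝ ∞ (ax s z) := by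
  unfold ax
  fun_prop

theorem cd_sq (z : E4) : ContDiff ℝ ∞ fun x : E4 => ‖x - z‖ ^ 2 :=
  (contDiff_id.sub contDiff_const).norm_sq ℝ

theorem cd_sg (z : E4) {ρ : ℝ} (hρ : 0 < ρ) (m : ℕ) : ContDiffOn ℝ ∞ (sg z ρ m) {z}ᶜ := by
  intro x hx
  have h1 : 0 < ‖x - z‖ := norm_pos_iff.2 (sub_ne_zero.2 hx)
  exact (((cd_sq z).div_const ρ).contDiffAt.rpow_const_of_ne (by positivity)).contDiffWithinAt

theorem sg_ne (z : E4) {ρ : ℝ} (hρ : 0 < ρ) (m : ℕ) {x : E4} (hx : x ≠ z) : sg z ρ m x ≠ 0 := by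
  have h1 : 0 < ‖x - z‖ := norm_pos_iff.2 (sub_ne_zero.2 hx)
  exact (Real.rpow_pos_of_pos (by positivity) _).ne'

theorem om_flat (P : Pc) (hm : P.m = 1) (hs : P.sh = 0) (s : ℝ) (z x : E4) :
    P.om s z x = P.pol (ax s z x) (‖x - z‖ ^ 2 / P.rho) := by
  unfold Pc.om Pc.pol Pc.y Pc.t
  rw [hm, hs, sg_one, pow_zero, div_one]

theorem cd_om (P : Pc) (hm : P.m = 1) (hs : P.sh = 0) (s : ℝ) (z : E4) :
    ContDiff ℝ ∞ (P.om s z) := by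
  have : P.om s z = fun x => ev2 (ax s z x) (‖x - z‖ ^ 2 / P.rho) P.p / P.lam :=
    funext fun x => om_flat P hm hs s z x
  rw [this]
  exact (cd_ev2 (cd_ax s z) ((cd_sq z).div_const _) _).div_const _

theorem rhoC : pcC.rho = 15 / 64 * (3 / 8) ^ 12 := by
  change ((7971615 : ℕ) : ℝ) / (4398046511104 : ℕ) = _
  norm_num

theorem rhoWr : pcWr.rho = 15 / 64 := by
  change ((15 : ℕ) : ℝ) / (64 : ℕ) = _
  norm_num

theorem rhoT : pcT.rho = 15 / 64 := by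
  change ((15 : ℕ) : ℝ) / (64 : ℕ) = _
  norm_num

theorem rhoW : pcW.rho = 1 := by
  change ((1 : ℕ) : ℝ) / (1 : ℕ) = _
  norm_num

theorem rhoO : pcO.rho = 1 := by
  change ((1 : ℕ) : ℝ) / (1 : ℕ) = _
  norm_num

theorem omC (s : ℝ) (z x : E4) :
    pcC.om s z x = pcC.pol (ax s z x) ((8 / 3 * sg z (15 / 64) 12 x) ^ 12) := by
  rw [om_flat pcC rfl rfl, mul_pow, sg_pow z (by norm_num), rhoC]
  congr 1
  ring

theorem omWr (s : ℝ) (z x : E4) :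
    pcWr.om s z x = pcWr.pol (ax s z x) (sg z (15 / 64) 12 x ^ 12) := by
  rw [om_flat pcWr rfl rfl, sg_pow z (by norm_num), rhoWr]

theorem omT (s : ℝ) (z x : E4) : pcT.om s z x = pcT.pol (ax s z x) (sg z (15 / 64) 12 x) := by
  unfold Pc.om Pc.pol Pc.y Pc.t
  rw [show pcT.m = 12 from rfl, show pcT.sh = 0 from rfl, rhoT, pow_zero, div_one]

theorem omW (x : E4) : pcW.om 1 0 x = pcW.pol (x 0) (‖x‖ ^ 2) := by
  rw [om_flat pcW rfl rfl, rhoW]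
  simp [ax]

theorem omO (x : E4) :
    pcO.om 1 0 x = pcO.pol (ax 1 0 x / sg 0 1 12 x ^ 12) (sg 0 1 12 x) := by
  unfold Pc.om Pc.pol Pc.y Pc.t
  rw [show pcO.m = 12 from rfl, show pcO.sh = 12 from rfl, rhoO]

theorem zs_zero (s : ℝ) : zs s 0 = s / 2 := by simp [zs, ee]

theorem sq_zs (s : ℝ) (x : E4) : ‖x - zs s‖ ^ 2 = ‖x‖ ^ 2 - s * x 0 + s ^ 2 / 4 := by
  simp [EuclideanSpace.real_norm_sq_eq, Fin.sum_univ_four, zs, ee]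
  ring

theorem sq_le (x : E4) : x 0 ^ 2 ≤ ‖x‖ ^ 2 := by
  rw [EuclideanSpace.real_norm_sq_eq, Fin.sum_univ_four]
  nlinarith [sq_nonneg (x 1), sq_nonneg (x 2), sq_nonneg (x 3)]

theorem wr_eq (h : Hs) {s : ℝ} (hs : s = 1 ∨ s = -1) (x : E4) :
    pcWr.om s (zs s) x = pcW.om 1 0 x := by
  rw [om_flat pcWr rfl rfl, rhoWr, h.e5, omW, sq_zs, ax, zs_zero]
  rcases hs with rfl | rfl
  · congr 1 <;> ring
  · rw [← h.e6 (x 0)]
    congr 1 <;> ring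

/-- The inner part at the center `zs s`. -/
noncomputable def In (h : Hs) (s : ℝ) (x : E4) : ℝ :=
  pcC.om s (zs s) x +
    max (sg (zs s) (15 / 64) 12 x - 3 / 8) 0 ^ 3 * h.H2 (ax s (zs s) x, sg (zs s) (15 / 64) 12 x) +
    max (sg (zs s) (15 / 64) 12 x - 1) 0 ^ 3 * h.H1 (ax s (zs s) x, sg (zs s) (15 / 64) 12 x)

/-- The outer part. -/
noncomputable def Out (h : Hs) (x : E4) : ℝ :=
  max (sg 0 1 12 x - 1) 0 ^ 3 * h.H3 (ax 1 0 x / sg 0 1 12 x ^ 12, sg 0 1 12 x) +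
    max (sg 0 1 12 x - 2) 0 ^ 3 * h.H4 (ax 1 0 x / sg 0 1 12 x ^ 12, sg 0 1 12 x)

theorem spl_eq (h : Hs) (x : E4) :
    spl base h.terms x = In h 1 x + In h (-1) x - pcW.om 1 0 x + Out h x := by
  unfold spl base In Out
  rw [Fin.sum_univ_six]
  change _ + (max (sg (zs 1) (15 / 64) 12 x - 3 / 8) 0 ^ 3 *
      h.H2 (ax 1 (zs 1) x, sg (zs 1) (15 / 64) 12 x) +
    max (sg (zs 1) (15 / 64) 12 x - 1) 0 ^ 3 * h.H1 (ax 1 (zs 1) x, sg (zs 1) (15 / 64) 12 x) +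
    max (sg (zs (-1)) (15 / 64) 12 x - 3 / 8) 0 ^ 3 *
      h.H2 (ax (-1) (zs (-1)) x, sg (zs (-1)) (15 / 64) 12 x) +
    max (sg (zs (-1)) (15 / 64) 12 x - 1) 0 ^ 3 *
      h.H1 (ax (-1) (zs (-1)) x, sg (zs (-1)) (15 / 64) 12 x) +
    max (sg 0 1 12 x - 1) 0 ^ 3 * h.H3 (ax 1 0 x / sg 0 1 12 x ^ 12, sg 0 1 12 x) +
    max (sg 0 1 12 x - 2) 0 ^ 3 * h.H4 (ax 1 0 x / sg 0 1 12 x ^ 12, sg 0 1 12 x)) = _
  ring

theorem in_C (h : Hs) (s : ℝ) {x : E4} (hx : sg (zs s) (15 / 64) 12 x ≤ 3 / 8) :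
    In h s x = pcC.om s (zs s) x := by
  unfold In
  rw [max_eq_right (by linarith), max_eq_right (by linarith)]
  ring

theorem in_T (h : Hs) (s : ℝ) {x : E4} (hx : 3 / 8 ≤ sg (zs s) (15 / 64) 12 x)
    (hx' : sg (zs s) (15 / 64) 12 x ≤ 1) : In h s x = pcT.om s (zs s) x := by
  unfold In
  rw [max_eq_left (by linarith), max_eq_right (by linarith), ← h.e2, omC, omT]
  ring

theorem in_W (h : Hs) {s : ℝ} (hs : s = 1 ∨ s = -1) {x : E4}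
    (hx : 15 / 64 ≤ ‖x - zs s‖ ^ 2) : In h s x = pcW.om 1 0 x := by
  have h1 : 1 ≤ sg (zs s) (15 / 64) 12 x := le_sg _ (by norm_num) (by linarith)
  unfold In
  rw [max_eq_left (by linarith), max_eq_left (by linarith), ← h.e2, ← h.e1, omC, ← wr_eq h hs,
    omWr]
  ring

theorem out_W (h : Hs) {x : E4} (hx : ‖x‖ ^ 2 ≤ 1) : Out h x = 0 := by
  have h1 : sg 0 1 12 x ≤ 1 := sg_le _ one_pos zero_le_one (by simpa using hx)
  unfold Out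
  rw [max_eq_right (by linarith), max_eq_right (by linarith)]
  ring

theorem omW' {x : E4} (hx : 1 ≤ sg 0 1 12 x) : pcW.om 1 0 x =
    pcW.pol (ax 1 0 x / sg 0 1 12 x ^ 12 * sg 0 1 12 x ^ 12) (sg 0 1 12 x ^ 12) := by
  rw [div_mul_cancel₀ _ (by positivity), omW, sg_pow _ one_pos]
  simp [ax]

theorem out_O (h : Hs) {x : E4} (hx : 1 ≤ sg 0 1 12 x) (hx' : sg 0 1 12 x ≤ 2) :
    Out h x = pcO.om 1 0 x - pcW.om 1 0 x := by
  unfold Out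
  rw [max_eq_left (by linarith), max_eq_right (by linarith), ← h.e3, omO, omW' hx]
  ring

theorem out_I (h : Hs) {x : E4} (hx : 2 ≤ sg 0 1 12 x) : Out h x = cInf - pcW.om 1 0 x := by
  unfold Out
  rw [max_eq_left (by linarith), max_eq_left (by linarith), ← h.e3, ← h.e4,
    omW' (x := x) (by linarith)]
  ring

/-- Near one center only the inner part of that center is left. -/
theorem near (h : Hs) {s : ℝ} (hs : s = 1 ∨ s = -1) {x : E4} (hx : ‖x - zs s‖ ^ 2 ≤ 15 / 64) :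
    spl base h.terms x = In h s x := by
  have h1 := sq_le x
  rw [sq_zs] at hx
  rcases hs with rfl | rfl
  · have h2 : 0 ≤ x 0 := by nlinarith [sq_nonneg (x 0)]
    have h3 : x 0 ≤ 1 := by nlinarith [sq_nonneg (x 0 - 1)]
    rw [spl_eq, in_W h (Or.inr rfl) (by rw [sq_zs]; nlinarith [sq_nonneg (x 0)]),
      out_W h (by linarith)]
    ring
  · have h2 : x 0 ≤ 0 := by nlinarith [sq_nonneg (x 0)]
    have h3 : -1 ≤ x 0 := by nlinarith [sq_nonneg (x 0 + 1)]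
    rw [spl_eq, in_W h (Or.inl rfl) (by rw [sq_zs]; nlinarith [sq_nonneg (x 0)]),
      out_W h (by linarith)]
    ring

theorem far {s k : ℝ} (hs : s = 1 ∨ s = -1) {x : E4} (hk : 1 ≤ k) (hx : k ≤ ‖x‖) :
    (k - 1 / 2) ^ 2 ≤ ‖x - zs s‖ ^ 2 := by
  have h1 := abs_le_of_sq_le_sq' (sq_le x) (norm_nonneg x)
  rw [sq_zs]
  rcases hs with rfl | rfl <;> nlinarith [h1.1, h1.2]

/-- Outside the unit ball. -/
theorem outside (h : Hs) {x : E4} (hx : 1 ≤ ‖x‖) :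
    spl base h.terms x = pcW.om 1 0 x + Out h x := by
  have h1 := far (Or.inl rfl) le_rfl hx
  have h2 := far (Or.inr rfl) le_rfl hx
  rw [spl_eq, in_W h (Or.inl rfl) (by linarith), in_W h (Or.inr rfl) (by linarith)]
  ring

theorem cd_inn (s k : ℝ) {H : ℝ × ℝ → ℝ} (hH : ContDiff ℝ ∞ H) :
    ContDiffOn ℝ ∞ (inn s k H).H {(inn s k H).z}ᶜ :=
  hH.comp_contDiffOn ((cd_ax s _).contDiffOn.prodMk (cd_sg _ (by norm_num) 12))

theorem cd_out (k : ℝ) {H : ℝ × ℝ → ℝ} (hH : ContDiff ℝ ∞ H) :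
    ContDiffOn ℝ ∞ (out k H).H {(out k H).z}ᶜ :=
  hH.comp_contDiffOn ((((cd_ax 1 0).contDiffOn).div ((cd_sg 0 one_pos 12).pow 12)
    fun _ hx => pow_ne_zero _ (sg_ne 0 one_pos 12 hx)).prodMk (cd_sg 0 one_pos 12))

theorem big_inn {s : ℝ} (hs : s = 1 ∨ s = -1) {x : E4} (hx : 729 < ‖x‖) :
    2 ≤ sg (zs s) (15 / 64) 12 x := by
  have := far hs (k := 729) (by norm_num) hx.le
  exact le_sg _ (by norm_num) (by linarith)

theorem big_out {x : E4} (hx : 729 < ‖x‖) : 3 ≤ sg 0 1 12 x :=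
  le_sg _ one_pos (by rw [sub_zero]; nlinarith)

end Germ

open _root_.Pool.Agent.Lib.MP_465ce1_mp.Cx.Germ in
theorem germ_holds : GermStmt := by
  intro h
  refine ⟨?_, ?_, ?_, ?_, ?_, ?_, ?_, ?_, ?_⟩
  · exact ((cd_om pcC rfl rfl _ _).add (cd_om pcC rfl rfl _ _)).sub (cd_om pcW rfl rfl _ _)
  · have a1 : (0 : ℝ) < 15 / 64 := by norm_num
    have a2 : 0 < 12 := by norm_num
    have a3 : (0 : ℝ) < 3 / 8 := by norm_num
    intro j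
    fin_cases j
    · exact ⟨a1, a2, a3, cd_inn _ _ h.s2⟩
    · exact ⟨a1, a2, one_pos, cd_inn _ _ h.s1⟩
    · exact ⟨a1, a2, a3, cd_inn _ _ h.s2⟩
    · exact ⟨a1, a2, one_pos, cd_inn _ _ h.s1⟩
    · exact ⟨one_pos, a2, one_pos, cd_out _ h.s3⟩
    · exact ⟨one_pos, a2, two_pos, cd_out _ h.s4⟩
  · intro x hx j
    have h1 := big_inn (Or.inl rfl) hx
    have h2 := big_inn (Or.inr rfl) hx
    have h3 := big_out hx
    fin_cases j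
    · change (3 / 8 : ℝ) + 1 ≤ sg (zs 1) (15 / 64) 12 x
      linarith
    · change (1 : ℝ) + 1 ≤ sg (zs 1) (15 / 64) 12 x
      linarith
    · change (3 / 8 : ℝ) + 1 ≤ sg (zs (-1)) (15 / 64) 12 x
      linarith
    · change (1 : ℝ) + 1 ≤ sg (zs (-1)) (15 / 64) 12 x
      linarith
    · change (1 : ℝ) + 1 ≤ sg 0 1 12 x
      linarith
    · change (2 : ℝ) + 1 ≤ sg 0 1 12 x
      linarith
  · intro s hs
    exact funext (wr_eq h hs)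
  · intro s hs x hx
    have h1 : sg (zs s) pcC.rho 1 x < ((1 : ℕ) : ℝ) / (1 : ℕ) := hx.2
    rw [sg_one, rhoC, Nat.cast_one, div_one, div_lt_one (by norm_num)] at h1
    rw [near h hs (by linarith), in_C h s (sg_le _ (by norm_num) (by norm_num) h1.le)]
  · intro s hs x hx
    have h1 : ((3 : ℕ) : ℝ) / (8 : ℕ) < sg (zs s) pcT.rho 12 x := hx.1
    have h2 : sg (zs s) pcT.rho 12 x < ((1 : ℕ) : ℝ) / (1 : ℕ) := hx.2
    rw [rhoT] at h1 h2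
    rw [Nat.cast_one, div_one] at h2
    have h3 : sg (zs s) (15 / 64) 12 x ^ 12 ≤ 1 :=
      pow_le_one₀ (sg_nonneg _ (by norm_num) _ _) h2.le
    rw [sg_pow _ (by norm_num), div_le_one (by norm_num)] at h3
    rw [near h hs h3, in_T h s (by exact_mod_cast h1.le) h2.le]
  · intro x hx h1 h2
    rw [spl_eq, in_W h (Or.inl rfl) h1.le, in_W h (Or.inr rfl) h2.le,
      out_W h (pow_le_one₀ (norm_nonneg x) hx.le)]
    ring
  · intro x hx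
    have h1 : ((1 : ℕ) : ℝ) / (1 : ℕ) < sg 0 pcO.rho 12 x := hx.1
    have h2 : sg 0 pcO.rho 12 x < ((2 : ℕ) : ℝ) / (1 : ℕ) := hx.2
    rw [rhoO, Nat.cast_one, div_one] at h1 h2
    have h3 : 1 ≤ sg 0 1 12 x ^ 12 := one_le_pow₀ h1.le
    rw [sg_pow _ one_pos, sub_zero, div_one] at h3
    have h4 : 1 ≤ ‖x‖ := by
      by_contra h5
      nlinarith [norm_nonneg x]
    rw [outside h h4, out_O h h1.le (by exact_mod_cast h2.le)]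
    ring
  · intro x hx
    rw [outside h (by linarith), out_I h (le_sg _ one_pos (by rw [sub_zero]; nlinarith))]
    ring

end Pool.Agent.Lib.MP_465ce1_mp.Cx
end

-- part Pool.Agent.Lib.MP_465ce1_mp.Cx.Geo
section

/-!
Assembling the bounds of the pieces.
-/

open MeasureTheory Filter Topology
open scoped ContDiff RealInnerProductSpace

namespace Pool.Agent.Lib.MP_465ce1_mp.Cx

namespace Geo

/-- An annulus in terms of the squared distance. -/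
def ann (z : E4) (α β : ℝ) : Set E4 := {x | α < ‖x - z‖ ^ 2 ∧ ‖x - z‖ ^ 2 < β}

theorem sq_cont (z : E4) : Continuous fun x : E4 => ‖x - z‖ ^ 2 := by fun_prop

theorem ann_open (z : E4) (α β : ℝ) : IsOpen (ann z α β) :=
  (isOpen_lt continuous_const (sq_cont z)).inter (isOpen_lt (sq_cont z) continuous_const)

theorem shell_eq (z : E4) {ρ a b : ℝ} {m : ℕ} (hρ : 0 < ρ) (hm : 0 < m) (ha : 0 ≤ a)
    (hb : 0 ≤ b) : shell z ρ m a b = ann z (ρ * a ^ m) (ρ * b ^ m) := by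
  ext x
  have h0 : 0 ≤ ‖x - z‖ ^ 2 / ρ := by positivity
  have hm' : (0 : ℝ) < m := by exact_mod_cast hm
  simp only [shell, ann, sg, Set.mem_ofPred_eq, one_div]
  rw [Real.lt_rpow_inv_iff_of_pos ha h0 hm', Real.rpow_inv_lt_iff_of_pos h0 hb hm',
    Real.rpow_natCast, Real.rpow_natCast, lt_div_iff₀ hρ, div_lt_iff₀ hρ, mul_comm ρ, mul_comm ρ]

/-- The squared radius of the innermost spheres. -/
noncomputable def r0 : ℝ := 7971615 / 4398046511104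

theorem shW (z : E4) : pcW.sh' z = ann z 0 1 := by
  have h : pcW.sh' z = shell z ((1 : ℕ) / (1 : ℕ)) 1 ((0 : ℕ) / (1 : ℕ)) ((1 : ℕ) / (1 : ℕ)) := rfl
  rw [h, shell_eq z (by norm_num) one_pos (by norm_num) (by norm_num)]
  norm_num

theorem shWr (z : E4) : pcWr.sh' z = ann z 0 (15 / 64) := by
  have h : pcWr.sh' z =
    shell z ((15 : ℕ) / (64 : ℕ)) 1 ((0 : ℕ) / (1 : ℕ)) ((1 : ℕ) / (1 : ℕ)) := rfl
  rw [h, shell_eq z (by norm_num) one_pos (by norm_num) (by norm_num)]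
  norm_num

theorem shT (z : E4) : pcT.sh' z = ann z r0 (15 / 64) := by
  have h : pcT.sh' z =
    shell z ((15 : ℕ) / (64 : ℕ)) 12 ((3 : ℕ) / (8 : ℕ)) ((1 : ℕ) / (1 : ℕ)) := rfl
  rw [h, shell_eq z (by norm_num) (by norm_num) (by norm_num) (by norm_num), r0]
  norm_num

theorem shC (z : E4) : pcC.sh' z = ann z 0 r0 := by
  have h : pcC.sh' z = shell z ((7971615 : ℕ) / (4398046511104 : ℕ)) 1 ((0 : ℕ) / (1 : ℕ))
    ((1 : ℕ) / (1 : ℕ)) := rfl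
  rw [h, shell_eq z (by norm_num) one_pos (by norm_num) (by norm_num), r0]
  norm_num

theorem shO (z : E4) : pcO.sh' z = ann z 1 4096 := by
  have h : pcO.sh' z =
    shell z ((1 : ℕ) / (1 : ℕ)) 12 ((1 : ℕ) / (1 : ℕ)) ((2 : ℕ) / (1 : ℕ)) := rfl
  rw [h, shell_eq z (by norm_num) (by norm_num) (by norm_num) (by norm_num)]
  norm_num

theorem ae_ne (z : E4) (c : ℝ) : ∀ᵐ x : E4, ‖x - z‖ ^ 2 ≠ c := by
  rw [ae_iff]
  refine measure_mono_null (t := Metric.sphere z (Real.sqrt c)) (fun x hx => ?_)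
    (Measure.addHaar_sphere _ _ _)
  have h : ‖x - z‖ ^ 2 = c := by simpa using hx
  rw [mem_sphere_iff_norm, ← h, Real.sqrt_sq (norm_nonneg _)]

theorem germ (h2 : LocStmt) {U : Set E4} (hU : IsOpen U) {f f' : E4 → ℝ}
    (h : ∀ x ∈ U, f x = f' x) {x : E4} (hx : x ∈ U) :
    Gd (fun y => f y ^ 2 + eta0) x = Gd (fun y => f' y ^ 2 + eta0) x :=
  h2.2.2.2.1 _ _ x (by
    filter_upwards [hU.mem_nhds hx] with y hy
    rw [h y hy])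

theorem Gd_const (c : ℝ) (x : E4) : Gd (fun _ => c) x = 0 := by
  have h : ∀ (e : E4) (c : ℝ), dd e (fun _ => c) = fun _ => 0 := fun e c => by
    funext y; simp [dd]
  simp [Gd, h]

theorem norm_zs {s : ℝ} (hs : s = 1 ∨ s = -1) : ‖zs s‖ = 1 / 2 := by
  rcases hs with rfl | rfl <;> simp [zs, ee, norm_smul, abs_div]

theorem norm_zs_sub : ‖zs 1 - zs (-1)‖ = 1 := by
  rw [zs, zs, ← sub_smul]
  norm_num [ee]

theorem near {s : ℝ} (hs : s = 1 ∨ s = -1) {x : E4} (h : ‖x - zs s‖ ^ 2 < 15 / 64) :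
    ‖x - zs s‖ < 1 / 2 ∧ ‖x - 0‖ ^ 2 < 1 := by
  have h1 : ‖x - zs s‖ < 1 / 2 := by
    by_contra hh
    nlinarith [not_lt.1 hh]
  have h2 := norm_add_le (x - zs s) (zs s)
  rw [sub_add_cancel, norm_zs hs] at h2
  refine ⟨h1, ?_⟩
  rw [sub_zero]
  nlinarith [norm_nonneg x]

theorem apart (x : E4) : 1 ≤ ‖x - zs 1‖ + ‖x - zs (-1)‖ := by
  have h := norm_sub_le (x - zs (-1)) (x - zs 1)
  rw [sub_sub_sub_cancel_left, norm_zs_sub] at h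
  linarith

theorem int8 {f1 f2 f3 f4 f5 f6 f7 f8 : E4 → ℝ} (h1 : Integrable f1) (h2 : Integrable f2)
    (h3 : Integrable f3) (h4 : Integrable f4) (h5 : Integrable f5) (h6 : Integrable f6)
    (h7 : Integrable f7) (h8 : Integrable f8) :
    ∫ x, (f1 x - f2 x - f3 x + f4 x + f5 x + f6 x + f7 x + f8 x) =
      (∫ x, f1 x) - (∫ x, f2 x) - (∫ x, f3 x) + (∫ x, f4 x) + (∫ x, f5 x) + (∫ x, f6 x) +
        (∫ x, f7 x) + ∫ x, f8 x := by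
  have k2 : Integrable fun x => f1 x - f2 x := h1.sub h2
  have k3 : Integrable fun x => f1 x - f2 x - f3 x := k2.sub h3
  have k4 : Integrable fun x => f1 x - f2 x - f3 x + f4 x := k3.add h4
  have k5 : Integrable fun x => f1 x - f2 x - f3 x + f4 x + f5 x := k4.add h5
  have k6 : Integrable fun x => f1 x - f2 x - f3 x + f4 x + f5 x + f6 x := k5.add h6
  have k7 : Integrable fun x => f1 x - f2 x - f3 x + f4 x + f5 x + f6 x + f7 x := k6.add h7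
  rw [integral_add k7 h8, integral_add k6 h7, integral_add k5 h6, integral_add k4 h5,
    integral_add k3 h4, integral_sub k2 h3, integral_sub h1 h2]

theorem point {g W C1 C2 T1 T2 O : E4 → ℝ} {x : E4}
    (hC1 : x ∈ ann (zs 1) 0 r0 → g x = C1 x) (hC2 : x ∈ ann (zs (-1)) 0 r0 → g x = C2 x)
    (hT1 : x ∈ ann (zs 1) r0 (15 / 64) → g x = T1 x)
    (hT2 : x ∈ ann (zs (-1)) r0 (15 / 64) → g x = T2 x)
    (hW : ‖x - 0‖ ^ 2 < 1 → 15 / 64 < ‖x - zs 1‖ ^ 2 → 15 / 64 < ‖x - zs (-1)‖ ^ 2 → g x = W x)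
    (hO : x ∈ ann 0 1 4096 → g x = O x) (hI : 4096 < ‖x - 0‖ ^ 2 → g x = 0)
    (n1 : ‖x - 0‖ ^ 2 ≠ 0) (n2 : ‖x - 0‖ ^ 2 ≠ 1) (n3 : ‖x - 0‖ ^ 2 ≠ 4096)
    (n4 : ‖x - zs 1‖ ^ 2 ≠ 0) (n5 : ‖x - zs 1‖ ^ 2 ≠ r0) (n6 : ‖x - zs 1‖ ^ 2 ≠ 15 / 64)
    (n7 : ‖x - zs (-1)‖ ^ 2 ≠ 0) (n8 : ‖x - zs (-1)‖ ^ 2 ≠ r0)
    (n9 : ‖x - zs (-1)‖ ^ 2 ≠ 15 / 64) :
    (Metric.closedBall 0 729).indicator g x =
      (ann 0 0 1).indicator W x - (ann (zs 1) 0 (15 / 64)).indicator W x -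
        (ann (zs (-1)) 0 (15 / 64)).indicator W x + (ann (zs 1) 0 r0).indicator C1 x +
        (ann (zs (-1)) 0 r0).indicator C2 x + (ann (zs 1) r0 (15 / 64)).indicator T1 x +
        (ann (zs (-1)) r0 (15 / 64)).indicator T2 x + (ann 0 1 4096).indicator O x := by
  have hr : r0 < 15 / 64 := by norm_num [r0]
  have p0 : 0 < ‖x - 0‖ ^ 2 := lt_of_le_of_ne (sq_nonneg _) n1.symm
  have p1 : 0 < ‖x - zs 1‖ ^ 2 := lt_of_le_of_ne (sq_nonneg _) n4.symm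
  have p2 : 0 < ‖x - zs (-1)‖ ^ 2 := lt_of_le_of_ne (sq_nonneg _) n7.symm
  have hg : (Metric.closedBall 0 729).indicator g x = g x := by
    by_cases hx : x ∈ Metric.closedBall (0 : E4) 729
    · exact Set.indicator_of_mem hx _
    · rw [Set.indicator_of_notMem hx, hI]
      rw [mem_closedBall_iff_norm, not_le] at hx
      nlinarith
  have yes : ∀ (z : E4) (α β : ℝ) (f : E4 → ℝ), α < ‖x - z‖ ^ 2 → ‖x - z‖ ^ 2 < β →
      (ann z α β).indicator f x = f x := fun z α β f a b =>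
    Set.indicator_of_mem (show x ∈ ann z α β from ⟨a, b⟩) _
  have lo : ∀ (z : E4) (α β : ℝ) (f : E4 → ℝ), ‖x - z‖ ^ 2 < α →
      (ann z α β).indicator f x = 0 := fun z α β f a =>
    Set.indicator_of_notMem (fun h => lt_asymm a h.1) _
  have hi : ∀ (z : E4) (α β : ℝ) (f : E4 → ℝ), β < ‖x - z‖ ^ 2 →
      (ann z α β).indicator f x = 0 := fun z α β f a =>
    Set.indicator_of_notMem (fun h => lt_asymm a h.2) _
  have ap := apart x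
  rw [hg]
  rcases lt_or_gt_of_ne n6 with a1 | a1
  · obtain ⟨b1, b2⟩ := near (Or.inl rfl) a1
    have b3 : 15 / 64 < ‖x - zs (-1)‖ ^ 2 := by nlinarith
    rw [yes _ _ _ W p0 b2, yes _ _ _ W p1 a1, hi _ _ _ W b3, hi _ _ _ C2 (hr.trans b3),
      hi _ _ _ T2 b3, lo _ _ _ O b2]
    rcases lt_or_gt_of_ne n5 with a2 | a2
    · rw [yes _ _ _ C1 p1 a2, lo _ _ _ T1 a2, hC1 ⟨p1, a2⟩]; ring
    · rw [hi _ _ _ C1 a2, yes _ _ _ T1 a2 a1, hT1 ⟨a2, a1⟩]; ring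
  rcases lt_or_gt_of_ne n9 with a2 | a2
  · obtain ⟨b1, b2⟩ := near (Or.inr rfl) a2
    rw [yes _ _ _ W p0 b2, yes _ _ _ W p2 a2, hi _ _ _ W a1, hi _ _ _ C1 (hr.trans a1),
      hi _ _ _ T1 a1, lo _ _ _ O b2]
    rcases lt_or_gt_of_ne n8 with a3 | a3
    · rw [yes _ _ _ C2 p2 a3, lo _ _ _ T2 a3, hC2 ⟨p2, a3⟩]; ring
    · rw [hi _ _ _ C2 a3, yes _ _ _ T2 a3 a2, hT2 ⟨a3, a2⟩]; ring
  rw [hi _ _ _ W a1, hi _ _ _ C1 (hr.trans a1), hi _ _ _ T1 a1, hi _ _ _ W a2,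
    hi _ _ _ C2 (hr.trans a2), hi _ _ _ T2 a2]
  rcases lt_or_gt_of_ne n2 with a3 | a3
  · rw [yes _ _ _ W p0 a3, lo _ _ _ O a3, hW a3 a1 a2]; ring
  rw [hi _ _ _ W a3]
  rcases lt_or_gt_of_ne n3 with a4 | a4
  · rw [yes _ _ _ O a3 a4, hO ⟨a3, a4⟩]; ring
  · rw [hi _ _ _ O a4, hI a4]; ring

end Geo

open Geo in
theorem geo_holds (h1 : GermStmt) (h2 : LocStmt) : GeoStmt := by
  rintro ⟨⟨iW, bW⟩, ⟨iO, bO⟩, hs⟩ h
  obtain ⟨⟨iR1, bR1⟩, ⟨iT1, bT1⟩, iC1, bC1⟩ := hs 1 (Or.inl rfl)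
  obtain ⟨⟨iR2, bR2⟩, ⟨iT2, bT2⟩, iC2, bC2⟩ := hs (-1) (Or.inr rfl)
  obtain ⟨-, -, -, e1, e2, e3, e4, e5, e6⟩ := h1 h
  rw [e1 1 (Or.inl rfl)] at iR1 bR1
  rw [e1 (-1) (Or.inr rfl)] at iR2 bR2
  simp only [shW, shWr, shT, shC, shO] at iW bW iO bO iR1 bR1 iT1 bT1 iC1 bC1 iR2 bR2 iT2 bT2
  simp only [shW, shWr, shT, shC, shO] at iC2 bC2 e2 e3 e5
  have hm : ∀ z α β, MeasurableSet (ann z α β) := fun z α β => (ann_open z α β).measurableSet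
  have key := int8 (iW.integrable_indicator (hm _ _ _)) (iR1.integrable_indicator (hm _ _ _))
    (iR2.integrable_indicator (hm _ _ _)) (iC1.integrable_indicator (hm _ _ _))
    (iC2.integrable_indicator (hm _ _ _)) (iT1.integrable_indicator (hm _ _ _))
    (iT2.integrable_indicator (hm _ _ _)) (iO.integrable_indicator (hm _ _ _))
  simp only [integral_indicator (hm _ _ _)] at key
  have hU : IsOpen {x : E4 | ‖x‖ < 1 ∧ 15 / 64 < ‖x - zs 1‖ ^ 2 ∧ 15 / 64 < ‖x - zs (-1)‖ ^ 2} :=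
    (isOpen_lt continuous_norm continuous_const).inter
      ((isOpen_lt continuous_const (sq_cont _)).inter (isOpen_lt continuous_const (sq_cont _)))
  have hV : IsOpen {x : E4 | 64 < ‖x‖} := isOpen_lt continuous_const continuous_norm
  rw [← integral_indicator measurableSet_closedBall, integral_congr_ae ?_, key]
  · have s1 : ((pcW.sgn : ℤ) : ℝ) = 1 := Int.cast_one
    have s2 : ((pcO.sgn : ℤ) : ℝ) = 1 := Int.cast_one
    have s3 : ((pcT.sgn : ℤ) : ℝ) = 1 := Int.cast_one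
    have s4 : ((pcC.sgn : ℤ) : ℝ) = 1 := Int.cast_one
    have s5 : ((pcWr.sgn : ℤ) : ℝ) = -1 := by
      rw [show pcWr.sgn = -1 from rfl]; norm_num
    have t1 : ((pcW.bnd : ℤ) : ℝ) = -2070813 := by
      rw [show pcW.bnd = -2070813 from rfl]; norm_num
    have t2 : ((pcO.bnd : ℤ) : ℝ) = 3186296 := by
      rw [show pcO.bnd = 3186296 from rfl]; norm_num
    have t3 : ((pcT.bnd : ℤ) : ℝ) = -1520822 := by
      rw [show pcT.bnd = -1520822 from rfl]; norm_num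
    have t4 : ((pcC.bnd : ℤ) : ℝ) = -183714 := by
      rw [show pcC.bnd = -183714 from rfl]; norm_num
    have t5 : ((pcWr.bnd : ℤ) : ℝ) = 1131184 := by
      rw [show pcWr.bnd = 1131184 from rfl]; norm_num
    rw [s1, t1] at bW
    rw [s2, t2] at bO
    rw [s3, t3] at bT1 bT2
    rw [s4, t4] at bC1 bC2
    rw [s5, t5] at bR1 bR2
    have hp : 0 < Real.pi ^ 2 := by positivity
    linarith
  · filter_upwards [ae_ne 0 0, ae_ne 0 1, ae_ne 0 4096, ae_ne (zs 1) 0, ae_ne (zs 1) r0,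
      ae_ne (zs 1) (15 / 64), ae_ne (zs (-1)) 0, ae_ne (zs (-1)) r0, ae_ne (zs (-1)) (15 / 64)]
      with x n1 n2 n3 n4 n5 n6 n7 n8 n9
    refine point (germ h2 (ann_open _ _ _) (e2 1 (Or.inl rfl)))
      (germ h2 (ann_open _ _ _) (e2 (-1) (Or.inr rfl)))
      (germ h2 (ann_open _ _ _) (e3 1 (Or.inl rfl)))
      (germ h2 (ann_open _ _ _) (e3 (-1) (Or.inr rfl)))
      (fun a b c => germ h2 hU (fun y hy => e4 y hy.1 hy.2.1 hy.2.2) ⟨?_, b, c⟩)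
      (germ h2 (ann_open _ _ _) e5) (fun a => ?_) n1 n2 n3 n4 n5 n6 n7 n8 n9
    · rw [sub_zero] at a
      nlinarith [norm_nonneg x]
    · rw [sub_zero] at a
      have hx : 64 < ‖x‖ := by nlinarith [norm_nonneg x]
      exact (germ h2 hV (f' := fun _ => cInf) e6 hx).trans (Gd_const _ x)

end Pool.Agent.Lib.MP_465ce1_mp.Cx
end

-- part Pool.Agent.Lib.MP_465ce1_mp.Cx.PInt
section

/-!
The integral of the density over one piece.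
-/

open MeasureTheory Filter Topology
open scoped ContDiff RealInnerProductSpace

namespace Pool.Agent.Lib.MP_465ce1_mp.Cx

namespace PInt

theorem cst_eq (n : ℤ) : (cst n : ℝ) = (n : ℝ) := rfl

theorem pw_eq (t : ℝ) (n : ℕ) : pw t n = t ^ n := by
  induction n with
  | zero => simp [pw, cst]
  | succ n ih => rw [pw, ih, pow_succ']

theorem sg_pow (z : E4) {ρ : ℝ} (hρ : 0 < ρ) {m : ℕ} (hm : 0 < m) (x : E4) :
    ‖x - z‖ ^ 2 = ρ * sg z ρ m x ^ m := by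
  rw [sg, one_div, Real.rpow_inv_natCast_pow (by positivity) hm.ne']
  field_simp

theorem sg_cont (z : E4) (ρ : ℝ) (m : ℕ) : Continuous (sg z ρ m) := by
  unfold sg
  refine Continuous.rpow_const (by fun_prop) fun x => Or.inr (by positivity)

theorem shell_meas (z : E4) (ρ : ℝ) (m : ℕ) (a b : ℝ) : MeasurableSet (shell z ρ m a b) :=
  ((isOpen_lt continuous_const (sg_cont z ρ m)).inter
    (isOpen_lt (sg_cont z ρ m) continuous_const)).measurableSet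

/-- The exponent of the radial variable. -/
def be (P : Pc) (a b : ℕ) : ℤ := (b : ℤ) - P.sh * a - 3 * P.sh - 3 * P.m

theorem gd_expr (h1 : AxStmt) (h2 : PsiScale) (h3 : JetStmt) (P : Pc) (s η : ℝ) (z : E4)
    (hP : P.wf) (hs : s = 1 ∨ s = -1) (hη : (P.eta : ℝ) = η * (P.lam * P.m ^ 3) ^ 2) (x : E4)
    (ht : 0 < P.t z x) :
    Gd (fun x => P.om s z x ^ 2 + η) x = P.expr (P.y s z x) (P.t z x) /
      ((P.rn * P.t z x ^ P.m * P.t z x ^ P.sh) ^ 3 * (P.lam * P.m ^ 3) ^ 12) := by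
  obtain ⟨hJ, hom⟩ := h3 P s z hP
  obtain ⟨hrn, hrd, hm, hsh, -, -, -, hlam, -, -⟩ := hP
  have hrn' : (0 : ℝ) < P.rn := Nat.cast_pos.2 hrn
  have hrd' : (0 : ℝ) < P.rd := Nat.cast_pos.2 hrd
  have hm' : (0 : ℝ) < P.m := Nat.cast_pos.2 hm
  have hlam' : (0 : ℝ) < P.lam := Nat.cast_pos.2 hlam
  have hρ : 0 < P.rho := div_pos hrn' hrd'
  have hR : ‖x - z‖ ^ 2 = P.rho * P.t z x ^ P.m := sg_pow z hρ hm x
  have hR0 : 0 < ‖x - z‖ ^ 2 := by rw [hR]; positivity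
  have hxz : x ∈ ({z}ᶜ : Set E4) := by
    intro h
    rw [Set.mem_singleton_iff.1 h, sub_self, norm_zero] at hR0
    simp at hR0
  have hA := h1 s η z _ _ hs isOpen_compl_singleton hJ x hxz
  have hsm : P.sh ≤ P.m := by rcases hsh with h | h <;> omega
  have hl : P.t z x ^ P.sh ≠ 0 := by positivity
  have hL : (P.lam * P.m ^ 3 : ℝ) ≠ 0 := by positivity
  have hd : (P.rd * P.t z x ^ P.sh : ℝ) ≠ 0 := by positivity
  have hX : ax s z x = P.y s z x * P.t z x ^ P.sh := by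
    rw [Pc.y, div_mul_cancel₀ _ hl]
  have hpow : P.t z x ^ P.m = P.t z x ^ P.sh * P.t z x ^ (P.m - P.sh) := by
    rw [← pow_add, Nat.add_sub_cancel' hsm]
  have hR2 : ‖x - z‖ ^ 2 = (P.t z x ^ P.sh) ^ 2 * (P.rn * P.t z x ^ (P.m - P.sh)) /
      (P.rd * P.t z x ^ P.sh) := by
    rw [hR, hpow, Pc.rho]
    field_simp
  have hS := h2 (P.y s z x) (P.rn * P.t z x ^ (P.m - P.sh)) (P.rd * P.t z x ^ P.sh)
    (P.t z x ^ P.sh) (P.lam * P.m ^ 3) η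
    (ev2 (P.y s z x) (P.t z x) (leaf P.m P.sh 0 0 0 P.p))
    (ev2 (P.y s z x) (P.t z x) (leaf P.m P.sh 1 0 0 P.p))
    (ev2 (P.y s z x) (P.t z x) (leaf P.m P.sh 0 1 0 P.p))
    (ev2 (P.y s z x) (P.t z x) (leaf P.m P.sh 2 0 0 P.p))
    (ev2 (P.y s z x) (P.t z x) (leaf P.m P.sh 1 1 0 P.p))
    (ev2 (P.y s z x) (P.t z x) (leaf P.m P.sh 0 2 0 P.p))
    (ev2 (P.y s z x) (P.t z x) (leaf P.m P.sh 3 0 0 P.p))
    (ev2 (P.y s z x) (P.t z x) (leaf P.m P.sh 2 1 0 P.p))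
    (ev2 (P.y s z x) (P.t z x) (leaf P.m P.sh 1 2 0 P.p))
    (ev2 (P.y s z x) (P.t z x) (leaf P.m P.sh 0 3 0 P.p)) hd hl hL
  have hj : ∀ i j : ℕ, (‖x - z‖ ^ 2) ^ j * P.jet s z i j x =
      ev2 (P.y s z x) (P.t z x) (leaf P.m P.sh i j 0 P.p) /
        ((P.lam * P.m ^ 3 : ℝ) * (P.t z x ^ P.sh) ^ i) := by
    intro i j
    have h0 : (‖x - z‖ ^ 2) ^ j ≠ 0 := by positivity
    rw [Pc.jet]
    generalize (‖x - z‖ ^ 2) ^ j = w at h0 ⊢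
    generalize (P.lam * P.m ^ 3 : ℝ) = L at hL ⊢
    generalize P.t z x ^ P.sh = l at hl ⊢
    field_simp
  have e00 := hj 0 0
  have e10 := hj 1 0
  have e01 := hj 0 1
  have e20 := hj 2 0
  have e11 := hj 1 1
  have e02 := hj 0 2
  have e30 := hj 3 0
  have e21 := hj 2 1
  have e12 := hj 1 2
  have e03 := hj 0 3
  simp only [pow_zero, pow_one, one_mul, mul_one] at e00 e10 e01 e20 e11 e02 e30 e21 e12 e03
  rw [e00, e10, e01, e20, e11, e02, e30, e21, e12, e03, hX] at hA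
  rw [← hR2, ← hA, ← hη] at hS
  simp only [Pc.expr, cst_eq, pw_eq, Int.cast_natCast]
  rw [← hS, hom, hR, Pc.rho]
  generalize (P.lam * P.m ^ 3 : ℝ) = L at hL ⊢
  generalize P.t z x ^ P.sh = l at hl ⊢
  have htm : P.t z x ^ P.m ≠ 0 := by positivity
  generalize P.t z x ^ P.m = u at htm ⊢
  field_simp

theorem mono_eq (P : Pc) (s : ℝ) (z x : E4) (ht : 0 < P.t z x) (a b : ℕ) :
    P.y s z x ^ a * P.t z x ^ b / (P.t z x ^ P.m * P.t z x ^ P.sh) ^ 3 =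
      ax s z x ^ a * P.t z x ^ be P a b := by
  have h1 : P.t z x ^ be P a b =
      P.t z x ^ b / ((P.t z x ^ P.sh) ^ a * (P.t z x ^ P.m * P.t z x ^ P.sh) ^ 3) := by
    rw [← pow_mul, ← pow_add, ← pow_mul, ← pow_add, ← zpow_natCast, ← zpow_natCast,
      ← zpow_sub₀ ht.ne']
    congr 1
    simp only [be]
    push_cast
    ring
  rw [h1, Pc.y, div_pow]
  field_simp

end PInt

open PInt in
theorem pint_holds (h1 : AxStmt) (h2 : PsiScale) (h3 : JetStmt) (h4 : MomStmt) (h5 : WtStmt) :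
    PIntStmt := by
  intro P s η z hP hchk hs hη hlog
  obtain ⟨c, hc, hbad, hbd⟩ := h5 P hP hchk hlog
  have hP' := hP
  obtain ⟨hrn, hrd, hm, -, had, hbdd, hab, -, -, -⟩ := hP'
  have hrn' : (0 : ℝ) < P.rn := Nat.cast_pos.2 hrn
  have hrd' : (0 : ℝ) < P.rd := Nat.cast_pos.2 hrd
  have had' : (0 : ℝ) < P.ad := Nat.cast_pos.2 had
  have hbd' : (0 : ℝ) < P.bd := Nat.cast_pos.2 hbdd
  have hρ : 0 < P.rho := div_pos hrn' hrd'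
  have hta : (0 : ℝ) ≤ (P.an : ℝ) / P.ad := by positivity
  have htab : (P.an : ℝ) / P.ad < (P.bn : ℝ) / P.bd := by
    rw [div_lt_div_iff₀ had' hbd']
    exact_mod_cast hab
  set K : ℝ := (P.rn : ℝ) ^ 3 * (P.lam * P.m ^ 3) ^ 12 with hK
  let F : ℕ → E4 → ℝ := fun q x => (c q : ℝ) / K *
    (ax s z x ^ (q % P.D) * sg z P.rho P.m x ^ be P (q % P.D) (q / P.D))
  have hpt : Set.EqOn (Gd fun x => P.om s z x ^ 2 + η)
      (fun x => ∑ q ∈ Finset.range P.mx, F q x) (P.sh' z) := by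
    intro x hx
    have ht : 0 < P.t z x := lt_of_le_of_lt hta hx.1
    rw [gd_expr h1 h2 h3 P s η z hP hs hη x ht, hc, Finset.sum_div]
    refine Finset.sum_congr rfl fun q _ => ?_
    change _ = (c q : ℝ) / K * (ax s z x ^ (q % P.D) * P.t z x ^ be P (q % P.D) (q / P.D))
    rw [← mono_eq P s z x ht, hK, mul_assoc (P.rn : ℝ), mul_pow (P.rn : ℝ)]
    ring
  have hF : ∀ q, IntegrableOn (F q) (P.sh' z) ∧ ∫ x in P.sh' z, F q x =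
      Real.pi ^ 2 * (P.rho ^ 2 * P.m / K * ((c q : ℝ) * (if q % P.D % 2 = 1 then 0 else
      ((2 * (q % P.D / 2)).factorial : ℝ) /
          ((q % P.D / 2).factorial * (q % P.D / 2 + 1).factorial) * (P.rho / 4) ^ (q % P.D / 2) *
        Iint (P.ex (q % P.D) (q / P.D)) ((P.an : ℝ) / P.ad) ((P.bn : ℝ) / P.bd)))) := by
    intro q
    by_cases h0 : c q = 0
    · simp [F, h0]
    have hq : 0 < (P.an : ℝ) / P.ad ∨
        0 < (P.m : ℤ) * ((q % P.D / 2 : ℕ) + 2) + be P (q % P.D) (q / P.D) := by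
      rcases hbad q with h | h | h
      · exact Or.inl (div_pos (Nat.cast_pos.2 h) had')
      · exact Or.inr h
      · exact absurd h h0
    obtain ⟨hI, hv⟩ := h4 s P.rho _ _ z P.m (q % P.D) (be P (q % P.D) (q / P.D)) hs hρ hm hta
      htab hq
    refine ⟨hI.const_mul _, ?_⟩
    simp only [F]
    rw [integral_const_mul]
    change _ * ∫ x in shell z P.rho P.m _ _, _ = _
    rw [hv]
    change _ * (if q % P.D % 2 = 1 then 0 else _ * Iint (P.ex (q % P.D) (q / P.D)) _ _) = _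
    split_ifs
    · simp
    · ring
  have hms : MeasurableSet (P.sh' z) := shell_meas _ _ _ _ _
  refine ⟨(integrableOn_congr_fun hpt hms).2 (integrable_finsetSum _ fun q _ => (hF q).1), ?_⟩
  rw [setIntegral_congr_fun hms hpt, integral_finsetSum _ fun q _ => (hF q).1]
  simp only [(hF _).2]
  rw [← Finset.mul_sum, ← Finset.mul_sum, mul_left_comm]
  exact mul_le_mul_of_nonneg_left hbd (by positivity)

end Pool.Agent.Lib.MP_465ce1_mp.Cx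
end
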