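import Pool.Agent.Lib.MP_465ce1_mp.Cx.ChkC
import Pool.Agent.Lib.MP_465ce1_mp.Cx.ChkW
import Pool.Agent.Lib.MP_465ce1_mp.Cx.ChkWr
import Pool.Agent.Lib.MP_465ce1_mp.Cx.ChkT
import Pool.Agent.Lib.MP_465ce1_mp.Cx.ChkO
import Pool.Agent.Lib.MP_465ce1_mp.Cx.PInt
import Pool.Agent.Lib.MP_465ce1_mp.Cx.Mom


import Pool.Agent.Lib.MP_465ce1_mp.Cx.Loc







/-!
A bump with a negative invariant.
-/

open MeasureTheory

namespace Pool.Agent.Lib.MP_465ce1_mp.Cx

theorem sum_range_eq (f : ℕ → ℚ) (n : ℕ) :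
    ∑ i ∈ Finset.range n, f i = Nat.rec 0 (fun i s => s + f i) n := by
  induction n with
  | zero => rfl
  | succ n ih => rw [Finset.sum_range_succ, ih]

theorem logT : (pcT.lg : ℝ) ≤ Real.log (((8 : ℕ) : ℝ) / (3 : ℕ)) * 2 ^ 400 ∧
    Real.log (((8 : ℕ) : ℝ) / (3 : ℕ)) * 2 ^ 400 ≤ pcT.lg + 1 :=
  log_holds 3 8 400 pcT.lg 640 (by norm_num) (by norm_num)
    (by rw [sum_range_eq]; decide +kernel) (by rw [sum_range_eq]; decide +kernel)

theorem logO : (pcO.lg : ℝ) ≤ Real.log (((2 : ℕ) : ℝ) / (1 : ℕ)) * 2 ^ 400 ∧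
    Real.log (((2 : ℕ) : ℝ) / (1 : ℕ)) * 2 ^ 400 ≤ pcO.lg + 1 :=
  log_holds 1 2 400 pcO.lg 440 (by norm_num) (by norm_num)
    (by rw [sum_range_eq]; decide +kernel) (by rw [sum_range_eq]; decide +kernel)

theorem pint : PIntStmt :=
  pint_holds ax_holds psiScale_holds jet_holds mom_holds (wt_holds kron_holds)

theorem pieces : Pieces := by
  refine ⟨pint pcW 1 eta0 0 (by unfold Pc.wf; decide) chkW (Or.inl rfl)
      (by norm_num [pcW, eta0]) (fun h => absurd h (by decide)),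
    pint pcO 1 eta0 0 (by unfold Pc.wf; decide) chkO (Or.inl rfl)
      (by norm_num [pcO, eta0]) (fun _ => ?_), fun s hs =>
    ⟨pint pcWr s eta0 _ (by unfold Pc.wf; decide) chkWr hs
      (by norm_num [pcWr, eta0]) (fun h => absurd h (by decide)),
    pint pcT s eta0 _ (by unfold Pc.wf; decide) chkT hs
      (by norm_num [pcT, eta0]) (fun _ => ?_),
    pint pcC s eta0 _ (by unfold Pc.wf; decide) chkC hs
      (by norm_num [pcC, eta0]) (fun h => absurd h (by decide))⟩⟩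
  · have h : ((pcO.bn : ℝ) / pcO.bd / ((pcO.an : ℝ) / pcO.ad)) = ((2 : ℕ) : ℝ) / (1 : ℕ) := by
      norm_num [pcO]
    rw [h]
    exact logO
  · have h : ((pcT.bn : ℝ) / pcT.bd / ((pcT.an : ℝ) / pcT.ad)) = ((8 : ℕ) : ℝ) / (3 : ℕ) := by
      norm_num [pcT]
    rw [h]
    exact logT

theorem negBump_of (hm : MatchStmt) : NegBump := by
  obtain ⟨h⟩ := hm
  obtain ⟨g1, g2, g3, -, -, -, -, -, g9⟩ := germ_holds h
  exact glue_holds smo_holds loc_holds 6 base h.terms eta0 729 cInf g1 g2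
    (by norm_num [eta0]) (by norm_num)
    (fun x hx => ⟨g3 x hx, g9 x (by linarith)⟩) (geo_holds germ_holds loc_holds pieces h)

end Pool.Agent.Lib.MP_465ce1_mp.Cx
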