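import Pool.Agent.Lib.MP_465ce1_mp.Cx.PInt

-- part Pool.Agent.Lib.MP_465ce1_mp.Cx.HomInt
section

/-!
Integrals of homogeneous families over phase space.
-/

open MeasureTheory Filter Topology
open scoped ContDiff RealInnerProductSpace

namespace Pool.Agent.Lib.MP_465ce1_mp.Cx

namespace HomInt

/-- Continuity and decay of order `m`. -/
def Nice (m : ℕ) (G : Fam) : Prop :=
  (∀ σ : ℝ, 0 < σ → Continuous fun z : E4 × E4 => G z.2 σ z.1) ∧
    ∀ r : ℝ, ∃ C : ℝ, 0 ≤ C ∧ ∀ σ : ℝ, 1 ≤ σ → ∀ ξ x : E4, ‖x‖ ≤ r →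
      |G ξ σ x| ≤ C * (1 / (σ + ‖ξ‖) ^ m)

theorem ne_of_pos (ξ : E4) {σ : ℝ} (h : 0 < σ) : ((ξ, σ) : E4 × ℝ) ≠ 0 := fun e =>
  h.ne' (congrArg Prod.snd e)

theorem nice_base {m : ℕ} {e : ℤ} {G : Fam} (he : e ≤ -(m : ℤ)) (hG : Hom e G) : Nice m G := by
  have hc := hG.1.continuousOn
  refine ⟨fun σ hσ => ?_, fun r => ?_⟩
  · have h1 : Continuous fun z : E4 × E4 => ((z.2, σ, z.1) : E4 × ℝ × E4) := by fun_prop
    exact hc.comp_continuous h1 fun z => ne_of_pos z.2 hσ
  let K : Set (E4 × ℝ × E4) := {p | 0 ≤ p.2.1 ∧ p.2.1 + ‖p.1‖ = 1 ∧ ‖p.2.2‖ ≤ r}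
  have kc : IsClosed K := by
    have a1 : IsClosed {p : E4 × ℝ × E4 | 0 ≤ p.2.1} := isClosed_le continuous_const (by fun_prop)
    have a2 : IsClosed {p : E4 × ℝ × E4 | p.2.1 + ‖p.1‖ = 1} :=
      isClosed_eq (by fun_prop) continuous_const
    have a3 : IsClosed {p : E4 × ℝ × E4 | ‖p.2.2‖ ≤ r} :=
      isClosed_le (by fun_prop) continuous_const
    exact a1.inter (a2.inter a3)
  have kb : Bornology.IsBounded K := by
    refine (Metric.isBounded_closedBall (x := (0 : E4 × ℝ × E4)) (r := max 1 r)).subset ?_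
    rintro ⟨ξ, σ, x⟩ ⟨h1, h2, h3⟩
    simp only [mem_closedBall_zero_iff, Prod.norm_mk, Real.norm_eq_abs] at *
    have := norm_nonneg ξ
    refine max_le (le_max_of_le_left (by linarith)) (max_le (le_max_of_le_left ?_)
      (le_max_of_le_right h3))
    rw [abs_of_nonneg h1]
    linarith
  have ks : K ⊆ {p : E4 × ℝ × E4 | (p.1, p.2.1) ≠ 0} := by
    rintro ⟨ξ, σ, x⟩ ⟨-, h2, -⟩ h
    have a : ξ = 0 := congrArg Prod.fst h
    have b : σ = 0 := congrArg Prod.snd h
    simp [a, b] at h2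
  obtain ⟨C, hC⟩ := (Metric.isCompact_of_isClosed_isBounded kc kb).exists_bound_of_continuousOn
    (hc.mono ks)
  refine ⟨max C 0, le_max_right _ _, fun σ hσ ξ x hx => ?_⟩
  have hn := norm_nonneg ξ
  set t := σ + ‖ξ‖ with ht
  have t1 : 1 ≤ t := by linarith
  have t0 : 0 < t := by linarith
  have hs : 0 < t⁻¹ * σ := by positivity
  have h1 := hG.2 t t0 (t⁻¹ • ξ) (t⁻¹ * σ) (ne_of_pos _ hs) x
  rw [smul_smul, ← mul_assoc, mul_inv_cancel₀ t0.ne', one_smul, one_mul] at h1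
  have h2 : |G (t⁻¹ • ξ) (t⁻¹ * σ) x| ≤ max C 0 := by
    refine le_max_of_le_left (hC (t⁻¹ • ξ, t⁻¹ * σ, x) ⟨hs.le, ?_, hx⟩)
    dsimp only
    rw [norm_smul, Real.norm_eq_abs, abs_of_pos (inv_pos.2 t0), ← mul_add, ← ht,
      inv_mul_cancel₀ t0.ne']
  have h3 : t ^ e ≤ 1 / t ^ m := by
    rw [one_div, ← zpow_natCast, ← zpow_neg]
    exact zpow_le_zpow_right₀ t1 he
  rw [h1, abs_mul, abs_of_pos (zpow_pos t0 e), mul_comm]
  exact mul_le_mul h2 h3 (zpow_pos t0 e).le (le_max_right _ _)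

theorem nice_of {m : ℕ} {G : Fam} (h : HomLE (-(m : ℤ)) G) : Nice m G := by
  induction h with
  | base he hG => exact nice_base he hG
  | add _ _ h1 h2 =>
    refine ⟨fun σ hσ => (h1.1 σ hσ).add (h2.1 σ hσ), fun r => ?_⟩
    obtain ⟨C, c0, hC⟩ := h1.2 r
    obtain ⟨C', c0', hC'⟩ := h2.2 r
    refine ⟨C + C', by positivity, fun σ hσ ξ x hx => ?_⟩
    rw [add_mul]
    exact (abs_add_le _ _).trans (add_le_add (hC σ hσ ξ x hx) (hC' σ hσ ξ x hx))
  | congr _ he h1 =>
    refine ⟨fun σ hσ => (h1.1 σ hσ).congr fun z => ?_, fun r => ?_⟩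
    · rw [he z.2 σ (ne_of_pos _ hσ)]
    · obtain ⟨C, c0, hC⟩ := h1.2 r
      refine ⟨C, c0, fun σ hσ ξ x hx => ?_⟩
      rw [he ξ σ (ne_of_pos _ (by linarith))]
      exact hC σ hσ ξ x hx

theorem rank4 : Module.finrank ℝ E4 = 4 := by simp

theorem int_one (n : ℕ) : Integrable fun ξ : E4 => 1 / (1 + ‖ξ‖) ^ (n + 5) := by
  have h := integrable_one_add_norm (E := E4) (μ := volume) (r := ((n + 5 : ℕ) : ℝ)) (by
    rw [rank4]
    exact_mod_cast (by omega : 4 < n + 5))
  refine h.congr (Eventually.of_forall fun ξ => ?_)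
  dsimp only
  rw [Real.rpow_neg (by positivity), Real.rpow_natCast, one_div]

theorem scale (n : ℕ) {σ : ℝ} (hσ : 0 < σ) (ξ : E4) :
    1 / (σ + ‖ξ‖) ^ (n + 5) = (σ ^ (n + 5))⁻¹ * (1 / (1 + ‖σ⁻¹ • ξ‖) ^ (n + 5)) := by
  have hn := norm_nonneg ξ
  have : σ + ‖ξ‖ = σ * (1 + ‖σ⁻¹ • ξ‖) := by
    rw [norm_smul, Real.norm_eq_abs, abs_of_pos (inv_pos.2 hσ)]
    field_simp
  rw [this, mul_pow]
  field_simp

theorem int_sig (n : ℕ) {σ : ℝ} (hσ : 0 < σ) :
    Integrable (fun ξ : E4 => 1 / (σ + ‖ξ‖) ^ (n + 5)) ∧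
      ∫ ξ : E4, 1 / (σ + ‖ξ‖) ^ (n + 5) =
        (∫ ξ : E4, 1 / (1 + ‖ξ‖) ^ (n + 5)) / σ ^ (n + 1) := by
  simp only [scale n hσ]
  refine ⟨((int_one n).comp_smul (inv_pos.2 hσ).ne').const_mul _, ?_⟩
  rw [integral_const_mul, Measure.integral_comp_smul volume
    (fun ξ : E4 => 1 / (1 + ‖ξ‖) ^ (n + 5)) σ⁻¹, rank4, abs_of_pos (by positivity), smul_eq_mul]
  field_simp
  ring

end HomInt

open HomInt

theorem homInt_holds : HomIntStmt := by
  intro n G r hG
  obtain ⟨hc, hb⟩ := nice_of (m := n + 5) hG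
  obtain ⟨C, c0, hC⟩ := hb r
  refine ⟨(volume : Measure E4).real (Metric.closedBall 0 r) *
    (C * ∫ ξ : E4, 1 / (1 + ‖ξ‖) ^ (n + 5)), fun σ hσ => ?_⟩
  have s0 : 0 < σ := by linarith
  obtain ⟨i1, i2⟩ := int_sig n s0
  have hm : MeasurableSet (Metric.closedBall (0 : E4) r ×ˢ (Set.univ : Set E4)) :=
    measurableSet_closedBall.prod MeasurableSet.univ
  have hr : (volume : Measure (E4 × E4)).restrict (Metric.closedBall 0 r ×ˢ Set.univ) =
      ((volume : Measure E4).restrict (Metric.closedBall 0 r)).prod volume := by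
    rw [Measure.volume_eq_prod, ← Measure.prod_restrict, Measure.restrict_univ]
  have j0 : Integrable (fun _ : E4 => (1 : ℝ)) (volume.restrict (Metric.closedBall 0 r)) :=
    integrableOn_const measure_closedBall_lt_top.ne
  have j1 : Integrable (fun z : E4 × E4 => (1 : ℝ) * (C * (1 / (σ + ‖z.2‖) ^ (n + 5))))
      (volume.restrict (Metric.closedBall 0 r ×ˢ Set.univ)) := by
    rw [hr]
    exact j0.mul_prod (i1.const_mul C)
  have j2 : ∀ᵐ z ∂(volume : Measure (E4 × E4)).restrict (Metric.closedBall 0 r ×ˢ Set.univ),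
      |G z.2 σ z.1| ≤ (1 : ℝ) * (C * (1 / (σ + ‖z.2‖) ^ (n + 5))) := by
    refine (ae_restrict_iff' hm).2 (Eventually.of_forall fun z hz => ?_)
    rw [one_mul]
    exact hC σ hσ z.2 z.1 (mem_closedBall_zero_iff.1 hz.1)
  have j3 : IntegrableOn (fun z : E4 × E4 => G z.2 σ z.1) (Metric.closedBall 0 r ×ˢ Set.univ) :=
    j1.mono' (hc σ s0).aestronglyMeasurable j2
  refine ⟨j3, fun x => ?_, ?_⟩
  · obtain ⟨C', -, hC'⟩ := hb ‖x‖
    have h1 : Continuous fun ξ : E4 => ((x, ξ) : E4 × E4) := by fun_prop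
    exact (i1.const_mul C').mono' ((hc σ s0).comp h1).aestronglyMeasurable
      (Eventually.of_forall fun ξ => hC' σ hσ ξ x le_rfl)
  · refine (integral_mono_ae j3.abs j1 j2).trans (le_of_eq ?_)
    rw [hr, integral_prod_mul (fun _ : E4 => (1 : ℝ))
      (fun ξ : E4 => C * (1 / (σ + ‖ξ‖) ^ (n + 5))), integral_const_mul, i2]
    simp only [integral_const, smul_eq_mul, mul_one, Measure.real, Measure.restrict_apply_univ]
    ring

end Pool.Agent.Lib.MP_465ce1_mp.Cx
end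

-- part Pool.Agent.Lib.MP_465ce1_mp.Cx.LB
section

/-!
The variational lower bound for the trace of the fourth power of the resolvent.
-/

open MeasureTheory Filter Topology
open scoped ContDiff RealInnerProductSpace

namespace Pool.Agent.Lib.MP_465ce1_mp.Cx

namespace LB

variable {R : ℝ} {f g w : E4 → ℝ}

lemma mul_mem (hg : ContDiff ℝ ∞ g) (hf : f ∈ DR 4 R) : (fun x => g x * f x) ∈ DR 4 R :=
  ⟨hg.mul hf.1, fun x hx => by simp [hf.2 x hx]⟩

lemma mem_mul (hf : f ∈ DR 4 R) (hg : ContDiff ℝ ∞ g) : (fun x => f x * g x) ∈ DR 4 R :=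
  ⟨hf.1.mul hg, fun x hx => by simp [hf.2 x hx]⟩

lemma add_mem (hf : f ∈ DR 4 R) (hg : g ∈ DR 4 R) : (fun x => f x + g x) ∈ DR 4 R :=
  (DR 4 R).add_mem hf hg

lemma sub_mem (hf : f ∈ DR 4 R) (hg : g ∈ DR 4 R) : (fun x => f x - g x) ∈ DR 4 R :=
  (DR 4 R).sub_mem hf hg

lemma dd_mem (e : E4) (hf : f ∈ DR 4 R) : dd e f ∈ DR 4 R := by
  refine ⟨(hf.1.fderiv_right (m := ∞) (by simp)).clm_apply contDiff_const, fun x hx => ?_⟩
  have : f =ᶠ[𝓝 x] fun _ => 0 := by
    filter_upwards [(isOpen_lt continuous_const continuous_norm).mem_nhds hx] with y hy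
      using hf.2 y hy
  simp [dd, this.fderiv_eq]

lemma lap_mem (hf : f ∈ DR 4 R) : lap f ∈ DR 4 R := by
  have := (DR 4 R).sum_mem (t := Finset.univ) fun i _ => dd_mem (ee i) (dd_mem (ee i) hf)
  rwa [show (∑ i, dd (ee i) (dd (ee i) f)) = lap f from funext fun x => Finset.sum_apply _ _ _]
    at this

lemma mono (hf : f ∈ DR 4 R) : f ∈ DR 4 (R + 1) := ⟨hf.1, fun x hx => hf.2 x (by linarith)⟩

lemma integrable {V : E4 → ℝ} (hV : Continuous V) (f g : DR 4 R) :
    Integrable fun x => V x * (f.1 x * g.1 x) :=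
  (hV.mul (f.2.1.continuous.mul g.2.1.continuous)).integrable_of_hasCompactSupport
    (HasCompactSupport.intro (isCompact_closedBall 0 R) fun x hx => by
      simp [f.2.2 x (by simpa using hx)])

lemma smooth_cos (ξ : E4) : ContDiff ℝ ∞ fun x : E4 => Real.cos ⟪ξ, x⟫ :=
  (contDiff_const.inner ℝ contDiff_id).cos

lemma smooth_sin (ξ : E4) : ContDiff ℝ ∞ fun x : E4 => Real.sin ⟪ξ, x⟫ :=
  (contDiff_const.inner ℝ contDiff_id).sin

/-- Both components are test functions. -/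
def InD (R : ℝ) (p : Pr) : Prop := p.1 ∈ DR 4 R ∧ p.2 ∈ DR 4 R

lemma bop_mem (hw : ContDiff ℝ ∞ w) (μ : ℝ) (ξ : E4) {p : Pr} (hp : InD R p) :
    InD R (Bop w μ ξ p) := by
  have hD : ContDiff ℝ ∞ (DD w μ ξ) := contDiff_const.add ((hw.pow 6).mul contDiff_const)
  exact ⟨sub_mem (mul_mem hD hp.1) (mul_mem (hw.pow 6)
      (sub_mem (lap_mem hp.1) (mul_mem contDiff_const (dd_mem ξ hp.2)))),
    sub_mem (mul_mem hD hp.2) (mul_mem (hw.pow 6)
      (add_mem (lap_mem hp.2) (mul_mem contDiff_const (dd_mem ξ hp.1))))⟩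

/-- Real part of the modulated pair. -/
noncomputable def t1 (ξ : E4) (p : Pr) : E4 → ℝ := fun x =>
  p.1 x * Real.cos ⟪ξ, x⟫ - p.2 x * Real.sin ⟪ξ, x⟫

/-- Imaginary part of the modulated pair. -/
noncomputable def t2 (ξ : E4) (p : Pr) : E4 → ℝ := fun x =>
  p.1 x * Real.sin ⟪ξ, x⟫ + p.2 x * Real.cos ⟪ξ, x⟫

lemma t1_mem (ξ : E4) (p : Pr) (hp : InD R p) : t1 ξ p ∈ DR 4 R :=
  sub_mem (mem_mul hp.1 (smooth_cos ξ)) (mem_mul hp.2 (smooth_sin ξ))

lemma t2_mem (ξ : E4) (p : Pr) (hp : InD R p) : t2 ξ p ∈ DR 4 R :=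
  add_mem (mem_mul hp.1 (smooth_sin ξ)) (mem_mul hp.2 (smooth_cos ξ))

lemma iter_mem (hw : ContDiff ℝ ∞ w) (μ : ℝ) (ξ : E4) {p : Pr} (hp : InD R p) (n : ℕ) :
    InD R ((Bop w μ ξ)^[n] p) := by
  induction n with
  | zero => exact hp
  | succ n ih => rw [Function.iterate_succ_apply']; exact bop_mem hw μ ξ ih

lemma iter {V : E4 → ℝ} (hw : ContDiff ℝ ∞ w) (hV : ∀ x, V x * w x ^ 6 = 1) {μ lam : ℝ} {ξ : E4}
    {T : Pr → E4 → ℝ} (hT : ∀ p, InD R p → T p ∈ DR 4 R)
    (hF : ∀ p, InD R p → ∀ x, μ * T p x - w x ^ 6 * lap (T p) x = T (Bop w μ ξ p) x)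
    {l : DR 4 R →ₗ[ℝ] ℝ}
    (hl : ∀ f g : DR 4 R, (∀ x, V x * g.1 x = -lap f.1 x) → l g = lam * l f) (n : ℕ) :
    ∀ (p : Pr) (hp : InD R p),
      l ⟨T ((Bop w μ ξ)^[n] p), hT _ (iter_mem hw μ ξ hp n)⟩ = (μ + lam) ^ n * l ⟨T p, hT _ hp⟩ := by
  induction n with
  | zero => intro p hp; simp
  | succ n ih =>
    intro p hp
    have h1 := ih _ (bop_mem hw μ ξ hp)
    have h2 := hl ⟨T p, hT _ hp⟩ ⟨fun x => -w x ^ 6 * lap (T p) x,
      mul_mem (hw.pow 6).neg (lap_mem (hT _ hp))⟩ fun x => by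
        linear_combination -lap (T p) x * hV x
    have h3 : (⟨T (Bop w μ ξ p), hT _ (bop_mem hw μ ξ hp)⟩ : DR 4 R) = μ • ⟨T p, hT _ hp⟩ +
        ⟨fun x => -w x ^ 6 * lap (T p) x, mul_mem (hw.pow 6).neg (lap_mem (hT _ hp))⟩ := by
      ext x
      simp only [← hF p hp x, Submodule.coe_add, SetLike.val_smul, Pi.add_apply, Pi.smul_apply,
        smul_eq_mul]
      ring
    refine h1.trans ?_
    rw [h3, map_add, map_smul, h2, smul_eq_mul]
    ring

lemma term_le {d c m e : ℝ} (he : 0 < e) (hm : e ≤ m) :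
    2 * (d * c) - c * (m ^ 4 * c) ≤ d ^ 2 * (1 / e ^ 4) := by
  have h1 : e ^ 4 ≤ m ^ 4 := pow_le_pow_left₀ he.le hm 4
  have h2 : 0 < e ^ 4 := by positivity
  rw [mul_one_div, le_div_iff₀ h2]
  nlinarith [sq_nonneg (d - e ^ 4 * c), mul_nonneg (mul_nonneg (sub_nonneg.2 h1) h2.le) (sq_nonneg c)]

lemma ofReal_le_tsum {a b : ℕ → ℝ} {s : ℝ} (hs : HasSum a s) (hab : ∀ k, a k ≤ b k)
    (hb : ∀ k, 0 ≤ b k) : ENNReal.ofReal s ≤ ∑' k, ENNReal.ofReal (b k) := by
  refine le_of_tendsto' (ENNReal.tendsto_ofReal hs.tendsto_sum_nat) fun N => ?_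
  refine (ENNReal.ofReal_le_ofReal (Finset.sum_le_sum fun k _ => hab k)).trans ?_
  rw [ENNReal.ofReal_sum_of_nonneg fun k _ => hb k]
  exact ENNReal.sum_le_tsum _

end LB

open LB in
theorem lb_holds (h1 : SpecFlatStmt) (h2 : FrameStmt) (h3 : FuncStmt) : LBStmt := by
  intro W w μ S R p hW hpos hw hwpos hV hμ hR hS hp hint
  obtain ⟨lam, l, hlam, hpar, heig, happ⟩ := h1 W hW hpos (R + 1) (by linarith)
  have hctl := eig_ctl le_rfl hW hpos
  have hep : ∀ k, 0 < eig W k + μ := fun k => by linarith [hctl.c_pos, hctl.c_le k]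
  let χ : ContDiffBump (0 : E4) := ⟨R, R + 1, hR, by linarith⟩
  have hχ : (χ : E4 → ℝ) ∈ DR 4 (R + 1) :=
    ⟨χ.contDiff, fun x hx => χ.zero_of_le_dist (by simpa using hx.le)⟩
  have hh := mem_mul hχ (hw.pow 3)
  let c : E4 → DR 4 (R + 1) := fun ξ => ⟨_, mem_mul hh (smooth_cos ξ)⟩
  let s : E4 → DR 4 (R + 1) := fun ξ => ⟨_, mem_mul hh (smooth_sin ξ)⟩
  have hVe : ∀ x, VV W x = 1 / w x ^ 6 := fun x => eq_one_div_of_mul_eq_one_left (hV x)
  have hF := fun k => h3 (R + 1) (VV W) (fun x => χ x * w x ^ 3) (l k) c s (VV_cont hW)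
    (fun x => by rw [hVe]; exact one_div_pos.2 (pow_pos (hwpos x) 6))
    (by
      have : (fun x => VV W x * (χ x * w x ^ 3)) = fun x => χ x / w x ^ 3 := funext fun x => by
        have := (hwpos x).ne'
        rw [hVe]
        field_simp
      rw [this]
      exact χ.contDiff.div (hw.pow 3) fun x => (pow_pos (hwpos x) 3).ne')
    (fun x => by
      have : VV W x * (χ x * w x ^ 3) ^ 2 = χ x ^ 2 := by linear_combination χ x ^ 2 * hV x
      rw [this]
      exact pow_le_one₀ χ.nonneg χ.le_one)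
    (fun _ _ => rfl) (fun _ _ => rfl) (happ k)
  have key : ∀ ξ, ENNReal.ofReal (∫ x, den w μ ξ (p ξ) x) ≤ ∑' k,
      ENNReal.ofReal ((l k (c ξ) ^ 2 + l k (s ξ) ^ 2) * (1 / (eig W k + μ) ^ 4)) := by
    intro ξ
    have hq : InD (R + 1) (p ξ) := ⟨mono (hp ξ).1, mono (hp ξ).2⟩
    have hq4 := iter_mem hw μ ξ hq 4
    let a1 : DR 4 (R + 1) := ⟨_, t1_mem ξ _ hq⟩
    let a2 : DR 4 (R + 1) := ⟨_, t2_mem ξ _ hq⟩
    let b1 : DR 4 (R + 1) := ⟨_, t1_mem ξ _ hq4⟩
    let b2 : DR 4 (R + 1) := ⟨_, t2_mem ξ _ hq4⟩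
    have e1 : ∀ k, l k b1 = (μ + lam k) ^ 4 * l k a1 := fun k =>
      iter hw hV (t1_mem ξ) (fun p hp x => (h2 w μ ξ p hp.1.1 hp.2.1 x).1) (heig k) 4 _ hq
    have e2 : ∀ k, l k b2 = (μ + lam k) ^ 4 * l k a2 := fun k =>
      iter hw hV (t2_mem ξ) (fun p hp x => (h2 w μ ξ p hp.1.1 hp.2.1 x).2) (heig k) 4 _ hq
    have hsum := (((hpar (c ξ) a1).mul_left 2).sub (hpar a1 b1)).add
      (((hpar (s ξ) a2).mul_left 2).sub (hpar a2 b2))
    have I := fun f g : DR 4 (R + 1) => integrable (VV_cont hW) f g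
    have J : ∀ f g g' : DR 4 (R + 1), Integrable fun x =>
        2 * (VV W x * (f.1 x * g.1 x)) - VV W x * (g.1 x * g'.1 x) :=
      fun f g g' => ((I _ _).const_mul _).sub (I _ _)
    rw [← integral_const_mul, ← integral_const_mul,
      ← integral_sub ((I _ _).const_mul _) (I _ _), ← integral_sub ((I _ _).const_mul _) (I _ _),
      ← integral_add (J _ _ _) (J _ _ _)] at hsum
    have hden : ∀ x, den w μ ξ (p ξ) x =
        2 * (VV W x * ((c ξ).1 x * a1.1 x)) - VV W x * (a1.1 x * b1.1 x) +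
          (2 * (VV W x * ((s ξ).1 x * a2.1 x)) - VV W x * (a2.1 x * b2.1 x)) := by
      intro x
      have hx : χ x * (p ξ).1 x = (p ξ).1 x := by
        by_cases hx : R < ‖x‖
        · simp [(hp ξ).1.2 x hx]
        · rw [χ.one_of_mem_closedBall (by simpa using hx), one_mul]
      simp only [den, c, s, a1, a2, b1, b2, t1, t2, hVe]
      rw [div_eq_mul_one_div]
      linear_combination (-2 * w x ^ 3 * (1 / w x ^ 6)) * hx -
        (1 / w x ^ 6 * (2 * (χ x * w x ^ 3 * (p ξ).1 x) -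
          ((p ξ).1 x * ((Bop w μ ξ)^[4] (p ξ)).1 x + (p ξ).2 x * ((Bop w μ ξ)^[4] (p ξ)).2 x))) *
          Real.cos_sq_add_sin_sq ⟪ξ, x⟫
    simp only [hden]
    refine ofReal_le_tsum hsum (fun k => ?_) fun k => by have := hep k; positivity
    have hm : eig W k + μ ≤ μ + lam k := by linarith [hlam k]
    rw [e1, e2, add_mul]
    exact add_le_add (term_le (hep k) hm) (term_le (hep k) hm)
  have hS0 : 0 ≤ S := by simpa using hS 0
  rw [integral_eq_lintegral_pos_part_sub_lintegral_neg_part hint]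
  refine (sub_le_self _ ENNReal.toReal_nonneg).trans
    (ENNReal.toReal_le_of_le_ofReal (by positivity) ((lintegral_mono key).trans ?_))
  rw [lintegral_tsum fun k =>
    ((hF k).1.measurable.mul_const _).ennreal_ofReal.aemeasurable]
  refine ENNReal.tsum_le_of_sum_range_le fun N => ?_
  have hb : ∀ k, 0 ≤ 1 / (eig W k + μ) ^ 4 := fun k => by have := hep k; positivity
  calc _ ≤ ∑ k ∈ Finset.range N,
        ENNReal.ofReal ((2 * Real.pi) ^ 4 * (1 / (eig W k + μ) ^ 4)) := by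
        refine Finset.sum_le_sum fun k _ => ?_
        simp only [ENNReal.ofReal_mul' (hb k)]
        rw [lintegral_mul_const' _ _ ENNReal.ofReal_ne_top]
        exact mul_le_mul_left (hF k).2 _
    _ ≤ _ := by
        rw [← ENNReal.ofReal_sum_of_nonneg fun k _ => mul_nonneg (by positivity) (hb k),
          ← Finset.mul_sum]
        exact ENNReal.ofReal_le_ofReal (mul_le_mul_of_nonneg_left (hS N) (by positivity))

end Pool.Agent.Lib.MP_465ce1_mp.Cx
end

-- part Pool.Agent.Lib.MP_465ce1_mp.Cx.Near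
section

/-!
Nearly optimal orthonormal families, and localization of the energy.
-/

open MeasureTheory Filter Topology
open scoped ContDiff RealInnerProductSpace

namespace Pool.Agent.Lib.MP_465ce1_mp.Cx

namespace Near

variable {n : ℕ}

/-- A normalized element of `F` orthogonal to fewer than `dim F` smooth functions. -/
lemma exists_orth (F : Submodule ℝ (Sph n → ℝ)) {N : ℕ} (hF : Module.finrank ℝ F = N + 1)
    (hs : ∀ φ ∈ F, IsSmooth φ) (φ : ℕ → Sph n → ℝ) (hφ : ∀ k, IsSmooth (φ k)) :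
    ∃ ψ ∈ F, ∫ x, ψ x ^ 2 ∂vol n = 1 ∧ ∀ j < N, ∫ x, φ j x * ψ x ∂vol n = 0 := by
  have hint : ∀ j (ψ : F), Integrable (fun x => φ j x * ψ.1 x) (vol n) := fun j ψ =>
    cont_int ((Fwd.cont_u (hφ j)).mul (Fwd.cont_u (hs _ ψ.2)))
  let T : F →ₗ[ℝ] (Fin N → ℝ) :=
    { toFun := fun ψ j => ∫ x, φ j x * ψ.1 x ∂vol n
      map_add' := fun a b => funext fun j => by
        simp only [Submodule.coe_add, Pi.add_apply, mul_add]
        exact integral_add (hint j a) (hint j b)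
      map_smul' := fun c a => funext fun j => by
        simp only [Submodule.coe_smul, Pi.smul_apply, smul_eq_mul, RingHom.id_apply,
          mul_left_comm _ c, integral_const_mul] }
  have : FiniteDimensional ℝ F := Module.finite_of_finrank_eq_succ hF
  have hker : LinearMap.ker T ≠ ⊥ := LinearMap.ker_ne_bot_of_finrank_lt (by simp [hF])
  obtain ⟨ψ, hψ, h0⟩ := Submodule.exists_mem_ne_zero_of_ne_bot hker
  have hpos := int_sq_pos (hs _ ψ.2) fun h => h0 (Subtype.ext h)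
  refine ⟨(√(∫ x, ψ.1 x ^ 2 ∂vol n))⁻¹ • ψ.1, F.smul_mem _ ψ.2, ?_, fun j hj => ?_⟩
  · simp only [Pi.smul_apply, smul_eq_mul, mul_pow, integral_const_mul, inv_pow,
      Real.sq_sqrt hpos.le]
    exact inv_mul_cancel₀ hpos.ne'
  · have : ∫ x, φ j x * ψ.1 x ∂vol n = 0 := congrFun (LinearMap.mem_ker.1 hψ) ⟨j, hj⟩
    simp only [Pi.smul_apply, smul_eq_mul, mul_left_comm (φ j _), integral_const_mul, this,
      mul_zero]

lemma smooth_zero : IsSmooth (fun _ : Sph n => (0 : ℝ)) :=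
  (contDiffOn_const (c := (0 : ℝ))).congr fun y _ => by simp [ext]

lemma ext_mul (χ u : Sph n → ℝ) : ext (fun x => χ x * u x) = fun y => ext χ y * ext u y := by
  funext y
  by_cases h : y = 0 <;> simp [ext, h]

lemma smooth_mul' {χ u : Sph n → ℝ} (hχ : IsSmooth χ) (hu : IsSmooth u) :
    IsSmooth fun x => χ x * u x := by
  rw [IsSmooth, ext_mul]; exact ContDiffOn.mul hχ hu

lemma sum_norm_sq {E ι : Type*} [NormedAddCommGroup E] [InnerProductSpace ℝ E] [Fintype ι]
    (c : ι → ℝ) (w : ι → E) (v : E) (u : ℝ) (hc : ∑ i, c i ^ 2 = 1) (hw : ∑ i, c i • w i = 0) :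
    ∑ i, ‖c i • v + u • w i‖ ^ 2 = ‖v‖ ^ 2 + u ^ 2 * ∑ i, ‖w i‖ ^ 2 := by
  have e : ∀ i, ‖c i • v + u • w i‖ ^ 2 =
      c i ^ 2 * ‖v‖ ^ 2 + 2 * u * ⟪v, c i • w i⟫ + u ^ 2 * ‖w i‖ ^ 2 := fun i => by
    rw [norm_add_sq_real, norm_smul, norm_smul, mul_pow, mul_pow, Real.norm_eq_abs,
      Real.norm_eq_abs, sq_abs, sq_abs, real_inner_smul_left, real_inner_smul_right,
      real_inner_smul_right]
    ring
  simp only [e, Finset.sum_add_distrib, ← Finset.sum_mul, ← Finset.mul_sum, ← inner_sum, hc, hw,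
    inner_zero_right]
  ring

lemma pointwise {m : ℕ} {χ : Fin m → Sph n → ℝ} (hχ : ∀ i, IsSmooth (χ i))
    (h1 : ∀ x, ∑ i, χ i x ^ 2 = 1) {u : Sph n → ℝ} (hu : IsSmooth u) (x : Sph n) :
    ∑ i, ‖fderiv ℝ (ext fun x => χ i x * u x) (x : Euc (n + 1))‖ ^ 2 =
      ‖fderiv ℝ (ext u) (x : Euc (n + 1))‖ ^ 2 +
        u x ^ 2 * ∑ i, ‖fderiv ℝ (ext (χ i)) (x : Euc (n + 1))‖ ^ 2 := by
  let J := (InnerProductSpace.toDual ℝ (Euc (n + 1))).symm
  have hd : ∀ i, fderiv ℝ (ext fun x => χ i x * u x) (x : Euc (n + 1)) =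
      χ i x • fderiv ℝ (ext u) (x : Euc (n + 1)) + u x • fderiv ℝ (ext (χ i)) (x : Euc (n + 1)) :=
    fun i => by
      rw [ext_mul, fderiv_fun_mul (Fwd.diffAt (hχ i) x) (Fwd.diffAt hu x), Fwd.ext_coe,
        Fwd.ext_coe]
  have h0 : ∑ i, χ i x • fderiv ℝ (ext (χ i)) (x : Euc (n + 1)) = 0 := by
    have a1 : HasFDerivAt (fun y => ∑ i, ext (χ i) y * ext (χ i) y)
        (∑ i, (ext (χ i) x • fderiv ℝ (ext (χ i)) (x : Euc (n + 1)) +
          ext (χ i) x • fderiv ℝ (ext (χ i)) (x : Euc (n + 1)))) (x : Euc (n + 1)) :=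
      HasFDerivAt.fun_sum fun i _ =>
        (Fwd.diffAt (hχ i) x).hasFDerivAt.mul (Fwd.diffAt (hχ i) x).hasFDerivAt
    have a2 : HasFDerivAt (fun y => ∑ i, ext (χ i) y * ext (χ i) y)
        (0 : Euc (n + 1) →L[ℝ] ℝ) (x : Euc (n + 1)) := by
      refine (hasFDerivAt_const (1 : ℝ) _).congr_of_eventuallyEq ?_
      filter_upwards [isOpen_compl_singleton.mem_nhds (Fwd.coe_ne x)] with y hy
      simp only [ext, dif_neg (show ¬y = 0 from hy), ← sq, h1]
    have a3 := a1.unique a2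
    simp only [Fwd.ext_coe, Finset.sum_add_distrib] at a3
    rw [← two_smul ℝ] at a3
    exact (smul_eq_zero.1 a3).resolve_left two_ne_zero
  have hJ : ∀ (a : ℝ) (L : StrongDual ℝ (Euc (n + 1))), J (a • L) = a • J L := fun a L => by
    rw [map_smulₛₗ]; rfl
  have := sum_norm_sq (fun i => χ i x) (fun i => J (fderiv ℝ (ext (χ i)) (x : Euc (n + 1))))
    (J (fderiv ℝ (ext u) (x : Euc (n + 1)))) (u x) (h1 x) (by
      simp only [← hJ, ← map_sum, h0, map_zero])
  simpa only [← hJ, ← map_add, LinearIsometryEquiv.norm_map, ← hd] using this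

end Near

theorem near_holds : NearStmt := by
  intro W hW hpos N
  induction N with
  | zero => exact ⟨fun _ _ => 0, fun _ => Near.smooth_zero, by simp, by simp⟩
  | succ N ih =>
    obtain ⟨φ, h1, h2, h3⟩ := ih
    have C := eig_ctl (n := 4) le_rfl hW hpos
    have hne : (SS W N).Nonempty := by
      rw [Set.nonempty_iff_ne_empty]
      intro h
      have := C.c_pos.trans_le (C.c_le N)
      rw [eig_eq, h, Real.sInf_empty] at this
      exact lt_irrefl _ this
    obtain ⟨L, ⟨F, hF, hL⟩, hlt⟩ := exists_lt_of_csInf_lt hne (lt_add_one (sInf (SS W N)))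
    obtain ⟨ψ, hψ, e1, e2⟩ := Near.exists_orth F hF (fun φ h => (hL φ h).1) φ h1
    refine ⟨fun k => if k = N then ψ else φ k, fun k => ?_, fun j hj k hk => ?_, fun k hk => ?_⟩
    · beta_reduce
      split_ifs
      exacts [(hL ψ hψ).1, h1 k]
    · by_cases a : j = N <;> by_cases b : k = N
      · simp only [a, b, if_true, ← sq, e1]
      · have : ¬N = k := fun h => b h.symm
        simp only [a, b, this, if_true, if_false, mul_comm (ψ _)]
        exact e2 k (by omega)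
      · simp only [a, b, if_true, if_false]
        exact e2 j (by omega)
      · simp only [a, b, if_false]
        exact h2 j (by omega) k (by omega)
    · by_cases b : k = N
      · have := (hL ψ hψ).2
        rw [e1, mul_one] at this
        simp only [b, if_true]
        exact this.trans hlt.le
      · simp only [b, if_false]
        exact h3 k (by omega)

theorem ims_holds : IMSStmt := by
  intro m χ hχ h1
  have hc : Continuous fun x : Sph 4 => ∑ i, ‖fderiv ℝ (ext (χ i)) (x : Euc (4 + 1))‖ ^ 2 :=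
    continuous_finsetSum _ fun i _ => (Fwd.cont_du (hχ i)).pow 2
  obtain ⟨C, hC0, hC⟩ := Fwd.bound hc
  refine ⟨C, hC0, fun u hu => ?_⟩
  have hi : ∀ v : Sph 4 → ℝ, IsSmooth v → Integrable (fun x : Sph 4 =>
      ‖fderiv ℝ (ext v) (x : Euc (4 + 1))‖ ^ 2 + ((4 : ℕ) / 2 : ℝ) * ((4 : ℕ) / 2 - 1) * v x ^ 2)
      (vol 4) := fun v hv =>
    cont_int (((Fwd.cont_du hv).pow 2).add (continuous_const.mul ((Fwd.cont_u hv).pow 2)))
  have hi2 : Integrable (fun x => C * u x ^ 2) (vol 4) :=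
    cont_int (continuous_const.mul ((Fwd.cont_u hu).pow 2))
  unfold energy
  rw [← integral_finsetSum _ fun i _ => hi _ (Near.smooth_mul' (hχ i) hu), ← integral_const_mul,
    ← integral_add (hi u hu) hi2]
  refine integral_mono (integrable_finsetSum _ fun i _ => hi _ (Near.smooth_mul' (hχ i) hu))
    ((hi u hu).add hi2) fun x => ?_
  have a1 := Near.pointwise hχ h1 hu x
  have a2 := mul_le_mul_of_nonneg_left (abs_le.1 (hC x)).2 (sq_nonneg (u x))
  simp only [Finset.sum_add_distrib, mul_pow, ← Finset.mul_sum, ← Finset.sum_mul, h1, a1]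
  linarith

end Pool.Agent.Lib.MP_465ce1_mp.Cx
end

-- part Pool.Agent.Lib.MP_465ce1_mp.Cx.Norm
section

/-!
Normalization of the weight, and the Laplace transform of the heat trace bound.
-/

open MeasureTheory Filter Topology
open scoped ContDiff Pointwise

namespace Pool.Agent.Lib.MP_465ce1_mp.Cx

namespace Norm

variable {n : ℕ}

lemma ext_mul (a : ℝ) (u : Sph n → ℝ) : ext (fun x => a * u x) = a • ext u := by
  funext y
  unfold ext
  by_cases h : y = 0
  · simp [h]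
  · simp [h]

lemma smooth_mul_const (a : ℝ) {u : Sph n → ℝ} (hu : IsSmooth u) :
    IsSmooth fun x => a * u x := by
  unfold IsSmooth
  rw [ext_mul]
  exact ContDiffOn.const_smul a hu

lemma energy_mul (a : ℝ) (u : Sph n → ℝ) : energy (fun x => a * u x) = a ^ 2 * energy u := by
  unfold energy
  rw [← integral_const_mul, ext_mul, fderiv_const_smul_field]
  refine integral_congr_ae (Eventually.of_forall fun x => ?_)
  simp only [Pi.smul_apply, norm_smul, mul_pow, Real.norm_eq_abs, sq_abs]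
  ring

lemma energy_scale {c : ℝ} (hc : 0 < c) (W φ : Sph n → ℝ) :
    energy (fun x => φ x / Real.sqrt (c * W x)) =
      c⁻¹ * energy (fun x => φ x / Real.sqrt (W x)) := by
  have h : (fun x => φ x / Real.sqrt (c * W x)) =
      fun x => (Real.sqrt c)⁻¹ * (φ x / Real.sqrt (W x)) := by
    funext x
    rw [Real.sqrt_mul hc.le]
    ring
  rw [h, energy_mul, inv_pow, Real.sq_sqrt hc.le]

lemma eig_scale {c : ℝ} (hc : 0 < c) (W : Sph n → ℝ) (k : ℕ) :
    eig (fun x => c * W x) k = c⁻¹ * eig W k := by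
  rw [eig_eq, eig_eq, ← smul_eq_mul, ← Real.sInf_smul_of_nonneg (inv_nonneg.2 hc.le)]
  congr 1
  ext L
  rw [Set.mem_inv_smul_set_iff₀ hc.ne']
  unfold SS
  simp only [Set.mem_ofPred_eq, smul_eq_mul]
  refine exists_congr fun F => and_congr_right fun _ => forall₂_congr fun φ _ =>
    and_congr_right fun _ => ?_
  rw [energy_scale hc, inv_mul_le_iff₀ hc, mul_assoc]

lemma heat_scale {c : ℝ} (hc : 0 < c) (W : Sph 4 → ℝ) (t : ℝ) :
    heat (fun x => c * W x) (c * t) = c ^ 2 * heat W t := by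
  unfold heat
  have h2 : (((4 : ℕ) : ℝ) / 2) = ((2 : ℕ) : ℝ) := by norm_num
  rw [h2, Real.rpow_natCast, Real.rpow_natCast, mul_pow, mul_assoc]
  congr 2
  refine tsum_congr fun k => ?_
  rw [eig_scale hc]
  congr 2
  field_simp

lemma int_pow (m : ℕ) {r : ℝ} (hr : 0 < r) :
    ∫ t in Set.Ioi (0 : ℝ), t ^ m * Real.exp (-(r * t)) = m.factorial / r ^ (m + 1) := by
  have key := Real.integral_rpow_mul_exp_neg_mul_Ioi (a := (m : ℝ) + 1) (by positivity) hr
  rw [Real.Gamma_nat_eq_factorial, add_sub_cancel_right] at key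
  simp only [Real.rpow_natCast] at key
  rw [key, ← Nat.cast_succ, Real.rpow_natCast, one_div, inv_pow, mul_comm, div_eq_mul_inv]

lemma intOn_pow (m : ℕ) {r : ℝ} (hr : 0 < r) :
    IntegrableOn (fun t : ℝ => t ^ m * Real.exp (-(r * t))) (Set.Ioi 0) :=
  Integrable.of_integral_ne_zero (by rw [int_pow m hr]; positivity)

end Norm

open Pool.Agent.Lib.MP_465ce1_mp.Cx.Norm

theorem norm_holds : NormStmt := by
  rintro ⟨W, hW, hpos, t1, t2, h1, h12, hlt⟩
  have hI : 0 < ∫ x, W x ^ 2 ∂vol 4 := by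
    refine int_sq_pos hW fun h => ?_
    obtain ⟨x, hx⟩ : (Metric.sphere (0 : EuclideanSpace ℝ (Fin (4 + 1))) 1).Nonempty :=
      NormedSpace.sphere_nonempty.2 zero_le_one
    exact (hpos ⟨x, hx⟩).ne' (congrFun h _)
  have hV : 0 < (vol 4).real Set.univ := by
    haveI : Nonempty (Sph 4) :=
      (NormedSpace.sphere_nonempty.2 zero_le_one :
        (Metric.sphere (0 : EuclideanSpace ℝ (Fin (4 + 1))) 1).Nonempty).to_subtype
    exact ENNReal.toReal_pos (isOpen_univ.measure_ne_zero _ Set.univ_nonempty) (measure_ne_top _ _)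
  set c := Real.sqrt ((vol 4).real Set.univ / ∫ x, W x ^ 2 ∂vol 4) with hc
  have hc0 : 0 < c := Real.sqrt_pos.2 (div_pos hV hI)
  refine ⟨fun x => c * W x, smooth_mul_const c hW, fun x => mul_pos hc0 (hpos x), ?_,
    c * t1, c * t2, mul_pos hc0 h1, mul_lt_mul_of_pos_left h12 hc0, ?_⟩
  · simp only [mul_pow]
    rw [integral_const_mul, hc, Real.sq_sqrt (div_pos hV hI).le, div_mul_cancel₀ _ hI.ne']
  · rw [heat_scale hc0, heat_scale hc0]
    exact mul_lt_mul_of_pos_left hlt (by positivity)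

theorem laplace_holds : LaplaceStmt := by
  intro lam A μ hl hs hA hμ N
  have h1 : ∀ k, 1 / (lam k + μ) ^ 4 =
      ∫ t in Set.Ioi (0 : ℝ), 1 / 6 * (t ^ 3 * Real.exp (-((lam k + μ) * t))) := by
    intro k
    rw [integral_const_mul, int_pow 3 (add_pos (hl k) hμ)]
    norm_num [Nat.factorial]
    ring
  have h2 : A / (6 * μ ^ 2) =
      ∫ t in Set.Ioi (0 : ℝ), A / 6 * (t ^ 1 * Real.exp (-(μ * t))) := by
    rw [integral_const_mul, int_pow 1 hμ]
    norm_num
    ring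
  simp only [h1]
  rw [h2, ← integral_finsetSum _ fun k _ => (intOn_pow 3 (add_pos (hl k) hμ)).const_mul _]
  refine setIntegral_mono_on
    (integrable_finsetSum _ fun k _ => (intOn_pow 3 (add_pos (hl k) hμ)).const_mul _)
    ((intOn_pow 1 hμ).const_mul _) measurableSet_Ioi fun t ht => ?_
  have ht0 : 0 < t := ht
  have h3 : ∑ k ∈ Finset.range N, Real.exp (-(t * lam k)) ≤ ∑' k, Real.exp (-(t * lam k)) :=
    (hs t ht0).sum_le_tsum _ fun k _ => (Real.exp_pos _).le
  have h4 := (mul_le_mul_of_nonneg_left h3 (sq_nonneg t)).trans (hA t ht0)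
  calc ∑ k ∈ Finset.range N, 1 / 6 * (t ^ 3 * Real.exp (-((lam k + μ) * t)))
      = (t ^ 2 * ∑ k ∈ Finset.range N, Real.exp (-(t * lam k))) / 6 *
          (t ^ 1 * Real.exp (-(μ * t))) := by
        rw [Finset.mul_sum, Finset.sum_div, Finset.sum_mul]
        refine Finset.sum_congr rfl fun k _ => ?_
        rw [show -((lam k + μ) * t) = -(t * lam k) + -(μ * t) by ring, Real.exp_add]
        ring
    _ ≤ _ := by gcongr

end Pool.Agent.Lib.MP_465ce1_mp.Cx
end

-- part Pool.Agent.Lib.MP_465ce1_mp.Cx.Part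
section

/-!
A quadratic partition of unity on the sphere adapted to the weight.
-/

open MeasureTheory Filter Topology
open scoped ContDiff

namespace Pool.Agent.Lib.MP_465ce1_mp.Cx

namespace PartJ

lemma smooth_restrict {f : Euc 5 → ℝ} (hf : ContDiff ℝ ∞ f) :
    IsSmooth fun y : Sph 4 => f y := by
  have h : ContDiffOn ℝ ∞ (fun y : Euc 5 => f (‖y‖⁻¹ • y)) {0}ᶜ := by
    have h1 : ContDiffOn ℝ ∞ (fun y : Euc 5 => ‖y‖⁻¹) {0}ᶜ :=
      ContDiffOn.inv (fun y hy => (contDiffAt_norm ℝ hy).contDiffWithinAt)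
        fun y hy => norm_ne_zero_iff.mpr hy
    exact hf.comp_contDiffOn (h1.smul contDiffOn_id)
  refine h.congr fun y hy => ?_
  simp only [ext, dif_neg (show ¬y = 0 from hy)]

/-- The antipodal map when `b` is true. -/
noncomputable def fl (b : Bool) (y : Sph 4) : Sph 4 := if b then -y else y

lemma fl_fl (b : Bool) (y : Sph 4) : fl b (fl b y) = y := by
  cases b <;> simp [fl]

lemma continuous_fl (b : Bool) : Continuous (fl b) := by
  cases b
  · exact continuous_id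
  · exact continuous_neg

/-- The last coordinate after the flip. -/
noncomputable def ht (b : Bool) (y : Sph 4) : ℝ := (fl b y : Euc 5) (Fin.last 4)

lemma continuous_ht (b : Bool) : Continuous (ht b) :=
  (EuclideanSpace.proj (𝕜 := ℝ) (Fin.last 4)).continuous.comp
    (continuous_subtype_val.comp (continuous_fl b))

lemma ht_sig (b : Bool) (x : E4) : ht b (fl b (sig x)) = 1 - rho x := by
  rw [ht, fl_fl]
  exact Fwd.sigA_last x

lemma exists_ht (p : Sph 4) : ∃ b, ht b p ≤ 0 := by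
  rcases le_total ((p : Euc 5) (Fin.last 4)) 0 with h | h
  · exact ⟨false, h⟩
  · refine ⟨true, ?_⟩
    simpa [ht, fl] using h

lemma local_data {W : Sph 4 → ℝ} (hW : IsSmooth W) (hpos : ∀ x, 0 < W x) {δ : ℝ} (h0 : 0 < δ)
    (h1 : δ < 1) (p : Sph 4) : ∃ (b : Bool) (α r : ℝ), 0 < α ∧ 0 < r ∧
      ∀ y : Sph 4, dist y p < 2 * r → ht b y < 1 / 2 ∧
        (1 - δ) * α ≤ 1 / (W y * (1 - ht b y) ^ 2) ∧ 1 / (W y * (1 - ht b y) ^ 2) ≤ α := by
  obtain ⟨b, hb⟩ := exists_ht p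
  have hp : 0 < W p * (1 - ht b p) ^ 2 := mul_pos (hpos p) (pow_pos (by linarith) 2)
  have hc : ContinuousAt (fun y => 1 / (W y * (1 - ht b y) ^ 2)) p :=
    continuousAt_const.div ((Fwd.cont_u hW).mul
      ((continuous_const.sub (continuous_ht b)).pow 2)).continuousAt hp.ne'
  set a := 1 / (W p * (1 - ht b p) ^ 2) with ha
  have ha0 : 0 < a := one_div_pos.mpr hp
  have hd : 0 < 1 - δ / 2 := by linarith
  have e1 : (1 - δ) * (a / (1 - δ / 2)) < a := by
    rw [← mul_div_assoc, div_lt_iff₀ hd]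
    nlinarith
  have e2 : a < a / (1 - δ / 2) := by
    rw [lt_div_iff₀ hd]
    nlinarith
  have e3 : ht b p < 1 / 2 := by linarith
  have hev := ((continuous_ht b).continuousAt.eventually (gt_mem_nhds e3)).and
    ((hc.eventually (lt_mem_nhds e1)).and (hc.eventually (gt_mem_nhds e2)))
  obtain ⟨ε, hε, h⟩ := Metric.eventually_nhds_iff.mp hev
  refine ⟨b, a / (1 - δ / 2), ε / 2, div_pos ha0 hd, half_pos hε, fun y hy => ?_⟩
  have := h (y := y) (by linarith)
  exact ⟨this.1, this.2.1.le, this.2.2.le⟩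

end PartJ

open PartJ

theorem part_holds : PartStmt := by
  intro W hW hpos δ h0 h1
  choose b α r hα hr h using local_data hW hpos h0 h1
  obtain ⟨t, hcov⟩ := CompactSpace.elim_nhds_subcover (fun p : Sph 4 => Metric.ball p (r p))
    fun p => Metric.ball_mem_nhds p (hr p)
  let c : Fin t.card → Sph 4 := fun i => t.equivFin.symm i
  let ψ : ∀ p : Sph 4, ContDiffBump (p : Euc 5) := fun p =>
    ⟨r p, 2 * r p, hr p, by linarith [hr p]⟩
  let S : Euc 5 → ℝ := fun y => ∑ i, ψ (c i) y ^ 2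
  have hS : ContDiff ℝ ∞ S := ContDiff.sum fun i _ => (ψ (c i)).contDiff.pow 2
  have hS0 : ∀ y : Sph 4, 0 < S y := by
    intro y
    have hy : y ∈ ⋃ p ∈ t, Metric.ball p (r p) := by
      rw [hcov]
      trivial
    obtain ⟨p, hp, hy⟩ := Set.mem_iUnion₂.mp hy
    refine Finset.sum_pos' (fun i _ => sq_nonneg _) ⟨t.equivFin ⟨p, hp⟩, Finset.mem_univ _, ?_⟩
    have e : c (t.equivFin ⟨p, hp⟩) = p := by simp [c]
    rw [e]
    refine pow_pos ((ψ p).pos_of_mem_ball ?_) 2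
    have h2 : dist (y : Euc 5) p < r p := hy
    have h3 : dist (y : Euc 5) p < 2 * r p := by linarith [hr p]
    exact h3
  have hsupp : ∀ i (y : Sph 4), ψ (c i) y / Real.sqrt (S y) ≠ 0 → dist y (c i) < 2 * r (c i) := by
    intro i y hy
    by_contra hle
    apply hy
    rw [(ψ (c i)).zero_of_le_dist (not_lt.mp hle), zero_div]
  refine ⟨t.card, fun i y => ψ (c i) y / Real.sqrt (S y), fun i => b (c i), fun i => α (c i),
    fun i => smooth_div (smooth_restrict hS) hS0 (smooth_restrict (ψ (c i)).contDiff),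
    fun y => ?_, fun i => ⟨hα _, ⟨2, fun x hx => ?_⟩, fun x hx => ?_⟩⟩
  · simp only [div_pow, Real.sq_sqrt (hS0 y).le]
    rw [← Finset.sum_div]
    exact div_self (hS0 y).ne'
  · by_contra hne
    have h2 := (h _ _ (hsupp i (fl (b (c i)) (sig x)) hne)).1
    rw [ht_sig] at h2
    have h3 := rho_mul_norm_sq x
    have h4 : 4 < ‖x‖ ^ 2 := by nlinarith
    nlinarith [rho_pos x]
  · have h2 := (h _ _ (hsupp i (fl (b (c i)) (sig x)) hx)).2
    rw [ht_sig, sub_sub_cancel] at h2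
    exact h2

end Pool.Agent.Lib.MP_465ce1_mp.Cx
end

-- part Pool.Agent.Lib.MP_465ce1_mp.Cx.Piece
section

/-!
The Berezin type bound on one piece of the partition of unity.
-/

open MeasureTheory Filter Topology
open scoped ContDiff RealInnerProductSpace

namespace Pool.Agent.Lib.MP_465ce1_mp.Cx

namespace Piece

/-- Bessel inequality for a finite orthonormal family of functions. -/
lemma bessel {X : Type*} [MeasurableSpace X] {μ : Measure X} (N : ℕ) (e : ℕ → X → ℝ) (g : X → ℝ)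
    (he : ∀ j k, Integrable (fun x => e j x * e k x) μ)
    (ho : ∀ j < N, ∀ k < N, ∫ x, e j x * e k x ∂μ = if j = k then 1 else 0)
    (hg : ∀ k, Integrable (fun x => g x * e k x) μ) (hgg : Integrable (fun x => g x ^ 2) μ) :
    ∑ k ∈ Finset.range N, (∫ x, g x * e k x ∂μ) ^ 2 ≤ ∫ x, g x ^ 2 ∂μ := by
  obtain ⟨a, ha⟩ : ∃ a : ℕ → ℝ, ∀ k, a k = ∫ x, g x * e k x ∂μ := ⟨_, fun _ => rfl⟩
  have h0 : 0 ≤ ∫ x, (g x - ∑ k ∈ Finset.range N, a k * e k x) ^ 2 ∂μ :=
    integral_nonneg fun x => sq_nonneg _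
  have e1 : ∀ x, (g x - ∑ k ∈ Finset.range N, a k * e k x) ^ 2 =
      g x ^ 2 - ∑ k ∈ Finset.range N, 2 * a k * (g x * e k x) +
        ∑ j ∈ Finset.range N, ∑ k ∈ Finset.range N, a j * a k * (e j x * e k x) := by
    intro x
    have h1 : ∑ k ∈ Finset.range N, 2 * a k * (g x * e k x) =
        2 * g x * ∑ k ∈ Finset.range N, a k * e k x := by
      rw [Finset.mul_sum]; exact Finset.sum_congr rfl fun k _ => by ring
    have h2 : ∑ j ∈ Finset.range N, ∑ k ∈ Finset.range N, a j * a k * (e j x * e k x) =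
        (∑ k ∈ Finset.range N, a k * e k x) ^ 2 := by
      rw [sq, Finset.sum_mul_sum]
      exact Finset.sum_congr rfl fun j _ => Finset.sum_congr rfl fun k _ => by ring
    rw [h1, h2]; ring
  have i1 : Integrable (fun x => ∑ k ∈ Finset.range N, 2 * a k * (g x * e k x)) μ :=
    integrable_finsetSum _ fun k _ => (hg k).const_mul _
  have i3 : ∀ j, Integrable (fun x => ∑ k ∈ Finset.range N, a j * a k * (e j x * e k x)) μ :=
    fun j => integrable_finsetSum _ fun k _ => (he j k).const_mul _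
  have i2 : Integrable (fun x => ∑ j ∈ Finset.range N, ∑ k ∈ Finset.range N,
      a j * a k * (e j x * e k x)) μ := integrable_finsetSum _ fun j _ => i3 j
  have i4 : Integrable (fun x => g x ^ 2 - ∑ k ∈ Finset.range N, 2 * a k * (g x * e k x)) μ :=
    hgg.sub i1
  simp only [e1] at h0
  rw [integral_add i4 i2, integral_sub hgg i1,
    integral_finsetSum _ fun k _ => (hg k).const_mul _,
    integral_finsetSum _ fun j _ => i3 j] at h0
  have h3 : ∑ j ∈ Finset.range N, ∫ x, ∑ k ∈ Finset.range N, a j * a k * (e j x * e k x) ∂μ =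
      ∑ j ∈ Finset.range N, a j ^ 2 := by
    refine Finset.sum_congr rfl fun j hj => ?_
    rw [integral_finsetSum _ fun k _ => (he j k).const_mul _]
    have h4 : ∀ k ∈ Finset.range N, ∫ x, a j * a k * (e j x * e k x) ∂μ =
        if j = k then a j * a k else 0 := by
      intro k hk
      rw [integral_const_mul, ho j (Finset.mem_range.mp hj) k (Finset.mem_range.mp hk)]
      split_ifs <;> simp
    rw [Finset.sum_congr rfl h4, Finset.sum_ite_eq, if_pos hj, sq]
  have h5 : ∑ k ∈ Finset.range N, ∫ x, 2 * a k * (g x * e k x) ∂μ =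
      2 * ∑ k ∈ Finset.range N, a k ^ 2 := by
    rw [Finset.mul_sum]
    refine Finset.sum_congr rfl fun k _ => ?_
    rw [integral_const_mul, ← ha]; ring
  rw [h3, h5] at h0
  simp only [← ha]
  linarith

lemma gauss {b : ℝ} (hb : 0 < b) :
    Integrable (fun ξ : E4 => Real.exp (-b * ‖ξ‖ ^ 2)) ∧
      ∫ ξ : E4, Real.exp (-b * ‖ξ‖ ^ 2) = (Real.pi / b) ^ 2 := by
  have h := GaussianFourier.integral_rexp_neg_mul_sq_norm (V := E4) hb
  have e : ((Module.finrank ℝ E4 : ℝ) / 2) = ((2 : ℕ) : ℝ) := by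
    rw [finrank_euclideanSpace_fin]; norm_num
  rw [e, Real.rpow_natCast] at h
  refine ⟨Integrable.of_integral_ne_zero ?_, h⟩
  rw [h]
  have := Real.pi_pos
  positivity

lemma fsq_nonneg (f : E4 → ℝ) (ξ : E4) : 0 ≤ fsq f ξ := by
  unfold fsq; positivity

/-- The tangent line bound. -/
lemma tangent (h : PlanchStmt) {f : E4 → ℝ} (hf : ContDiff ℝ ∞ f) (hc : HasCompactSupport f)
    {b : ℝ} (hb : 0 < b) (y : ℝ) :
    Integrable (fun ξ : E4 => Real.exp (-b * ‖ξ‖ ^ 2) * fsq f ξ) ∧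
    (2 * Real.pi) ^ 4 * (Real.exp (-y) *
      ((1 + y) * (∫ x, f x ^ 2) - b * ∫ x, ‖fderiv ℝ f x‖ ^ 2)) ≤
      ∫ ξ : E4, Real.exp (-b * ‖ξ‖ ^ 2) * fsq f ξ := by
  obtain ⟨h1, h2, h3, h4, h5⟩ := h f hf hc
  have i1 : Integrable (fun ξ : E4 => Real.exp (-b * ‖ξ‖ ^ 2) * fsq f ξ) := by
    refine h2.mono' (Continuous.aestronglyMeasurable (by fun_prop)) (Eventually.of_forall fun ξ => ?_)
    have h6 := fsq_nonneg f ξ
    have h7 : Real.exp (-b * ‖ξ‖ ^ 2) ≤ 1 :=
      Real.exp_le_one_iff.mpr (by nlinarith [sq_nonneg ‖ξ‖])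
    rw [Real.norm_eq_abs, abs_of_nonneg (by positivity)]
    nlinarith
  refine ⟨i1, ?_⟩
  have i2 : Integrable (fun ξ : E4 => Real.exp (-y) * (1 + y) * fsq f ξ) := h2.const_mul _
  have i3 : Integrable (fun ξ : E4 => Real.exp (-y) * b * (‖ξ‖ ^ 2 * fsq f ξ)) := h4.const_mul _
  have h8 := integral_mono (i2.sub i3) i1 fun ξ => by
    have h6 := fsq_nonneg f ξ
    have h9 : Real.exp (-y) * (1 + y - b * ‖ξ‖ ^ 2) ≤ Real.exp (-b * ‖ξ‖ ^ 2) := by
      have h10 := Real.add_one_le_exp (y - b * ‖ξ‖ ^ 2)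
      have h11 : Real.exp (-b * ‖ξ‖ ^ 2) = Real.exp (-y) * Real.exp (y - b * ‖ξ‖ ^ 2) := by
        rw [← Real.exp_add]; congr 1; ring
      rw [h11]
      exact mul_le_mul_of_nonneg_left (by linarith) (Real.exp_pos _).le
    have h12 := mul_le_mul_of_nonneg_right h9 h6
    simp only [Pi.sub_apply]
    nlinarith
  simp only [Pi.sub_apply] at h8
  rw [integral_sub i2 i3, integral_const_mul, integral_const_mul, h3, h5] at h8
  refine le_of_eq_of_le ?_ h8
  ring

lemma fwd_eq (u : Sph 4 → ℝ) (x : E4) : fwd u x = rho x * u (sig x) := by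
  have e : (((4 : ℕ) : ℝ) / 2 - 1) = 1 := by norm_num
  rw [fwd, e, Real.rpow_one]

lemma smooth_prod {u v : Sph 4 → ℝ} (hu : IsSmooth u) (hv : IsSmooth v) :
    IsSmooth fun x => u x * v x := by
  refine (ContDiffOn.mul hu hv).congr fun y hy => ?_
  simp only [ext, dif_neg (show ¬y = 0 from hy)]

lemma int_flat {f : Sph 4 → ℝ} (hf : Continuous f) :
    Integrable fun x : E4 => f (sig x) * rho x ^ 4 := by
  obtain ⟨F, hF0, hF⟩ := Fwd.bound hf
  refine Fwd.integrable_of_le le_rfl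
    ((hf.comp Meas.continuous_sig).mul (Meas.continuous_rho.pow _)) (2 * F) fun x => ?_
  have hr := rho_pos x
  have hr2 := rho_le_two x
  have hx := norm_nonneg x
  rw [abs_mul, abs_of_pos (pow_pos hr _), show 4 - 1 = 3 from rfl]
  calc |f (sig x)| * rho x ^ 4 = |f (sig x)| * (rho x ^ 3 * rho x) := by ring
    _ ≤ F * (rho x ^ 3 * (2 * (1 + ‖x‖))) := by
        gcongr
        · exact hF _
        · linarith
    _ = _ := by ring

lemma int_cs {R : ℝ} {F : E4 → ℝ} (hF : Continuous F) (h : ∀ x, R < ‖x‖ → F x = 0) :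
    Integrable F :=
  hF.integrable_of_hasCompactSupport
    (HasCompactSupport.intro (isCompact_closedBall 0 R) fun x hx => h x (by simpa using hx))

end Piece

open Piece in
theorem piece_holds (h : PlanchStmt) : PieceStmt := by
  intro W χ α δ s N φ y hW hpos hχ hα _ _ hgood hs hφ ho hy
  obtain ⟨⟨R, hR⟩, hG⟩ := hgood
  have hpi := Real.pi_pos
  have hVpos : ∀ x : E4, 0 < VV W x := fun x => mul_pos (hpos _) (pow_pos (rho_pos x) 2)
  have hVc : Continuous (VV W) := VV_cont hW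
  have hc : Continuous fun x : E4 => χ (sig x) := (Fwd.cont_u hχ).comp Meas.continuous_sig
  have hφc : ∀ k, Continuous fun x : E4 => φ k (sig x) := fun k =>
    (Fwd.cont_u (hφ k)).comp Meas.continuous_sig
  have hrc : Continuous (rho : E4 → ℝ) := Meas.continuous_rho
  have hsq : ∀ x : E4, 0 < Real.sqrt (W (sig x)) := fun x => Real.sqrt_pos.mpr (hpos _)
  have hsc : Continuous fun x : E4 => Real.sqrt (W (sig x)) :=
    ((Fwd.cont_u hW).comp Meas.continuous_sig).sqrt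
  have hss : ∀ x : E4, Real.sqrt (W (sig x)) ^ 2 = W (sig x) := fun x => Real.sq_sqrt (hpos _).le
  have hu : ∀ k, IsSmooth fun x => χ x * (φ k x / Real.sqrt (W x)) := fun k =>
    smooth_prod hχ (smooth_div hW hpos (hφ k))
  obtain ⟨f, hf⟩ : ∃ f : ℕ → E4 → ℝ, ∀ k, f k = fwd fun x => χ x * (φ k x / Real.sqrt (W x)) :=
    ⟨_, fun _ => rfl⟩
  have hfx : ∀ k x, f k x = rho x * (χ (sig x) * (φ k (sig x) / Real.sqrt (W (sig x)))) :=
    fun k x => by rw [hf, fwd_eq]
  have hfs : ∀ k, ContDiff ℝ ∞ (f k) := fun k => hf k ▸ (fwd_holds 4 le_rfl _ (hu k)).1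
  have hfE : ∀ k, energy (fun x => χ x * (φ k x / Real.sqrt (W x))) =
      ∫ x, ‖fderiv ℝ (f k) x‖ ^ 2 := fun k => hf k ▸ (fwd_holds 4 le_rfl _ (hu k)).2.2
  have hf0 : ∀ k x, R < ‖x‖ → f k x = 0 := fun k x hx => by rw [hfx, hR x hx]; ring
  have hfc : ∀ k, HasCompactSupport (f k) := fun k =>
    HasCompactSupport.intro (isCompact_closedBall 0 R) fun x hx => hf0 k x (by simpa using hx)
  -- the Bessel bound
  obtain ⟨M, hM⟩ : ∃ M : ℝ, M = ∫ x : E4, χ (sig x) ^ 2 / VV W x := ⟨_, rfl⟩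
  have hB : ∀ t : E4 → ℝ, Continuous t → ∑ k ∈ Finset.range N, (∫ x, f k x * t x) ^ 2 ≤
      ∫ x : E4, χ (sig x) ^ 2 / VV W x * t x ^ 2 := by
    intro t ht
    have hgc : Continuous fun x : E4 => χ (sig x) * t x / (rho x * Real.sqrt (W (sig x))) :=
      (hc.mul ht).div (hrc.mul hsc) fun x => (mul_pos (rho_pos x) (hsq x)).ne'
    have h1 := bessel (μ := (volume : Measure E4)) N (fun k x => φ k (sig x) * rho x ^ 2)
      (fun x => χ (sig x) * t x / (rho x * Real.sqrt (W (sig x))))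
      (fun j k => (int_flat (f := fun z => φ j z * φ k z)
        ((Fwd.cont_u (hφ j)).mul (Fwd.cont_u (hφ k)))).congr
          (Eventually.of_forall fun x => by simp only; ring))
      (fun j hj k hk => by
        rw [← ho j hj k hk, meas_pos 4 (by norm_num) (fun z => φ j z * φ k z)
          ((Fwd.cont_u (hφ j)).mul (Fwd.cont_u (hφ k)))]
        exact integral_congr_ae (Eventually.of_forall fun x => by simp only; ring))
      (fun k => int_cs (R := R) (hgc.mul ((hφc k).mul (hrc.pow 2))) fun x hx => by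
        simp only [hR x hx]; ring)
      (int_cs (R := R) (hgc.pow 2) fun x hx => by simp only [hR x hx]; ring)
    refine le_of_eq_of_le (Finset.sum_congr rfl fun k _ => ?_) (h1.trans_eq ?_)
    · congr 1
      refine integral_congr_ae (Eventually.of_forall fun x => ?_)
      have h2 := (rho_pos x).ne'
      have h3 := (hsq x).ne'
      simp only [hfx]
      field_simp
    · refine integral_congr_ae (Eventually.of_forall fun x => ?_)
      have h2 := (rho_pos x).ne'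
      have h3 := (hpos (sig x)).ne'
      simp only [div_pow, mul_pow, hss, VV]
      field_simp
  have hcV : Continuous fun x : E4 => χ (sig x) ^ 2 / VV W x :=
    (hc.pow 2).div hVc fun x => (hVpos x).ne'
  have hBes : ∀ ξ : E4, ∑ k ∈ Finset.range N, fsq (f k) ξ ≤ M := by
    intro ξ
    have c1 : Continuous fun x : E4 => Real.cos ⟪ξ, x⟫ := by fun_prop
    have c2 : Continuous fun x : E4 => Real.sin ⟪ξ, x⟫ := by fun_prop
    have h1 := add_le_add (hB _ c1) (hB _ c2)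
    have i1 : ∀ t : E4 → ℝ, Continuous t →
        Integrable fun x : E4 => χ (sig x) ^ 2 / VV W x * t x ^ 2 := fun t ht =>
      int_cs (R := R) (F := fun x : E4 => χ (sig x) ^ 2 / VV W x * t x ^ 2) (hcV.mul (ht.pow 2))
        fun x hx => by simp only [hR x hx]; ring
    rw [← Finset.sum_add_distrib, ← integral_add (i1 _ c1) (i1 _ c2)] at h1
    refine h1.trans_eq ?_
    rw [hM]
    refine integral_congr_ae (Eventually.of_forall fun x => ?_)
    simp only
    rw [← mul_add, Real.cos_sq_add_sin_sq, mul_one]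
  -- the Gaussian average
  have hb : 0 < s * α := mul_pos hs hα
  obtain ⟨g1, g2⟩ := gauss hb
  have hT := fun k => tangent h (hfs k) (hfc k) hb (y k)
  have hsum : (2 * Real.pi) ^ 4 * ∑ k ∈ Finset.range N, Real.exp (-y k) *
      ((1 + y k) * (∫ x, f k x ^ 2) - s * α * ∫ x, ‖fderiv ℝ (f k) x‖ ^ 2) ≤
      (Real.pi / (s * α)) ^ 2 * M := by
    rw [Finset.mul_sum]
    refine (Finset.sum_le_sum fun k _ => (hT k).2).trans ?_
    rw [← integral_finsetSum _ fun k _ => (hT k).1, ← g2, ← integral_mul_const]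
    refine integral_mono (integrable_finsetSum _ fun k _ => (hT k).1) (g1.mul_const M) fun ξ => ?_
    simp only
    rw [← Finset.mul_sum]
    exact mul_le_mul_of_nonneg_left (hBes ξ) (Real.exp_pos _).le
  -- comparison of the masses
  have hmass : ∀ k, (1 - δ) * α * (∫ x, χ x ^ 2 * φ k x ^ 2 ∂vol 4) ≤ ∫ x, f k x ^ 2 := by
    intro k
    have hcont : Continuous fun z => χ z ^ 2 * φ k z ^ 2 :=
      ((Fwd.cont_u hχ).pow 2).mul ((Fwd.cont_u (hφ k)).pow 2)
    rw [meas_pos 4 (by norm_num) _ hcont, ← integral_const_mul]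
    refine integral_mono ((int_flat hcont).const_mul _)
      (int_cs (R := R) ((hfs k).continuous.pow 2) fun x hx => by simp only [hf0 k x hx]; ring)
      fun x => ?_
    simp only
    by_cases hx : χ (sig x) = 0
    · rw [hx]; simpa using sq_nonneg (f k x)
    · have h2 := (rho_pos x).ne'
      have h3 := (hpos (sig x)).ne'
      have h4 : f k x ^ 2 = 1 / VV W x * (χ (sig x) ^ 2 * φ k (sig x) ^ 2 * rho x ^ 4) := by
        simp only [hfx, div_pow, mul_pow, hss, VV]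
        field_simp
      rw [h4]
      exact mul_le_mul_of_nonneg_right (hG x hx).1 (by positivity)
  have hMle : M ≤ α ^ 3 * ∫ x, χ x ^ 2 * W x ^ 2 ∂vol 4 := by
    have hcont : Continuous fun z => χ z ^ 2 * W z ^ 2 :=
      ((Fwd.cont_u hχ).pow 2).mul ((Fwd.cont_u hW).pow 2)
    rw [meas_pos 4 (by norm_num) _ hcont, ← integral_const_mul, hM]
    refine integral_mono (int_cs (R := R) hcV fun x hx => by simp only [hR x hx]; ring)
      ((int_flat hcont).const_mul _) fun x => ?_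
    simp only
    by_cases hx : χ (sig x) = 0
    · rw [hx]; simp
    · have h2 := hVpos x
      have h3 : 1 ≤ α * VV W x := by
        have := (hG x hx).2
        rwa [div_le_iff₀ h2] at this
      have h4 : 1 ≤ (α * VV W x) ^ 3 := one_le_pow₀ h3
      have h5 : α ^ 3 * (χ (sig x) ^ 2 * W (sig x) ^ 2 * rho x ^ 4) =
          χ (sig x) ^ 2 / VV W x * (α * VV W x) ^ 3 := by
        have h6 := (rho_pos x).ne'
        have h7 := (hpos (sig x)).ne'
        simp only [VV]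
        field_simp
      rw [h5]
      exact le_mul_of_one_le_right (by positivity) h4
  have hle : α * ∑ k ∈ Finset.range N, Real.exp (-y k) *
      ((1 + y k) * (1 - δ) * (∫ x, χ x ^ 2 * φ k x ^ 2 ∂vol 4) -
        s * energy (fun x => χ x * (φ k x / Real.sqrt (W x)))) ≤
      ∑ k ∈ Finset.range N, Real.exp (-y k) *
      ((1 + y k) * (∫ x, f k x ^ 2) - s * α * ∫ x, ‖fderiv ℝ (f k) x‖ ^ 2) := by
    rw [Finset.mul_sum]
    refine Finset.sum_le_sum fun k _ => ?_
    rw [hfE]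
    have h1 := mul_le_mul_of_nonneg_left (hmass k)
      (mul_nonneg (Real.exp_pos (-y k)).le (show 0 ≤ 1 + y k by linarith [hy k]))
    nlinarith
  have h1 := (mul_le_mul_of_nonneg_left hle (show 0 ≤ (2 * Real.pi) ^ 4 by positivity)).trans
    (hsum.trans (mul_le_mul_of_nonneg_left hMle (by positivity)))
  have hpos2 : 0 < (2 * Real.pi) ^ 4 * α := by positivity
  refine le_of_mul_le_mul_left (le_of_eq_of_le (mul_assoc _ _ _) (h1.trans_eq ?_)) hpos2
  field_simp
  ring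

end Pool.Agent.Lib.MP_465ce1_mp.Cx
end
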