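import Pool.Agent.Lib.MP_465ce1_mp.Cx.SymA

/-!
Formal symbol calculus: the kernel check.
-/

namespace Pool.Agent.Lib.MP_465ce1_mp.Cx.Sy

theorem chkAll_true : chkAll 720720 tab = true := by decide +kernel

end Pool.Agent.Lib.MP_465ce1_mp.Cx.Sy
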