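import Pool.Agent.Lib.MP_465ce1_mp.Cx.PInt
import Pool.Agent.Lib.MP_465ce1_mp.Cx.SymA
import Pool.Agent.Lib.MP_465ce1_mp.Cx.SymK

-- part Pool.Agent.Lib.MP_465ce1_mp.Cx.Wick
section

/-!
The base integral and one contraction.
-/

open MeasureTheory Filter Topology
open scoped ContDiff RealInnerProductSpace

namespace Pool.Agent.Lib.MP_465ce1_mp.Cx

namespace Wick

/-- Homogeneity of degree `l`. -/
def Hm (l : ℕ) (p : E4 → ℝ) : Prop := ∀ t : ℝ, 0 < t → ∀ ξ, p (t • ξ) = t ^ l * p ξ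

theorem Hm.bound {l : ℕ} {p : E4 → ℝ} (h : Hm l p) (hc : Continuous p) :
    ∃ C : ℝ, ∀ ξ, |p ξ| ≤ C * (1 + ‖ξ‖) ^ l := by
  obtain ⟨C, hC⟩ := (isCompact_closedBall (0 : E4) 1).exists_bound_of_continuousOn hc.continuousOn
  refine ⟨C, fun ξ => ?_⟩
  have ht : 0 < 1 + ‖ξ‖ := by positivity
  have h1 := h _ ht ((1 + ‖ξ‖)⁻¹ • ξ)
  rw [smul_smul, mul_inv_cancel₀ ht.ne', one_smul] at h1
  have h2 := hC ((1 + ‖ξ‖)⁻¹ • ξ) (by
    rw [mem_closedBall_zero_iff, norm_smul, norm_inv, Real.norm_of_nonneg ht.le,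
      inv_mul_le_iff₀ ht]
    linarith)
  rw [h1, abs_mul, abs_of_pos (pow_pos ht l), mul_comm]
  exact mul_le_mul_of_nonneg_right h2 (pow_pos ht l).le

theorem Hm.deriv {l : ℕ} {p : E4 → ℝ} (h : Hm (l + 1) p) (hd : Differentiable ℝ p) (e : E4) :
    Hm l (dd e p) := by
  intro t ht ξ
  have h1 : HasFDerivAt (fun x : E4 => p (t • x))
      ((fderiv ℝ p (t • ξ)).comp (t • ContinuousLinearMap.id ℝ E4)) ξ :=
    (hd (t • ξ)).hasFDerivAt.comp ξ ((hasFDerivAt_id ξ).const_smul t)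
  have h2 : HasFDerivAt (fun x : E4 => p (t • x)) (t ^ (l + 1) • fderiv ℝ p ξ) ξ := by
    have : (fun x : E4 => p (t • x)) = fun x => t ^ (l + 1) • p x := funext fun x => h t ht x
    rw [this]
    exact (hd ξ).hasFDerivAt.const_smul (t ^ (l + 1))
  have h3 := congrArg (fun L => L e) (h1.unique h2)
  simp only [ContinuousLinearMap.comp_apply, smul_apply,
    ContinuousLinearMap.id_apply, map_smul, smul_eq_mul] at h3
  unfold dd
  apply mul_left_cancel₀ ht.ne'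
  rw [h3]
  ring

theorem sum_ee (ξ : E4) : ∑ i, ξ i • ee i = ξ := by
  ext j
  simp [ee, Finset.sum_apply, Pi.single_apply]

theorem Hm.euler {l : ℕ} {p : E4 → ℝ} (h : Hm l p) (hd : Differentiable ℝ p) (ξ : E4) :
    ∑ i, ξ i * dd (ee i) p ξ = l * p ξ := by
  have h0 : HasDerivAt (fun t : ℝ => t • ξ) ξ 1 := by
    simpa using (hasDerivAt_id (1 : ℝ)).smul_const ξ
  have h1 : HasDerivAt (fun t : ℝ => p (t • ξ)) (fderiv ℝ p ((1 : ℝ) • ξ) ξ) 1 :=
    (hd ((1 : ℝ) • ξ)).hasFDerivAt.comp_hasDerivAt (1 : ℝ) h0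
  have h2 : HasDerivAt (fun t : ℝ => p (t • ξ)) (l * p ξ) 1 := by
    have h3 : HasDerivAt (fun t : ℝ => t ^ l * p ξ) (l * p ξ) 1 := by
      simpa using (hasDerivAt_pow l (1 : ℝ)).mul_const (p ξ)
    refine h3.congr_of_eventuallyEq ?_
    filter_upwards [Ioi_mem_nhds (zero_lt_one' ℝ)] with t ht using h t ht ξ
  rw [← h1.unique h2, one_smul]
  have : fderiv ℝ p ξ ξ = fderiv ℝ p ξ (∑ i, ξ i • ee i) := by rw [sum_ee]
  rw [this, map_sum]
  simp only [dd, map_smul, smul_eq_mul]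

theorem dd_smooth {p : E4 → ℝ} (hp : ContDiff ℝ ∞ p) (e : E4) : ContDiff ℝ ∞ (dd e p) :=
  (hp.fderiv_right (m := ∞) (by simp)).clm_apply contDiff_const

theorem den_pos {a μ : ℝ} (ha : 0 < a) (hμ : 0 < μ) (ξ : E4) : 0 < μ + a * ‖ξ‖ ^ 2 := by
  positivity

theorem integ {a μ : ℝ} (ha : 0 < a) (hμ : 0 < μ) {l N : ℕ} {p : E4 → ℝ} (h : Hm l p)
    (hc : Continuous p) (hl : l + 4 < 2 * N) :
    Integrable fun ξ => p ξ / (μ + a * ‖ξ‖ ^ 2) ^ N := by
  obtain ⟨C, hC⟩ := h.bound hc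
  obtain ⟨k, hk⟩ : ∃ k, 2 * N = l + k := ⟨2 * N - l, by omega⟩
  set m := min μ a / 2 with hm
  have hm0 : 0 < m := by positivity
  have h1 : Integrable (fun ξ : E4 => (1 + ‖ξ‖) ^ (-(k : ℝ))) :=
    integrable_one_add_norm (by
      rw [finrank_euclideanSpace_fin]
      exact_mod_cast (by omega : 4 < k))
  refine (h1.const_mul (C / m ^ N)).mono'
    (hc.div (by fun_prop) fun ξ => (pow_pos (den_pos ha hμ ξ) N).ne').aestronglyMeasurable
    (Eventually.of_forall fun ξ => ?_)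
  have ht : 0 < 1 + ‖ξ‖ := by positivity
  have h2 : m * (1 + ‖ξ‖) ^ 2 ≤ μ + a * ‖ξ‖ ^ 2 := by
    have a1 : 2 * m ≤ μ := by rw [hm]; linarith [min_le_left μ a]
    have a2 : 2 * m ≤ a := by rw [hm]; linarith [min_le_right μ a]
    nlinarith [sq_nonneg (1 - ‖ξ‖), sq_nonneg ‖ξ‖, mul_nonneg hm0.le (sq_nonneg (1 - ‖ξ‖))]
  have h3 : (m * (1 + ‖ξ‖) ^ 2) ^ N ≤ (μ + a * ‖ξ‖ ^ 2) ^ N :=
    pow_le_pow_left₀ (by positivity) h2 N
  have hC0 : 0 ≤ C * (1 + ‖ξ‖) ^ l := (abs_nonneg _).trans (hC ξ)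
  rw [Real.norm_eq_abs, abs_div, abs_of_pos (pow_pos (den_pos ha hμ ξ) N), Real.rpow_neg ht.le,
    Real.rpow_natCast]
  refine (div_le_div₀ hC0 (hC ξ) (by positivity) h3).trans (le_of_eq ?_)
  rw [mul_pow, ← pow_mul, hk, pow_add]
  field_simp

theorem radial {a μ : ℝ} (ha : 0 < a) (hμ : 0 < μ) (N : ℕ) :
    ∫ y in Set.Ioi (0 : ℝ), y ^ 3 * (1 / (μ + a * y ^ 2) ^ (N + 3)) =
      1 / (2 * a ^ 2 * μ ^ (N + 1) * (((N : ℝ) + 1) * ((N : ℝ) + 2))) := by
  have hu : ∀ y : ℝ, 0 < μ + a * y ^ 2 := fun y => by positivity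
  have hd : ∀ y : ℝ, HasDerivAt (fun y : ℝ => (μ + a * y ^ 2)⁻¹)
      (-(a * (2 * y)) / (μ + a * y ^ 2) ^ 2) y := fun y => by
    have : HasDerivAt (fun y : ℝ => μ + a * y ^ 2) (a * (2 * y)) y := by
      simpa using ((hasDerivAt_pow 2 y).const_mul a).const_add μ
    exact this.inv (hu y).ne'
  have ht : Tendsto (fun y : ℝ => (μ + a * y ^ 2)⁻¹) atTop (𝓝 0) :=
    tendsto_inv_atTop_zero.comp (tendsto_atTop_add_const_left _ _
      ((tendsto_pow_atTop two_ne_zero).const_mul_atTop ha))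
  have key := integral_Ioi_of_hasDerivAt_of_nonneg' (a := 0)
    (g := fun y : ℝ => 1 / (2 * a ^ 2) * (μ / (N + 2) * ((μ + a * y ^ 2)⁻¹) ^ (N + 2) -
      1 / (N + 1) * ((μ + a * y ^ 2)⁻¹) ^ (N + 1)))
    (g' := fun y => y ^ 3 * (1 / (μ + a * y ^ 2) ^ (N + 3)))
    (l := 1 / (2 * a ^ 2) * (μ / (N + 2) * 0 ^ (N + 2) - 1 / (N + 1) * 0 ^ (N + 1)))
    (fun y _ => by
      have h1 := ((((hd y).pow (N + 2)).const_mul (μ / (N + 2))).sub
        (((hd y).pow (N + 1)).const_mul (1 / ((N : ℝ) + 1)))).const_mul (1 / (2 * a ^ 2))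
      refine h1.congr_deriv ?_
      have := (hu y).ne'
      simp only [Nat.add_succ_sub_one, inv_pow, Nat.cast_add, Nat.cast_ofNat, Nat.cast_one,
        Nat.add_sub_cancel]
      field_simp
      ring)
    (fun y hy => by have := hu y; have : 0 < y := hy; positivity)
    ((((ht.pow _).const_mul _).sub ((ht.pow _).const_mul _)).const_mul _)
  rw [key]
  simp only [ne_eq, Nat.add_eq_zero_iff, OfNat.ofNat_ne_zero, and_false, not_false_eq_true,
    zero_pow, mul_zero, one_ne_zero, sub_zero, add_zero, inv_pow]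
  field_simp
  ring

theorem fderiv_den {a μ : ℝ} (ha : 0 < a) (hμ : 0 < μ) (N : ℕ) (ξ : E4) :
    HasFDerivAt (fun ξ : E4 => ((μ + a * ‖ξ‖ ^ 2) ^ (N + 1))⁻¹)
      ((-(2 * a * (N + 1)) / (μ + a * ‖ξ‖ ^ 2) ^ (N + 2)) • innerSL ℝ ξ) ξ := by
  have h0 := (den_pos ha hμ ξ).ne'
  have h1 : HasFDerivAt (fun ξ : E4 => μ + a * ‖ξ‖ ^ 2) (a • (2 • innerSL ℝ ξ)) ξ :=
    ((hasStrictFDerivAt_norm_sq ξ).hasFDerivAt.const_mul a).const_add μ
  have h2 : HasDerivAt (fun u : ℝ => (u ^ (N + 1))⁻¹)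
      (-((N + 1 : ℕ) * (μ + a * ‖ξ‖ ^ 2) ^ N) / ((μ + a * ‖ξ‖ ^ 2) ^ (N + 1)) ^ 2)
      (μ + a * ‖ξ‖ ^ 2) :=
    (hasDerivAt_pow (N + 1) _).inv (pow_ne_zero _ h0)
  refine (h2.comp_hasFDerivAt ξ h1).congr_fderiv ?_
  ext v
  simp only [smul_apply, smul_eq_mul, nsmul_eq_mul, Nat.cast_ofNat,
    Nat.cast_add, Nat.cast_one]
  field_simp
  ring

end Wick

open Wick

theorem wickBase_holds : WickBase := by
  intro a μ N ha hμ
  refine ⟨integ ha hμ (l := 0) (p := fun _ => 1) (fun t _ ξ => by simp) continuous_const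
    (by omega), ?_⟩
  have h1 := integral_fun_norm_addHaar (volume : Measure E4)
    (fun y : ℝ => 1 / (μ + a * y ^ 2) ^ (N + 3))
  have h2 : (volume : Measure E4).real (Metric.ball 0 1) = Real.pi ^ 2 / 2 := by
    rw [Measure.real, InnerProductSpace.volume_ball_of_dim_even (k := 2) (by simp)]
    simp only [ENNReal.ofReal_one, one_pow, one_mul]
    rw [ENNReal.toReal_ofReal (by positivity)]
    norm_num [Nat.factorial]
  rw [h1, h2, finrank_euclideanSpace_fin]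
  simp only [smul_eq_mul, nsmul_eq_mul, Nat.add_one_sub_one]
  rw [radial ha hμ N]
  field_simp
  norm_num

theorem wickStep_holds : WickStep := by
  intro a μ l N p ha hμ hp hh
  refine ⟨integ ha hμ hh hp.continuous, fun h2 h3 => ?_⟩
  obtain ⟨l, rfl⟩ : ∃ k, l = k + 2 := ⟨l - 2, by omega⟩
  obtain ⟨N, rfl⟩ : ∃ k, N = k + 1 := ⟨N - 1, by omega⟩
  have hh' : Hm (l + 2) p := hh
  have dp := hp.differentiable (by simp)
  have s1 := fun i => dd_smooth hp (ee i)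
  have m1 : ∀ i, Hm (l + 1) (dd (ee i) p) := fun i => hh'.deriv dp _
  have m2 : ∀ i, Hm l (dd (ee i) (dd (ee i) p)) := fun i =>
    (m1 i).deriv ((s1 i).differentiable (by simp)) _
  have m3 : ∀ i, Hm (l + 2) (fun ξ => ξ i * dd (ee i) p ξ) := fun i t ht ξ => by
    simp only [m1 i t ht ξ, PiLp.smul_apply, smul_eq_mul]
    ring
  have i2 := fun i => integ ha hμ (m2 i) (dd_smooth (s1 i) _).continuous
    (by omega : l + 4 < 2 * (N + 1))
  have i3 := fun i => integ ha hμ (m3 i)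
    ((EuclideanSpace.proj i : E4 →L[ℝ] ℝ).continuous.mul (s1 i).continuous)
    (by omega : l + 2 + 4 < 2 * (N + 2))
  have fd : ∀ i (ξ : E4), fderiv ℝ (fun ξ : E4 => ((μ + a * ‖ξ‖ ^ 2) ^ (N + 1))⁻¹) ξ (ee i) *
      dd (ee i) p ξ = -(2 * a * (N + 1)) * (ξ i * dd (ee i) p ξ / (μ + a * ‖ξ‖ ^ 2) ^ (N + 2)) :=
    fun i ξ => by
      rw [(fderiv_den ha hμ N ξ).fderiv]
      simp only [smul_apply, innerSL_apply_apply, ee,
        EuclideanSpace.inner_single_right, smul_eq_mul, one_mul, conj_trivial]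
      ring
  have key : ∀ i, ∫ ξ, dd (ee i) (dd (ee i) p) ξ / (μ + a * ‖ξ‖ ^ 2) ^ (N + 1) =
      2 * a * (N + 1) * ∫ ξ, ξ i * dd (ee i) p ξ / (μ + a * ‖ξ‖ ^ 2) ^ (N + 2) := fun i => by
    have h := integral_mul_fderiv_eq_neg_fderiv_mul_of_integrable (μ := (volume : Measure E4))
      (f := fun ξ : E4 => ((μ + a * ‖ξ‖ ^ 2) ^ (N + 1))⁻¹) (g := dd (ee i) p) (v := ee i)
      (by simp only [fd]; exact (i3 i).const_mul _)
      (by simpa only [div_eq_inv_mul, dd] using i2 i)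
      (by
        simpa only [div_eq_inv_mul] using
          integ ha hμ (m1 i) (s1 i).continuous (by omega : l + 1 + 4 < 2 * (N + 1)))
      (fun x _ => (fderiv_den ha hμ N x).differentiableAt)
      (fun x _ => (s1 i).differentiable (by simp) x)
    simp only [fd, integral_const_mul] at h
    simp only [div_eq_inv_mul] at h ⊢
    rw [neg_mul, neg_neg] at h
    exact h
  have e1 : ∫ ξ, lap p ξ / (μ + a * ‖ξ‖ ^ 2) ^ (N + 1) =
      2 * a * (N + 1) * ((l + 2 : ℕ) * ∫ ξ, p ξ / (μ + a * ‖ξ‖ ^ 2) ^ (N + 2)) := by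
    simp only [lap, Finset.sum_div]
    rw [integral_finsetSum _ fun i _ => i2 i]
    simp only [key]
    rw [← Finset.mul_sum, ← integral_finsetSum _ fun i _ => i3 i]
    simp only [← Finset.sum_div, hh'.euler dp]
    simp only [mul_div_assoc, integral_const_mul]
  rw [e1]
  push_cast
  field_simp

end Pool.Agent.Lib.MP_465ce1_mp.Cx
end

-- part Pool.Agent.Lib.MP_465ce1_mp.Cx.SymB
section

/-!
Formal symbol calculus: the algebra of smooth functions and the value of formal sums.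
-/

open scoped ContDiff

namespace Pool.Agent.Lib.MP_465ce1_mp.Cx.Sy

/-- Smooth functions. -/
def Sm : Subalgebra ℝ (E4 → ℝ) where
  carrier := {f | ContDiff ℝ ∞ f}
  mul_mem' := fun {f g} (hf : ContDiff ℝ ∞ f) (hg : ContDiff ℝ ∞ g) =>
    show ContDiff ℝ ∞ fun x => f x * g x from hf.mul hg
  add_mem' := fun {f g} (hf : ContDiff ℝ ∞ f) (hg : ContDiff ℝ ∞ g) =>
    show ContDiff ℝ ∞ fun x => f x + g x from hf.add hg
  algebraMap_mem' := fun r => show ContDiff ℝ ∞ fun _ : E4 => r from contDiff_const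

theorem Sm.sm (f : Sm) : ContDiff ℝ ∞ f.1 := f.2

theorem Sm.df (f : Sm) (x : E4) : DifferentiableAt ℝ f.1 x := (Sm.sm f).differentiable (by simp) x

/-- The directional derivative on smooth functions. -/
noncomputable def dl (d : E4) : Sm →ₗ[ℝ] Sm where
  toFun f := ⟨dd d f.1, Wick.dd_smooth f.2 d⟩
  map_add' f g := Subtype.ext <| funext fun x => by
    change fderiv ℝ (f.1 + g.1) x d = fderiv ℝ f.1 x d + fderiv ℝ g.1 x d
    rw [fderiv_add (Sm.df f x) (Sm.df g x)]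
    rfl
  map_smul' c f := Subtype.ext <| funext fun x => by
    change fderiv ℝ (c • f.1) x d = c * fderiv ℝ f.1 x d
    rw [fderiv_const_smul (Sm.df f x)]
    rfl

theorem dl_coe (d : E4) (f : Sm) : (dl d f).1 = dd d f.1 := rfl

theorem dl_mul (d : E4) (f g : Sm) : dl d (f * g) = f * dl d g + dl d f * g :=
  Subtype.ext <| funext fun x => by
    change fderiv ℝ (f.1 * g.1) x d = f.1 x * fderiv ℝ g.1 x d + fderiv ℝ f.1 x d * g.1 x
    rw [fderiv_mul (Sm.df f x) (Sm.df g x)]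
    simp only [add_apply, smul_apply, smul_eq_mul]
    ring

theorem dl_one (d : E4) : dl d 1 = 0 := by
  have h := dl_mul d 1 1
  simp only [mul_one, one_mul] at h
  exact left_eq_add.mp h

theorem dl_comm (d e : E4) (f : Sm) : dl d (dl e f) = dl e (dl d f) :=
  Subtype.ext <| funext fun x => by
    have h1 : DifferentiableAt ℝ (fderiv ℝ f.1) x :=
      ((Sm.sm f).fderiv_right (m := ∞) (by simp)).differentiable (by simp) x
    have h2 : ∀ u v : E4, fderiv ℝ (fun y => fderiv ℝ f.1 y u) x v =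
        fderiv ℝ (fderiv ℝ f.1) x v u := fun u v => by
      rw [fderiv_clm_apply h1 (differentiableAt_const u)]
      simp
    change fderiv ℝ (fun y => fderiv ℝ f.1 y e) x d = fderiv ℝ (fun y => fderiv ℝ f.1 y d) x e
    rw [h2, h2]
    exact ((Sm.sm f).contDiffAt.isSymmSndFDerivAt (by
      simp only [minSmoothness_of_isRCLikeNormedField]
      exact WithTop.coe_le_coe.2 le_top)).eq d e

theorem dl_smul (t : ℝ) (d : E4) (f : Sm) : dl (t • d) f = t • dl d f :=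
  Subtype.ext <| funext fun x => (fderiv ℝ f.1 x).map_smul t d

theorem dl_sum (d : E4) (f : Sm) : dl d f = ∑ b, d b • dl (ee b) f :=
  Subtype.ext <| funext fun x => by
    have : fderiv ℝ f.1 x d = fderiv ℝ f.1 x (∑ i, d i • ee i) := by rw [Wick.sum_ee]
    change fderiv ℝ f.1 x d = _
    rw [this, map_sum]
    simp only [map_smul, smul_eq_mul, AddSubmonoidClass.coe_finsetSum, Finset.sum_apply,
      SetLike.val_smul, Pi.smul_apply, dl_coe, dd]

/-- The data: a positive smooth function and a positive number. -/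
structure Dt where
  w : Sm
  μ : ℝ
  hw : ∀ x, 0 < w.1 x
  hμ : 0 < μ

variable (c : Dt)

/-- Powers of the function. -/
noncomputable def Dt.Wp (p : ℤ) : Sm := ⟨fun x => c.w.1 x ^ p, by
  change ContDiff ℝ ∞ _
  cases p with
  | ofNat n => simpa using (Sm.sm c.w).pow n
  | negSucc n =>
    simp only [zpow_negSucc]
    exact ((Sm.sm c.w).pow (n + 1)).inv fun x => pow_ne_zero _ (c.hw x).ne'⟩

theorem Dt.DD_pos (ξ x : E4) : 0 < DD c.w.1 c.μ ξ x := by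
  have := c.hμ
  unfold DD
  positivity

/-- The inverse of the principal symbol. -/
noncomputable def Dt.En (ξ : E4) : Sm := ⟨fun x => (DD c.w.1 c.μ ξ x)⁻¹,
  ContDiff.inv (contDiff_const.add (((Sm.sm c.w).pow 6).mul contDiff_const))
    fun x => (c.DD_pos ξ x).ne'⟩

/-- The spectral parameter as a function. -/
noncomputable def Dt.mu : Sm := algebraMap ℝ Sm c.μ

theorem Dt.Wp_add (p q : ℤ) : c.Wp (p + q) = c.Wp p * c.Wp q :=
  Subtype.ext <| funext fun x => zpow_add₀ (c.hw x).ne' p q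

theorem Dt.Wp_zero : c.Wp 0 = 1 := Subtype.ext <| funext fun _ => zpow_zero _

theorem Dt.dl_Wp (d : E4) (p : ℤ) : dl d (c.Wp p) = p * (c.Wp p * c.Wp (-1) * dl d c.w) := by
  rw [← c.Wp_add]
  refine Subtype.ext <| funext fun x => ?_
  have h := ((hasDerivAt_zpow p (c.w.1 x) (Or.inl (c.hw x).ne')).comp_hasFDerivAt x
    (Sm.df c.w x).hasFDerivAt).fderiv
  change fderiv ℝ ((fun y : ℝ => y ^ p) ∘ c.w.1) x d =
    (p : ℝ) * (c.w.1 x ^ (p + -1) * fderiv ℝ c.w.1 x d)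
  rw [h, smul_apply, smul_eq_mul, sub_eq_add_neg, mul_assoc]

theorem Dt.dl_En (d ξ : E4) : dl d (c.En ξ) =
    c.Wp (-1) * dl d c.w * (6 * c.mu * c.En ξ - 6) * c.En ξ := by
  refine Subtype.ext <| funext fun x => ?_
  have h0 := (c.DD_pos ξ x).ne'
  have h1 : HasDerivAt (fun y : ℝ => (c.μ + y ^ 6 * ‖ξ‖ ^ 2)⁻¹)
      (-(((6 : ℕ) * c.w.1 x ^ 5) * ‖ξ‖ ^ 2) / (c.μ + c.w.1 x ^ 6 * ‖ξ‖ ^ 2) ^ 2) (c.w.1 x) :=
    (((hasDerivAt_pow 6 (c.w.1 x)).mul_const (‖ξ‖ ^ 2)).const_add c.μ).inv h0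
  have h := (h1.comp_hasFDerivAt x (Sm.df c.w x).hasFDerivAt).fderiv
  change fderiv ℝ ((fun y : ℝ => (c.μ + y ^ 6 * ‖ξ‖ ^ 2)⁻¹) ∘ c.w.1) x d =
    c.w.1 x ^ (-1 : ℤ) * fderiv ℝ c.w.1 x d * (6 * c.μ * (c.μ + c.w.1 x ^ 6 * ‖ξ‖ ^ 2)⁻¹ - 6) *
      (c.μ + c.w.1 x ^ 6 * ‖ξ‖ ^ 2)⁻¹
  have h2 := (c.hw x).ne'
  unfold DD at h0
  rw [h, smul_apply, smul_eq_mul, zpow_neg_one]
  field_simp
  push_cast
  ring

theorem Dt.dl_Ep (d ξ : E4) (N : ℕ) : dl d (c.En ξ ^ N) =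
    N * (c.Wp (-1) * dl d c.w * (6 * c.mu * c.En ξ - 6) * c.En ξ ^ N) := by
  induction N with
  | zero => simp only [pow_zero, dl_one, Nat.cast_zero, zero_mul]
  | succ N ih =>
    rw [pow_succ, dl_mul, ih, c.dl_En]
    push_cast
    ring

theorem Dt.dl_mu (d : E4) (l : ℕ) (f : Sm) : dl d (c.mu ^ l * f) = c.mu ^ l * dl d f := by
  rw [Dt.mu, ← map_pow, ← Algebra.smul_def, ← Algebra.smul_def, map_smul]

/-- The value of a jet. -/
noncomputable def Dt.J (D : ℕ → E4) : List ℕ → Sm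
  | [] => c.w
  | a :: r => dl (D a) (Dt.J D r)

/-- The value of a monomial. -/
noncomputable def Dt.M (D : ℕ → E4) : List (List ℕ) → Sm
  | [] => 1
  | j :: m => c.J D j * Dt.M D m

theorem Dt.J_ins (D : ℕ → E4) (a : ℕ) (r : List ℕ) : c.J D (insJ a r) = dl (D a) (c.J D r) := by
  induction r with
  | nil => rfl
  | cons b r ih =>
    simp only [insJ]
    split_ifs
    · rfl
    · simp only [Dt.J, ih, dl_comm (D a)]

theorem Dt.M_ins (D : ℕ → E4) (j : List ℕ) (m : List (List ℕ)) :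
    c.M D (insM j m) = c.J D j * c.M D m := by
  induction m with
  | nil => rfl
  | cons b r ih =>
    simp only [insM]
    split_ifs
    · rfl
    · simp only [Dt.M, ih, mul_left_comm]

theorem Dt.dl_M (D : ℕ → E4) (a : ℕ) (m : List (List ℕ)) :
    dl (D a) (c.M D m) = ((dM a m).map (c.M D)).sum := by
  induction m with
  | nil => exact dl_one _
  | cons j m ih =>
    simp only [Dt.M, dM, dl_mul, ih, List.map_cons, List.sum_cons, List.map_map,
      Function.comp_def, c.M_ins, c.J_ins, List.sum_map_mul_left, add_comm]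

theorem Dt.J_rl (D : ℕ → E4) (σ : ℕ → ℕ) (r : List ℕ) :
    c.J D (rlJ σ r) = c.J (fun a => D (σ a)) r := by
  induction r with
  | nil => rfl
  | cons b r ih => simp only [rlJ, c.J_ins, ih, Dt.J]

theorem Dt.M_rl (D : ℕ → E4) (σ : ℕ → ℕ) (m : List (List ℕ)) :
    c.M D (rlM σ m) = c.M (fun a => D (σ a)) m := by
  induction m with
  | nil => rfl
  | cons b r ih => simp only [rlM, c.M_ins, ih, Dt.M, c.J_rl]

/-- The value of a term without its coefficient. -/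
noncomputable def Dt.ps (ξ : E4) (D : ℕ → E4) (p : ℤ) (N l : ℕ) (m : List (List ℕ)) : Sm :=
  c.mu ^ l * (c.Wp p * c.En ξ ^ N * c.M D m)

/-- The value of a sum. -/
noncomputable def Dt.ev (ξ : E4) (D : ℕ → E4) (P : Po) : Sm := sm (c.ps ξ D) P

theorem Dt.ev_dT (ξ : E4) (D : ℕ → E4) (a : ℕ) (t : Tm) :
    sm (c.ps ξ D) (dT a t) = t.c • dl (D a) (c.ps ξ D t.p t.N t.l t.m) := by
  have h : ((dM a t.m).map (c.ps ξ D t.p t.N t.l)).sum =
      c.mu ^ t.l * (c.Wp t.p * c.En ξ ^ t.N * dl (D a) (c.M D t.m)) := by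
    rw [c.dl_M, ← List.sum_map_mul_left, ← List.sum_map_mul_left]
    rfl
  simp only [dT, sm_cons, sm_map_m, h]
  simp only [Dt.ps, c.dl_mu, dl_mul, c.dl_Wp, c.dl_Ep, c.M_ins, Dt.J, sub_eq_add_neg t.p 1,
    c.Wp_add, zsmul_eq_mul]
  push_cast
  ring

theorem Dt.ev_dP (ξ : E4) (D : ℕ → E4) (a : ℕ) (P : Po) :
    c.ev ξ D (dP a P) = dl (D a) (c.ev ξ D P) := by
  have h := map_sm (c.ps ξ D) (dl (D a)).toAddMonoidHom P
  simp only [LinearMap.toAddMonoidHom_coe] at h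
  rw [Dt.ev, Dt.ev, h, dP, sm_nrm, sm_flatMap]
  simp only [c.ev_dT]
  rfl

theorem Dt.ev_rl (ξ : E4) (D : ℕ → E4) (σ : ℕ → ℕ) (P : Po) :
    c.ev ξ D (rl σ P) = c.ev ξ (fun a => D (σ a)) P := by
  rw [Dt.ev, rl, sm_nrm]
  simp only [sm, List.map_map, Function.comp_def, Dt.ps, c.M_rl, Dt.ev]

theorem Dt.ev_sc (ξ : E4) (D : ℕ → E4) (k p : ℤ) (N : ℕ) (P : Po) :
    c.ev ξ D (sc k p N P) = k * c.Wp p * c.En ξ ^ N * c.ev ξ D P := by
  simp only [Dt.ev, sc, sm, List.map_map, Function.comp_def, ← List.sum_map_mul_left]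
  refine congrArg List.sum (List.map_congr_left fun t _ => ?_)
  simp only [Dt.ps, c.Wp_add, zsmul_eq_mul]
  push_cast
  ring

theorem Dt.ev_add (ξ : E4) (D : ℕ → E4) (P Q : Po) :
    c.ev ξ D (add P Q) = c.ev ξ D P + c.ev ξ D Q := sm_add _ P Q

theorem Dt.ev_nrm (ξ : E4) (D : ℕ → E4) (P : Po) : c.ev ξ D (nrm P) = c.ev ξ D P := sm_nrm _ P

theorem Dt.ev_key (ξ : E4) (D : ℕ → E4) (P : Po) : c.ev ξ D (P.map key) = c.ev ξ D P :=
  sm_key _ P

/-- The directions: the frequency, then the summation indices. -/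
def Dv (ξ : E4) (d : ℕ → E4) : ℕ → E4
  | 0 => ξ
  | a + 1 => d a

theorem Dv_shf (ξ e : E4) (d : ℕ → E4) :
    (fun a => Dv ξ (fun a => Nat.casesOn a e d) (shf a)) = Dv ξ d := by
  funext a
  cases a <;> rfl

/-- The value of a sum with `j` summation indices. -/
noncomputable def Dt.A (ξ : E4) (j : ℕ) (P : Po) : Sm :=
  SS ee j (fun d => c.ev ξ (Dv ξ d) P) fun _ => 0

/-- The value of a graded list. -/
noncomputable def Dt.B (ξ : E4) : ℕ → List Po → Sm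
  | _, [] => 0
  | j, P :: L => c.A ξ j P + Dt.B ξ (j + 1) L

theorem Dt.A_add (ξ : E4) (j : ℕ) (P Q : Po) : c.A ξ j (add P Q) = c.A ξ j P + c.A ξ j Q := by
  simp only [Dt.A, c.ev_add, SS_add]

theorem Dt.A_nil (ξ : E4) (j : ℕ) : c.A ξ j [] = 0 := SS_zero ee j _

theorem Dt.A_sc (ξ : E4) (j : ℕ) (k p : ℤ) (N : ℕ) (P : Po) :
    c.A ξ j (sc k p N P) = k * c.Wp p * c.En ξ ^ N * c.A ξ j P := by
  simp only [Dt.A, c.ev_sc]
  exact (map_SS ee (AddMonoidHom.mulLeft (k * c.Wp p * c.En ξ ^ N)) j _ _).symm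

theorem Dt.A_d0 (ξ : E4) (j : ℕ) (P : Po) : c.A ξ j (dP 0 P) = dl ξ (c.A ξ j P) := by
  simp only [Dt.A, c.ev_dP]
  exact (map_SS ee (dl ξ).toAddMonoidHom j _ _).symm

/-- The Laplacian on smooth functions. -/
noncomputable def lp : Sm →ₗ[ℝ] Sm := ∑ b, dl (ee b) ∘ₗ dl (ee b)

theorem lp_apply (f : Sm) : lp f = ∑ b, dl (ee b) (dl (ee b) f) := by
  simp only [lp, LinearMap.sum_apply, LinearMap.comp_apply]

theorem lp_coe (f : Sm) : (lp f).1 = lap f.1 := by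
  funext x
  simp only [lp_apply, AddSubmonoidClass.coe_finsetSum, Finset.sum_apply, dl_coe, lap]

theorem Dt.A_lap (ξ : E4) (j : ℕ) (P : Po) :
    c.A ξ (j + 1) (dP 1 (dP 1 (rl shf P))) = lp (c.A ξ j P) := by
  simp only [Dt.A, c.ev_dP, c.ev_rl, SS, Dv_shf]
  refine Eq.trans ?_ (map_SS ee lp.toAddMonoidHom j _ _).symm
  simp only [LinearMap.toAddMonoidHom_coe, lp_apply]
  rfl

theorem Dt.B_add (ξ : E4) : ∀ (j : ℕ) (a b : List Po),
    c.B ξ j (addL a b) = c.B ξ j a + c.B ξ j b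
  | _, [], _ => by simp only [addL, Dt.B, zero_add]
  | _, _ :: _, [] => by simp only [addL, Dt.B, add_zero]
  | j, a :: r, b :: s => by
    simp only [addL, Dt.B, c.A_add, Dt.B_add ξ (j + 1) r s]
    abel

theorem Dt.B_map (ξ : E4) (f : Po → Po) (φ : Sm →+ Sm) (i : ℕ)
    (h : ∀ j P, c.A ξ (j + i) (f P) = φ (c.A ξ j P)) (j : ℕ) (L : List Po) :
    c.B ξ (j + i) (L.map f) = φ (c.B ξ j L) := by
  induction L generalizing j with
  | nil => exact (map_zero φ).symm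
  | cons P L ih =>
    simp only [List.map_cons, Dt.B, map_add, h, ← ih, Nat.add_right_comm j i 1]

theorem Dt.B_key (ξ : E4) (j : ℕ) (L : List Po) :
    c.B ξ j (L.map (List.map key)) = c.B ξ j L :=
  c.B_map ξ (List.map key) (AddMonoidHom.id _) 0
    (fun j P => by simp only [Dt.A, c.ev_key, add_zero, AddMonoidHom.id_apply]) j L

/-- One step of the parametrix on smooth functions. -/
noncomputable def Dt.stp (ξ : E4) (g p1 p2 : Sm) : Sm :=
  (g + c.Wp 6 * (2 * dl ξ p1 - lp p2)) * c.En ξ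

theorem Dt.B_step (ξ : E4) (g p1 p2 : List Po) :
    c.B ξ 0 (step g p1 p2) = c.stp ξ (c.B ξ 0 g) (c.B ξ 0 p1) (c.B ξ 0 p2) := by
  have h1 := c.B_map ξ (sc 1 0 1) (AddMonoidHom.mulLeft _) 0 (fun j P => c.A_sc ξ j 1 0 1 P) 0 g
  have h2 := c.B_map ξ (fun P => sc 2 6 1 (dP 0 P))
    ((AddMonoidHom.mulLeft (((2 : ℤ) : Sm) * c.Wp 6 * c.En ξ ^ 1)).comp (dl ξ).toAddMonoidHom) 0
    (fun j P => by rw [c.A_sc, add_zero, c.A_d0]; rfl) 0 p1
  have h3 := c.B_map ξ (fun P => sc (-1) 6 1 (dP 1 (dP 1 (rl shf P))))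
    ((AddMonoidHom.mulLeft (((-1 : ℤ) : Sm) * c.Wp 6 * c.En ξ ^ 1)).comp lp.toAddMonoidHom) 1
    (fun j P => by rw [c.A_sc, c.A_lap]; rfl) 0 p2
  simp only [AddMonoidHom.coe_mulLeft, AddMonoidHom.coe_comp, Function.comp_apply,
    LinearMap.toAddMonoidHom_coe, add_zero] at h1 h2 h3
  simp only [step, c.B_add, Dt.B, c.A_nil, h1, h2, h3, Dt.stp, c.Wp_zero]
  push_cast
  ring

/-- The parametrix on smooth functions, list form. -/
noncomputable def Dt.rw (ξ : E4) : List Sm → Sm → Sm → List Sm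
  | [], _, _ => []
  | g :: gs, p1, p2 => c.stp ξ g p1 p2 :: Dt.rw ξ gs (c.stp ξ g p1 p2) p1

theorem Dt.B_row (ξ : E4) (gs : List (List Po)) (p1 p2 : List Po) :
    (row gs p1 p2).map (c.B ξ 0) = c.rw ξ (gs.map (c.B ξ 0)) (c.B ξ 0 p1) (c.B ξ 0 p2) := by
  induction gs generalizing p1 p2 with
  | nil => rfl
  | cons g gs ih => simp only [row, fL_eq, List.map_cons, Dt.rw, ih, c.B_key, c.B_step]

/-- The parametrix on smooth functions. -/
noncomputable def Dt.pr (ξ : E4) (g : ℕ → Sm) : ℕ → Sm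
  | 0 => c.stp ξ (g 0) 0 0
  | 1 => c.stp ξ (g 1) (Dt.pr ξ g 0) 0
  | k + 2 => c.stp ξ (g (k + 2)) (Dt.pr ξ g (k + 1)) (Dt.pr ξ g k)

theorem Dt.stp_coe (ξ : E4) (g p1 p2 : Sm) (x : E4) : (c.stp ξ g p1 p2).1 x =
    (g.1 x + c.w.1 x ^ 6 * (2 * dd ξ p1.1 x - lap p2.1 x)) / DD c.w.1 c.μ ξ x := by
  rw [← lp_coe, div_eq_mul_inv, ← zpow_natCast]
  rfl

theorem Dt.pr_coe (ξ : E4) (g : ℕ → Sm) :
    ∀ k, (c.pr ξ g k).1 = par c.w.1 c.μ ξ (fun k => (g k).1) k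
  | 0 => funext fun x => by
    rw [Dt.pr, c.stp_coe, ← lp_coe, ← dl_coe, map_zero, map_zero, par]
    simp
  | 1 => funext fun x => by
    rw [Dt.pr, c.stp_coe, ← lp_coe, map_zero, par, Dt.pr_coe ξ g 0]
    simp
  | k + 2 => funext fun x => by
    rw [Dt.pr, c.stp_coe, par, Dt.pr_coe ξ g (k + 1), Dt.pr_coe ξ g k]

/-- The symbols on smooth functions. -/
noncomputable def Dt.sy (ξ : E4) : ℕ → ℕ → Sm
  | 0 => fun k => if k = 0 then c.Wp 3 else 0
  | m + 1 => c.pr ξ (Dt.sy ξ m)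

theorem Dt.sy_coe (ξ : E4) (m : ℕ) : (fun k => (c.sy ξ m k).1) = sym c.w.1 c.μ ξ m := by
  induction m with
  | zero =>
    funext k x
    simp only [Dt.sy, sym]
    split_ifs
    · exact zpow_natCast _ 3
    · rfl
  | succ m ih =>
    funext k
    rw [Dt.sy, c.pr_coe, ih, sym]

theorem Dt.rw_pr (ξ : E4) (g : ℕ → Sm) : c.rw ξ [g 0, g 1, g 2, g 3, g 4, g 5, g 6] 0 0 =
    [c.pr ξ g 0, c.pr ξ g 1, c.pr ξ g 2, c.pr ξ g 3, c.pr ξ g 4, c.pr ξ g 5, c.pr ξ g 6] := rfl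

theorem Dt.B_tab (ξ : E4) : tab.map (c.B ξ 0) = [c.sy ξ 4 0, c.sy ξ 4 1, c.sy ξ 4 2, c.sy ξ 4 3,
    c.sy ξ 4 4, c.sy ξ 4 5, c.sy ξ 4 6] := by
  have h0 : ([[[⟨0, 1, 3, 0, 0, []⟩]], [], [], [], [], [], []] : List (List Po)).map (c.B ξ 0) =
      [c.sy ξ 0 0, c.sy ξ 0 1, c.sy ξ 0 2, c.sy ξ 0 3, c.sy ξ 0 4, c.sy ξ 0 5, c.sy ξ 0 6] := by
    simp [Dt.B, Dt.A, SS, Dt.ev, sm, Dt.ps, Dt.M, Dt.sy]
  have h1 : c.B ξ 0 [] = 0 := rfl
  rw [tab, c.B_row, c.B_row, c.B_row, c.B_row, h0, h1, c.rw_pr, c.rw_pr, c.rw_pr, c.rw_pr]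
  rfl

end Pool.Agent.Lib.MP_465ce1_mp.Cx.Sy
end

-- part Pool.Agent.Lib.MP_465ce1_mp.Cx.SymD
section

/-!
Formal symbol calculus: integration in the frequency.
-/

open MeasureTheory
open scoped ContDiff

namespace Pool.Agent.Lib.MP_465ce1_mp.Cx.Sy

/-- Coordinates. -/
noncomputable def crd (b : Fin 4) : Sm :=
  ⟨fun ξ => ξ b, show ContDiff ℝ ∞ fun ξ : E4 => ξ b from
    (EuclideanSpace.proj b : E4 →L[ℝ] ℝ).contDiff⟩

theorem dl_crd (e : E4) (b : Fin 4) : dl e (crd b) = algebraMap ℝ Sm (e b) :=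
  Subtype.ext <| funext fun x => by
    change fderiv ℝ (EuclideanSpace.proj b : E4 →L[ℝ] ℝ) x e = e b
    rw [ContinuousLinearMap.fderiv]
    rfl

theorem dl_alg (e : E4) (r : ℝ) : dl e (algebraMap ℝ Sm r) = 0 := by
  rw [Algebra.algebraMap_eq_smul_one, map_smul, dl_one, smul_zero]

/-- Evaluation. -/
noncomputable def evx (x : E4) : Sm →ₗ[ℝ] ℝ where
  toFun f := f.1 x
  map_add' _ _ := rfl
  map_smul' _ _ := rfl

theorem sum_swap {α β : Type} [AddCommMonoid β] (l : List α) (f : Fin 4 → α → β) :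
    ∑ b, (l.map (f b)).sum = (l.map fun q => ∑ b, f b q).sum := by
  induction l with
  | nil => simp only [List.map_nil, List.sum_nil, Finset.sum_const_zero]
  | cons a r ih => simp only [List.map_cons, List.sum_cons, Finset.sum_add_distrib, ih]

variable (c : Dt) {KK : ℕ}

/-- A jet as a function of the frequency. -/
noncomputable def Dt.Jx (d : ℕ → E4) : List ℕ → (Sm →ₗ[ℝ] ℝ) → Sm
  | [], u => algebraMap ℝ Sm (u c.w)
  | 0 :: r, u => ∑ b, crd b * Dt.Jx d r (u ∘ₗ dl (ee b))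
  | (a + 1) :: r, u => Dt.Jx d r (u ∘ₗ dl (d a))

theorem Dt.Jx_apply (d : ℕ → E4) (ξ : E4) : ∀ (r : List ℕ) (u : Sm →ₗ[ℝ] ℝ),
    (c.Jx d r u).1 ξ = u (c.J (Dv ξ d) r)
  | [], _ => rfl
  | 0 :: r, u => by
    rw [Dt.J, Dv, dl_sum ξ, map_sum]
    simp only [Dt.Jx, AddSubmonoidClass.coe_finsetSum, Finset.sum_apply, MulMemClass.coe_mul,
      Pi.mul_apply, Dt.Jx_apply d ξ r, map_smul, smul_eq_mul, LinearMap.comp_apply, crd]
  | (a + 1) :: r, u => by
    rw [Dt.Jx, Dt.Jx_apply d ξ r]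
    rfl

theorem Dt.Jx_ins (d : ℕ → E4) (a : ℕ) (r : List ℕ) (u : Sm →ₗ[ℝ] ℝ) :
    c.Jx d (insJ a r) u = c.Jx d (a :: r) u :=
  Subtype.ext <| funext fun ξ => by rw [c.Jx_apply, c.Jx_apply, c.J_ins, Dt.J]

theorem Dt.dl_Jx (d : ℕ → E4) : ∀ (r : List ℕ) (u : Sm →ₗ[ℝ] ℝ),
    dl (d 0) (c.Jx d r u) = ((polJ r).map fun q => c.Jx d q u).sum
  | [], _ => dl_alg _ _
  | 0 :: r, u => by
    have h : ∑ b, algebraMap ℝ Sm (d 0 b) * c.Jx d r (u ∘ₗ dl (ee b)) = c.Jx d (1 :: r) u := by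
      refine Subtype.ext <| funext fun ξ => ?_
      rw [c.Jx_apply, Dt.J, Dv, dl_sum (d 0), map_sum]
      simp only [AddSubmonoidClass.coe_finsetSum, Finset.sum_apply, MulMemClass.coe_mul,
        Pi.mul_apply, c.Jx_apply, map_smul, smul_eq_mul, LinearMap.comp_apply]
      rfl
    simp only [polJ, List.map_cons, List.sum_cons, List.map_map, Function.comp_def, c.Jx_ins]
    rw [← h]
    simp only [Dt.Jx, map_sum, dl_mul, dl_crd, Finset.sum_add_distrib, Dt.dl_Jx d r,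
      ← List.sum_map_mul_left, sum_swap]
    exact add_comm _ _
  | (a + 1) :: r, u => by
    simp only [polJ, List.map_map, Function.comp_def, c.Jx_ins, Dt.Jx, Dt.dl_Jx d r]

/-- A monomial as a function of the frequency. -/
noncomputable def Dt.Mx (d : ℕ → E4) (x : E4) : List (List ℕ) → Sm
  | [] => 1
  | j :: m => c.Jx d j (evx x) * Dt.Mx d x m

theorem Dt.Mx_apply (d : ℕ → E4) (x ξ : E4) (m : List (List ℕ)) :
    (c.Mx d x m).1 ξ = (c.M (Dv ξ d) m).1 x := by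
  induction m with
  | nil => rfl
  | cons j m ih =>
    simp only [Dt.Mx, Dt.M, MulMemClass.coe_mul, Pi.mul_apply, ih, c.Jx_apply]
    rfl

theorem Dt.Mx_ins (d : ℕ → E4) (x : E4) (j : List ℕ) (m : List (List ℕ)) :
    c.Mx d x (insM j m) = c.Jx d j (evx x) * c.Mx d x m :=
  Subtype.ext <| funext fun ξ => by
    rw [c.Mx_apply, c.M_ins, ← Dt.Mx, c.Mx_apply, Dt.M]

theorem Dt.dl_Mx (d : ℕ → E4) (x : E4) (m : List (List ℕ)) :
    dl (d 0) (c.Mx d x m) = ((polM m).map (c.Mx d x)).sum := by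
  induction m with
  | nil => exact dl_one _
  | cons j m ih =>
    simp only [Dt.Mx, polM, dl_mul, ih, c.dl_Jx, List.map_append, List.sum_append, List.map_map,
      Function.comp_def, c.Mx_ins, List.sum_map_mul_left, List.sum_map_mul_right, add_comm]

theorem Dt.dl_dl_Mx (d : ℕ → E4) (x : E4) (Q : List (List (List ℕ))) :
    dl (d 0) (Q.map (c.Mx d x)).sum = ((Q.flatMap polM).map (c.Mx d x)).sum := by
  induction Q with
  | nil => exact map_zero _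
  | cons q Q ih =>
    simp only [List.map_cons, List.sum_cons, map_add, ih, c.dl_Mx, List.flatMap_cons,
      List.map_append, List.sum_append]

theorem Dt.lp_Mx (d : ℕ → E4) (x : E4) (m : List (List ℕ)) :
    lp (c.Mx d x m) = ∑ b, (((polM (rlM shf m)).flatMap polM).map
      (c.Mx (fun a => Nat.casesOn a (ee b) d) x)).sum := by
  rw [lp_apply]
  refine Finset.sum_congr rfl fun b _ => ?_
  have h : c.Mx d x m = c.Mx (fun a => Nat.casesOn a (ee b) d) x (rlM shf m) :=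
    Subtype.ext <| funext fun ξ => by rw [c.Mx_apply, c.Mx_apply, c.M_rl, Dv_shf]
  rw [h, ← c.dl_dl_Mx, ← c.dl_Mx]
  rfl

theorem Dt.J_hom (d : ℕ → E4) (ξ : E4) (t : ℝ) : ∀ r : List ℕ,
    c.J (Dv (t • ξ) d) r = t ^ dgJ r • c.J (Dv ξ d) r
  | [] => by simp only [dgJ, pow_zero, one_smul, Dt.J]
  | 0 :: r => by
    simp only [dgJ, Dt.J, Dv, dl_smul, Dt.J_hom d ξ t r, map_smul, smul_smul, pow_succ]
  | (a + 1) :: r => by simp only [dgJ, Dt.J, Dv, Dt.J_hom d ξ t r, map_smul]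

theorem Dt.M_hom (d : ℕ → E4) (ξ : E4) (t : ℝ) (m : List (List ℕ)) :
    c.M (Dv (t • ξ) d) m = t ^ dgM m • c.M (Dv ξ d) m := by
  induction m with
  | nil => simp only [dgM, pow_zero, one_smul, Dt.M]
  | cons j m ih => simp only [dgM, Dt.M, ih, c.J_hom, pow_add, smul_mul_smul_comm]

theorem Dt.Mx_hom (d : ℕ → E4) (x : E4) (m : List (List ℕ)) : Wick.Hm (dgM m) (c.Mx d x m).1 :=
  fun t _ ξ => by
    rw [c.Mx_apply, c.Mx_apply, c.M_hom]
    rfl

/-- The value of a term as a function of the frequency. -/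
noncomputable def Dt.px (x : E4) (d : ℕ → E4) (p : ℤ) (N l : ℕ) (m : List (List ℕ)) : E4 → ℝ :=
  fun ξ => c.μ ^ l * c.w.1 x ^ p * ((c.Mx d x m).1 ξ / (c.μ + c.w.1 x ^ 6 * ‖ξ‖ ^ 2) ^ N)

theorem Dt.px_apply (x : E4) (d : ℕ → E4) (p : ℤ) (N l : ℕ) (m : List (List ℕ)) (ξ : E4) :
    c.px x d p N l m ξ = (c.ps ξ (Dv ξ d) p N l m).1 x := by
  rw [Dt.px, c.Mx_apply, div_eq_mul_inv, ← inv_pow, mul_comm ((c.M _ m).1 x), mul_assoc,
    ← mul_assoc (c.w.1 x ^ p)]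
  rfl

/-- The value of a sum with summation indices as a function of the frequency. -/
noncomputable def Dt.Ax (x : E4) (j : ℕ) (P : Po) : E4 → ℝ :=
  SS ee j (fun d => sm (c.px x d) P) fun _ => 0

theorem Dt.Ax_apply (x : E4) (j : ℕ) (P : Po) (ξ : E4) : c.Ax x j P ξ = (c.A ξ j P).1 x := by
  have h1 := map_SS ee (Pi.evalAddMonoidHom (fun _ : E4 => ℝ) ξ) j
    (fun d => sm (c.px x d) P) fun _ => 0
  have h2 := map_SS ee (evx x).toAddMonoidHom j (fun d => c.ev ξ (Dv ξ d) P) fun _ => 0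
  refine h1.trans (Eq.trans ?_ h2.symm)
  simp only [Dt.ev, map_sm, Pi.evalAddMonoidHom_apply, c.px_apply]
  rfl

theorem Dt.a_pos (x : E4) : 0 < c.w.1 x ^ 6 := pow_pos (c.hw x) 6

theorem Dt.int_px (x : E4) (d : ℕ → E4) (p : ℤ) (N l : ℕ) (m : List (List ℕ))
    (h : dgM m + 4 < 2 * N) : Integrable (c.px x d p N l m) :=
  (Wick.integ (c.a_pos x) c.hμ (c.Mx_hom d x m) (Sm.sm _).continuous h).const_mul _

theorem Dt.int_Ax (x : E4) (j s : ℕ) (P : Po) (h : P.all (okT KK s) = true) :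
    Integrable (c.Ax x j P) := by
  refine SS_ind ee (fun f : E4 → ℝ => Integrable f) (integrable_zero _ _ _)
    (fun _ _ ha hb => ha.add hb) j _ _ fun d => ?_
  induction P with
  | nil => exact integrable_zero _ _ _
  | cons t P ih =>
    simp only [List.all_cons, Bool.and_eq_true, okT, Nat.beq_eq, Nat.ble_eq] at h
    rw [sm_cons]
    refine Integrable.add ((c.int_px x d _ _ _ _ (by omega)).smul t.c) (ih ?_)
    simpa only [okT] using h.2

/-- Two integrable functions with proportional integrals. -/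
def Rel (κ : ℝ) (z : (E4 → ℝ) × (E4 → ℝ)) : Prop :=
  Integrable z.1 ∧ Integrable z.2 ∧ κ * ∫ ξ, z.1 ξ = ∫ ξ, z.2 ξ

theorem Rel.zero (κ : ℝ) : Rel κ 0 :=
  ⟨integrable_zero _ _ _, integrable_zero _ _ _, by simp⟩

theorem Rel.add (κ : ℝ) (a b : (E4 → ℝ) × (E4 → ℝ)) (ha : Rel κ a) (hb : Rel κ b) :
    Rel κ (a + b) := by
  refine ⟨ha.1.add hb.1, ha.2.1.add hb.2.1, ?_⟩
  simp only [Prod.fst_add, Prod.snd_add, Pi.add_apply]
  rw [integral_add ha.1 hb.1, integral_add ha.2.1 hb.2.1, mul_add, ha.2.2, hb.2.2]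

theorem Dt.rel_T (x : E4) (d : ℕ → E4) (s : ℕ) (t : Tm) (h : okT KK (s + 1) t = true) :
    Rel (4 * (s + 1) * KK : ℕ) (t.c • c.px x d t.p t.N t.l t.m,
      ∑ b, sm (c.px x fun a => Nat.casesOn a (ee b) d) (wkT KK t)) := by
  obtain ⟨k, a, p, N, l, m⟩ := t
  simp only [okT, Bool.and_eq_true, Nat.beq_eq, Nat.ble_eq] at h
  obtain ⟨⟨h1, h2⟩, h3⟩ := h
  obtain ⟨N, rfl⟩ : ∃ n, N = n + 1 := ⟨N - 1, by omega⟩
  simp only [Nat.add_sub_cancel] at h3
  obtain ⟨q, hq⟩ := Nat.dvd_of_mod_eq_zero h3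
  have hN : 0 < N := by omega
  have hq' : KK / N = q := by rw [hq, Nat.mul_div_cancel_left _ hN]
  have hm := c.Mx_hom d x m
  rw [h1] at hm
  have hs := Sm.sm (c.Mx d x m)
  have hl : Wick.Hm (2 * s) (lap (c.Mx d x m).1) := fun t ht ξ => by
    simp only [lap, Finset.mul_sum]
    exact Finset.sum_congr rfl fun b _ => Wick.Hm.deriv (Wick.Hm.deriv (l := 2 * s + 1) hm
      (hs.differentiable (by simp)) _) ((Wick.dd_smooth hs _).differentiable (by simp)) _ t ht ξ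
  have e2 : ∑ b, sm (c.px x fun a => Nat.casesOn a (ee b) d) (wkT KK ⟨k, a, p, N + 1, l, m⟩) =
      fun ξ => (a * q * (c.μ ^ l * c.w.1 x ^ (p - 6))) *
        (lap (c.Mx d x m).1 ξ / (c.μ + c.w.1 x ^ 6 * ‖ξ‖ ^ 2) ^ N) := by
    funext ξ
    rw [← lp_coe, c.lp_Mx]
    simp only [wkT, Nat.add_sub_cancel, hq', sm_map_m, Finset.sum_apply,
      AddSubmonoidClass.coe_finsetSum, Finset.sum_div, Finset.mul_sum]
    refine Finset.sum_congr rfl fun b _ => ?_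
    generalize (polM (rlM shf m)).flatMap polM = Q
    induction Q with
    | nil => simp
    | cons u Q ih =>
      rw [List.map_cons, List.sum_cons, smul_add, Pi.add_apply, ih, List.map_cons, List.sum_cons,
        AddMemClass.coe_add, Pi.add_apply, add_div, mul_add, Pi.smul_apply, Dt.px, zsmul_eq_mul,
        Int.cast_mul, Int.cast_natCast]
      ring
  refine ⟨(c.int_px x d _ _ _ _ (by simp only; omega)).smul a, ?_, ?_⟩
  · simp only [e2]
    refine Integrable.const_mul (Wick.integ (c.a_pos x) c.hμ hl ?_ (by omega)) _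
    rw [← lp_coe]
    exact (Sm.sm _).continuous
  · simp only [e2, Pi.smul_apply, Dt.px, zsmul_eq_mul, integral_const_mul]
    rw [(wickStep_holds _ _ (2 * (s + 1)) N _ (c.a_pos x) c.hμ hs hm).2 (by omega) (by omega), hq,
      zpow_sub₀ (c.hw x).ne', zpow_ofNat]
    have := (c.hw x).ne'
    have : (N : ℝ) ≠ 0 := by positivity
    generalize ∫ ξ, lap (c.Mx d x m).1 ξ / (c.μ + c.w.1 x ^ 6 * ‖ξ‖ ^ 2) ^ N = I
    push_cast
    field_simp
    ring

theorem Dt.rel_A (x : E4) (j s : ℕ) (P : Po) (h : P.all (okT KK (s + 1)) = true) :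
    Rel (4 * (s + 1) * KK : ℕ) (c.Ax x j P, c.Ax x (j + 1) (nrm (P.flatMap (wkT KK)))) := by
  have h1 := SS_ind ee (Rel (4 * (s + 1) * KK : ℕ)) (Rel.zero _) (Rel.add _) j
    (fun d => (sm (c.px x d) P,
      ∑ b, sm (c.px x fun a => Nat.casesOn a (ee b) d) (nrm (P.flatMap (wkT KK))))) (fun _ => 0)
    fun d => by
      simp only [sm_nrm]
      induction P with
      | nil =>
        simp only [List.flatMap_nil, sm_nil, Finset.sum_const_zero]
        exact Rel.zero _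
      | cons t P ih =>
        simp only [List.all_cons, Bool.and_eq_true] at h
        simp only [List.flatMap_cons, sm_append, sm_cons, Finset.sum_add_distrib]
        exact Rel.add _ _ _ (c.rel_T x d s t h.1) (ih h.2)
  have h2 := map_SS ee (AddMonoidHom.fst (E4 → ℝ) (E4 → ℝ)) j
    (fun d => (sm (c.px x d) P,
      ∑ b, sm (c.px x fun a => Nat.casesOn a (ee b) d) (nrm (P.flatMap (wkT KK))))) (fun _ => 0)
  have h3 := map_SS ee (AddMonoidHom.snd (E4 → ℝ) (E4 → ℝ)) j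
    (fun d => (sm (c.px x d) P,
      ∑ b, sm (c.px x fun a => Nat.casesOn a (ee b) d) (nrm (P.flatMap (wkT KK))))) (fun _ => 0)
  simp only [AddMonoidHom.coe_fst, AddMonoidHom.coe_snd] at h2 h3
  unfold Rel at h1 ⊢
  rw [h2, h3] at h1
  exact h1

/-- The value of a graded list as a function of the frequency. -/
noncomputable def Dt.Bx (x : E4) (j : ℕ) (L : List Po) : E4 → ℝ := fun ξ => (c.B ξ j L).1 x

theorem Dt.Bx_cons (x : E4) (j : ℕ) (P : Po) (L : List Po) :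
    c.Bx x j (P :: L) = c.Ax x j P + c.Bx x (j + 1) L := by
  funext ξ
  rw [Pi.add_apply, c.Ax_apply]
  rfl

theorem Dt.wk_sound (fin : ℕ → Po → Bool)
    (hf : ∀ k R, fin k R = true → ∀ x j, Integrable (c.Ax x j R)) (s j k : ℕ) (acc : Po)
    (L : List Po) (h : wk KK fin s k acc L = true) : ∃ (e : ℕ) (R : Po), fin (k * e) R = true ∧ ∀ x,
      Integrable (c.Ax x j acc) ∧ Integrable (c.Bx x (j + 1) L) ∧
      e * ((∫ ξ, c.Ax x j acc ξ) + k * ∫ ξ, c.Bx x (j + 1) L ξ) = ∫ ξ, c.Ax x (j + s) R ξ := by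
  induction s generalizing j k acc L with
  | zero =>
    simp only [wk, Bool.and_eq_true, List.isEmpty_iff] at h
    obtain ⟨rfl, h⟩ := h
    refine ⟨1, acc, by rwa [mul_one], fun x => ⟨hf _ _ h x j, integrable_zero _ _ _, ?_⟩⟩
    simp [Dt.Bx, Dt.B]
  | succ s ih =>
    rcases L with _ | ⟨P, L⟩
    · simp [wk] at h
    simp only [wk, Bool.and_eq_true, force_eq, fP_eq] at h
    obtain ⟨⟨h1, h2⟩, h3⟩ := h
    obtain ⟨e, R, h4, h5⟩ := ih (j + 1) _ _ _ h3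
    refine ⟨4 * (s + 1) * KK * e, R, by rwa [← mul_assoc], fun x => ?_⟩
    obtain ⟨-, i2, h6⟩ := h5 x
    obtain ⟨i3, i4, h7⟩ := c.rel_A x j s acc h1
    have i5 := c.int_Ax x (j + 1) s P h2
    have e1 : c.Ax x (j + 1) (List.map key (add (nrm (acc.flatMap (wkT KK)))
        (sc (k * (4 * (s + 1) * KK) : ℕ) 0 0 P))) = fun ξ =>
        c.Ax x (j + 1) (nrm (acc.flatMap (wkT KK))) ξ +
          (k * (4 * (s + 1) * KK) : ℕ) * c.Ax x (j + 1) P ξ := by
      funext ξ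
      simp only [c.Ax_apply]
      rw [Dt.A, funext fun d => c.ev_key ξ (Dv ξ d) _, ← Dt.A, c.A_add, c.A_sc, c.Wp_zero, pow_zero,
        mul_one, mul_one, Int.cast_natCast]
      rfl
    rw [c.Bx_cons]
    refine ⟨i3, i5.add i2, ?_⟩
    rw [e1, integral_add i4 (i5.const_mul _), integral_const_mul, ← h7] at h6
    simp only [Pi.add_apply]
    rw [integral_add i5 i2, ← add_assoc j s 1, Nat.add_right_comm j s 1, ← h6]
    push_cast
    ring

theorem Dt.base_A (x : E4) (j h : ℕ) (P : Po) (hP : P.all (okB KK h) = true) :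
    Integrable (c.Ax x j P) ∧ KK * c.μ ^ h / c.w.1 x ^ 3 * ∫ ξ, c.Ax x j P ξ =
      Real.pi ^ 2 * (c.A 0 j (bsP KK P)).1 x := by
  let p : (E4 → ℝ) × ℝ → Prop := fun z =>
    Integrable z.1 ∧ KK * c.μ ^ h / c.w.1 x ^ 3 * ∫ ξ, z.1 ξ = Real.pi ^ 2 * z.2
  have p0 : p 0 := ⟨integrable_zero _ _ _, by simp⟩
  have pa : ∀ a b, p a → p b → p (a + b) := fun a b ha hb => ⟨ha.1.add hb.1, by
    simp only [Prod.fst_add, Prod.snd_add, Pi.add_apply]
    rw [integral_add ha.1 hb.1, mul_add, mul_add, ha.2, hb.2]⟩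
  have h1 := SS_ind ee p p0 pa j
    (fun d => (sm (c.px x d) P, (c.ev 0 (Dv 0 d) (bsP KK P)).1 x)) (fun _ => 0) fun d => by
      simp only [bsP, Dt.ev, sm_nrm]
      induction P with
      | nil => exact p0
      | cons t P ih =>
        simp only [List.all_cons, Bool.and_eq_true] at hP
        simp only [List.map_cons, sm_cons]
        refine pa (_, _) (_, _) ?_ (ih hP.2)
        obtain ⟨k, a, r, N, l, m⟩ := t
        have h2 := hP.1
        simp only [okB, Bool.and_eq_true, Nat.beq_eq, Nat.ble_eq] at h2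
        obtain ⟨⟨⟨h3, h4⟩, h5⟩, h6⟩ := h2
        obtain ⟨N, rfl⟩ : ∃ n, N = n + 3 := ⟨N - 3, by omega⟩
        obtain ⟨q, hq⟩ := Nat.dvd_of_mod_eq_zero h6
        have hq' : KK / ((N + 3 - 1) * (N + 3 - 2)) = q := by
          rw [hq, Nat.mul_div_cancel_left _ (Nat.mul_pos (by omega) (by omega))]
        refine ⟨(c.int_px x d _ _ _ _ (by simp only; omega)).smul a, ?_⟩
        have e1 : ∀ ξ, (c.Mx d x m).1 ξ = (c.M (Dv 0 d) m).1 x := fun ξ => by
          rw [c.Mx_apply, ← zero_smul ℝ ξ, c.M_hom, h3, pow_zero, one_smul]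
        have e2 : (c.ps 0 (Dv 0 d) (r - 15) 0 0 m).1 x =
            c.w.1 x ^ (r - 15) * (c.M (Dv 0 d) m).1 x := by
          simp only [Dt.ps, pow_zero, one_mul, mul_one]
          rfl
        simp only [hq', Pi.smul_apply, Dt.px, e1, zsmul_eq_mul,
          e2, div_eq_mul_one_div ((c.M (Dv 0 d) m).1 x), integral_const_mul,
          (wickBase_holds _ _ N (c.a_pos x) c.hμ).2]
        have e3 : c.μ ^ (N + 1) = c.μ ^ l * c.μ ^ h := by
          rw [← pow_add]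
          congr 1
          omega
        rw [e3, hq, zpow_sub₀ (c.hw x).ne', zpow_ofNat]
        have := (c.hw x).ne'
        have := c.hμ.ne'
        simp only [Nat.add_succ_sub_one]
        push_cast
        field_simp
  have h2 := map_SS ee (AddMonoidHom.fst (E4 → ℝ) ℝ) j
    (fun d => (sm (c.px x d) P, (c.ev 0 (Dv 0 d) (bsP KK P)).1 x)) (fun _ => 0)
  have h3 := map_SS ee (AddMonoidHom.snd (E4 → ℝ) ℝ) j
    (fun d => (sm (c.px x d) P, (c.ev 0 (Dv 0 d) (bsP KK P)).1 x)) (fun _ => 0)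
  have h4 := map_SS ee (evx x).toAddMonoidHom j (fun d => c.ev 0 (Dv 0 d) (bsP KK P)) fun _ => 0
  simp only [AddMonoidHom.coe_fst, AddMonoidHom.coe_snd] at h2 h3
  simp only [p] at h1
  rw [h2, h3] at h1
  exact ⟨h1.1, h1.2.trans (congrArg _ h4.symm)⟩

theorem Dt.wk0_sound (fin : ℕ → Po → Bool) (h : ℕ)
    (hf : ∀ k R, fin k R = true → R.all (okB KK h) = true) (s : ℕ) (L : List Po)
    (hL : wk0 KK fin s L = true) : ∃ (e : ℕ) (R : Po), fin e R = true ∧ ∀ x,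
      (e * KK : ℕ) * c.μ ^ h * ∫ ξ, (c.B ξ 0 L).1 x / c.w.1 x ^ 3 =
        Real.pi ^ 2 * (c.A 0 s (bsP KK R)).1 x := by
  rcases L with _ | ⟨P, L⟩
  · simp [wk0] at hL
  obtain ⟨e, R, h1, h2⟩ := c.wk_sound fin (fun k R hR x j => (c.base_A x j h R (hf k R hR)).1)
    s 0 1 P L hL
  rw [one_mul] at h1
  refine ⟨e, R, h1, fun x => ?_⟩
  obtain ⟨i1, i2, h3⟩ := h2 x
  have h4 : ∫ ξ, (c.B ξ 0 (P :: L)).1 x = (∫ ξ, c.Ax x 0 P ξ) + ∫ ξ, c.Bx x (0 + 1) L ξ := by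
    rw [← integral_add i1 i2]
    exact congrArg (fun f => ∫ ξ, f ξ) (c.Bx_cons x 0 P L)
  rw [integral_div, h4, ← (c.base_A x s h R (hf e R h1)).2, ← zero_add s, ← h3]
  push_cast
  ring

end Pool.Agent.Lib.MP_465ce1_mp.Cx.Sy
end

-- part Pool.Agent.Lib.MP_465ce1_mp.Cx.Sym
section

/-!
The local heat invariants.
-/

open MeasureTheory Filter Topology
open scoped ContDiff

namespace Pool.Agent.Lib.MP_465ce1_mp.Cx

namespace Sy

variable (c : Dt) {KK : ℕ}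

theorem Dt.A_sw1 (ξ : E4) (j : ℕ) (Z : Po) : c.A ξ (j + 2) (rl sw1 Z) = c.A ξ (j + 2) Z := by
  rw [Dt.A, Dt.A, ← SS_sw1 ee j fun d => c.ev ξ (Dv ξ d) Z]
  simp only [c.ev_rl]
  congr 1
  funext d
  congr 1
  funext a
  match a with
  | 0 => rfl
  | 1 => rfl
  | 2 => rfl
  | _ + 3 => rfl

theorem Dt.A_sw2 (ξ : E4) (j : ℕ) (Z : Po) : c.A ξ (j + 3) (rl sw2 Z) = c.A ξ (j + 3) Z := by
  rw [Dt.A, Dt.A, ← SS_sw2 ee j fun d => c.ev ξ (Dv ξ d) Z]
  simp only [c.ev_rl]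
  congr 1
  funext d
  congr 1
  funext a
  match a with
  | 0 => rfl
  | 1 => rfl
  | 2 => rfl
  | 3 => rfl
  | _ + 4 => rfl

theorem Dt.A_nrm (ξ : E4) (j : ℕ) (Z : Po) : c.A ξ j (nrm Z) = c.A ξ j Z := by
  simp only [Dt.A, c.ev_nrm]

theorem Dt.A_id (ξ : E4) (j : ℕ) (Z : Po) : c.A ξ j (rl id Z) = c.A ξ j Z := by
  simp only [Dt.A, c.ev_rl, id]

theorem Dt.sy2_sound (ξ : E4) (Z : Po) (h : sy2 Z = true) (x : E4) : (c.A ξ 2 Z).1 x = 0 := by
  simp only [sy2, fS_eq, List.isEmpty_iff] at h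
  have h1 := congrArg (fun P => evx x (c.A ξ (0 + 2) P)) h
  simp only [c.A_add, c.A_sw1, c.A_nil, map_add, map_zero] at h1
  change evx x (c.A ξ (0 + 2) Z) = 0
  linarith

theorem Dt.sy3_sound (ξ : E4) (Z : Po) (h : sy3 Z = true) (x : E4) : (c.A ξ 3 Z).1 x = 0 := by
  simp only [sy3, fS_eq, List.isEmpty_iff] at h
  have h1 := congrArg (fun P => evx x (c.A ξ 3 P)) h
  have e1 : ∀ Z, c.A ξ 3 (rl sw1 Z) = c.A ξ 3 Z := c.A_sw1 ξ 1
  have e2 : ∀ Z, c.A ξ 3 (rl sw2 Z) = c.A ξ 3 Z := c.A_sw2 ξ 0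
  simp only [c.A_add, e1, e2, c.A_nil, map_add, map_zero] at h1
  change evx x (c.A ξ 3 Z) = 0
  linarith

/-- Constant outside a ball. -/
def OC (r a : ℝ) (f : Sm) : Prop := ∀ x : E4, r < ‖x‖ → f.1 x = a

theorem OC.dl {r a : ℝ} {f : Sm} (h : OC r a f) (e : E4) : OC r 0 (dl e f) := fun x hx => by
  have h1 : f.1 =ᶠ[𝓝 x] fun _ => a := by
    filter_upwards [(isOpen_lt continuous_const continuous_norm).mem_nhds hx] with y hy using h y hy
  change fderiv ℝ f.1 x e = 0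
  rw [h1.fderiv_eq]
  simp

theorem OC.cs {r : ℝ} {f : Sm} (h : OC r 0 f) : HasCompactSupport f.1 :=
  HasCompactSupport.intro (isCompact_closedBall 0 r) fun x hx => h x (by simpa using hx)

theorem OC.int {r : ℝ} {f : Sm} (h : OC r 0 f) : Integrable f.1 :=
  (Sm.sm f).continuous.integrable_of_hasCompactSupport h.cs

theorem OC.int_dl {r : ℝ} {f : Sm} (h : OC r 0 f) (e : E4) : ∫ x, (Sy.dl e f).1 x = 0 := by
  have h1 := integral_mul_fderiv_eq_neg_fderiv_mul_of_integrable (μ := (volume : Measure E4))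
    (f := fun _ : E4 => (1 : ℝ)) (g := f.1) (v := e) (by simp)
    (by simp only [one_mul]; exact (h.dl e).int) (by simpa only [one_mul] using h.int)
    (fun _ _ => differentiableAt_const _) (fun x _ => Sm.df f x)
  change ∫ x, fderiv ℝ f.1 x e = 0
  simpa using h1

theorem Dt.OC_J {r a : ℝ} (h : OC r a c.w) (D : ℕ → E4) (j : List ℕ) : ∃ b, OC r b (c.J D j) := by
  induction j with
  | nil => exact ⟨a, h⟩
  | cons i j ih => exact ⟨0, ih.choose_spec.dl _⟩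

/-- The first jet has positive order. -/
def okY (t : Tm) : Bool :=
  match t.m with
  | (_ :: _) :: _ => true
  | _ => false

theorem Dt.OC_ev {r a : ℝ} (h : OC r a c.w) (ξ : E4) (D : ℕ → E4) (Y : Po)
    (hY : Y.all okY = true) : OC r 0 (c.ev ξ D Y) := by
  induction Y with
  | nil => exact fun _ _ => rfl
  | cons t Y ih =>
    simp only [List.all_cons, Bool.and_eq_true] at hY
    intro x hx
    obtain ⟨k, b, p, N, l, _ | ⟨_ | ⟨i, j⟩, m⟩⟩ := t
    · simp [okY] at hY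
    · simp [okY] at hY
    have h1 := ((c.OC_J h D j).choose_spec.dl (D i)) x hx
    have h2 := ih hY.2 x hx
    rw [Dt.ev] at h2
    simp only [Dt.ev, sm_cons, Dt.ps, Dt.M, Dt.J, zsmul_eq_mul, AddMemClass.coe_add,
      MulMemClass.coe_mul, Pi.add_apply, Pi.mul_apply, h1, h2, zero_mul, mul_zero, add_zero]

theorem Dt.int_A {r a : ℝ} (h : OC r a c.w) (j : ℕ) (Y : Po) (hY : Y.all okY = true) :
    Integrable (c.A 0 j Y).1 :=
  SS_ind ee (fun f : Sm => Integrable f.1 volume) (integrable_zero _ _ _)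
    (fun _ _ ha hb => ha.add hb) j _ _ fun _ => (c.OC_ev h _ _ Y hY).int

theorem Dt.int_div {r a : ℝ} (h : OC r a c.w) (j : ℕ) (Y : Po) (hY : Y.all okY = true) :
    Integrable (c.A 0 j (dP 1 (rl id Y))).1 ∧ ∫ x, (c.A 0 j (dP 1 (rl id Y))).1 x = 0 := by
  refine SS_ind ee (fun f : Sm => Integrable f.1 ∧ ∫ x, f.1 x = 0)
    ⟨integrable_zero _ _ _, by simp⟩ (fun f g ha hb => ⟨ha.1.add hb.1, ?_⟩) j _ _ fun d => ?_
  · change ∫ x, (f.1 x + g.1 x) = 0
    rw [integral_add ha.1 hb.1, ha.2, hb.2, add_zero]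
  · simp only [c.ev_dP, c.ev_rl, id]
    exact ⟨((c.OC_ev h _ _ Y hY).dl _).int, (c.OC_ev h _ _ Y hY).int_dl _⟩

theorem Dt.A_G6 (x : E4) : (c.A 0 3 G6).1 x = Gd c.w.1 x := by
  simp only [Dt.A, SS, AddSubmonoidClass.coe_finsetSum, Finset.sum_apply, Gd]
  refine Finset.sum_congr rfl fun i _ => Finset.sum_congr rfl fun j _ =>
    Finset.sum_congr rfl fun k _ => ?_
  have hW : ∀ p : ℤ, (c.Wp p).1 x = c.w.1 x ^ p := fun _ => rfl
  have hc : ∀ (n : ℤ) (f : Sm), (n • f).1 x = n * f.1 x := fun n f => by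
    rw [← zsmul_eq_mul]
    rfl
  simp only [Dt.ev, G6, sm_cons, sm_nil, Dt.ps, Dt.M, Dt.J, Dv, pow_zero, one_mul, mul_one,
    add_zero, AddMemClass.coe_add, MulMemClass.coe_mul, Pi.add_apply, Pi.mul_apply, hc, hW, dl_coe,
    zpow_ofNat]
  push_cast
  ring

theorem Dt.sc_apply (j : ℕ) (k : ℤ) (P : Po) (x : E4) :
    (c.A 0 j (nrm (sc k 0 0 P))).1 x = k * (c.A 0 j P).1 x := by
  rw [c.A_nrm, c.A_sc, c.Wp_zero, pow_zero, mul_one, mul_one, ← zsmul_eq_mul, ← zsmul_eq_mul]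
  rfl

theorem Dt.main {r a : ℝ} (h : OC r a c.w) (T : List (List Po)) (hT : chkAll KK T = true)
    (f : E4 → ℕ → Sm) (hf : ∀ ξ, T.map (c.B ξ 0) = [f ξ 0, f ξ 1, f ξ 2, f ξ 3, f ξ 4, f ξ 5, f ξ 6]) :
    ∫ x, ∫ ξ, (f ξ 2).1 x / c.w.1 x ^ 3 = 0 ∧ ∫ x, ∫ ξ, (f ξ 4).1 x / c.w.1 x ^ 3 = 0 ∧
    ∫ x, ∫ ξ, (f ξ 6).1 x / c.w.1 x ^ 3 = Real.pi ^ 2 * (6 / 35) / c.μ ^ 5 * ∫ x, Gd c.w.1 x := by
  unfold chkAll at hT
  split at hT
  swap
  · simp at hT
  rename_i L0 L1 L2 L3 L4 L5 L6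
  simp only [List.map_cons, List.map_nil, List.cons.injEq, and_true] at hf
  simp only [Bool.and_eq_true] at hT
  have hμ := c.hμ.ne'
  simp only [← fun ξ => (hf ξ).2.2.1, ← fun ξ => (hf ξ).2.2.2.2.1,
    ← fun ξ => (hf ξ).2.2.2.2.2.2]
  refine ⟨?_, ?_, ?_⟩
  · obtain ⟨e, R, h1, h2⟩ := c.wk0_sound (fin2 KK) 3 (fun k R hR => by
      simp only [fin2, Bool.and_eq_true] at hR; exact hR.1.2) 1 L2 hT.1.1
    simp only [fin2, Bool.and_eq_true, Nat.ble_eq, List.isEmpty_iff] at h1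
    have he : ((e * KK : ℕ) : ℝ) ≠ 0 := Nat.cast_ne_zero.2 (by omega)
    have h3 : ∀ x, ∫ ξ, (c.B ξ 0 L2).1 x / c.w.1 x ^ 3 = 0 := fun x => by
      have h4 := h2 x
      rw [h1.2, c.A_nil, ZeroMemClass.coe_zero, Pi.zero_apply, mul_zero] at h4
      exact (mul_eq_zero.1 h4).resolve_left (mul_ne_zero he (pow_ne_zero _ hμ))
    simp only [h3, integral_zero]
  · obtain ⟨e, R, h1, h2⟩ := c.wk0_sound (fin4 KK) 4 (fun k R hR => by
      simp only [fin4, Bool.and_eq_true] at hR; exact hR.1.2) 2 L4 hT.1.2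
    simp only [fin4, Bool.and_eq_true, Nat.ble_eq] at h1
    have he : ((e * KK : ℕ) : ℝ) ≠ 0 := Nat.cast_ne_zero.2 (by omega)
    have h3 : ∀ x, ∫ ξ, (c.B ξ 0 L4).1 x / c.w.1 x ^ 3 =
        Real.pi ^ 2 / (70 * c.μ ^ 4) * (c.A 0 2 (dP 1 (rl id Y4))).1 x := fun x => by
      have h4 := h2 x
      have h5 := c.sy2_sound 0 _ h1.2 x
      rw [c.A_add, AddMemClass.coe_add, Pi.add_apply, c.sc_apply, c.sc_apply, Int.cast_neg,
        Int.cast_natCast, Int.cast_ofNat] at h5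
      refine mul_left_cancel₀ (mul_ne_zero he (pow_ne_zero 4 hμ)) (h4.trans ?_)
      field_simp
      linarith
    simp only [h3, integral_const_mul, (c.int_div h 2 Y4 rfl).2, mul_zero]
  · obtain ⟨e, R, h1, h2⟩ := c.wk0_sound (fin6 KK) 5 (fun k R hR => by
      simp only [fin6, Bool.and_eq_true] at hR; exact hR.1.2) 3 L6 hT.2
    simp only [fin6, Bool.and_eq_true, Nat.ble_eq] at h1
    have he : ((e * KK : ℕ) : ℝ) ≠ 0 := Nat.cast_ne_zero.2 (by omega)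
    have h3 : ∀ x, ∫ ξ, (c.B ξ 0 L6).1 x / c.w.1 x ^ 3 = Real.pi ^ 2 / (70 * c.μ ^ 5) *
        ((c.A 0 3 (dP 1 (rl id Y6))).1 x + 12 * (c.A 0 3 G6).1 x) := fun x => by
      have h4 := h2 x
      have h5 := c.sy3_sound 0 _ h1.2 x
      rw [c.A_add, AddMemClass.coe_add, Pi.add_apply, c.sc_apply, c.sc_apply, Int.cast_neg,
        Int.cast_natCast, Int.cast_ofNat, c.A_add, AddMemClass.coe_add, Pi.add_apply, c.sc_apply,
        c.A_id, Int.cast_ofNat] at h5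
      refine mul_left_cancel₀ (mul_ne_zero he (pow_ne_zero 5 hμ)) (h4.trans ?_)
      field_simp
      linarith
    simp only [h3, integral_const_mul]
    rw [integral_add (c.int_div h 3 Y6 rfl).1 ((c.int_A h 3 G6 rfl).const_mul _),
      (c.int_div h 3 Y6 rfl).2, integral_const_mul]
    simp only [c.A_G6]
    ring

end Sy

theorem sym_holds : SymStmt := by
  intro w a r μ hw hp ho hμ
  let c : Sy.Dt := ⟨⟨w, hw⟩, μ, hp, hμ⟩
  have h := c.main (r := r) (a := a) ho Sy.tab Sy.chkAll_true (fun ξ => c.sy ξ 4) c.B_tab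
  have e : ∀ ξ k, (c.sy ξ 4 k).1 = sym w μ ξ 4 k := fun ξ k => congrFun (c.sy_coe ξ 4) k
  simp only [e] at h
  exact h

end Pool.Agent.Lib.MP_465ce1_mp.Cx
end
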