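import Pool.Agent.Lib.MP_465ce1_mp.Cx.PInt

-- part Pool.Agent.Lib.MP_465ce1_mp.Cx.Planch
section

/-!
Plancherel identities for smooth compactly supported functions on flat space.
-/

open MeasureTheory Filter Topology
open scoped ContDiff RealInnerProductSpace SchwartzMap FourierTransform

namespace Pool.Agent.Lib.MP_465ce1_mp.Cx

namespace Planch

/-- The complex Schwartz function of a real test function. -/
noncomputable def sch (f : E4 → ℝ) (hf : ContDiff ℝ ∞ f) (hc : HasCompactSupport f) :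
    SchwartzMap E4 ℂ :=
  HasCompactSupport.toSchwartzMap (f := fun x => ((f x : ℝ) : ℂ))
    (hc.comp_left (g := Complex.ofReal) Complex.ofReal_zero) (Complex.ofRealCLM.contDiff.comp hf)

lemma sch_apply (f : E4 → ℝ) (hf : ContDiff ℝ ∞ f) (hc : HasCompactSupport f) (x : E4) :
    sch f hf hc x = (f x : ℂ) := rfl

lemma fsq_eq (f : E4 → ℝ) (hf : ContDiff ℝ ∞ f) (hc : HasCompactSupport f) (ξ : E4) :
    fsq f ξ = ‖(𝓕 (sch f hf hc) : SchwartzMap E4 ℂ) ((2 * Real.pi)⁻¹ • ξ)‖ ^ 2 := by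
  have hpi : (2 * Real.pi) ≠ 0 := by positivity
  have h1 : Integrable fun x => f x * Real.cos ⟪ξ, x⟫ :=
    (hf.continuous.mul (by fun_prop)).integrable_of_hasCompactSupport hc.mul_right
  have h2 : Integrable fun x => f x * Real.sin ⟪ξ, x⟫ :=
    (hf.continuous.mul (by fun_prop)).integrable_of_hasCompactSupport hc.mul_right
  have h3 : (𝓕 (sch f hf hc) : SchwartzMap E4 ℂ) ((2 * Real.pi)⁻¹ • ξ) =
      ((∫ x, f x * Real.cos ⟪ξ, x⟫ : ℝ) : ℂ) +
        ((-∫ x, f x * Real.sin ⟪ξ, x⟫ : ℝ) : ℂ) * Complex.I := by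
    rw [SchwartzMap.fourier_coe, Real.fourier_eq', ← integral_neg, ← integral_complex_ofReal,
      ← integral_complex_ofReal, ← integral_mul_const,
      ← integral_add h1.ofReal (h2.neg.ofReal.mul_const _)]
    refine integral_congr_ae (Eventually.of_forall fun x => ?_)
    have e : -2 * Real.pi * ⟪x, (2 * Real.pi)⁻¹ • ξ⟫ = -⟪ξ, x⟫ := by
      rw [real_inner_smul_right, real_inner_comm]
      field_simp
    simp only [sch_apply, e, smul_eq_mul]
    rw [Complex.exp_ofReal_mul_I, Real.cos_neg, Real.sin_neg]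
    push_cast
    ring
  rw [h3, Complex.sq_norm, Complex.normSq_add_mul_I, fsq]
  ring

lemma first (f : E4 → ℝ) (hf : ContDiff ℝ ∞ f) (hc : HasCompactSupport f) :
    Continuous (fsq f) ∧ Integrable (fsq f) ∧
      ∫ ξ, fsq f ξ = (2 * Real.pi) ^ 4 * ∫ x, f x ^ 2 := by
  have hpi : (0 : ℝ) < 2 * Real.pi := by positivity
  set g : SchwartzMap E4 ℂ := 𝓕 (sch f hf hc) with hg
  have e : fsq f = fun ξ => ‖g ((2 * Real.pi)⁻¹ • ξ)‖ ^ 2 := funext (fsq_eq f hf hc)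
  have hi : Integrable fun ξ => ‖g ξ‖ ^ 2 :=
    (memLp_two_iff_integrable_sq_norm g.continuous.aestronglyMeasurable).1 (g.memLp 2)
  rw [e]
  refine ⟨(g.continuous.comp (continuous_const_smul _)).norm.pow 2,
    hi.comp_smul (inv_ne_zero hpi.ne'), ?_⟩
  rw [Measure.integral_comp_inv_smul_of_nonneg volume (fun ξ => ‖g ξ‖ ^ 2) hpi.le, hg,
    SchwartzMap.integral_norm_sq_fourier, finrank_euclideanSpace_fin, smul_eq_mul]
  simp only [sch_apply, Complex.norm_real, Real.norm_eq_abs, sq_abs]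

lemma smooth_dd (e : E4) {f : E4 → ℝ} (hf : ContDiff ℝ ∞ f) : ContDiff ℝ ∞ (dd e f) :=
  (hf.fderiv_right (m := ∞) le_rfl).clm_apply contDiff_const

lemma supp_dd (e : E4) {f : E4 → ℝ} (hc : HasCompactSupport f) : HasCompactSupport (dd e f) :=
  hc.fderiv_apply ℝ e

lemma fsq_dd (e : E4) (f : E4 → ℝ) (hf : ContDiff ℝ ∞ f) (hc : HasCompactSupport f) (ξ : E4) :
    fsq (dd e f) ξ = ⟪ξ, e⟫ ^ 2 * fsq f ξ := by
  have hpi : (0 : ℝ) < 2 * Real.pi := by positivity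
  have h1 : sch (dd e f) (smooth_dd e hf) (supp_dd e hc) =
      LineDeriv.lineDerivOp e (sch f hf hc) := by
    ext x
    rw [SchwartzMap.lineDerivOp_apply_eq_fderiv, sch_apply]
    have h := (Complex.ofRealCLM.hasFDerivAt.comp x
      ((hf.differentiable (by simp)) x).hasFDerivAt).fderiv
    have h' : fderiv ℝ (sch f hf hc) x = Complex.ofRealCLM.comp (fderiv ℝ f x) := h
    rw [h']
    rfl
  have h2 : (fun x : E4 => inner ℝ x e).HasTemperateGrowth := by fun_prop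
  rw [fsq_eq _ (smooth_dd e hf) (supp_dd e hc), fsq_eq f hf hc, h1,
    SchwartzMap.fourier_lineDerivOp_eq, smul_apply,
    SchwartzMap.smulLeftCLM_apply_apply h2, norm_smul, norm_smul, real_inner_smul_left]
  have h3 : ‖(2 * Real.pi * Complex.I : ℂ)‖ = 2 * Real.pi := by
    simp [abs_of_pos Real.pi_pos]
  rw [h3, Real.norm_eq_abs, abs_mul, abs_of_pos (inv_pos.2 hpi), ← mul_assoc, ← mul_assoc,
    mul_inv_cancel₀ hpi.ne', one_mul, mul_pow, sq_abs]

end Planch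

theorem planch_holds : PlanchStmt := by
  intro f hf hc
  obtain ⟨h1, h2, h3⟩ := Planch.first f hf hc
  have hd := fun i => Planch.first (dd (ee i) f) (Planch.smooth_dd _ hf) (Planch.supp_dd _ hc)
  have e : (fun ξ : E4 => ‖ξ‖ ^ 2 * fsq f ξ) = fun ξ => ∑ i, fsq (dd (ee i) f) ξ := by
    funext ξ
    simp only [Planch.fsq_dd _ f hf hc, ← Finset.sum_mul, EuclideanSpace.real_norm_sq_eq]
    congr 1
    refine Finset.sum_congr rfl fun i _ => ?_
    simp [ee, EuclideanSpace.inner_single_right]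
  have hi : ∀ i, Integrable fun x => dd (ee i) f x ^ 2 := fun i => by
    have hs : HasCompactSupport fun x => dd (ee i) f x ^ 2 := by
      simp only [sq]
      exact (Planch.supp_dd (ee i) hc).mul_right (f' := dd (ee i) f)
    exact ((Planch.smooth_dd _ hf).continuous.pow 2).integrable_of_hasCompactSupport hs
  refine ⟨h1, h2, h3, ?_, ?_⟩
  · rw [e]
    exact integrable_finsetSum _ fun i _ => (hd i).2.1
  · rw [e, integral_finsetSum _ fun i _ => (hd i).2.1]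
    simp only [fun i => (hd i).2.2]
    rw [← Finset.mul_sum, ← integral_finsetSum _ fun i _ => hi i]
    congr 2
    funext x
    rw [← Conc.sum_sq]
    simp only [dd, ee, sq]

end Pool.Agent.Lib.MP_465ce1_mp.Cx
end

-- part Pool.Agent.Lib.MP_465ce1_mp.Cx.Res
section

/-!
Degrees of the parametrix and of its residual.
-/

open scoped ContDiff

namespace Pool.Agent.Lib.MP_465ce1_mp.Cx

namespace Res

theorem dd_smooth (e : E4) {f : E4 → ℝ} (hf : ContDiff ℝ ∞ f) : ContDiff ℝ ∞ (dd e f) :=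
  (hf.fderiv_right (m := ∞) (by simp)).clm_apply contDiff_const

theorem dd_add (e : E4) {f g : E4 → ℝ} (hf : ContDiff ℝ ∞ f) (hg : ContDiff ℝ ∞ g) :
    dd e (fun x => f x + g x) = fun x => dd e f x + dd e g x := by
  funext x
  simp only [dd]
  rw [fderiv_fun_add (hf.differentiable (by simp) x) (hg.differentiable (by simp) x)]
  rfl

theorem dd_sub (e : E4) {f g : E4 → ℝ} (hf : ContDiff ℝ ∞ f) (hg : ContDiff ℝ ∞ g) :
    dd e (fun x => f x - g x) = fun x => dd e f x - dd e g x := by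
  funext x
  simp only [dd]
  rw [fderiv_fun_sub (hf.differentiable (by simp) x) (hg.differentiable (by simp) x)]
  rfl

theorem lap_add {f g : E4 → ℝ} (hf : ContDiff ℝ ∞ f) (hg : ContDiff ℝ ∞ g) :
    lap (fun x => f x + g x) = fun x => lap f x + lap g x := by
  funext x
  simp only [lap, ← Finset.sum_add_distrib]
  refine Finset.sum_congr rfl fun i _ => ?_
  rw [dd_add _ hf hg, dd_add _ (dd_smooth _ hf) (dd_smooth _ hg)]

theorem lap_sub {f g : E4 → ℝ} (hf : ContDiff ℝ ∞ f) (hg : ContDiff ℝ ∞ g) :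
    lap (fun x => f x - g x) = fun x => lap f x - lap g x := by
  funext x
  simp only [lap, ← Finset.sum_sub_distrib]
  refine Finset.sum_congr rfl fun i _ => ?_
  rw [dd_sub _ hf hg, dd_sub _ (dd_smooth _ hf) (dd_smooth _ hg)]

theorem DD_pos {w : E4 → ℝ} (hw : ∀ x, 0 < w x) {ξ : E4} {σ : ℝ} (h : (ξ, σ) ≠ 0) (x : E4) :
    0 < DD w (σ ^ 2) ξ x := by
  have h6 : 0 < w x ^ 6 := pow_pos (hw x) 6
  by_cases hξ : ξ = 0
  · have hσ : σ ≠ 0 := fun e => h (by rw [hξ, e]; rfl)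
    have : 0 < σ ^ 2 := by positivity
    simp only [DD]
    positivity
  · have : 0 < ‖ξ‖ ^ 2 := by positivity
    simp only [DD]
    positivity

/-- Both components have degree at most `d`. -/
def HP (d : ℤ) (p : E4 → ℝ → Pr) : Prop :=
  HomLE d (fun ξ σ => (p ξ σ).1) ∧ HomLE d (fun ξ σ => (p ξ σ).2)

/-- Difference of two families of pairs. -/
def df (p q : E4 → ℝ → Pr) : E4 → ℝ → Pr := fun ξ σ =>
  (fun x => (p ξ σ).1 x - (q ξ σ).1 x, fun x => (p ξ σ).2 x - (q ξ σ).2 x)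

/-- The truncated parametrix. -/
noncomputable def pq (w : E4 → ℝ) (m : ℕ) : E4 → ℝ → Pr := fun ξ σ =>
  (PP w (σ ^ 2) ξ m, QQ w (σ ^ 2) ξ m)

/-- The operator on families. -/
noncomputable def BB (w : E4 → ℝ) (j : ℕ) (p : E4 → ℝ → Pr) : E4 → ℝ → Pr := fun ξ σ =>
  (Bop w (σ ^ 2) ξ)^[j] (p ξ σ)

theorem BB_succ (w : E4 → ℝ) (j : ℕ) (p : E4 → ℝ → Pr) :
    BB w (j + 1) p = fun ξ σ => Bop w (σ ^ 2) ξ (BB w j p ξ σ) := by
  funext ξ σ
  simp only [BB, Function.iterate_succ_apply']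

variable (h : HomKit) {w : E4 → ℝ} (hw : ContDiff ℝ ∞ w) (hp : ∀ x, 0 < w x)
include h hw

theorem w6 {d : ℤ} {G : Fam} (hG : HomLE d G) : HomLE d (fun ξ σ x => w x ^ 6 * G ξ σ x) :=
  h.mono (by omega) (h.mul (h.const (hw.pow 6)) hG)

theorem HP.bop {d : ℤ} {p : E4 → ℝ → Pr} (H : HP d p) :
    HP (d + 2) fun ξ σ => Bop w (σ ^ 2) ξ (p ξ σ) :=
  ⟨h.sub (h.mono (by omega) (h.mul (h.dsym hw) H.1)) (w6 h hw
      (h.sub (h.mono (by omega) (h.lap H.1)) (h.smul 2 (h.mono (by omega) (h.ddxi H.2))))),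
    h.sub (h.mono (by omega) (h.mul (h.dsym hw) H.2)) (w6 h hw
      (HomLE.add (h.mono (by omega) (h.lap H.2)) (h.smul 2 (h.mono (by omega) (h.ddxi H.1)))))⟩

theorem HP.bb {d : ℤ} {p : E4 → ℝ → Pr} (H : HP d p) (j : ℕ) : HP (d + 2 * j) (BB w j p) := by
  induction j with
  | zero => exact ⟨h.mono (by omega) H.1, h.mono (by omega) H.2⟩
  | succ j ih =>
    have := ih.bop h hw
    rw [BB_succ]
    exact ⟨h.mono (by push_cast; omega) this.1, h.mono (by push_cast; omega) this.2⟩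

theorem HP.df_bop {d e e' : ℤ} {p q : E4 → ℝ → Pr} (H : HP d (df p q)) (H1 : HP e p)
    (H2 : HP e' q) :
    HP (d + 2) (df (fun ξ σ => Bop w (σ ^ 2) ξ (p ξ σ)) fun ξ σ => Bop w (σ ^ 2) ξ (q ξ σ)) := by
  have H3 := H.bop h hw
  refine ⟨H3.1.congr fun ξ σ hne => ?_, H3.2.congr fun ξ σ hne => ?_⟩ <;>
  · have a1 := h.smooth H1.1 ξ σ hne
    have a2 := h.smooth H1.2 ξ σ hne
    have b1 := h.smooth H2.1 ξ σ hne
    have b2 := h.smooth H2.2 ξ σ hne
    funext x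
    simp only [df, Bop, lap_sub a1 b1, lap_sub a2 b2, dd_sub ξ a1 b1, dd_sub ξ a2 b2]
    ring

omit h hw in
theorem HP.trans {d : ℤ} {p q r : E4 → ℝ → Pr} (H : HP d (df p q)) (H' : HP d (df q r)) :
    HP d (df p r) := by
  refine ⟨(HomLE.add H.1 H'.1).congr fun ξ σ _ => ?_, (HomLE.add H.2 H'.2).congr fun ξ σ _ => ?_⟩ <;>
  · funext x
    simp only [df]
    ring

include hp

theorem dv {d : ℤ} {G : Fam} (hG : HomLE d G) :
    HomLE (d - 2) (fun ξ σ x => G ξ σ x / DD w (σ ^ 2) ξ x) := by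
  simp only [div_eq_mul_inv]
  exact h.mono (by omega) (h.mul hG (h.dinv hw hp))

theorem par_hom (g : E4 → ℝ → ℕ → E4 → ℝ) (d : ℤ)
    (hg : ∀ k : ℕ, HomLE (d - k) fun ξ σ => g ξ σ k) (k : ℕ) :
    HomLE (d - 2 - k) fun ξ σ => par w (σ ^ 2) ξ (g ξ σ) k := by
  have h0 : HomLE (d - 2 - (0 : ℕ)) fun ξ σ => par w (σ ^ 2) ξ (g ξ σ) 0 :=
    h.mono (by omega) (dv h hw hp (hg 0))
  induction k using Nat.twoStepInduction with
  | zero => exact h0
  | one =>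
    exact h.mono (by omega) (dv h hw hp (HomLE.add (hg 1)
      (w6 h hw (h.smul 2 (h.mono (by omega) (h.ddxi h0))))))
  | more k ih1 ih2 =>
    exact h.mono (by omega) (dv h hw hp (HomLE.add (hg (k + 2))
      (w6 h hw (h.sub (h.smul 2 (h.mono (by omega) (h.ddxi ih2)))
        (h.mono (by omega) (h.lap ih1))))))

theorem sym_hom (m k : ℕ) : HomLE (-(2 * m + k : ℕ)) fun ξ σ => sym w (σ ^ 2) ξ m k := by
  induction m generalizing k with
  | zero =>
    by_cases hk : k = 0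
    · subst hk
      exact h.const (hw.pow 3)
    · refine (h.zero _).congr fun ξ σ _ => ?_
      funext x
      simp [sym, hk]
  | succ m ih =>
    exact h.mono (by omega) (par_hom h hw hp (fun ξ σ => sym w (σ ^ 2) ξ m) (-(2 * m))
      (fun k => h.mono (by omega) (ih k)) k)

theorem pq_hom (m : ℕ) : HP (-(2 * m)) (pq w m) :=
  have s := fun k => h.mono (e := -(2 * m)) (by omega) (sym_hom h hw hp m k)
  ⟨h.sub (HomLE.add (h.sub (s 0) (s 2)) (s 4)) (s 6), HomLE.add (h.sub (s 1) (s 3)) (s 5)⟩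

theorem step (m : ℕ) :
    HP (-(2 * m + 7)) (df (fun ξ σ => Bop w (σ ^ 2) ξ (pq w (m + 1) ξ σ)) (pq w m)) := by
  have s := sym_hom h hw hp (m + 1)
  have key : ∀ (ξ : E4) (σ : ℝ), (ξ, σ) ≠ 0 → ∀ x,
      DD w (σ ^ 2) ξ x * sym w (σ ^ 2) ξ (m + 1) 0 x = sym w (σ ^ 2) ξ m 0 x ∧
      DD w (σ ^ 2) ξ x * sym w (σ ^ 2) ξ (m + 1) 1 x = sym w (σ ^ 2) ξ m 1 x +
        w x ^ 6 * (2 * dd ξ (sym w (σ ^ 2) ξ (m + 1) 0) x) ∧
      ∀ k, DD w (σ ^ 2) ξ x * sym w (σ ^ 2) ξ (m + 1) (k + 2) x = sym w (σ ^ 2) ξ m (k + 2) x +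
        w x ^ 6 * (2 * dd ξ (sym w (σ ^ 2) ξ (m + 1) (k + 1)) x -
          lap (sym w (σ ^ 2) ξ (m + 1) k) x) := by
    intro ξ σ hne x
    have hD := (DD_pos hp hne x).ne'
    exact ⟨mul_div_cancel₀ _ hD, mul_div_cancel₀ _ hD, fun k => mul_div_cancel₀ _ hD⟩
  have add : ∀ (ξ : E4) (σ : ℝ), (ξ, σ) ≠ 0 → ∀ x,
      lap (PP w (σ ^ 2) ξ (m + 1)) x = lap (sym w (σ ^ 2) ξ (m + 1) 0) x -
        lap (sym w (σ ^ 2) ξ (m + 1) 2) x + lap (sym w (σ ^ 2) ξ (m + 1) 4) x -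
        lap (sym w (σ ^ 2) ξ (m + 1) 6) x ∧
      dd ξ (PP w (σ ^ 2) ξ (m + 1)) x = dd ξ (sym w (σ ^ 2) ξ (m + 1) 0) x -
        dd ξ (sym w (σ ^ 2) ξ (m + 1) 2) x + dd ξ (sym w (σ ^ 2) ξ (m + 1) 4) x -
        dd ξ (sym w (σ ^ 2) ξ (m + 1) 6) x ∧
      lap (QQ w (σ ^ 2) ξ (m + 1)) x = lap (sym w (σ ^ 2) ξ (m + 1) 1) x -
        lap (sym w (σ ^ 2) ξ (m + 1) 3) x + lap (sym w (σ ^ 2) ξ (m + 1) 5) x ∧
      dd ξ (QQ w (σ ^ 2) ξ (m + 1)) x = dd ξ (sym w (σ ^ 2) ξ (m + 1) 1) x -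
        dd ξ (sym w (σ ^ 2) ξ (m + 1) 3) x + dd ξ (sym w (σ ^ 2) ξ (m + 1) 5) x := by
    intro ξ σ hne x
    have a : ∀ k, ContDiff ℝ ∞ (sym w (σ ^ 2) ξ (m + 1) k) := fun k => h.smooth (s k) ξ σ hne
    unfold PP QQ
    rw [lap_sub (((a 0).sub (a 2)).add (a 4)) (a 6), lap_add ((a 0).sub (a 2)) (a 4),
      lap_sub (a 0) (a 2), dd_sub ξ (((a 0).sub (a 2)).add (a 4)) (a 6),
      dd_add ξ ((a 0).sub (a 2)) (a 4), dd_sub ξ (a 0) (a 2), lap_add ((a 1).sub (a 3)) (a 5),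
      lap_sub (a 1) (a 3), dd_add ξ ((a 1).sub (a 3)) (a 5), dd_sub ξ (a 1) (a 3)]
    exact ⟨rfl, rfl, rfl, rfl⟩
  refine ⟨(w6 h hw (h.mono (by omega) (h.lap (s 6)))).congr fun ξ σ hne => ?_,
    (w6 h hw (h.sub (h.smul 2 (h.mono (by omega) (h.ddxi (s 6))))
      (h.mono (by omega) (h.lap (s 5))))).congr fun ξ σ hne => ?_⟩
  · funext x
    obtain ⟨k0, -, k2⟩ := key ξ σ hne x
    obtain ⟨a1, -, -, a4⟩ := add ξ σ hne x
    simp only [df, pq, Bop, a1, a4]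
    simp only [PP]
    linear_combination k0 - k2 0 + k2 2 - k2 4
  · funext x
    obtain ⟨-, k1, k2⟩ := key ξ σ hne x
    obtain ⟨-, a2, a3, -⟩ := add ξ σ hne x
    simp only [df, pq, Bop, a2, a3]
    simp only [QQ]
    linear_combination k1 - k2 1 + k2 3

theorem iter (j : ℕ) : ∀ m : ℕ, HP (-(2 * m + 7)) (df (BB w j (pq w (m + j))) (pq w m)) := by
  induction j with
  | zero =>
    intro m
    refine ⟨(h.zero _).congr fun ξ σ _ => ?_, (h.zero _).congr fun ξ σ _ => ?_⟩ <;>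
    · funext x
      simp [df, BB]
  | succ j ih =>
    intro m
    have h1 := (ih (m + 1)).df_bop h hw ((pq_hom h hw hp _).bb h hw j) (pq_hom h hw hp _)
    have h2 : HP (-(2 * m + 7)) _ :=
      ⟨h.mono (by push_cast; omega) h1.1, h.mono (by push_cast; omega) h1.2⟩
    have h3 := HP.trans h2 (step h hw hp m)
    have e : m + (j + 1) = m + 1 + j := by omega
    rw [e, BB_succ]
    exact h3

theorem dw6 {d : ℤ} {G : Fam} (hG : HomLE d G) : HomLE d (fun ξ σ x => G ξ σ x / w x ^ 6) := by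
  simp only [div_eq_mul_inv]
  exact h.mono (by omega) (h.mul hG (h.const ((hw.pow 6).inv fun x => (pow_pos (hp x) 6).ne')))

end Res

open Res in
theorem res_holds (h : HomKit) : ResStmt := by
  intro w hw hp
  have H := pq_hom h hw hp 4
  refine ⟨sym_hom h hw hp, fun χ hχ => ?_, ?_⟩
  · have T : HP (-8) fun ξ σ => tri w χ (σ ^ 2) ξ :=
      ⟨h.mono (by omega) (h.mul (h.const hχ) H.1), h.mono (by omega) (h.mul (h.const hχ) H.2)⟩
    have B := T.bb h hw 4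
    exact dw6 h hw hp (h.sub
      (h.mono (by omega) (h.mul (h.const ((contDiff_const (c := (2 : ℝ))).mul (hw.pow 3))) T.1))
      (HomLE.add (h.mono (by omega) (h.mul T.1 B.1)) (h.mono (by omega) (h.mul T.2 B.2))))
  · have I := iter h hw hp 4 0
    refine (dw6 h hw hp (h.smul (-1) (HomLE.add (h.mono (by omega) (h.mul H.1 I.1))
      (h.mono (by omega) (h.mul H.2 I.2))))).congr fun ξ σ _ => ?_
    funext x
    have e : tri w (fun _ => 1) (σ ^ 2) ξ = pq w 4 ξ σ := by simp [tri, pq]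
    have e1 : (pq w 0 ξ σ).1 x = w x ^ 3 := by simp [pq, PP, sym]
    have e2 : (pq w 0 ξ σ).2 x = 0 := by simp [pq, QQ, sym]
    have e3 : PP w (σ ^ 2) ξ 4 x = (pq w 4 ξ σ).1 x := rfl
    have := (hp x).ne'
    simp only [Dens, den, e, df, BB, e1, e2, e3, Nat.zero_add]
    field_simp
    ring

end Pool.Agent.Lib.MP_465ce1_mp.Cx
end

-- part Pool.Agent.Lib.MP_465ce1_mp.Cx.Upper
section

/-!
The consequence of monotonicity of the heat trace on the flat side.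
-/

open MeasureTheory Filter Topology
open scoped ContDiff RealInnerProductSpace

namespace Pool.Agent.Lib.MP_465ce1_mp.Cx

namespace Upper

theorem heat_eq (W : Sph 4 → ℝ) (t : ℝ) :
    heat W t = t ^ 2 * ∑' k, Real.exp (-(t * eig W k)) := by
  have h : (((4 : ℕ) : ℝ) / 2) = ((2 : ℕ) : ℝ) := by norm_num
  unfold heat
  rw [h, Real.rpow_natCast]

/-- A monotone heat trace stays below its Weyl limit. -/
theorem heat_bound (h1 : WeylStmt) (hR : ¬Raw) {W : Sph 4 → ℝ} (hW : IsSmooth W)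
    (hpos : ∀ x, 0 < W x) {t : ℝ} (ht : 0 < t) :
    heat W t ≤ (∫ x, W x ^ 2 ∂vol 4) / (16 * Real.pi ^ 2) := by
  set A : ℝ := (∫ x, W x ^ 2 ∂vol 4) / (16 * Real.pi ^ 2) with hA
  have hA0 : 0 ≤ A := div_nonneg (integral_nonneg fun x => sq_nonneg _) (by positivity)
  refine le_of_forall_pos_le_add fun ε hε => ?_
  obtain ⟨t0, ht0, h⟩ := h1 W hW hpos (ε / (A + 1)) (by positivity)
  have a : heat W t ≤ (1 + ε / (A + 1)) * A := by
    rcases le_or_gt t t0 with b | b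
    · exact h t ht b
    · refine le_trans (not_lt.1 fun c => hR ⟨W, hW, hpos, t0, t, ht0, b, c⟩) (h t0 ht0 le_rfl)
  have b : ε / (A + 1) * A ≤ ε := by
    rw [div_mul_eq_mul_div, div_le_iff₀ (by positivity)]
    nlinarith
  nlinarith

theorem sym_smooth (h5 : HomKit) (h6 : ResStmt) {w : E4 → ℝ} (hw : ContDiff ℝ ∞ w)
    (hpos : ∀ x, 0 < w x) {μ : ℝ} (hμ : 0 < μ) (ξ : E4) (m k : ℕ) :
    ContDiff ℝ ∞ (sym w μ ξ m k) := by
  have a : (ξ, Real.sqrt μ) ≠ 0 := fun e => (Real.sqrt_pos.2 hμ).ne' (congrArg Prod.snd e)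
  have b := h5.smooth ((h6 w hw hpos).1 m k) ξ (Real.sqrt μ) a
  rwa [Real.sq_sqrt hμ.le] at b

theorem tri_mem (h5 : HomKit) (h6 : ResStmt) {w χ : E4 → ℝ} (hw : ContDiff ℝ ∞ w)
    (hpos : ∀ x, 0 < w x) (hχ : ContDiff ℝ ∞ χ) {R μ : ℝ} (hμ : 0 < μ)
    (h0 : ∀ x, R < ‖x‖ → χ x = 0) (ξ : E4) :
    (tri w χ μ ξ).1 ∈ DR 4 R ∧ (tri w χ μ ξ).2 ∈ DR 4 R := by
  have s := sym_smooth h5 h6 hw hpos hμ ξ 4
  refine ⟨⟨hχ.mul ((((s 0).sub (s 2)).add (s 4)).sub (s 6)), fun x hx => ?_⟩,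
    ⟨hχ.mul (((s 1).sub (s 3)).add (s 5)), fun x hx => ?_⟩⟩
  · show χ x * _ = 0
    rw [h0 x hx, zero_mul]
  · show χ x * _ = 0
    rw [h0 x hx, zero_mul]

end Upper

theorem upper_holds (h1 : WeylStmt) (h2 : LaplaceStmt) (h3 : LBStmt) (h4 : SphereOfStmt)
    (h5 : HomKit) (h6 : ResStmt) : UpperStmt := by
  intro hR w χ K R μ hw hpos hχ hK hR0 hμ hout hint
  have hμ0 : 0 < μ := lt_of_lt_of_le one_pos hμ
  obtain ⟨W, hW, hWpos, hV, -, hI⟩ := h4 w K R hw hpos hK fun x hx => (hout x hx).2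
  have C := eig_ctl le_rfl hW hWpos
  have hS := h2 (eig W) ((∫ x, W x ^ 2 ∂vol 4) / (16 * Real.pi ^ 2)) μ C.pos C.summ
    (fun t ht => by rw [← Upper.heat_eq]; exact Upper.heat_bound h1 hR hW hWpos ht) hμ0
  rw [Measure.volume_eq_prod] at hint
  have hL := h3 W w μ _ R (tri w χ μ) hW hWpos hw hpos hV hμ0 hR0 hS
    (Upper.tri_mem h5 h6 hw hpos hχ hμ0 fun x hx => (hout x hx).1) hint.integral_prod_right
  rw [Measure.volume_eq_prod, integral_prod_symm _ hint, ← hI]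
  refine le_of_le_of_eq hL ?_
  have := Real.pi_pos
  field_simp
  ring

end Pool.Agent.Lib.MP_465ce1_mp.Cx
end

-- part Pool.Agent.Lib.MP_465ce1_mp.Cx.Weyl
section

/-!
The upper Weyl bound for small times.
-/

open MeasureTheory Filter Topology
open scoped ContDiff RealInnerProductSpace

namespace Pool.Agent.Lib.MP_465ce1_mp.Cx

namespace Weyl

lemma smooth_mul' {u v : Sph 4 → ℝ} (hu : IsSmooth u) (hv : IsSmooth v) :
    IsSmooth fun x => u x * v x := by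
  refine (ContDiffOn.mul hu hv).congr fun y hy => ?_
  simp only [ext, dif_neg (show ¬y = 0 from hy)]

lemma energy_nonneg (u : Sph 4 → ℝ) : 0 ≤ energy u :=
  integral_nonneg fun x => add_nonneg (sq_nonneg _) (mul_nonneg (by norm_num) (sq_nonneg _))

lemma sum_int {n : ℕ} {χ : Fin n → Sph 4 → ℝ} (hχ : ∀ i, IsSmooth (χ i))
    (h1 : ∀ x, ∑ i, χ i x ^ 2 = 1) {f : Sph 4 → ℝ} (hf : IsSmooth f) :
    ∑ i, ∫ x, χ i x ^ 2 * f x ^ 2 ∂vol 4 = ∫ x, f x ^ 2 ∂vol 4 := by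
  rw [← integral_finsetSum (f := fun i x => χ i x ^ 2 * f x ^ 2) _ fun i _ =>
    cont_int (((Fwd.cont_u (hχ i)).pow 2).mul ((Fwd.cont_u hf).pow 2))]
  refine integral_congr_ae (Eventually.of_forall fun x => ?_)
  simp only [← Finset.sum_mul, h1, one_mul]

/-- The bound of one piece with the flips undone. -/
lemma piece (h4 : AntipStmt) (h5 : PieceStmt) {W χ : Sph 4 → ℝ} {α δ s : ℝ} {N : ℕ}
    {φ : ℕ → Sph 4 → ℝ} {y : ℕ → ℝ} (b : Bool) (hW : IsSmooth W) (hpos : ∀ x, 0 < W x)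
    (hχ : IsSmooth χ) (hα : 0 < α) (h0 : 0 < δ) (h1 : δ < 1)
    (hG : Good (flip b W) (flip b χ) α δ) (hs : 0 < s) (hφ : ∀ k, IsSmooth (φ k))
    (ho : ∀ j < N, ∀ k < N, ∫ x, φ j x * φ k x ∂vol 4 = if j = k then 1 else 0)
    (hy : ∀ k, 0 ≤ y k) :
    ∑ k ∈ Finset.range N, Real.exp (-y k) *
      ((1 + y k) * (1 - δ) * (∫ x, χ x ^ 2 * φ k x ^ 2 ∂vol 4) -
        s * energy (fun x => χ x * (φ k x / Real.sqrt (W x)))) ≤
    (∫ x, χ x ^ 2 * W x ^ 2 ∂vol 4) / (16 * Real.pi ^ 2 * s ^ 2) := by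
  obtain ⟨a1, a2⟩ := h4 b
  have key := h5 (flip b W) (flip b χ) α δ s N (fun k => flip b (φ k)) y (a1 W hW).1
    (fun x => hpos _) (a1 χ hχ).1 hα h0 h1 hG hs (fun k => (a1 _ (hφ k)).1)
    (fun j hj k hk => (a2 (fun x => φ j x * φ k x)
      ((Fwd.cont_u (hφ j)).mul (Fwd.cont_u (hφ k)))).trans (ho j hj k hk)) hy
  have e1 : ∀ f : Sph 4 → ℝ, IsSmooth f → ∫ x, flip b χ x ^ 2 * flip b f x ^ 2 ∂vol 4 =
      ∫ x, χ x ^ 2 * f x ^ 2 ∂vol 4 := fun f hf =>
    a2 (fun x => χ x ^ 2 * f x ^ 2) (((Fwd.cont_u hχ).pow 2).mul ((Fwd.cont_u hf).pow 2))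
  have e2 : ∀ k, energy (fun x => flip b χ x * (flip b (φ k) x / Real.sqrt (flip b W x))) =
      energy (fun x => χ x * (φ k x / Real.sqrt (W x))) := fun k =>
    (a1 _ (smooth_mul' hχ (smooth_div hW hpos (hφ k)))).2
  simpa only [e1 _ hW, e1 _ (hφ _), e2] using key

lemma exists_delta {η : ℝ} (hη : 0 < η) :
    ∃ δ : ℝ, 0 < δ ∧ δ < 1 ∧ 1 < (1 + η) * (1 - δ) ^ 3 := by
  have h1 : ∀ᶠ δ in 𝓝 (0 : ℝ), 1 < (1 + η) * (1 - δ) ^ 3 :=
    ContinuousAt.eventually_lt continuousAt_const (by fun_prop) (by simpa using hη)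
  have h2 : ∀ᶠ δ in 𝓝 (0 : ℝ), δ < 1 := eventually_lt_nhds one_pos
  obtain ⟨δ, ⟨a, b⟩, c⟩ :=
    (((h1.and h2).filter_mono nhdsWithin_le_nhds).and (self_mem_nhdsWithin (s := Set.Ioi 0))).exists
  exact ⟨δ, c, b, a⟩

lemma exists_time {c K : ℝ} (hc : 1 < c) (hK : 0 ≤ K) :
    ∃ t0 : ℝ, 0 < t0 ∧ ∀ t, t ≤ t0 → Real.exp (t * K) ≤ c := by
  have h1 : ∀ᶠ t in 𝓝 (0 : ℝ), Real.exp (t * K) < c :=
    ContinuousAt.eventually_lt (by fun_prop) continuousAt_const (by simpa using hc)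
  obtain ⟨t0, a, b⟩ :=
    ((h1.filter_mono nhdsWithin_le_nhds).and (self_mem_nhdsWithin (s := Set.Ioi 0))).exists
  exact ⟨t0, b, fun t ht =>
    (Real.exp_le_exp.2 (mul_le_mul_of_nonneg_right ht hK)).trans a.le⟩

end Weyl

open Weyl

theorem weyl_holds (h1 : NearStmt) (h2 : IMSStmt) (h3 : PartStmt) (h4 : AntipStmt)
    (h5 : PieceStmt) : WeylStmt := by
  intro W hW hpos η hη
  obtain ⟨δ, d0, d1, d2⟩ := exists_delta hη
  obtain ⟨n, χ, b, α, hχ, hsum, hG⟩ := h3 W hW hpos δ d0 d1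
  obtain ⟨C, hC0, hC⟩ := h2 n χ hχ hsum
  have cW := Fwd.cont_u hW
  obtain ⟨K, hK0, hK⟩ := Fwd.bound (f := fun x => 1 / W x)
    (continuous_const.div cW fun x => (hpos x).ne')
  have hCK : 0 ≤ C * K := mul_nonneg hC0 hK0
  obtain ⟨t0, ht0, hexp⟩ := exists_time d2 (K := 1 + C * K) (by linarith)
  refine ⟨t0, ht0, fun t ht htt => ?_⟩
  obtain ⟨I, hI⟩ : ∃ I, I = ∫ x, W x ^ 2 ∂vol 4 := ⟨_, rfl⟩
  have hI0 : 0 ≤ I := hI ▸ integral_nonneg fun x => sq_nonneg _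
  have hδ : 0 < 1 - δ := by linarith
  have hpi := Real.pi_pos
  rw [← hI]
  have main : ∀ N, ∑ k ∈ Finset.range N, Real.exp (-(t * eig W k)) ≤
      (1 + η) * (I / (16 * Real.pi ^ 2)) / t ^ 2 := by
    intro N
    obtain ⟨φ, hφ, ho, hE⟩ := h1 W hW hpos N
    obtain ⟨E, hEe⟩ : ∃ E : ℕ → ℝ, ∀ k, E k = energy fun x => φ k x / Real.sqrt (W x) :=
      ⟨_, fun _ => rfl⟩
    have E0 : ∀ k, 0 ≤ E k := fun k => hEe k ▸ energy_nonneg _
    have hone : ∀ k < N, ∫ x, φ k x ^ 2 ∂vol 4 = 1 := fun k hk => by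
      have := ho k hk k hk
      rw [if_pos rfl] at this
      simpa only [sq] using this
    have hims : ∀ k < N, ∑ i, energy (fun x => χ i x * (φ k x / Real.sqrt (W x))) ≤
        E k + C * K := by
      intro k hk
      have su := smooth_div hW hpos (hφ k)
      refine (hC _ su).trans ?_
      rw [hEe]
      refine add_le_add le_rfl (mul_le_mul_of_nonneg_left ?_ hC0)
      calc _ ≤ ∫ x, K * φ k x ^ 2 ∂vol 4 := by
            refine integral_mono (cont_int ((Fwd.cont_u su).pow 2))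
              (cont_int (continuous_const.mul ((Fwd.cont_u (hφ k)).pow 2))) fun x => ?_
            show (φ k x / Real.sqrt (W x)) ^ 2 ≤ K * φ k x ^ 2
            rw [div_pow, Real.sq_sqrt (hpos x).le, div_eq_mul_one_div, mul_comm]
            exact mul_le_mul_of_nonneg_right ((le_abs_self _).trans (hK x)) (sq_nonneg _)
        _ = K := by rw [integral_const_mul, hone k hk, mul_one]
    have hs : 0 < t * (1 - δ) := mul_pos ht hδ
    have hp := Finset.sum_le_sum fun i (_ : i ∈ Finset.univ) =>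
      piece h4 h5 (y := fun k => t * (E k + C * K)) (b i) hW hpos (hχ i) (hG i).1 d0 d1 (hG i).2 hs
        hφ ho fun k => mul_nonneg ht.le (add_nonneg (E0 k) hCK)
    rw [← Finset.sum_div, sum_int hχ hsum hW, ← hI, Finset.sum_comm] at hp
    have h6 : (1 - δ) * ∑ k ∈ Finset.range N, Real.exp (-(t * (E k + C * K))) ≤
        I / (16 * Real.pi ^ 2 * (t * (1 - δ)) ^ 2) := by
      refine le_trans ?_ hp
      rw [Finset.mul_sum]
      refine Finset.sum_le_sum fun k hk => ?_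
      have hk' := Finset.mem_range.1 hk
      rw [← Finset.mul_sum, Finset.sum_sub_distrib, ← Finset.mul_sum, ← Finset.mul_sum,
        sum_int hχ hsum (hφ k), hone k hk', mul_comm (1 - δ)]
      refine mul_le_mul_of_nonneg_left ?_ (Real.exp_pos _).le
      have := mul_le_mul_of_nonneg_left (hims k hk') hs.le
      linarith
    have h7 : ∑ k ∈ Finset.range N, Real.exp (-(t * eig W k)) ≤
        (1 + η) * (1 - δ) ^ 3 * ∑ k ∈ Finset.range N, Real.exp (-(t * (E k + C * K))) := by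
      rw [Finset.mul_sum]
      refine Finset.sum_le_sum fun k hk => ?_
      refine le_trans ?_ (mul_le_mul_of_nonneg_right (hexp t htt) (Real.exp_pos _).le)
      rw [← Real.exp_add, Real.exp_le_exp]
      have := mul_le_mul_of_nonneg_left (hE k (Finset.mem_range.1 hk)) ht.le
      rw [← hEe] at this
      linarith
    refine h7.trans ?_
    calc _ = (1 + η) * (1 - δ) ^ 2 *
          ((1 - δ) * ∑ k ∈ Finset.range N, Real.exp (-(t * (E k + C * K)))) := by ring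
      _ ≤ (1 + η) * (1 - δ) ^ 2 * (I / (16 * Real.pi ^ 2 * (t * (1 - δ)) ^ 2)) :=
          mul_le_mul_of_nonneg_left h6 (by positivity)
      _ = _ := by field_simp
  have h8 := Real.tsum_le_of_sum_range_le (fun k => (Real.exp_pos _).le) main
  have e : t ^ (((4 : ℕ) : ℝ) / 2) = t ^ 2 := by
    rw [show ((4 : ℕ) : ℝ) / 2 = 2 by norm_num, Real.rpow_two]
  rw [heat, e, mul_comm, ← le_div_iff₀ (by positivity)]
  exact h8

end Pool.Agent.Lib.MP_465ce1_mp.Cx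
end
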